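import Pool.Agent.QTW.Base
import Pool.Agent.SerreK.GDefs

/-!
# HDefs: definitions for the Hecke operators
-/

open Matrix

namespace QTW

open SerreE SerreK SerreU

section general

variable {O : Type} [CommRing O] {N m : O}

/-- `h'` is the image of `h` under the Hecke operator of the system `S`: if
`γ D x = D (y x) (c x)` for all `x` then `h' γ = Σ h (c x)`. -/
def Opv {X : Type} [Fintype X] (S : HSys N m X) (h h' : Gam0 N → FF) : Prop :=
  ∀ (γ : Gam0 N) (y : X → X) (c : X → Gam0 N),
    (∀ x, γ.val.val * S.D x = S.D (y x) * (c x).val.val) → h' γ = ∑ x, h (c x)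

end general

variable {n M : ℕ}

/-- `σ^e α` -/
def cmE (e : Bool) (α : Mat n) : Mat n := if e then cjM α else α

/-- the prime `π̄` -/
def cjP (π : GP (M : OK n)) : GP (M : OK n) :=
  ⟨star π.el, by
    have hs : ∀ x y : OK n, x ∣ star y → star x ∣ y := by
      rintro x y ⟨c, hc⟩
      exact ⟨star c, by rw [← star_mul', ← hc, star_star]⟩
    refine ⟨⟨fun h => π.ne (by rw [← star_star π.el, h, star_zero]), fun h => π.prime.not_isUnit ?_,
      fun a b h => ?_⟩, fun h => π.not_dvd ?_⟩
    · have := h.star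
      rwa [star_star] at this
    · have h1 : π.el ∣ star a * star b := by
        obtain ⟨c, hc⟩ := h
        exact ⟨star c, by rw [← star_mul', hc, star_mul', star_star]⟩
      rcases π.prime.dvd_or_dvd h1 with h2 | h2
      · exact Or.inl (hs _ _ h2)
      · exact Or.inr (hs _ _ h2)
    · obtain ⟨c, hc⟩ := h
      refine ⟨star c, ?_⟩
      have h2 : star (2 * (M : OK n)) = 2 * (M : OK n) := by
        have : (2 * (M : OK n)) = ((2 * M : ℕ) : OK n) := by push_cast; rfl
        rw [this, star_cast]
      rw [← h2, hc, star_mul', star_star]⟩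

theorem cjP_el (π : GP (M : OK n)) : (cjP π).el = star π.el := rfl

/-- complex conjugation on `H¹` -/
noncomputable def cjH (h : HY (M : OK n)) : HY (M : OK n) :=
  Subtype.mk (p := fun x => x ∈ H (M : OK n)) (fun γ : G0 n M => h.val (cjG γ)) (by
    refine ⟨fun a b => ?_, fun g hg => ?_⟩
    · have e : (cjG (n := n) (M := M) (a * b) : G0 n M) = cjG a * cjG b := cjG_mul a b
      exact (congrArg h.val e).trans (h.mul _ _)
    · apply h.fin
      exact MonoidHom.isOfFinOrder (MonoidHom.mk' (cjG (n := n) (M := M)) cjG_mul) hg)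

theorem cjH_val (h : HY (M : OK n)) (γ : G0 n M) : (cjH h).val γ = h.val (cjG γ) := rfl

/-- complex conjugation on `H¹`, as a linear map -/
noncomputable def cjL : HY (M : OK n) →ₗ[FF] HY (M : OK n) where
  toFun := cjH
  map_add' _ _ := rfl
  map_smul' _ _ := rfl

theorem cjL_apply (h : HY (M : OK n)) : cjL h = cjH h := rfl

/-- `ξ'` is the image of `ξ` under `T_π T_π̄` (`π π̄ = p`) resp. `T_p` (`p` inert) -/
def HRes (p : ℕ) (ξ ξ' : SS n M → FF) : Prop :=
  (∀ π π' : GP (M : OK n), ¬ Associated π.el π'.el → Associated (π.el * π'.el) (p : OK n) →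
    ∀ x, RS ξ x → RS ξ' (T (M : OK n) π.el π.ne (T (M : OK n) π'.el π'.ne x))) ∧
  (∀ π : GP (M : OK n), Associated π.el (p : OK n) →
    ∀ x, RS ξ x → RS ξ' (T (M : OK n) π.el π.ne x))

/-- `ξ'` is the image of `ξ` under `T_π`, `π = √-d` -/
def LRes (ξ ξ' : SS n M → FF) : Prop :=
  ∀ π : GP (M : OK n), nrm π.el = 4 * n + 3 → ∀ x, RS ξ x → RS ξ' (T (M : OK n) π.el π.ne x)

/-- the number of the matrices of type `TD M p` which transform `h` into `p k`. -/
noncomputable def RR (p : ℕ) (h k : Herm n M) : ℕ :=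
  Nat.card {β : Mat n // TD (M : OK n) (p : OK n) β ∧ Tr p β h k}

/-- a complete irredundant system of representatives of the classes -/
structure Reps {m : ℕ} (r : Fin m → Herm n M) : Prop where
  all : ∀ h, ∃ j, HEq' (r j) h
  irr : ∀ i j, HEq' (r i) (r j) → i = j

/-- the orientation preserving elements -/
def posG (γ : GG n M) : Prop := ∃ g : G0 n M, γ = mkG n M ⟨g, false⟩

/-- the set of point reflections -/
def TT (n M : ℕ) : Set (GG n M) := Set.range (fun h : Herm n M => mkG n M h.tau)

/-- weights of the classes -/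
structure IsWt (w : Herm n M → ℕ) : Prop where
  stab : ∀ h, stab h = w h * Nat.card (OK n)ˣ
  odd : ∀ h, Odd (w h) ↔ ¬ Ev h

end QTW
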