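import Pool.Agent.QTW.CntA
import Pool.Agent.QTW.HDefs

/-!
# AdjA: the Hecke operators on hermitian forms are symmetric (size 4)
-/

open Matrix

namespace QTW

open SerreE SerreK SerreU

variable {n M : ℕ}

theorem adjA_ind {X : Type} [Fintype X] (P : X → Prop) :
    ∑ x, ind FF (P x) = (Nat.card {x // P x} : FF) := by
  classical
  have h1 : ∀ x, ind FF (P x) = if P x then (1 : FF) else 0 := by
    intro x
    unfold ind
    by_cases h : P x
    · simp [h]
    · simp [h]
  rw [Finset.sum_congr rfl (fun x _ => h1 x), Finset.sum_boole, Nat.card_eq_fintype_card,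
    Fintype.card_subtype]

theorem adjA_odd {m : ℕ} (h : Odd m) : (m : FF) = 1 := by
  obtain ⟨l, rfl⟩ := h
  have h5 : (2 : FF) = 0 := CharTwo.two_eq_zero
  push_cast
  linear_combination (l : FF) * h5

theorem adjA_units (n : ℕ) : Nat.card (OK n)ˣ ≠ 0 := by
  have hf : Finite {x : OK n | Complex.normSq (sig n x) ≤ 1} := ((sig_imQ n).fin 1).to_subtype
  have : Finite (OK n)ˣ := by
    refine Finite.of_injective (fun u : (OK n)ˣ =>
      (⟨(u : OK n), le_of_eq (unit_abs (sig_imQ n) u)⟩ :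
        {x : OK n | Complex.normSq (sig n x) ≤ 1})) ?_
    intro u v h
    exact Units.ext (congrArg Subtype.val h)
  exact Nat.card_pos.ne'

/-- Each `k i` is equivalent to exactly one `r j`; group the sum by `j`. -/
theorem class_sum {m : ℕ} {r : Fin m → Herm n M} (hr : Reps r) (f : Herm n M → FF)
    (hf : HInv f) {s : ℕ} (k : Fin s → Herm n M) :
    ∑ i, f (k i) = ∑ j, (Nat.card {i : Fin s // HEq' (k i) (r j)} : FF) * f (r j) := by
  classical
  choose J hJ using fun i => hr.all (k i)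
  have h1 : ∀ i j, HEq' (k i) (r j) ↔ j = J i := by
    intro i j
    constructor
    · intro h
      exact (hr.irr (J i) j (heq_trans (hJ i) h)).symm
    · rintro rfl
      exact heq_symm (hJ i)
  have h2 : ∀ j, (Nat.card {i : Fin s // HEq' (k i) (r j)} : FF) * f (r j) =
      ∑ i, if j = J i then f (r j) else 0 := by
    intro j
    rw [← adjA_ind (fun i => HEq' (k i) (r j)), Finset.sum_mul]
    refine Finset.sum_congr rfl fun i _ => ?_
    unfold ind
    by_cases h : j = J i
    · rw [if_pos h, if_pos ((h1 i j).2 h), one_mul]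
    · rw [if_neg h, if_neg (fun h' => h ((h1 i j).1 h')), zero_mul]
  rw [Finset.sum_congr rfl (fun j _ => h2 j), Finset.sum_comm]
  refine Finset.sum_congr rfl fun i _ => ?_
  rw [Finset.sum_ite_eq' Finset.univ (J i) (fun j => f (r j)), if_pos (Finset.mem_univ _)]
  exact hf _ _ (hJ i)

/-- Proof.  By `cnt` and `rr_symm`: `N(h,h') stab h' = RR(h,h') = RR(h',h) = N(h',h) stab h`;
`stab = w * |Oˣ|` (`IsWt`), and `|Oˣ| ≠ 0` (`Oˣ` is finite: `(sig_imQ n).fin 1` and `unit_abs`). -/
theorem n_symm {w : Herm n M → ℕ} (hw : IsWt w) {p : ℕ} (hp : p ≠ 0) (hc : p.Coprime M)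
    {h h' : Herm n M} {s s' : ℕ} {α : Fin s → Mat n} {k : Fin s → Herm n M}
    {α' : Fin s' → Mat n} {k' : Fin s' → Herm n M} (N : Nbrs p h α k) (N' : Nbrs p h' α' k') :
    Nat.card {i : Fin s // HEq' (k i) h'} * w h' = Nat.card {i : Fin s' // HEq' (k' i) h} * w h := by
  have h1 := cnt hp hc N h'
  have h2 := cnt hp hc N' h
  rw [rr_symm hp h h', ← h2, hw.stab, hw.stab] at h1
  have h3 := adjA_units n
  apply Nat.eq_of_mul_eq_mul_right (Nat.pos_of_ne_zero h3)
  rw [mul_assoc, mul_assoc, h1]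

/-- Proof.  Choose neighbours `k_j` of every `r j` (`hex`); `N j l` = number of `i` with
`HEq' (k_j i) (r l)`.  By `class_sum` `Tg (r j) = Σ_l N j l g (r l)` and `Tf (r j) = Σ_l N j l f (r l)`.
So the left hand side is `Σ_{j,l} f (r j) N j l g (r l)` and the right hand side is
`Σ_{j,l} N j l f (r l) g (r j) = Σ_{j,l} f (r j) N l j g (r l)`.  For fixed `j, l`: if `Ev (r j)` or
`Ev (r l)` both terms are `0`; otherwise `w (r j)`, `w (r l)` are odd and `N j l w (r l) = N l j w (r j)`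
(`n_symm`), so `N j l ≡ N l j` modulo `2`, i.e. they are equal in `FF`. -/
theorem adj_sum {w : Herm n M → ℕ} (hw : IsWt w) {p : ℕ} (hp : p ≠ 0) (hc : p.Coprime M)
    {m : ℕ} {r : Fin m → Herm n M} (hr : Reps r)
    (hex : ∀ h : Herm n M, ∃ (s : ℕ) (α : Fin s → Mat n) (k : Fin s → Herm n M), Nbrs p h α k)
    (f g Tf Tg : Herm n M → FF) (hf : HInv f) (hg : HInv g) (hf0 : ∀ h, Ev h → f h = 0)
    (hg0 : ∀ h, Ev h → g h = 0)
    (hTf : ∀ (h : Herm n M) (s : ℕ) (α : Fin s → Mat n) (k : Fin s → Herm n M),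
      Nbrs p h α k → ∑ i, f (k i) = Tf h)
    (hTg : ∀ (h : Herm n M) (s : ℕ) (α : Fin s → Mat n) (k : Fin s → Herm n M),
      Nbrs p h α k → ∑ i, g (k i) = Tg h) :
    ∑ j, f (r j) * Tg (r j) = ∑ j, Tf (r j) * g (r j) := by
  choose s α k N using fun j => hex (r j)
  have h1 : ∀ j, f (r j) * Tg (r j) = ∑ l, f (r j) *
      ((Nat.card {i : Fin (s j) // HEq' (k j i) (r l)} : FF) * g (r l)) := by
    intro j
    rw [← hTg (r j) (s j) (α j) (k j) (N j), class_sum hr g hg (k j), Finset.mul_sum]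
  have h2 : ∀ j, Tf (r j) * g (r j) = ∑ l,
      ((Nat.card {i : Fin (s j) // HEq' (k j i) (r l)} : FF) * f (r l)) * g (r j) := by
    intro j
    rw [← hTf (r j) (s j) (α j) (k j) (N j), class_sum hr f hf (k j), Finset.sum_mul]
  rw [Finset.sum_congr rfl (fun j _ => h1 j), Finset.sum_congr rfl (fun j _ => h2 j),
    Finset.sum_comm]
  refine Finset.sum_congr rfl fun l _ => Finset.sum_congr rfl fun j _ => ?_
  by_cases hEj : Ev (r j)
  · rw [hf0 _ hEj, zero_mul, mul_zero, zero_mul]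
  by_cases hEl : Ev (r l)
  · rw [hg0 _ hEl, mul_zero, mul_zero, mul_zero]
  have h3 := n_symm hw hp hc (N j) (N l)
  have h4 := congrArg (fun z : ℕ => (z : FF)) h3
  push_cast at h4
  rw [adjA_odd ((hw.odd (r j)).2 hEj), adjA_odd ((hw.odd (r l)).2 hEl), mul_one, mul_one] at h4
  rw [h4]
  ring

end QTW
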