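import Mathlib

/-!
# Alg: the algebraic key lemma (size 4)
-/

namespace QTW

private theorem Alg_commute {k : Type} [Field k] {X H : Type} [AddCommGroup H] [Module k H]
    (f g : X → Module.End k H) (h : ∀ x y, f x * g y = g y * f x) (u v : FreeAlgebra k X) :
    FreeAlgebra.lift k f u * FreeAlgebra.lift k g v =
      FreeAlgebra.lift k g v * FreeAlgebra.lift k f u := by
  have h1 : ∀ (x : X) (v : FreeAlgebra k X), f x * FreeAlgebra.lift k g v =
      FreeAlgebra.lift k g v * f x := by
    intro x v
    induction v using FreeAlgebra.induction with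
    | grade0 r =>
      rw [AlgHom.commutes]
      exact (Algebra.commutes r (f x)).symm
    | grade1 y => rw [FreeAlgebra.lift_ι_apply]; exact h x y
    | mul a b ha hb => rw [map_mul, ← mul_assoc, ha, mul_assoc, hb, mul_assoc]
    | add a b ha hb => rw [map_add, mul_add, add_mul, ha, hb]
  induction u using FreeAlgebra.induction with
  | grade0 r =>
    rw [AlgHom.commutes]
    exact Algebra.commutes r _
  | grade1 y => rw [FreeAlgebra.lift_ι_apply]; exact h1 y v
  | mul a b ha hb => rw [map_mul, mul_assoc, hb, ← mul_assoc, ha, mul_assoc]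
  | add a b ha hb => rw [map_add, mul_add, add_mul, ha, hb]

private theorem Alg_sigma {k : Type} [Field k] {X H : Type} [AddCommGroup H] [Module k H]
    (f g : X → Module.End k H) (σ : H →ₗ[k] H) (h : ∀ x y, σ (f x y) = g x (σ y))
    (u : FreeAlgebra k X) (y : H) :
    σ (FreeAlgebra.lift k f u y) = FreeAlgebra.lift k g u (σ y) := by
  induction u using FreeAlgebra.induction generalizing y with
  | grade0 r =>
    rw [AlgHom.commutes, AlgHom.commutes, Module.algebraMap_end_apply,
      Module.algebraMap_end_apply, map_smul]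
  | grade1 x => rw [FreeAlgebra.lift_ι_apply, FreeAlgebra.lift_ι_apply]; exact h x y
  | mul a b ha hb =>
    rw [map_mul, map_mul, Module.End.mul_apply, Module.End.mul_apply, ha, hb]
  | add a b ha hb =>
    rw [map_add, map_add, LinearMap.add_apply, LinearMap.add_apply, map_add, ha, hb]

private theorem Alg_span {k : Type} [Field k] {X : Type} (u : FreeAlgebra k X) :
    u ∈ Submodule.span k (Set.range (fun l : List X => (l.map (FreeAlgebra.ι k)).prod)) := by
  induction u using FreeAlgebra.induction with
  | grade0 r =>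
    rw [Algebra.algebraMap_eq_smul_one]
    exact Submodule.smul_mem _ _ (Submodule.subset_span ⟨[], by simp⟩)
  | grade1 x => exact Submodule.subset_span ⟨[x], by simp⟩
  | mul a b ha hb =>
    have h1 := Submodule.mul_mem_mul ha hb
    rw [Submodule.span_mul_span] at h1
    refine Submodule.span_mono ?_ h1
    rintro _ ⟨_, ⟨l, rfl⟩, _, ⟨m, rfl⟩, rfl⟩
    exact ⟨l ++ m, by simp⟩
  | add a b ha hb => exact Submodule.add_mem _ ha hb

/-- Let `T x` (`x ∈ X`) be commuting operators on `H`, `σ T x = T (cj x) σ`, `e σ = e`, `σ x0 = x0`, and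
`e (T_{x1} ⋯ T_{xr} T_{cj x1} ⋯ T_{cj xr} x0) = (a x1 ⋯ a xr)² e x0`, in characteristic two.  Then every
polynomial relation between the `T x` holds for the `a x`.

Proof.  Let `L = lift T`, `L' = lift (T ∘ cj)`, `B u v = e (L u (L' v x0))` for `u, v` in the free algebra;
`B` is bilinear.  `B u v = B v u`: `σ (L u y) = L' u (σ y)` and `σ (L' v y) = L v (σ y)` (induction on `u`, `v`;
`T (cj (cj x)) = T x`), so `B u v = e (σ (L u (L' v x0))) = e (L' u (L v x0)) = e (L v (L' u x0)) = B v u`,
since all `L u`, `L' v` commute.  So `Q u = B u u` satisfies `Q (u + v) = Q u + Q v`,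
`Q (c u) = c² Q u`.  So does `D u = (lift a u)² * e x0`.  `Q = D` on the words
`(l.map (FreeAlgebra.ι k)).prod` by `hdiag`, and these span the free algebra
(`FreeAlgebra.induction`: prove `∀ u, u ∈ span (words)`; or `FreeAlgebra.basisFreeMonoid`), so `Q = D`.
If `L w = 0` then `Q w = 0`, so `(lift a w)² e x0 = 0`. -/
theorem alg_key {k : Type} [Field k] [CharP k 2] {X H : Type} [AddCommGroup H] [Module k H]
    (T : X → Module.End k H) (hT : ∀ x y, T x * T y = T y * T x) (cj : X → X)
    (hcj : ∀ x, T (cj (cj x)) = T x) (σ : H →ₗ[k] H) (hσ : ∀ x h, σ (T x h) = T (cj x) (σ h))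
    (e : H →ₗ[k] k) (he : ∀ h, e (σ h) = e h) (x0 : H) (hx0 : σ x0 = x0) (a : X → k)
    (hdiag : ∀ l : List X,
      e ((l.map T).prod ((l.map (fun x => T (cj x))).prod x0)) = ((l.map a).prod) ^ 2 * e x0)
    (h0 : e x0 ≠ 0) (w : FreeAlgebra k X) (hw : FreeAlgebra.lift k T w = 0) :
    FreeAlgebra.lift k a w = 0 := by
  set L := FreeAlgebra.lift k T with hL
  set L' := FreeAlgebra.lift k (fun x => T (cj x)) with hL'
  have hcomm : ∀ u v, L u * L' v = L' v * L u :=
    fun u v => Alg_commute T (fun x => T (cj x)) (fun x y => hT x (cj y)) u v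
  have hs1 : ∀ u y, σ (L u y) = L' u (σ y) :=
    fun u y => Alg_sigma T (fun x => T (cj x)) σ hσ u y
  have hs2 : ∀ u y, σ (L' u y) = L u (σ y) :=
    fun u y => Alg_sigma (fun x => T (cj x)) T σ
      (fun x y => by rw [hσ, hcj]) u y
  have hsym : ∀ u v, e (L u (L' v x0)) = e (L v (L' u x0)) := by
    intro u v
    rw [← he, hs1, hs2, hx0, ← Module.End.mul_apply, ← hcomm, Module.End.mul_apply]
  have htwo : ∀ t : k, t + t = 0 := fun t => CharTwo.add_self_eq_zero t
  have hQadd : ∀ u v, e (L (u + v) (L' (u + v) x0)) = e (L u (L' u x0)) + e (L v (L' v x0)) := by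
    intro u v
    rw [map_add, map_add, LinearMap.add_apply, LinearMap.add_apply, map_add, map_add, map_add,
      map_add, map_add, hsym v u]
    have := htwo (e (L u (L' v x0)))
    linear_combination this
  have hQsmul : ∀ (c : k) u, e (L (c • u) (L' (c • u) x0)) = c ^ 2 * e (L u (L' u x0)) := by
    intro c u
    rw [map_smul, map_smul, LinearMap.smul_apply, LinearMap.smul_apply, map_smul, map_smul,
      map_smul, smul_eq_mul, smul_eq_mul]
    ring
  have hQD : ∀ u, e (L u (L' u x0)) = (FreeAlgebra.lift k a u) ^ 2 * e x0 := by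
    intro u
    refine Submodule.span_induction (p := fun u _ => e (L u (L' u x0)) =
      (FreeAlgebra.lift k a u) ^ 2 * e x0) ?_ ?_ ?_ ?_ (Alg_span u)
    · rintro _ ⟨l, rfl⟩
      have h1 : L ((l.map (FreeAlgebra.ι k)).prod) = (l.map T).prod := by
        rw [map_list_prod, List.map_map]
        congr 1
        refine List.map_congr_left (fun x _ => ?_)
        rw [Function.comp_apply, hL, FreeAlgebra.lift_ι_apply]
      have h2 : L' ((l.map (FreeAlgebra.ι k)).prod) = (l.map (fun x => T (cj x))).prod := by
        rw [map_list_prod, List.map_map]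
        congr 1
        refine List.map_congr_left (fun x _ => ?_)
        rw [Function.comp_apply, hL', FreeAlgebra.lift_ι_apply]
      have h3 : FreeAlgebra.lift k a ((l.map (FreeAlgebra.ι k)).prod) = (l.map a).prod := by
        rw [map_list_prod, List.map_map]
        congr 1
        refine List.map_congr_left (fun x _ => ?_)
        rw [Function.comp_apply, FreeAlgebra.lift_ι_apply]
      change e (L ((l.map (FreeAlgebra.ι k)).prod) (L' ((l.map (FreeAlgebra.ι k)).prod) x0)) =
        (FreeAlgebra.lift k a ((l.map (FreeAlgebra.ι k)).prod)) ^ 2 * e x0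
      rw [h1, h2, h3]
      exact hdiag l
    · simp
    · intro u v _ _ hu hv
      rw [hQadd, hu, hv, map_add]
      have h1 : (FreeAlgebra.lift k a u + FreeAlgebra.lift k a v) ^ 2 =
          (FreeAlgebra.lift k a u) ^ 2 + (FreeAlgebra.lift k a v) ^ 2 := by
        have := htwo (FreeAlgebra.lift k a u * FreeAlgebra.lift k a v)
        linear_combination this
      rw [h1]
      ring
    · intro c u _ hu
      rw [hQsmul, hu, map_smul, smul_eq_mul]
      ring
  have h1 := hQD w
  rw [hw, LinearMap.zero_apply, map_zero] at h1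
  rcases mul_eq_zero.1 h1.symm with h2 | h2
  · exact pow_eq_zero_iff (two_ne_zero) |>.1 h2
  · exact absurd h2 h0

end QTW
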