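import Pool.Agent.QTW.Base
import Pool.Agent.SerreK.PIDM

/-!
# Ari: primes of `OK n` (size 4)
Tools: `nrm_mul`, `nrm_star`, `nrm_natCast`, `nrm_isUnit`, `mul_star_eq`, `four_nrm`, `exists_rat_prime`
(TSQM.lean), `QuadraticAlgebra` arithmetic; `star ⟨x, y⟩ = ⟨x + y, -y⟩`.
-/

open Matrix

namespace QTW

open SerreE SerreK SerreU

variable {n : ℕ}

private theorem Ari_lam_sq : (⟨-1, 2⟩ : OK n) * ⟨-1, 2⟩ = -(((4 * n + 3 : ℕ) : OK n)) := by
  apply QuadraticAlgebra.ext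
  · simp only [QuadraticAlgebra.re_mul, QuadraticAlgebra.re_neg, QuadraticAlgebra.re_natCast]
    push_cast; ring
  · simp only [QuadraticAlgebra.im_mul, QuadraticAlgebra.im_neg, QuadraticAlgebra.im_natCast]
    ring

private theorem Ari_lam_nrm : nrm (⟨-1, 2⟩ : OK n) = 4 * n + 3 := by
  unfold nrm; ring

private theorem Ari_nat_mul {a b : ℤ} (ha : 0 ≤ a) (hb : 0 ≤ b) {p : ℕ} (hp : p.Prime)
    (h : a * b = (p : ℤ)) : a = 1 ∨ b = 1 := by
  obtain ⟨a', rfl⟩ := Int.eq_ofNat_of_zero_le ha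
  obtain ⟨b', rfl⟩ := Int.eq_ofNat_of_zero_le hb
  have h' : a' * b' = p := by exact_mod_cast h
  have h1 : a' ∣ p := ⟨b', h'.symm⟩
  rcases (Nat.dvd_prime hp).1 h1 with h2 | h2
  · left; exact_mod_cast h2
  · right
    rw [h2] at h'
    have : b' = 1 := Nat.eq_of_mul_eq_mul_left hp.pos (by rw [h', mul_one])
    exact_mod_cast this

private theorem Ari_nat_sq {a b : ℤ} (ha : 0 ≤ a) (hb : 0 ≤ b) {p : ℕ} (hp : p.Prime)
    (h : a * b = (p : ℤ) ^ 2) : a = 1 ∨ a = p ∨ (a = (p : ℤ) ^ 2 ∧ b = 1) := by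
  obtain ⟨a', rfl⟩ := Int.eq_ofNat_of_zero_le ha
  obtain ⟨b', rfl⟩ := Int.eq_ofNat_of_zero_le hb
  have h' : a' * b' = p ^ 2 := by exact_mod_cast h
  obtain ⟨k, hk, hk'⟩ := (Nat.dvd_prime_pow hp).1 ⟨b', h'.symm⟩
  have hk3 : k = 0 ∨ k = 1 ∨ k = 2 := by omega
  rcases hk3 with rfl | rfl | rfl
  · left; rw [hk']; simp
  · right; left; rw [hk']; simp
  · right; right
    refine ⟨by rw [hk']; push_cast; ring, ?_⟩
    rw [hk'] at h'
    have : b' = 1 := Nat.eq_of_mul_eq_mul_left (pow_pos hp.pos 2) (by rw [h', mul_one])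
    exact_mod_cast this

theorem ari_prime [IsPrincipalIdealRing (OK n)] {p : ℕ} (hp : p.Prime) {π : OK n}
    (hπ : nrm π = p) : Prime π := by
  rw [← irreducible_iff_prime]
  constructor
  · intro hu
    rw [nrm_isUnit, hπ] at hu
    exact hp.one_lt.ne' (by exact_mod_cast hu)
  · intro a b hab
    rw [hab, nrm_mul] at hπ
    rcases Ari_nat_mul (nrm_nonneg a) (nrm_nonneg b) hp hπ with h | h
    · left; exact nrm_isUnit.2 h
    · right; exact nrm_isUnit.2 h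

/-- if `p` is not prime in the principal ideal domain `OK n`, it has a prime factor `π` which is not
associated to it, `p = π β`, `nrm π nrm β = p²`, neither is a unit, so `nrm π = p`. -/
theorem ari_cases (n : ℕ) [IsPrincipalIdealRing (OK n)] {p : ℕ} (hp : p.Prime) :
    Prime (p : OK n) ∨ ∃ π : OK n, Prime π ∧ nrm π = p ∧ π * star π = (p : OK n) := by
  by_cases h : Prime (p : OK n)
  · left; exact h
  · right
    rw [← irreducible_iff_prime, irreducible_iff] at h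
    have hnu : ¬ IsUnit (p : OK n) := by
      rw [nrm_isUnit, nrm_natCast]
      intro h1
      have h2 : p ^ 2 = 1 := by exact_mod_cast h1
      have := hp.one_lt
      nlinarith
    push Not at h
    obtain ⟨a, b, hab, ha, hb⟩ := h hnu
    have hN : nrm a * nrm b = (p : ℤ) ^ 2 := by rw [← nrm_mul, ← hab, nrm_natCast]
    have ha' : nrm a = p := by
      rcases Ari_nat_sq (nrm_nonneg a) (nrm_nonneg b) hp hN with h1 | h1 | h1
      · exact absurd (nrm_isUnit.2 h1) ha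
      · exact h1
      · exact absurd (nrm_isUnit.2 h1.2) hb
    refine ⟨a, ari_prime hp ha', ha', ?_⟩
    rw [mul_star_eq, ha', Int.cast_natCast]

/-- Proof.  Let `π = x + y ω`, `π ∣ π̄`.  Then `π ∣ π + π̄ = 2x + y` and, taking norms, `p ∣ (2x + y)²`, so
`p ∣ 2x + y`; and `4 p = (2x + y)² + (4n+3) y²` (`four_nrm`), so `p ∣ (4n+3) y²`, `p ∣ y`, hence `p² ∣ 4 p`:
impossible as `p` is odd. -/
theorem ari_na {p : ℕ} (hp : p.Prime) (h2 : ¬ p ∣ 2 * (4 * n + 3)) {π : OK n}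
    (hπ : nrm π = p) : ¬ Associated π (star π) := by
  intro hA
  have hpZ : Prime (p : ℤ) := Nat.prime_iff_prime_int.1 hp
  have h3 : π ∣ (((2 * π.re + π.im : ℤ)) : OK n) := by
    have h4 : (((2 * π.re + π.im : ℤ)) : OK n) = π + star π := by
      apply QuadraticAlgebra.ext
      · simp only [QuadraticAlgebra.re_intCast, QuadraticAlgebra.re_add,
          QuadraticAlgebra.re_star, Int.cast_id]
        ring
      · simp only [QuadraticAlgebra.im_intCast, QuadraticAlgebra.im_add,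
          QuadraticAlgebra.im_star]
        ring
    rw [h4]
    exact dvd_add (dvd_refl _) hA.dvd
  obtain ⟨t, ht⟩ := h3
  have h5 : (2 * π.re + π.im) ^ 2 = p * nrm t := by
    rw [← nrm_intCast (n := n) (2 * π.re + π.im), ht, nrm_mul, hπ]
  have h6 : (p : ℤ) ∣ 2 * π.re + π.im := hpZ.dvd_of_dvd_pow ⟨nrm t, h5⟩
  have h7 := four_nrm π
  rw [hπ] at h7
  have h8 : (p : ℤ) ∣ (4 * n + 3) * π.im ^ 2 := by
    have h9 : (4 * (n : ℤ) + 3) * π.im ^ 2 = p * (4 - nrm t) := by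
      rw [h5] at h7; linarith
    exact ⟨_, h9⟩
  have h9 : (p : ℤ) ∣ π.im := by
    rcases hpZ.dvd_or_dvd h8 with h | h
    · exfalso
      apply h2
      have : (p : ℤ) ∣ ((4 * n + 3 : ℕ) : ℤ) := by push_cast; exact h
      exact (Int.natCast_dvd_natCast.1 this).trans (Dvd.intro_left 2 rfl)
    · exact hpZ.dvd_of_dvd_pow h
  obtain ⟨u, hu⟩ := h6
  obtain ⟨v, hv⟩ := h9
  rw [hu, hv] at h7
  have h10 : (4 : ℤ) = p * (u ^ 2 + (4 * n + 3) * v ^ 2) := by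
    have hp0 : (p : ℤ) ≠ 0 := hpZ.ne_zero
    apply mul_left_cancel₀ hp0
    linarith
  have h11 : p ∣ 4 := Int.natCast_dvd_natCast.1 ⟨_, h10⟩
  have h12 : p ∣ 2 := hp.dvd_of_dvd_pow (n := 2) (by simpa using h11)
  exact h2 (h12.trans (Dvd.intro _ rfl))

/-- if `π ∣ m` and `π ∣ p` with `p, m` coprime integers, `π` is a unit -/
theorem ari_dvd {p m : ℕ} (hp : p.Prime) (hm : ¬ p ∣ m) {π : OK n} (hπ : Prime π)
    (h : π ∣ (p : OK n)) : ¬ π ∣ (m : OK n) := by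
  intro h1
  have hc : Nat.Coprime p m := (Nat.Prime.coprime_iff_not_dvd hp).2 hm
  have hc' : IsCoprime (p : ℤ) (m : ℤ) := Nat.isCoprime_iff_coprime.2 hc
  obtain ⟨a, b, hab⟩ := hc'
  apply hπ.not_isUnit
  apply isUnit_of_dvd_one
  have h2 : (a : OK n) * (p : OK n) + (b : OK n) * (m : OK n) = 1 := by
    have := congrArg (fun z : ℤ => (z : OK n)) hab
    simpa using this
  rw [← h2]
  exact dvd_add (Dvd.dvd.mul_left h _) (Dvd.dvd.mul_left h1 _)

/-- `exists_rat_prime`; `nrm π ∣ p²`; if `nrm π = p²` then `p = π u` with `nrm u = 1`. -/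
theorem ari_class {π : OK n} (hπ : Prime π) : ∃ p : ℕ, p.Prime ∧ π ∣ (p : OK n) ∧
    (nrm π = p ∨ Associated π (p : OK n)) := by
  obtain ⟨p, hp, hd⟩ := exists_rat_prime hπ
  refine ⟨p, hp, hd, ?_⟩
  obtain ⟨t, ht⟩ := hd
  have hN : nrm π * nrm t = (p : ℤ) ^ 2 := by rw [← nrm_mul, ← ht, nrm_natCast]
  rcases Ari_nat_sq (nrm_nonneg π) (nrm_nonneg t) hp hN with h1 | h1 | h1
  · exact absurd (nrm_isUnit.2 h1) hπ.not_isUnit
  · left; exact h1
  · right
    obtain ⟨u, hu⟩ := nrm_isUnit.2 h1.2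
    exact ⟨u, by rw [hu, ht]⟩

theorem ari_d (hn : n ∈ ({0, 1, 2, 4, 10, 16, 40} : Finset ℕ)) : (4 * n + 3).Prime := by
  simp only [Finset.mem_insert, Finset.mem_singleton] at hn
  rcases hn with rfl | rfl | rfl | rfl | rfl | rfl | rfl <;> norm_num

/-- `d = 4n + 3 = -λ²`, `λ = ⟨-1, 2⟩`, and `λ ∣ d`, `d ∤ λ`. -/
theorem ari_ram {p : ℕ} (hp : Prime (p : OK n)) : p ≠ 4 * n + 3 := by
  intro h
  have h1 : (p : OK n) ∣ (⟨-1, 2⟩ : OK n) * ⟨-1, 2⟩ := by
    rw [Ari_lam_sq, ← h]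
    exact (dvd_refl _).neg_right
  have h2 : (p : OK n) ∣ (⟨-1, 2⟩ : OK n) := by
    rcases hp.dvd_or_dvd h1 with h | h <;> exact h
  obtain ⟨t, ht⟩ := h2
  have h3 : (4 * (n : ℤ) + 3) = (p : ℤ) ^ 2 * nrm t := by
    rw [← Ari_lam_nrm, ht, nrm_mul, nrm_natCast]
  have h4 : (p : ℤ) = 4 * n + 3 := by rw [h]; push_cast; ring
  rw [← h4] at h3
  have hp3 : (3 : ℤ) ≤ p := by rw [h4]; have := Int.natCast_nonneg n; linarith
  have h5 : (1 : ℤ) = p * nrm t := by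
    have hp0 : (p : ℤ) ≠ 0 := by linarith
    apply mul_left_cancel₀ hp0
    linarith
  have h6 : (p : ℤ) ∣ 1 := ⟨_, h5⟩
  have := Int.le_of_dvd one_pos h6
  linarith

/-- `π π̄ = 4n+3 = -λ²`, `π` is prime, so `π ∣ λ`; `nrm λ = 4n+3`, so they are associated. -/
theorem ari_lam [IsPrincipalIdealRing (OK n)] (hd : (4 * n + 3).Prime) {π : OK n}
    (hπ : nrm π = 4 * n + 3) : Associated π (⟨-1, 2⟩ : OK n) := by
  have hπ' : nrm π = ((4 * n + 3 : ℕ) : ℤ) := by rw [hπ]; push_cast; ring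
  have hpr := ari_prime hd hπ'
  have h1 : π ∣ (⟨-1, 2⟩ : OK n) * ⟨-1, 2⟩ := by
    rw [Ari_lam_sq]
    refine Dvd.dvd.neg_right ⟨star π, ?_⟩
    rw [mul_star_eq, hπ', Int.cast_natCast]
  have h2 : π ∣ (⟨-1, 2⟩ : OK n) := by
    rcases hpr.dvd_or_dvd h1 with h | h <;> exact h
  obtain ⟨t, ht⟩ := h2
  have h3 : (4 * (n : ℤ) + 3) = (4 * n + 3) * nrm t := by
    conv_lhs => rw [← Ari_lam_nrm, ht, nrm_mul, hπ]
  have h4 : nrm t = 1 := by
    have h0 : (4 * (n : ℤ) + 3) ≠ 0 := by have := Int.natCast_nonneg n; linarith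
    apply mul_left_cancel₀ h0
    linarith
  obtain ⟨u, hu⟩ := nrm_isUnit.2 h4
  exact ⟨u, by rw [hu, ht]⟩

end QTW
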