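import Pool.Agent.QTW.Defs
import Pool.Agent.SerreU.UHEC
import Pool.Agent.SerreU.UDES
import Pool.Agent.SerreK.ACT
import Pool.Agent.SerreK.MM
import Pool.Agent.SerreK.TSQT

/-!
# Basic objects: the group `Γ₀(M) ⋊ ⟨σ⟩`, its representation, the point reflections, Hecke systems
-/

open Matrix

namespace QTW

open SerreE SerreK SerreU

section systems

variable {O : Type} [CommRing O]

/-- `β` has determinant `m` up to a unit and lower left entry divisible by `N` -/
def TD (N m : O) (β : Matrix (Fin 2) (Fin 2) O) : Prop := Associated β.det m ∧ N ∣ β 1 0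

/-- A Hecke system: representatives `D x` of the matrices of type `TD N m` modulo `Γ₀(N)`. -/
structure HSys (N m : O) (X : Type) where
  D : X → Matrix (Fin 2) (Fin 2) O
  mem : ∀ x, TD N m (D x)
  cover : ∀ β, TD N m β → ∃ x γ, TA N γ ∧ β = D x * γ
  sep : ∀ x y (γ : Matrix (Fin 2) (Fin 2) O), D y = D x * γ → x = y

end systems

variable {n M : ℕ}

theorem star_cast (m : ℕ) : star (m : OK n) = (m : OK n) := by
  ext <;> simp

theorem star_icast (m : ℤ) : star (m : OK n) = (m : OK n) := by
  ext <;> simp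

/-- complex conjugation of matrices -/
def cjM (α : Mat n) : Mat n := α.map star

theorem cjM_apply (α : Mat n) (i j : Fin 2) : cjM α i j = star (α i j) := rfl

theorem cjM_mul (α β : Mat n) : cjM (α * β) = cjM α * cjM β := by
  ext1 i j
  simp only [cjM, Matrix.map_apply, Matrix.mul_apply, Fin.sum_univ_two, star_add, star_mul']

theorem cjM_cjM (α : Mat n) : cjM (cjM α) = α := by
  ext1 i j
  simp only [cjM, Matrix.map_apply, star_star]

theorem cjM_one : cjM (1 : Mat n) = 1 := by
  ext1 i j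
  fin_cases i <;> fin_cases j <;> simp [cjM]

theorem cjM_det (α : Mat n) : (cjM α).det = star α.det := by
  simp only [Matrix.det_fin_two, cjM, Matrix.map_apply, star_sub, star_mul']

/-- `Γ₀(M)` -/
abbrev G0 (n M : ℕ) : Type := Gam0 (M : OK n)

/-- complex conjugation on `Γ₀(M)` -/
def cjG (g : G0 n M) : G0 n M where
  val := ⟨cjM g.val.val, cjM (g.val⁻¹).val, by
      rw [← cjM_mul, uhec_mul_inv, cjM_one], by
      rw [← cjM_mul, uhec_inv_mul, cjM_one]⟩
  property := by
    rw [mem_Gam0]
    change (M : OK n) ∣ star (g.val.val 1 0)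
    obtain ⟨c, hc⟩ := g.2
    have hc' : g.val.val 1 0 = (M : OK n) * c := hc
    exact ⟨star c, by rw [hc', star_mul', star_cast]⟩

theorem cjG_val (g : G0 n M) : (cjG g).val.val = cjM g.val.val := rfl

theorem cjG_mul (a b : G0 n M) : cjG (a * b) = cjG a * cjG b := by
  apply Subtype.ext
  apply Units.ext
  exact cjM_mul _ _

theorem cjG_cjG (a : G0 n M) : cjG (cjG a) = a := by
  apply Subtype.ext
  apply Units.ext
  exact cjM_cjM _

theorem cjG_one : cjG (1 : G0 n M) = 1 := by
  apply Subtype.ext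
  apply Units.ext
  exact cjM_one

/-- the group `Γ₀(M) ⋊ ⟨σ⟩`: `⟨g, true⟩` is `g σ`, where `σ` is complex conjugation. -/
@[ext] structure SS (n M : ℕ) where
  g : G0 n M
  e : Bool

/-- `σ^e g σ^(-e)` -/
def cje (e : Bool) (g : G0 n M) : G0 n M := if e then cjG g else g

instance : Mul (SS n M) := ⟨fun a b => ⟨a.g * cje a.e b.g, xor a.e b.e⟩⟩
instance : One (SS n M) := ⟨⟨1, false⟩⟩
instance : Inv (SS n M) := ⟨fun a => ⟨(cje a.e a.g)⁻¹, a.e⟩⟩

theorem SS.mul_g (a b : SS n M) : (a * b).g = a.g * cje a.e b.g := rfl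
theorem SS.mul_e (a b : SS n M) : (a * b).e = xor a.e b.e := rfl
theorem SS.one_g : (1 : SS n M).g = 1 := rfl
theorem SS.one_e : (1 : SS n M).e = false := rfl
theorem SS.inv_g (a : SS n M) : (a⁻¹).g = (cje a.e a.g)⁻¹ := rfl
theorem SS.inv_e (a : SS n M) : (a⁻¹).e = a.e := rfl

theorem cje_mul (e : Bool) (a b : G0 n M) : cje e (a * b) = cje e a * cje e b := by
  cases e
  · rfl
  · exact cjG_mul a b

theorem cje_one (e : Bool) : cje e (1 : G0 n M) = 1 := by
  cases e
  · rfl
  · exact cjG_one

theorem cje_inv (e : Bool) (a : G0 n M) : cje e a⁻¹ = (cje e a)⁻¹ := by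
  symm
  apply inv_eq_of_mul_eq_one_left
  rw [← cje_mul, inv_mul_cancel, cje_one]

theorem cje_cje (e f : Bool) (a : G0 n M) : cje e (cje f a) = cje (xor e f) a := by
  cases e <;> cases f
  · rfl
  · rfl
  · rfl
  · exact cjG_cjG a

instance : Group (SS n M) where
  mul_assoc a b c := by
    apply SS.ext
    · rw [SS.mul_g, SS.mul_g, SS.mul_g, SS.mul_g, SS.mul_e, cje_mul, cje_cje, mul_assoc]
    · rw [SS.mul_e, SS.mul_e, SS.mul_e, SS.mul_e, Bool.xor_assoc]
  one_mul a := by
    apply SS.ext
    · rw [SS.mul_g, SS.one_g, SS.one_e, one_mul]; rfl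
    · rw [SS.mul_e, SS.one_e, Bool.false_xor]
  mul_one a := by
    apply SS.ext
    · rw [SS.mul_g, SS.one_g, cje_one, mul_one]
    · rw [SS.mul_e, SS.one_e, Bool.xor_false]
  inv_mul_cancel a := by
    apply SS.ext
    · rw [SS.mul_g, SS.inv_g, SS.inv_e, SS.one_g, inv_mul_cancel]
    · rw [SS.mul_e, SS.inv_e, SS.one_e, Bool.xor_self]

/-- homomorphisms on `Γ₀(M) ⋊ ⟨σ⟩` which are trivial on the unit scalars -/
structure IsXi (ξ : SS n M → FF) : Prop where
  mul : ∀ a b, ξ (a * b) = ξ a + ξ b
  scal : ∀ (g : G0 n M) (u : OK n), g.val.val = u • (1 : Mat n) → ξ ⟨g, false⟩ = 0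

/-- the class `h` is the restriction of `ξ` -/
def RS (ξ : SS n M → FF) (h : HY (M : OK n)) : Prop := ∀ γ : G0 n M, h.val γ = ξ ⟨γ, false⟩

/-- the matrix `γ_h = [[B̄, C], [-A, -B]]`, with `γ_h γ̄_h = -1` -/
def Herm.gm (h : Herm n M) : Mat n := !![star h.B, (h.C : OK n); -(h.A : OK n), -h.B]

theorem Herm.gm_det (h : Herm n M) : h.gm.det = 1 := by
  have h1 := mul_star_eq h.B
  have h2 := h.det
  have h3 : ((h.A * h.C - nrm h.B : ℤ) : OK n) = 1 := by rw [h2]; push_cast; rfl
  push_cast at h3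
  rw [← h1] at h3
  simp only [Herm.gm, Matrix.det_fin_two, Matrix.of_apply, Matrix.cons_val', Matrix.cons_val_zero,
    Matrix.cons_val_one, Matrix.cons_val_fin_one]
  linear_combination h3

/-- `γ_h` as an element of `Γ₀(M)` -/
noncomputable def Herm.gam (h : Herm n M) : G0 n M where
  val := Matrix.GeneralLinearGroup.mk'' h.gm (by rw [h.gm_det]; exact isUnit_one)
  property := by
    rw [mem_Gam0]
    change (M : OK n) ∣ -(h.A : OK n)
    rw [dvd_neg]
    obtain ⟨c, hc⟩ := h.lev
    exact ⟨(c : OK n), by rw [hc]; push_cast; rfl⟩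

theorem Herm.gam_val (h : Herm n M) : h.gam.val.val = h.gm := rfl

/-- the point reflection `τ_h = γ_h σ` -/
noncomputable def Herm.tau (h : Herm n M) : SS n M := ⟨h.gam, true⟩

/-- the stabiliser of `h` modulo scalars contains an involution -/
def Ev (h : Herm n M) : Prop :=
  ∃ s : Mat n, TA (M : OK n) s ∧ Tr 1 s h h ∧ s 0 0 + s 1 1 = 0

/-- `h` and `k` are equivalent under `Γ₀(M)` -/
def HEq' (h k : Herm n M) : Prop := ∃ g : Mat n, TA (M : OK n) g ∧ Tr 1 g h k

/-- invariant functions -/
def HInv (f : Herm n M → FF) : Prop := ∀ h k, HEq' h k → f k = f h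

/-- the order of the stabiliser in `Γ₀(M)` (including the unit scalars) -/
noncomputable def stab (h : Herm n M) : ℕ :=
  Nat.card {g : Mat n // TA (M : OK n) g ∧ Tr 1 g h h}

/-! ### the representation -/

/-- complex conjugation on hermitian matrices -/
noncomputable def cJ : V →ₗ[ℝ] V where
  toFun v := ![v 0, v 1, v 2, -v 3]
  map_add' v w := by
    ext i
    fin_cases i <;> simp
    ring
  map_smul' c v := by
    ext i
    fin_cases i <;> simp

theorem cJ_cJ : (cJ : V →ₗ[ℝ] V) * cJ = 1 := by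
  apply LinearMap.ext
  intro v
  change cJ (cJ v) = v
  ext i
  fin_cases i <;> simp [cJ]

theorem sig_star (x : OK n) : sig n (star x) = (starRingEnd ℂ) (sig n x) := by
  rw [sig_apply, sig_apply]
  have h1 : (star x).re = x.re + x.im := by simp
  have h2 : (star x).im = -x.im := by simp
  rw [h1, h2]
  apply Complex.ext
  · simp [wC]
    ring
  · simp [wC]

theorem ext4' {v w : V} (h0 : v 0 = w 0) (h1 : v 1 = w 1) (h2 : v 2 = w 2) (h3 : v 3 = w 3) :
    v = w := by
  funext i
  fin_cases i
  · exact h0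
  · exact h1
  · exact h2
  · exact h3

theorem act_cJ (A : Matrix (Fin 2) (Fin 2) ℂ) :
    cJ * act A = act (A.map (starRingEnd ℂ)) * cJ := by
  apply LinearMap.ext
  intro v
  change cJ (act A v) = act (A.map (starRingEnd ℂ)) (cJ v)
  have c0 : ∀ w : V, cJ w 0 = w 0 := fun w => rfl
  have c1 : ∀ w : V, cJ w 1 = w 1 := fun w => rfl
  have c2 : ∀ w : V, cJ w 2 = w 2 := fun w => rfl
  have c3 : ∀ w : V, cJ w 3 = -w 3 := fun w => rfl
  apply ext4'
  · rw [c0, ACT_0, ACT_0]
    simp only [ACT_form, c0, c1, c2, c3, Matrix.map_apply, Complex.normSq_conj, Complex.conj_re,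
      Complex.conj_im]
    ring
  · rw [c1, ACT_1, ACT_1]
    simp only [ACT_form, c0, c1, c2, c3, Matrix.map_apply, Complex.normSq_conj, Complex.conj_re,
      Complex.conj_im]
    ring
  · rw [c2, ACT_2, ACT_2]
    simp only [c0, c1, c2, c3, Matrix.map_apply, Complex.conj_re, Complex.conj_im]
    ring
  · rw [c3, ACT_3, ACT_3]
    simp only [c0, c1, c2, c3, Matrix.map_apply, Complex.conj_re, Complex.conj_im]
    ring

/-- the complex matrix of `g` -/
noncomputable def cm (α : Mat n) : Matrix (Fin 2) (Fin 2) ℂ := α.map (sig n)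

theorem cm_mul (α β : Mat n) : cm (α * β) = cm α * cm β := Matrix.map_mul

theorem cm_one : cm (1 : Mat n) = 1 := by
  unfold cm
  ext1 i j
  fin_cases i <;> fin_cases j <;> simp

theorem cm_cjM (α : Mat n) : (cm α).map (starRingEnd ℂ) = cm (cjM α) := by
  ext1 i j
  simp only [cm, cjM, Matrix.map_apply, sig_star]

/-- the representation: `g` acts by `H ↦ g H g*`, `σ` by `H ↦ H̄` -/
noncomputable def rep (n M : ℕ) : SS n M →* (V →ₗ[ℝ] V) where
  toFun s := act (cm s.g.val.val) * (if s.e then cJ else 1)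
  map_one' := by
    have e1 : (1 : SS n M).e = false := rfl
    have e2 : (1 : SS n M).g.val.val = (1 : Mat n) := rfl
    rw [e1, e2, cm_one, act_one]
    simp
  map_mul' a b := by
    obtain ⟨g, e⟩ := a
    obtain ⟨h, f⟩ := b
    have hc : cJ * act (cm h.val.val) = act (cm (cjM h.val.val)) * cJ := by
      rw [act_cJ, cm_cjM]
    cases e <;> cases f
    · change act (cm (g.val.val * h.val.val)) * 1 = (act (cm g.val.val) * 1) *
        (act (cm h.val.val) * 1)
      rw [cm_mul, act_mul, mul_one, mul_one, mul_one]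
    · change act (cm (g.val.val * h.val.val)) * cJ = (act (cm g.val.val) * 1) *
        (act (cm h.val.val) * cJ)
      rw [cm_mul, act_mul, mul_one, mul_assoc]
    · change act (cm (g.val.val * cjM h.val.val)) * cJ = (act (cm g.val.val) * cJ) *
        (act (cm h.val.val) * 1)
      rw [cm_mul, act_mul, mul_one, mul_assoc, mul_assoc, hc]
    · change act (cm (g.val.val * cjM h.val.val)) * 1 = (act (cm g.val.val) * cJ) *
        (act (cm h.val.val) * cJ)
      rw [cm_mul, act_mul, mul_one, mul_assoc, ← mul_assoc cJ, hc, mul_assoc _ cJ cJ, cJ_cJ,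
        mul_one]

theorem rep_false (g : G0 n M) (v : V) : rep n M ⟨g, false⟩ v = act (cm g.val.val) v := rfl

theorem rep_true (g : G0 n M) (v : V) : rep n M ⟨g, true⟩ v = act (cm g.val.val) (cJ v) := rfl

/-- the representation in the unit group -/
noncomputable def repU (n M : ℕ) : SS n M →* (V →ₗ[ℝ] V)ˣ := (rep n M).toHomUnits

/-- the group acting effectively on the cone -/
abbrev GG (n M : ℕ) : Type := (repU n M).range

/-- the projection -/
noncomputable def mkG (n M : ℕ) : SS n M →* GG n M := (repU n M).rangeRestrict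

/-- the representation of `GG` -/
noncomputable def rr (n M : ℕ) : GG n M →* (V →ₗ[ℝ] V) :=
  (Units.coeHom (V →ₗ[ℝ] V)).comp (repU n M).range.subtype

theorem rr_mk (s : SS n M) : rr n M (mkG n M s) = rep n M s := rfl

theorem rr_inj : Function.Injective (rr n M) := by
  intro a b h
  exact Subtype.ext (Units.ext h)

theorem mkG_surj : Function.Surjective (mkG n M) := (repU n M).rangeRestrict_surjective

theorem mkG_eq (s t : SS n M) : mkG n M s = mkG n M t ↔ rep n M s = rep n M t := by
  constructor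
  · intro h
    rw [← rr_mk, ← rr_mk, h]
  · intro h
    apply rr_inj
    rw [rr_mk, rr_mk, h]

/-- the centre of the point reflection `τ_h` -/
noncomputable def Herm.ctr (h : Herm n M) : V :=
  ![(h.C : ℝ), (h.A : ℝ), -(sig n h.B).re, (sig n h.B).im]

end QTW
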