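import Pool.Agent.QTW.HsC

/-!
# HsE: products of Hecke systems (size 4)
-/

open Matrix

namespace QTW

open SerreE SerreK SerreU

private theorem HsE_mul_apply {O : Type} [CommRing O] (A B : Matrix (Fin 2) (Fin 2) O)
    (i j : Fin 2) : (A * B) i j = A i 0 * B 0 j + A i 1 * B 1 j := by
  rw [Matrix.mul_apply, Fin.sum_univ_two]

private theorem HsE_col {O : Type} [CommRing O] {π : O} (hπ : Prime π)
    (β : Matrix (Fin 2) (Fin 2) O) (hdet : π ∣ β.det) :
    ∃ p q : O, (¬ π ∣ p ∨ ¬ π ∣ q) ∧ ∀ j, π ∣ p * β 1 j - q * β 0 j := by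
  rw [Matrix.det_fin_two] at hdet
  by_cases h0 : π ∣ β 0 0 ∧ π ∣ β 1 0
  · by_cases h1 : π ∣ β 0 1 ∧ π ∣ β 1 1
    · refine ⟨1, 0, Or.inl hπ.not_dvd_one, fun j => ?_⟩
      fin_cases j
      · simpa using h0.2
      · simpa using h1.2
    · refine ⟨β 0 1, β 1 1, by rwa [not_and_or] at h1, fun j => ?_⟩
      fin_cases j
      · have e : β 0 1 * β 1 0 - β 1 1 * β 0 0 = -(β 0 0 * β 1 1 - β 0 1 * β 1 0) := by ring
        change π ∣ β 0 1 * β 1 0 - β 1 1 * β 0 0
        rw [e]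
        exact (dvd_neg).2 hdet
      · have e : β 0 1 * β 1 1 - β 1 1 * β 0 1 = 0 := by ring
        change π ∣ β 0 1 * β 1 1 - β 1 1 * β 0 1
        rw [e]
        exact dvd_zero _
  · refine ⟨β 0 0, β 1 0, by rwa [not_and_or] at h0, fun j => ?_⟩
    fin_cases j
    · have e : β 0 0 * β 1 0 - β 1 0 * β 0 0 = 0 := by ring
      change π ∣ β 0 0 * β 1 0 - β 1 0 * β 0 0
      rw [e]
      exact dvd_zero _
    · have e : β 0 0 * β 1 1 - β 1 0 * β 0 1 = β 0 0 * β 1 1 - β 0 1 * β 1 0 := by ring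
      change π ∣ β 0 0 * β 1 1 - β 1 0 * β 0 1
      rw [e]
      exact hdet

private theorem HsE_split {O : Type} [CommRing O] [IsDomain O] [IsPrincipalIdealRing O] {N π : O}
    (hπ : Prime π) (hN : ¬ π ∣ N) (β : Matrix (Fin 2) (Fin 2) O) (hdet : π ∣ β.det) :
    ∃ (τ : Gam0 N) (β' : Matrix (Fin 2) (Fin 2) O), β = τ.val.val * PM π * β' := by
  obtain ⟨p, q, hpq, hj⟩ := HsE_col hπ β hdet
  obtain ⟨τ, hτ⟩ := uhec_cover N π hπ hN p q
  have hrow : ∀ j, π ∣ (((τ.val)⁻¹).val * β) 0 j := by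
    intro j
    rw [HsE_mul_apply]
    set r := ((τ.val)⁻¹).val 0 0
    set s := ((τ.val)⁻¹).val 0 1
    obtain ⟨a, ha⟩ := hj j
    obtain ⟨b, hb⟩ := hτ
    rcases hpq with h | h
    · have h1 : π ∣ p * (r * β 0 j + s * β 1 j) := by
        refine ⟨b * β 0 j + s * a, ?_⟩
        linear_combination β 0 j * hb + s * ha
      exact (hπ.dvd_or_dvd h1).resolve_left h
    · have h1 : π ∣ q * (r * β 0 j + s * β 1 j) := by
        refine ⟨b * β 1 j - r * a, ?_⟩
        linear_combination β 1 j * hb - r * ha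
      exact (hπ.dvd_or_dvd h1).resolve_left h
  obtain ⟨k0, hk0⟩ := hrow 0
  obtain ⟨k1, hk1⟩ := hrow 1
  refine ⟨τ, !![k0, k1; (((τ.val)⁻¹).val * β) 1 0, (((τ.val)⁻¹).val * β) 1 1], ?_⟩
  have h2 : ((τ.val)⁻¹).val * β =
      PM π * !![k0, k1; (((τ.val)⁻¹).val * β) 1 0, (((τ.val)⁻¹).val * β) 1 1] := by
    ext i j
    rw [HsE_mul_apply (PM π)]
    fin_cases i <;> fin_cases j
    · change (((τ.val)⁻¹).val * β) 0 0 = π * k0 + 0 * _
      rw [hk0]; ring
    · change (((τ.val)⁻¹).val * β) 0 1 = π * k1 + 0 * _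
      rw [hk1]; ring
    · change (((τ.val)⁻¹).val * β) 1 0 = 0 * k0 + 1 * (((τ.val)⁻¹).val * β) 1 0
      ring
    · change (((τ.val)⁻¹).val * β) 1 1 = 0 * k1 + 1 * (((τ.val)⁻¹).val * β) 1 1
      ring
  rw [mul_assoc, ← h2, ← mul_assoc, uhec_mul_inv, one_mul]

private theorem HsE_lev {O : Type} [CommRing O] [IsDomain O] [IsPrincipalIdealRing O] {N π : O}
    (hπ : Prime π) (hN : ¬ π ∣ N) {D B : Matrix (Fin 2) (Fin 2) O} (hD : TD N π D)
    (h : N ∣ (D * B) 1 0) : N ∣ B 1 0 := by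
  obtain ⟨⟨u, hu⟩, c, hc⟩ := hD
  have hcop : IsCoprime π N := (Prime.coprime_iff_not_dvd hπ).2 hN
  obtain ⟨a, b, hab⟩ := hcop
  have hcop' : IsCoprime N (D 1 1) := by
    rw [Matrix.det_fin_two, hc] at hu
    refine ⟨b - a * (u : O) * (D 0 1 * c), a * (u : O) * D 0 0, ?_⟩
    linear_combination hab + a * hu
  rw [HsE_mul_apply] at h
  have h2 : N ∣ D 1 1 * B 1 0 := by
    have h3 : D 1 1 * B 1 0 = (D 1 0 * B 0 0 + D 1 1 * B 1 0) - N * (c * B 0 0) := by
      rw [hc]; ring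
    rw [h3]
    exact dvd_sub h (dvd_mul_right _ _)
  exact hcop'.dvd_of_dvd_mul_left h2

private theorem HsE_det_ne {O : Type} [CommRing O] {N m : O} {β : Matrix (Fin 2) (Fin 2) O}
    (h : TD N m β) (hm : m ≠ 0) : β.det ≠ 0 := fun h0 => hm ((h.1.symm.trans (by rw [h0])).eq_zero_iff.2 rfl)

/-- Proof.  `cover`: let `β` be of type `TD N (π π')`.  As in the proof of `hlib` (HsA.lean, without
using that `det β` is `π`, only `π ∣ det β`; if both columns are divisible by `π`, any vector `(p, q)`,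
e.g. `(1, 0)`, will do) there are `τ ∈ Γ₀(N)` and `β'` with `β = τ PM π β'`.  `τ PM π` is of type
`TD N π`, so it is `D x * γ`, and `β = D x * (γ β')`; `γ β'` has determinant associated to `π'` and
lower left entry divisible by `N` (`N ∣ β₁₀`, `N ∣ (D x)₁₀`, and `(D x)₁₁` is prime to `N` because
`det (D x)` is).  So `γ β' = D' y * γ'`.
`sep`: let `D z D' w = D x D' y γ`.  Multiply by `adj (D x)` on the left and by `adj (D' w)` on the
right: `adj (D x) D z * (π' unit) = (π unit) D' y γ adj (D' w)`, so `π` divides all entries of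
`adj (D x) D z` (`π ∤ π'`, as the two primes are not associated), i.e. `D z = D x g` with `g`
integral; `x = z` by `S.sep`; cancel `D x`: `D' w = D' y γ`, so `y = w`. -/
theorem hprod {O : Type} [CommRing O] [IsDomain O] [IsPrincipalIdealRing O] {N π π' : O}
    (hπ : Prime π) (hπ' : Prime π') (hna : ¬ Associated π π') (hN : ¬ π ∣ N) {X Y : Type}
    (S : HSys N π X) (S' : HSys N π' Y) :
    ∃ P : HSys N (π * π') (X × Y), ∀ z, P.D z = S.D z.1 * S'.D z.2 := by
  refine ⟨⟨fun z => S.D z.1 * S'.D z.2, ?_, ?_, ?_⟩, fun z => rfl⟩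
  · rintro ⟨x, y⟩
    refine ⟨?_, ?_⟩
    · rw [Matrix.det_mul]
      exact (S.mem x).1.mul_mul (S'.mem y).1
    · rw [HsE_mul_apply]
      exact dvd_add ((S.mem x).2.mul_right _) ((S'.mem y).2.mul_left _)
  · intro β hβ
    have hdet : π ∣ β.det := (dvd_mul_right π π').trans hβ.1.symm.dvd
    obtain ⟨τ, β', hτ⟩ := HsE_split hπ hN β hdet
    have hA : TD N π (τ.val.val * PM π) := by
      refine ⟨?_, ?_⟩
      · rw [Matrix.det_mul, uhec_det_PM]
        exact associated_unit_mul_left _ _ (uhec_GL_det τ.val)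
      · rw [HsE_mul_apply]
        refine dvd_add (Dvd.dvd.mul_right τ.2 _) ?_
        have e : (PM π) 1 0 = 0 := rfl
        rw [e, mul_zero]
        exact dvd_zero _
    obtain ⟨x, γ, hγ, hxγ⟩ := S.cover _ hA
    have hβ2 : β = S.D x * (γ * β') := by rw [hτ, hxγ, mul_assoc]
    have hB : TD N π' (γ * β') := by
      refine ⟨?_, ?_⟩
      · have h1 : β.det = (S.D x).det * (γ * β').det := by rw [hβ2, Matrix.det_mul]
        have h2 : Associated ((S.D x).det * (γ * β').det) (π * π') := by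
          rw [← h1]
          exact hβ.1
        exact Associated.of_mul_left h2 (S.mem x).1 (HsE_det_ne (S.mem x) hπ.ne_zero)
      · apply HsE_lev hπ hN (S.mem x)
        rw [← hβ2]
        exact hβ.2
    obtain ⟨y, γ', hγ', hyγ'⟩ := S'.cover _ hB
    refine ⟨(x, y), γ', hγ', ?_⟩
    change β = S.D x * S'.D y * γ'
    rw [hβ2, hyγ', mul_assoc]
  · rintro ⟨x, y⟩ ⟨x2, w⟩ γ h
    change S.D x2 * S'.D w = S.D x * S'.D y * γ at h
    have hdx : (S.D x).det ≠ 0 := HsE_det_ne (S.mem x) hπ.ne_zero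
    have h1 : (S'.D w).det • ((S.D x).adjugate * S.D x2) =
        (S.D x).det • (S'.D y * γ * (S'.D w).adjugate) := by
      have e1 : (S.D x).adjugate * (S.D x2 * S'.D w) * (S'.D w).adjugate =
          (S.D x).adjugate * (S.D x * S'.D y * γ) * (S'.D w).adjugate := by rw [h]
      have e2 : (S.D x).adjugate * (S.D x2 * S'.D w) * (S'.D w).adjugate =
          (S'.D w).det • ((S.D x).adjugate * S.D x2) := by
        rw [mul_assoc, mul_assoc (S.D x2), Matrix.mul_adjugate, Matrix.mul_smul, Matrix.mul_smul,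
          mul_one]
      have e3 : (S.D x).adjugate * (S.D x * S'.D y * γ) * (S'.D w).adjugate =
          (S.D x).det • (S'.D y * γ * (S'.D w).adjugate) := by
        rw [← mul_assoc, ← mul_assoc, Matrix.adjugate_mul, Matrix.smul_mul, Matrix.smul_mul,
          Matrix.smul_mul, one_mul]
      rw [← e2, e1, e3]
    obtain ⟨u, hu⟩ := (S.mem x).1
    have hdiv : ∀ i j, (S.D x).det ∣ ((S.D x).adjugate * S.D x2) i j := by
      intro i j
      have h2 := congrFun (congrFun h1 i) j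
      rw [Matrix.smul_apply, Matrix.smul_apply, smul_eq_mul, smul_eq_mul] at h2
      have h3 : π ∣ (S'.D w).det * ((S.D x).adjugate * S.D x2) i j := by
        rw [h2]
        exact Dvd.dvd.mul_right ((S.mem x).1.symm.dvd) _
      rcases hπ.dvd_or_dvd h3 with h4 | h4
      · exfalso
        apply hna
        exact (hπ.dvd_prime_iff_associated hπ').1 (h4.trans (S'.mem w).1.dvd)
      · exact ((S.mem x).1.dvd).trans h4
    choose g hg using hdiv
    have hx2 : S.D x2 = S.D x * Matrix.of g := by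
      have h5 : (S.D x).adjugate * S.D x2 = (S.D x).det • Matrix.of g := by
        ext i j
        rw [Matrix.smul_apply, smul_eq_mul, Matrix.of_apply]
        exact hg i j
      have h6 : (S.D x).det • S.D x2 = (S.D x).det • (S.D x * Matrix.of g) := by
        rw [← Matrix.mul_smul, ← h5, ← mul_assoc, Matrix.mul_adjugate, Matrix.smul_mul, one_mul]
      exact smul_right_injective _ hdx h6
    have hxx := S.sep x x2 _ hx2
    subst hxx
    have h7 : S'.D w = S'.D y * γ := by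
      apply uhec_cancel hdx
      rw [h, mul_assoc]
    rw [S'.sep y w γ h7]

/-- Proof.  Let `γ P.D z = P.D (y z) c z`.  Take steps `y1, c1` of `S` at `γ` and, for every `x`, steps
`y2 x, c2 x` of `S'` at `c1 x`: `γ D x D' w = D (y1 x) c1 x D' w = D (y1 x) D' (y2 x w) c2 x w`.  By
`P.sep` `y (x, w) = (y1 x, y2 x w)` and `c (x, w) = c2 x w` (`det ≠ 0`: `m, m' ≠ 0`).  Hence
`Σ_z h (c z) = Σ_x Σ_w h (c2 x w) = Σ_x h' (c1 x) = h'' γ`. -/
theorem opv_comp {O : Type} [CommRing O] [IsDomain O] {N m m' : O} (hm : m ≠ 0) (hm' : m' ≠ 0)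
    {X Y : Type} [Fintype X] [Fintype Y] (S : HSys N m X) (S' : HSys N m' Y)
    (P : HSys N (m * m') (X × Y)) (hP : ∀ z, P.D z = S.D z.1 * S'.D z.2)
    {h h' h'' : Gam0 N → FF} (H' : Opv S' h h') (H : Opv S h' h'') : Opv P h h'' := by
  intro γ y c hyc
  obtain ⟨y1, c1, h1⟩ := step_ex S γ
  have h2 := fun x => step_ex S' (c1 x)
  choose y2 c2 h2 using h2
  rw [H γ y1 c1 h1, Fintype.sum_prod_type]
  refine Finset.sum_congr rfl fun x _ => ?_
  rw [H' (c1 x) (y2 x) (c2 x) (h2 x)]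
  refine Finset.sum_congr rfl fun w _ => ?_
  have h3 : P.D (y (x, w)) * (c (x, w)).val.val =
      P.D (y1 x, y2 x w) * (c2 x w).val.val := by
    rw [← hyc, hP, hP]
    change γ.val.val * (S.D x * S'.D w) = S.D (y1 x) * S'.D (y2 x w) * (c2 x w).val.val
    rw [← mul_assoc, h1, mul_assoc, h2, mul_assoc]
  have h4 : P.D (y (x, w)) = P.D (y1 x, y2 x w) *
      ((c2 x w).val.val * ((c (x, w)).val⁻¹).val) := by
    rw [← mul_assoc, ← h3, mul_assoc, uhec_mul_inv, mul_one]
  have h5 := P.sep _ _ _ h4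
  rw [← h5] at h3
  have h6 := uhec_cancel (HsE_det_ne (P.mem _) (mul_ne_zero hm hm')) h3
  have h7 : c (x, w) = c2 x w := Subtype.ext (Units.ext h6)
  rw [h7]

end QTW
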