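import Pool.Agent.QTW.HsD
import Pool.Agent.QTW.HsE

/-!
# HsF: relations between Hecke operators (size 3)
-/

open Matrix

namespace QTW

open SerreE SerreK SerreU

private theorem hsf_ext {O : Type} [CommRing O] {N : O} {h h' : HY N} (H : h.val = h'.val) :
    h = h' := Subtype.ext (p := fun x => x ∈ SerreK.H N) H

private theorem hsf_gext {O : Type} [CommRing O] {N : O} {a b : Gam0 N}
    (H : a.val.val = b.val.val) : a = b := Subtype.ext (Units.ext H)

/-- steps of a Hecke system are unique -/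
private theorem hsf_steps {O : Type} [CommRing O] [IsDomain O] {N m : O} (hm : m ≠ 0) {X : Type}
    (S : HSys N m X) (γ : Gam0 N) (y y' : X → X) (c c' : X → Gam0 N)
    (h : ∀ x, γ.val.val * S.D x = S.D (y x) * (c x).val.val)
    (h' : ∀ x, γ.val.val * S.D x = S.D (y' x) * (c' x).val.val) (x : X) : c x = c' x := by
  have h1 : S.D (y x) * (c x).val.val = S.D (y' x) * (c' x).val.val := by rw [← h x, h' x]
  have hi : ∀ g : Gam0 N, g.val.val * (g⁻¹).val.val = 1 := fun g => Units.mul_inv g.val
  have h2 : S.D (y' x) = S.D (y x) * ((c x).val.val * ((c' x)⁻¹).val.val) := by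
    rw [← mul_assoc, h1, mul_assoc, hi, mul_one]
  have h3 : y x = y' x := S.sep _ _ _ h2
  rw [h3] at h1
  have hdet : (S.D (y' x)).det ≠ 0 := by
    intro h0
    have h4 := (S.mem (y' x)).1
    rw [h0] at h4
    exact hm ((Associated.comm.1 h4).eq_zero_iff.2 rfl)
  apply hsf_gext
  have h5 : (S.D (y' x)).adjugate * (S.D (y' x) * (c x).val.val) =
      (S.D (y' x)).adjugate * (S.D (y' x) * (c' x).val.val) := by rw [h1]
  rw [← mul_assoc, ← mul_assoc, Matrix.adjugate_mul, smul_mul_assoc, smul_mul_assoc, one_mul,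
    one_mul] at h5
  exact smul_right_injective _ hdet h5

private theorem hsf_ex {O : Type} [CommRing O] [IsDomain O] {N m : O} (hm : m ≠ 0) {X : Type}
    [Fintype X] (S : HSys N m X) (h : Gam0 N → FF) : ∃ h' : Gam0 N → FF, Opv S h h' := by
  choose Y C hYC using fun γ : Gam0 N => step_ex S γ
  refine ⟨fun γ => ∑ x, h (C γ x), ?_⟩
  intro γ y c hs
  refine Finset.sum_congr rfl fun x _ => ?_
  rw [hsf_steps hm S γ (Y γ) y (C γ) c (hYC γ) hs x]

private theorem hsf_notdvd {O : Type} [CommRing O] [IsDomain O] [IsPrincipalIdealRing O] [FinQuot O] {N : O} (π : GP N) : ¬ π.el ∣ N :=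
  fun h => π.not_dvd (dvd_mul_of_dvd_right h 2)

private theorem hsf_opv_congr {O : Type} [CommRing O] {N m m' : O} {X : Type} [Fintype X]
    (S : HSys N m X) (S' : HSys N m' X) (hD : ∀ x, S'.D x = S.D x) {h h' : Gam0 N → FF}
    (H : Opv S h h') : Opv S' h h' := by
  intro γ y c hs
  refine H γ y c fun x => ?_
  rw [← hD, ← hD]
  exact hs x

section

variable {O : Type} [CommRing O] [IsDomain O] [IsPrincipalIdealRing O] [FinQuot O] {N : O}

/-- associated primes have the same Hecke operator: `hlib` for `π.el`, `hsys_assoc`, `opv_T` for both,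
`opv_unique`. -/
theorem T_assoc (π π' : GP N) (hA : Associated π.el π'.el) (h : HY N) :
    T N π.el π.ne h = T N π'.el π'.ne h := by
  have hf := uhx_finite N π.el π.ne
  have := Fintype.ofFinite (UHX N π.el)
  obtain ⟨S, -⟩ := hlib N π.el π.prime (hsf_notdvd π)
  obtain ⟨S', hS'⟩ := hsys_assoc hA S
  have h1 := opv_T π S h
  have h2 := hsf_opv_congr S' S (fun x => (hS' x).symm) (opv_T π' S' h)
  exact hsf_ext (opv_unique S S h.mul h1 h2)

/-- the Hecke operators commute: if `π, π'` are associated use `T_assoc` (for `h` and for `T h`);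
otherwise `hprod` in both orders, `opv_comp`, `opv_T`, `opv_unique` (and `mul_comm`). -/
theorem T_comm (π π' : GP N) (h : HY N) :
    T N π.el π.ne (T N π'.el π'.ne h) = T N π'.el π'.ne (T N π.el π.ne h) := by
  by_cases hA : Associated π.el π'.el
  · rw [T_assoc π π' hA, T_assoc π π' hA]
  · have hf := uhx_finite N π.el π.ne
    have hf' := uhx_finite N π'.el π'.ne
    have := Fintype.ofFinite (UHX N π.el)
    have := Fintype.ofFinite (UHX N π'.el)
    obtain ⟨S, -⟩ := hlib N π.el π.prime (hsf_notdvd π)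
    obtain ⟨S', -⟩ := hlib N π'.el π'.prime (hsf_notdvd π')
    obtain ⟨P, hP⟩ := hprod π.prime π'.prime hA (hsf_notdvd π) S S'
    obtain ⟨P', hP'⟩ := hprod π'.prime π.prime (fun h => hA h.symm) (hsf_notdvd π') S' S
    have h1 := opv_comp π.ne π'.ne S S' P hP (opv_T π' S' h) (opv_T π S (T N π'.el π'.ne h))
    have h2 := opv_comp π'.ne π.ne S' S P' hP' (opv_T π S h) (opv_T π' S' (T N π.el π.ne h))
    obtain ⟨P2, hP2⟩ := hsys_assoc (Associated.of_eq (mul_comm π'.el π.el)) P'
    have h3 := hsf_opv_congr P' P2 hP2 h2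
    exact hsf_ext (opv_unique P P2 h.mul h1 h3)

/-- for non-associated primes and any system of type `π π'` (`hprod`, `opv_comp`, `opv_T`, and
independence of the system as in the proof of `opv_T`) -/
theorem opv_TT (π π' : GP N) (hna : ¬ Associated π.el π'.el) {X : Type} [Fintype X]
    (S : HSys N (π.el * π'.el) X) (h : HY N) :
    Opv S h.val (T N π.el π.ne (T N π'.el π'.ne h)).val := by
  have hf := uhx_finite N π.el π.ne
  have hf' := uhx_finite N π'.el π'.ne
  have := Fintype.ofFinite (UHX N π.el)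
  have := Fintype.ofFinite (UHX N π'.el)
  obtain ⟨S1, -⟩ := hlib N π.el π.prime (hsf_notdvd π)
  obtain ⟨S', -⟩ := hlib N π'.el π'.prime (hsf_notdvd π')
  obtain ⟨P, hP⟩ := hprod π.prime π'.prime hna (hsf_notdvd π) S1 S'
  have h1 := opv_comp π.ne π'.ne S1 S' P hP (opv_T π' S' h) (opv_T π S1 (T N π'.el π'.ne h))
  obtain ⟨h', hh'⟩ := hsf_ex (mul_ne_zero π.ne π'.ne) S h.val
  have h2 := opv_unique S P h.mul hh' h1
  rwa [h2] at hh'

end

/-- Complex conjugation: let `S` be a system for `π` (`hlib`); the conjugates `cjM (D x)` form a system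
`S̄` for `π̄`.  If `γ D̄ x = D̄ (y x) c x` then `cjG γ * D x = D (y x) cjG (c x)`, so
`(T_π h) (cjG γ) = Σ h (cjG (c x))`, which says `Opv S̄ (cjH h).val (cjH (T_π h)).val`; compare with
`opv_T` for `S̄` (`opv_unique`). -/
theorem cj_T {n M : ℕ} [IsPrincipalIdealRing (OK n)] (π : GP (M : OK n)) (h : HY (M : OK n)) :
    cjH (T (M : OK n) π.el π.ne h) = T (M : OK n) (cjP π).el (cjP π).ne (cjH h) := by
  have hf := uhx_finite (M : OK n) π.el π.ne
  have := Fintype.ofFinite (UHX (M : OK n) π.el)
  obtain ⟨S, -⟩ := hlib (M : OK n) π.el π.prime (hsf_notdvd π)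
  have hdv : ∀ x : OK n, (M : OK n) ∣ x → (M : OK n) ∣ star x := by
    rintro x ⟨c, hc⟩
    exact ⟨star c, by rw [hc, star_mul', star_cast]⟩
  have has : ∀ a b : OK n, Associated a b → Associated (star a) (star b) := by
    rintro a b ⟨u, hu⟩
    have h1 : IsUnit (star (u : OK n)) := u.isUnit.star
    refine ⟨h1.unit, ?_⟩
    rw [IsUnit.unit_spec, ← star_mul', hu]
  let S' : HSys (M : OK n) (cjP π).el (UHX (M : OK n) π.el) :=
    { D := fun x => cjM (S.D x)
      mem := fun x => by
        refine ⟨?_, hdv _ (S.mem x).2⟩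
        rw [cjM_det]
        exact has _ _ (S.mem x).1
      cover := fun β hβ => by
        have h1 : TD (M : OK n) π.el (cjM β) := by
          refine ⟨?_, hdv _ hβ.2⟩
          rw [cjM_det]
          have h2 := has _ _ hβ.1
          rwa [cjP_el, star_star] at h2
        obtain ⟨x, γ, hγ, hx⟩ := S.cover _ h1
        refine ⟨x, cjM γ, ⟨?_, hdv _ hγ.2⟩, ?_⟩
        · rw [cjM_det]
          exact hγ.1.star
        · rw [← cjM_mul, ← hx, cjM_cjM]
      sep := fun x y γ h => by
        refine S.sep x y (cjM γ) ?_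
        have h1 := congrArg cjM h
        rwa [cjM_cjM, cjM_mul, cjM_cjM] at h1 }
  have h1 : Opv S' (cjH h).val (cjH (T (M : OK n) π.el π.ne h)).val := by
    intro γ y c hs
    have h2 := opv_T π S h (cjG γ) y (fun x => cjG (c x)) (fun x => by
      have h3 := congrArg cjM (hs x)
      rw [cjM_mul, cjM_mul] at h3
      change cjM γ.val.val * cjM (cjM (S.D x)) = cjM (cjM (S.D (y x))) * cjM (c x).val.val at h3
      rw [cjM_cjM, cjM_cjM] at h3
      exact h3)
    exact h2
  have h2 := opv_T (cjP π) S' (cjH h)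
  exact hsf_ext (opv_unique S' S' (cjH h).mul h1 h2)

end QTW
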