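import Pool.Agent.QTW.Base

/-!
# TrA: transformations of hermitian forms, formal part (size 3)
`Tr p α h k : αᵀ * h.mat * α.map star = (p : OK n) • k.mat`; `cjM α = α.map star` (by `rfl`).
-/

open Matrix

namespace QTW

open SerreE SerreK SerreU

variable {n M : ℕ}

private theorem TrA_ne {p : ℕ} (hp : p ≠ 0) : (p : OK n) ≠ 0 := by
  intro h
  have h1 := congrArg (fun x : OK n => x.re) h
  simp at h1
  exact hp h1

private theorem TrA_int {a b : ℤ} (h : (a : OK n) = (b : OK n)) : a = b := by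
  have h1 := congrArg (fun x : OK n => x.re) h
  simpa using h1

private theorem TrA_smul {c : OK n} (hc : c ≠ 0) {x y : Mat n} (h : c • x = c • y) : x = y := by
  ext1 i j
  have h1 := congrFun (congrFun h i) j
  simp only [Matrix.smul_apply, smul_eq_mul] at h1
  exact mul_left_cancel₀ hc h1

private theorem TrA_w (h : Herm n M) : !![0, 1; -1, 0] * h.mat = h.gm := by
  ext1 i j
  fin_cases i <;> fin_cases j <;>
    simp [Herm.mat, Herm.gm, Matrix.mul_apply, Fin.sum_univ_two]

private theorem TrA_wt (α : Mat n) : !![0, 1; -1, 0] * αᵀ = α.adjugate * !![0, 1; -1, 0] := by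
  rw [Matrix.adjugate_fin_two]
  ext1 i j
  fin_cases i <;> fin_cases j <;>
    simp [Matrix.mul_apply, Fin.sum_univ_two]

private theorem TrA_winj {x y : Mat n} (h : !![0, 1; -1, 0] * x = !![0, 1; -1, 0] * y) :
    x = y := by
  have h1 := congrArg (fun z : Mat n => !![0, -1; 1, 0] * z) h
  simp only [← mul_assoc] at h1
  have h2 : (!![0, -1; 1, 0] * !![0, 1; -1, 0] : Mat n) = 1 := by
    ext1 i j
    fin_cases i <;> fin_cases j <;>
      simp [Matrix.mul_apply, Fin.sum_univ_two]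
  rwa [h2, one_mul, one_mul] at h1

private theorem TrA_iff (p : ℕ) (α : Mat n) (h k : Herm n M) :
    Tr p α h k ↔ α.adjugate * (h.gm * cjM α) = (p : OK n) • k.gm := by
  have e1 : !![0, 1; -1, 0] * (αᵀ * h.mat * α.map star) = α.adjugate * (h.gm * cjM α) := by
    rw [← mul_assoc, ← mul_assoc, TrA_wt, mul_assoc α.adjugate, TrA_w, mul_assoc]
    rfl
  have e2 : !![0, 1; -1, 0] * ((p : OK n) • k.mat) = (p : OK n) • k.gm := by
    rw [Matrix.mul_smul, TrA_w]
  unfold Tr
  rw [← e1, ← e2]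
  exact ⟨fun h1 => by rw [h1], fun h1 => TrA_winj h1⟩

/-- `γ_h = w h` with `w = [[0, 1], [-1, 0]]`, and `w αᵀ = adj(α) w`.  So
`w (αᵀ h ᾱ) = adj(α) γ_h ᾱ`; `w` is invertible, so `Tr p α h k` iff `adj(α) γ_h ᾱ = p γ_k`; multiply by
`α` (resp. by `adj(α)` and cancel `det α ≠ 0`).  (`OK n` is a domain: PELL.lean.) -/
theorem tr_iff (p : ℕ) (α : Mat n) (h k : Herm n M) (hα : α.det ≠ 0) :
    Tr p α h k ↔ α.det • (h.gm * cjM α) = (p : OK n) • (α * k.gm) := by
  rw [TrA_iff]
  constructor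
  · intro h1
    have h2 := congrArg (fun z : Mat n => α * z) h1
    simp only [← mul_assoc, Matrix.mul_smul] at h2
    rw [Matrix.mul_adjugate, Matrix.smul_mul, Matrix.smul_mul, one_mul] at h2
    exact h2
  · intro h1
    have h2 := congrArg (fun z : Mat n => α.adjugate * z) h1
    simp only [Matrix.mul_smul, ← mul_assoc] at h2
    rw [Matrix.adjugate_mul, Matrix.smul_mul, one_mul, smul_comm (p : OK n) α.det] at h2
    have h3 := TrA_smul hα h2
    rwa [mul_assoc] at h3

/-- `(αβ)ᵀ h (αβ)‾ = βᵀ (αᵀ h ᾱ) β̄ = p βᵀ k β̄ = p q l`. -/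
theorem tr_mul {p q : ℕ} {α β : Mat n} {h k l : Herm n M} (h1 : Tr p α h k) (h2 : Tr q β k l) :
    Tr (p * q) (α * β) h l := by
  unfold Tr at *
  have e1 : (α * β)ᵀ * h.mat * (α * β).map star =
      βᵀ * (αᵀ * h.mat * α.map star) * β.map star := by
    have e2 : (α * β).map star = α.map star * β.map star := cjM_mul α β
    rw [e2, Matrix.transpose_mul]
    simp only [mul_assoc]
  rw [e1, h1, Matrix.mul_smul, Matrix.smul_mul, h2, smul_smul]
  push_cast
  rfl

/-- compare the entries of `p • k.mat = p • k'.mat` (cancel `p`, `Int.cast` into `OK n` is injective). -/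
theorem tr_unique {p : ℕ} (hp : p ≠ 0) {α : Mat n} {h k k' : Herm n M} (h1 : Tr p α h k)
    (h2 : Tr p α h k') : k = k' := by
  unfold Tr at h1 h2
  have h3 := TrA_smul (TrA_ne hp) (h1.symm.trans h2)
  obtain ⟨A, B, C, q1, q2, q3⟩ := k
  obtain ⟨A', B', C', q1', q2', q3'⟩ := k'
  have a1 := congrFun (congrFun h3 0) 0
  have a2 := congrFun (congrFun h3 0) 1
  have a3 := congrFun (congrFun h3 1) 1
  simp only [Herm.mat, Matrix.of_apply, Matrix.cons_val', Matrix.cons_val_zero,
    Matrix.cons_val_one, Matrix.cons_val_fin_one] at a1 a2 a3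
  have b1 := TrA_int a1
  have b3 := TrA_int a3
  subst b1 b3 a2
  rfl

/-- `p gᵀ k ḡ = (αg)ᵀ h (αg)‾ = p l`; cancel `p`. -/
theorem tr_cancel {p : ℕ} (hp : p ≠ 0) {α g : Mat n} {h k l : Herm n M} (h1 : Tr p α h k)
    (h2 : Tr p (α * g) h l) : Tr 1 g k l := by
  unfold Tr at *
  have e1 : (α * g)ᵀ * h.mat * (α * g).map star =
      gᵀ * (αᵀ * h.mat * α.map star) * g.map star := by
    have e2 : (α * g).map star = α.map star * g.map star := cjM_mul α g
    rw [e2, Matrix.transpose_mul]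
    simp only [mul_assoc]
  rw [e1, h1, Matrix.mul_smul, Matrix.smul_mul] at h2
  rw [TrA_smul (TrA_ne hp) h2]
  simp

/-- If `det α` is `p` up to a unit: `adj(α)ᵀ k adj(α)‾ = p h`.  (`p adj(α)ᵀ k adj(α)‾ =
(α adj α)ᵀ h (α adj α)‾ = det(α) star(det α) h = p² h`: `det α = p u`, `u ū = 1` by `mul_star_eq` and
`nrm_isUnit`, TSQM.lean.) -/
theorem tr_adj {p : ℕ} (hp : p ≠ 0) {α : Mat n} {h k : Herm n M}
    (hd : Associated α.det (p : OK n)) (h1 : Tr p α h k) : Tr p α.adjugate k h := by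
  obtain ⟨u, hu⟩ := hd
  have hn : α.det * star α.det = (p : OK n) * (p : OK n) := by
    rw [mul_star_eq]
    have h3 : nrm α.det = (p : ℤ) ^ 2 := by
      have h4 : nrm (α.det * (u : OK n)) = nrm (p : OK n) := by rw [hu]
      rw [nrm_mul, nrm_isUnit.1 u.isUnit, mul_one, nrm_natCast] at h4
      exact h4
    rw [h3]
    push_cast
    ring
  unfold Tr at *
  apply TrA_smul (TrA_ne hp)
  have e2 : (α * α.adjugate).map star = α.map star * α.adjugate.map star :=
    cjM_mul α α.adjugate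
  have e3 : (p : OK n) • ((α.adjugate)ᵀ * k.mat * α.adjugate.map star) =
      (α * α.adjugate)ᵀ * h.mat * (α * α.adjugate).map star := by
    rw [← Matrix.smul_mul, ← Matrix.mul_smul, ← h1, e2, Matrix.transpose_mul]
    simp only [mul_assoc]
  rw [e3, Matrix.mul_adjugate]
  have e4 : (α.det • (1 : Mat n)).map star = (star α.det) • (1 : Mat n) := by
    ext1 i j
    fin_cases i <;> fin_cases j <;> simp
  rw [e4, Matrix.transpose_smul, Matrix.transpose_one, Matrix.smul_mul, one_mul,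
    Matrix.mul_smul, Matrix.smul_mul, mul_one, smul_smul, smul_smul, mul_comm (star α.det), hn]

/-- from `tr_mul` with `q = 1` -/
theorem tr_mul_one {p : ℕ} {α g : Mat n} {h k l : Herm n M} (h1 : Tr p α h k) (h2 : Tr 1 g k l) :
    Tr p (α * g) h l := by
  have := tr_mul h1 h2
  rwa [mul_one] at this

/-- from `tr_mul` with `p = 1` -/
theorem tr_one_mul {p : ℕ} {α g : Mat n} {h k l : Herm n M} (h1 : Tr 1 g h k) (h2 : Tr p α k l) :
    Tr p (g * α) h l := by
  have := tr_mul h1 h2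
  rwa [one_mul] at this

end QTW
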