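import Pool.Agent.QTW.TrA

/-!
# TrB: transformations of hermitian forms, existence and equivalence (size 4)
-/

open Matrix

namespace QTW

open SerreE SerreK SerreU

variable {n M : ℕ}

private theorem TrB_ne {p : ℕ} (hp : p ≠ 0) : (p : OK n) ≠ 0 := by
  intro h
  have h1 := congrArg (fun x : OK n => x.re) h
  simp at h1
  exact hp h1

private theorem TrB_int {a b : ℤ} (h : (a : OK n) = (b : OK n)) : a = b := by
  have h1 := congrArg (fun x : OK n => x.re) h
  simpa using h1

private theorem TrB_cop {p : ℕ} (hc : p.Coprime M) : IsCoprime (p : OK n) (M : OK n) := by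
  have h1 : IsCoprime (p : ℤ) (M : ℤ) := Nat.isCoprime_iff_coprime.2 hc
  have h2 := h1.map (Int.castRingHom (OK n))
  simpa using h2

private theorem TrB_real {x : OK n} (h : star x = x) : x = ((x.re : ℤ) : OK n) := by
  have h1 := congrArg (fun x : OK n => x.im) h
  simp at h1
  have h2 : x.im = 0 := by omega
  ext
  · simp
  · simpa using h2

/-- `α * g = β` with `α, β` of type `TD M p`, `p` prime to `M`: then `g ∈ Γ₀(M)`.

Proof.  `det g` is a unit (`det β = det α det g`, both are `p` up to units, `p ≠ 0` because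
`hp`).  `M ∣ β₁₀ = α₁₀ g₀₀ + α₁₁ g₁₀`, so `M ∣ α₁₁ g₁₀`; `α₁₁` is prime to `M` since
`det α = α₀₀ α₁₁ - α₀₁ α₁₀` is `p` up to a unit, `M ∣ α₁₀` and `p` is prime to `M`
(`IsCoprime (p : OK n) (M : OK n)` from `Nat.Coprime`). -/
theorem ta_of_td {p : ℕ} (hp : p ≠ 0) (hc : p.Coprime M) {α g : Mat n}
    (ha : TD (M : OK n) (p : OK n) α) (hb : TD (M : OK n) (p : OK n) (α * g)) :
    TA (M : OK n) g := by
  obtain ⟨⟨u, hu⟩, ha2⟩ := ha
  obtain ⟨⟨v, hv⟩, hb2⟩ := hb
  have hd0 : α.det ≠ 0 := by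
    intro h
    rw [h, zero_mul] at hu
    exact TrB_ne hp hu.symm
  rw [Matrix.det_mul] at hv
  refine ⟨?_, ?_⟩
  · have h1 : α.det * (g.det * v) = α.det * u := by rw [← mul_assoc, hv, hu]
    have h2 := mul_left_cancel₀ hd0 h1
    exact isUnit_of_mul_isUnit_left (h2 ▸ u.isUnit)
  · rw [Matrix.mul_apply, Fin.sum_univ_two] at hb2
    have h1 : (M : OK n) ∣ α 1 1 * g 1 0 :=
      (dvd_add_right (Dvd.dvd.mul_right ha2 _)).1 hb2
    have h2 : (M : OK n) ∣ α.det * g 1 0 := by
      have h3 : α.det * g 1 0 = α 0 0 * (α 1 1 * g 1 0) - α 1 0 * (α 0 1 * g 1 0) := by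
        rw [Matrix.det_fin_two]; ring
      rw [h3]
      exact dvd_sub (Dvd.dvd.mul_left h1 _) (Dvd.dvd.mul_right ha2 _)
    have h3 : (M : OK n) ∣ (p : OK n) * g 1 0 := by
      rw [← hu]
      have : α.det * (u : OK n) * g 1 0 = (u : OK n) * (α.det * g 1 0) := by ring
      rw [this]
      exact Dvd.dvd.mul_left h2 _
    exact (TrB_cop hc).symm.dvd_of_dvd_mul_left h3

/-- `det`, lower left entry. -/
theorem td_mul_ta {m : OK n} {α g : Mat n} (ha : TD (M : OK n) m α) (hg : TA (M : OK n) g) :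
    TD (M : OK n) m (α * g) := by
  refine ⟨?_, ?_⟩
  · rw [Matrix.det_mul]
    obtain ⟨v, hv⟩ := hg.1
    rw [← hv]
    exact (associated_mul_unit_left _ _ v.isUnit).trans ha.1
  · rw [Matrix.mul_apply, Fin.sum_univ_two]
    exact dvd_add (Dvd.dvd.mul_right ha.2 _) (Dvd.dvd.mul_left hg.2 _)

theorem ta_mul_td {m : OK n} {α g : Mat n} (hg : TA (M : OK n) g) (ha : TD (M : OK n) m α) :
    TD (M : OK n) m (g * α) := by
  refine ⟨?_, ?_⟩
  · rw [Matrix.det_mul]
    obtain ⟨v, hv⟩ := hg.1
    rw [← hv]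
    exact (associated_unit_mul_left _ _ v.isUnit).trans ha.1
  · rw [Matrix.mul_apply, Fin.sum_univ_two]
    exact dvd_add (Dvd.dvd.mul_right hg.2 _) (Dvd.dvd.mul_left ha.2 _)

theorem td_adj {m : OK n} {α : Mat n} (ha : TD (M : OK n) m α) : TD (M : OK n) m α.adjugate := by
  have hd : α.adjugate.det = α.det := by
    rw [Matrix.adjugate_fin_two, Matrix.det_fin_two, Matrix.det_fin_two]
    simp only [Matrix.of_apply, Matrix.cons_val', Matrix.cons_val_zero, Matrix.cons_val_one,
      Matrix.cons_val_fin_one]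
    ring
  refine ⟨by rw [hd]; exact ha.1, ?_⟩
  rw [Matrix.adjugate_fin_two]
  simp only [Matrix.of_apply, Matrix.cons_val', Matrix.cons_val_zero, Matrix.cons_val_one,
    Matrix.cons_val_fin_one]
  exact (dvd_neg).2 ha.2

/-- every `g` with `TA M g` is (the matrix of) an element of `Γ₀(M)`
(`⟨Matrix.GeneralLinearGroup.mk'' g _, _⟩`). -/
theorem ta_gl {g : Mat n} (hg : TA (M : OK n) g) : ∃ γ : G0 n M, γ.val.val = g :=
  ⟨⟨Matrix.GeneralLinearGroup.mk'' g hg.1, hg.2⟩, rfl⟩

/-- Existence of the transformed form.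

Proof.  Let `H = αᵀ h ᾱ`, a hermitian matrix (`star (H i j) = H j i`), `H i j = p x i j`.  Cancelling
`p`, `star (x i j) = x j i`; in particular `x 0 0` and `x 1 1` are rational integers (`x = star x`
means `im x = 0`).  `det H = star (det α) * det α * det h.mat = p²` (`det α = u p`, `u` a unit,
`nrm u = 1`), so `x00 x11 - nrm (x01) = 1`.  Positivity: with `α = [[a, b], [c, d]]`,
`A H00 = nrm (A a + B̄ c) + nrm c > 0` (identity using `AC - nrm B = 1`; if it is `0` then `c = 0`,
`a = 0`, `det α = 0`), so `x00 > 0`.  Level: `M ∣ H00 = a ā A + a c̄ B + c ā B̄ + c c̄ C` in `OK n`, since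
`M ∣ A`, `M ∣ c`, so `M ∣ p x00`, and `p` is prime to `M`, so `M ∣ x00` in `OK n`, hence in `ℤ`. -/
theorem tr_exists {p : ℕ} (hp : p ≠ 0) (hc : p.Coprime M) (α : Mat n) (h : Herm n M)
    (ha : TD (M : OK n) (p : OK n) α)
    (hdiv : ∀ i j, (p : OK n) ∣ (αᵀ * h.mat * cjM α) i j) : ∃ k : Herm n M, Tr p α h k := by
  have hp0 : (p : OK n) ≠ 0 := TrB_ne hp
  obtain ⟨hd, hl⟩ := ha
  set H : Mat n := αᵀ * h.mat * cjM α with hH
  have hd0 : α.det ≠ 0 := by
    obtain ⟨u, hu⟩ := hd
    intro h0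
    rw [h0, zero_mul] at hu
    exact hp0 hu.symm
  set a := α 0 0 with ha'
  set b := α 0 1 with hb'
  set c := α 1 0 with hc'
  set d := α 1 1 with hd'
  set A : OK n := (h.A : OK n) with hA
  set B : OK n := h.B with hB
  set C : OK n := (h.C : OK n) with hC
  have sA : star A = A := star_icast h.A
  have sC : star C = C := star_icast h.C
  have hABC : A * C = 1 + B * star B := by
    have h3 : ((h.A * h.C - nrm h.B : ℤ) : OK n) = 1 := by rw [h.det]; push_cast; rfl
    push_cast at h3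
    rw [← mul_star_eq h.B] at h3
    linear_combination h3
  have H00 : H 0 0 = (a * A + c * star B) * star a + (a * B + c * C) * star c := by
    simp [hH, Herm.mat, cjM, Matrix.mul_apply, Fin.sum_univ_two, ha', hc', hA, hB, hC]
  have H01 : H 0 1 = (a * A + c * star B) * star b + (a * B + c * C) * star d := by
    simp [hH, Herm.mat, cjM, Matrix.mul_apply, Fin.sum_univ_two, ha', hc', hb', hd', hA, hB, hC]
  have H10 : H 1 0 = (b * A + d * star B) * star a + (b * B + d * C) * star c := by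
    simp [hH, Herm.mat, cjM, Matrix.mul_apply, Fin.sum_univ_two, ha', hc', hb', hd', hA, hB, hC]
  have H11 : H 1 1 = (b * A + d * star B) * star b + (b * B + d * C) * star d := by
    simp [hH, Herm.mat, cjM, Matrix.mul_apply, Fin.sum_univ_two, hb', hd', hA, hB, hC]
  have s00 : star (H 0 0) = H 0 0 := by
    rw [H00]
    simp only [star_add, star_mul', star_star, sA, sC]
    ring
  have s11 : star (H 1 1) = H 1 1 := by
    rw [H11]
    simp only [star_add, star_mul', star_star, sA, sC]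
    ring
  have s01 : star (H 0 1) = H 1 0 := by
    rw [H01, H10]
    simp only [star_add, star_mul', star_star, sA, sC]
    ring
  obtain ⟨x00, e00⟩ := hdiv 0 0
  obtain ⟨x01, e01⟩ := hdiv 0 1
  obtain ⟨x10, e10⟩ := hdiv 1 0
  obtain ⟨x11, e11⟩ := hdiv 1 1
  have r00 : star x00 = x00 := by
    apply mul_left_cancel₀ hp0
    rw [← e00, ← s00, e00, star_mul', star_cast]
  have r11 : star x11 = x11 := by
    apply mul_left_cancel₀ hp0
    rw [← e11, ← s11, e11, star_mul', star_cast]
  have r01 : star x01 = x10 := by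
    apply mul_left_cancel₀ hp0
    rw [← e10, ← s01, e01, star_mul', star_cast]
  have i00 := TrB_real r00
  have i11 := TrB_real r11
  -- the determinant
  have hnd : α.det * star α.det = (p : OK n) * (p : OK n) := by
    obtain ⟨u, hu⟩ := hd
    rw [mul_star_eq]
    have h3 : nrm α.det = (p : ℤ) ^ 2 := by
      have h4 : nrm (α.det * (u : OK n)) = nrm (p : OK n) := by rw [hu]
      rw [nrm_mul, nrm_isUnit.1 u.isUnit, mul_one, nrm_natCast] at h4
      exact h4
    rw [h3]
    push_cast
    ring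
  have hdet : x00 * x11 - x01 * star x01 = 1 := by
    apply mul_left_cancel₀ (mul_ne_zero hp0 hp0)
    have h1 : (p : OK n) * (p : OK n) * (x00 * x11 - x01 * star x01) =
        H 0 0 * H 1 1 - H 0 1 * H 1 0 := by
      rw [e00, e11, e01, e10, ← r01]
      ring
    rw [h1, mul_one, ← hnd, H00, H01, H10, H11, Matrix.det_fin_two, ← ha', ← hb', ← hc', ← hd']
    simp only [star_sub, star_mul']
    linear_combination ((a * d - b * c) * (star a * star d - star b * star c)) * hABC
  have hdetZ : x00.re * x11.re - nrm x01 = 1 := by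
    apply TrB_int (n := n)
    push_cast
    rw [← i00, ← i11, ← mul_star_eq]
    exact hdet
  -- positivity
  have hposE : h.A * ((p : ℤ) * x00.re) = nrm (A * a + star B * c) + nrm c := by
    apply TrB_int (n := n)
    push_cast
    rw [← i00, ← mul_star_eq, ← mul_star_eq, ← e00, H00]
    simp only [star_add, star_mul', star_star, sA]
    linear_combination (c * star c) * hABC
  have hpos : 0 < x00.re := by
    have h1 : 0 < nrm (A * a + star B * c) + nrm c := by
      by_cases hc0 : c = 0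
      · have ha0 : a ≠ 0 := by
          intro ha0
          apply hd0
          rw [Matrix.det_fin_two, ← ha', ← hc', ha0, hc0]
          ring
        have hA0 : A ≠ 0 := by
          intro h0
          have h2 : h.A = 0 := TrB_int (n := n) (by rw [← hA, h0]; simp)
          have := h.pos
          omega
        rw [hc0]
        have h2 : A * a + star B * 0 ≠ 0 := by
          rw [mul_zero, add_zero]
          exact mul_ne_zero hA0 ha0
        have h3 := nrm_pos h2
        have h4 := nrm_nonneg (0 : OK n)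
        omega
      · have h2 := nrm_pos hc0
        have h3 := nrm_nonneg (A * a + star B * c)
        omega
    rw [← hposE] at h1
    have h2 : 0 < (p : ℤ) * x00.re := (mul_pos_iff_of_pos_left h.pos).1 h1
    have h3 : 0 < (p : ℤ) := by exact_mod_cast Nat.pos_of_ne_zero hp
    exact (mul_pos_iff_of_pos_left h3).1 h2
  -- the level
  have hlev : (M : ℤ) ∣ x00.re := by
    have hMA : (M : OK n) ∣ A := by
      obtain ⟨e, he⟩ := h.lev
      exact ⟨(e : OK n), by rw [hA, he]; push_cast; rfl⟩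
    have hMc : (M : OK n) ∣ star c := by
      obtain ⟨e, he⟩ := hl
      exact ⟨star e, by rw [he, star_mul', star_cast]⟩
    have h1 : (M : OK n) ∣ (p : OK n) * x00 := by
      rw [← e00, H00]
      refine dvd_add (Dvd.dvd.mul_right (dvd_add (Dvd.dvd.mul_left hMA _)
        (Dvd.dvd.mul_right hl _)) _) (Dvd.dvd.mul_left hMc _)
    obtain ⟨e, he⟩ := (TrB_cop hc).symm.dvd_of_dvd_mul_left h1
    have h2 := congrArg (fun x : OK n => x.re) he
    refine ⟨e.re, ?_⟩
    simpa using h2
  refine ⟨⟨x00.re, x01, x11.re, hpos, hdetZ, hlev⟩, ?_⟩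
  change H = (p : OK n) • (!![((x00.re : ℤ) : OK n), x01; star x01, ((x11.re : ℤ) : OK n)] : Mat n)
  ext1 i j
  fin_cases i <;> fin_cases j
  · change H 0 0 = (p : OK n) * ((x00.re : ℤ) : OK n)
    rw [← i00, e00]
  · exact e01
  · change H 1 0 = (p : OK n) * star x01
    rw [r01, e10]
  · change H 1 1 = (p : OK n) * ((x11.re : ℤ) : OK n)
    rw [← i11, e11]

/-- `p = 1` in `tr_exists` -/
theorem tr_exists_one (g : Mat n) (h : Herm n M) (hg : TA (M : OK n) g) :
    ∃ k : Herm n M, Tr 1 g h k ∧ HEq' h k := by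
  obtain ⟨k, hk⟩ := tr_exists one_ne_zero (Nat.coprime_one_left M) g h
    ⟨by rw [Nat.cast_one]; exact associated_one_iff_isUnit.2 hg.1, hg.2⟩
    (fun i j => by rw [Nat.cast_one]; exact one_dvd _)
  exact ⟨k, hk, g, hg, hk⟩

theorem heq_refl (h : Herm n M) : HEq' h h := by
  refine ⟨1, ⟨by rw [Matrix.det_one]; exact isUnit_one, by simp⟩, ?_⟩
  unfold Tr
  have e : (1 : Mat n).map star = 1 := cjM_one
  rw [e]
  simp

/-- `tr_adj` with `p = 1` -/
theorem heq_symm {h k : Herm n M} (H : HEq' h k) : HEq' k h := by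
  obtain ⟨g, hg, H⟩ := H
  have hg1 : Associated g.det ((1 : ℕ) : OK n) := by
    rw [Nat.cast_one]; exact associated_one_iff_isUnit.2 hg.1
  have h1 := td_adj (M := M) ⟨hg1, hg.2⟩
  refine ⟨g.adjugate, ⟨?_, h1.2⟩, tr_adj one_ne_zero hg1 H⟩
  have h2 := h1.1
  rw [Nat.cast_one] at h2
  exact associated_one_iff_isUnit.1 h2

theorem heq_trans {h k l : Herm n M} (H : HEq' h k) (H' : HEq' k l) : HEq' h l := by
  obtain ⟨g, hg, H⟩ := H
  obtain ⟨g', hg', H'⟩ := H'
  exact ⟨g * g', uhec_TA_mul hg hg', tr_mul_one H H'⟩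

/-- If `s` is in the stabiliser of `h` and `Tr 1 g h k` then `g⁻¹ s g = u adj(g) s g` (`u` a unit) is in
the stabiliser of `k`; it has the same trace.  So `Ev h` implies `Ev k`. -/
theorem ev_heq {h k : Herm n M} (H : HEq' h k) (hh : Ev h) : Ev k := by
  obtain ⟨g, hg, H⟩ := H
  obtain ⟨s, hs, Hs, htr⟩ := hh
  have hg1 : Associated g.det ((1 : ℕ) : OK n) := by
    rw [Nat.cast_one]; exact associated_one_iff_isUnit.2 hg.1
  have h1 := td_adj (M := M) ⟨hg1, hg.2⟩
  have h2 := h1.1
  rw [Nat.cast_one] at h2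
  have hga : TA (M : OK n) g.adjugate := ⟨associated_one_iff_isUnit.1 h2, h1.2⟩
  refine ⟨g.adjugate * (s * g), uhec_TA_mul hga (uhec_TA_mul hs hg),
    tr_mul_one (tr_adj one_ne_zero hg1 H) (tr_mul_one Hs H), ?_⟩
  rw [Matrix.adjugate_fin_two]
  simp only [Matrix.mul_apply, Fin.sum_univ_two, Matrix.of_apply, Matrix.cons_val',
    Matrix.cons_val_zero, Matrix.cons_val_one, Matrix.cons_val_fin_one]
  linear_combination (g 0 0 * g 1 1 - g 0 1 * g 1 0) * htr

end QTW
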