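import Pool.Agent.QTW.HDefs
import Pool.Agent.QTW.TrB
import Pool.Agent.QTW.TrA

/-!
# XiA: values of homomorphisms at point reflections (size 3)
-/

open Matrix

namespace QTW

open SerreE SerreK SerreU

variable {n M : ℕ} {ξ : SS n M → FF}

theorem xi_one (hξ : IsXi ξ) : ξ 1 = 0 := by
  have h := hξ.mul 1 1
  rw [one_mul] at h
  exact left_eq_add.1 h


/-- `⟨g, e⟩ = ⟨u • 1, false⟩ * ⟨g', e⟩` if `g = u • g'` (`u` is a unit). -/
theorem xi_smul (hξ : IsXi ξ) {g g' : G0 n M} {u : OK n} (e : Bool)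
    (h : g.val.val = u • g'.val.val) : ξ ⟨g, e⟩ = ξ ⟨g', e⟩ := by
  have hs : (g * g'⁻¹ : G0 n M).val.val = u • (1 : Mat n) := by
    change g.val.val * (g'.val⁻¹).val = _
    rw [h, smul_mul_assoc, uhec_mul_inv]
  have e1 : (⟨g, e⟩ : SS n M) = ⟨g * g'⁻¹, false⟩ * ⟨g', e⟩ := by
    apply SS.ext
    · change g = g * g'⁻¹ * g'
      rw [inv_mul_cancel_right]
    · rw [SS.mul_e, Bool.false_xor]
  rw [e1, hξ.mul, hξ.scal _ u hs, zero_add]


/-- `τ_h = ⟨γ_h, false⟩ * ⟨1, true⟩` -/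
theorem xi_tau (hξ : IsXi ξ) (h : Herm n M) :
    ξ h.tau = ξ ⟨h.gam, false⟩ + ξ ⟨1, true⟩ := by
  have e1 : h.tau = ⟨h.gam, false⟩ * ⟨1, true⟩ := by
    apply SS.ext
    · change h.gam = h.gam * 1
      rw [mul_one]
    · rfl
  rw [e1, hξ.mul]


/-- If `Tr 1 g h k` then `g γ_k = det(g) γ_h ḡ` (`tr_iff`), i.e.
`⟨g, false⟩ * k.tau = ⟨det(g) • 1, false⟩ * (h.tau * ⟨g, false⟩)`. -/
theorem xi_inv (hξ : IsXi ξ) : HInv (fun h => ξ h.tau) := by
  rintro h k ⟨g, hg, hT⟩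
  obtain ⟨γ, hγ⟩ := ta_gl hg
  have hd : g.det ≠ 0 := hg.1.ne_zero
  have h1 := (tr_iff 1 g h k hd).1 hT
  have h1' : g * k.gm = g.det • (h.gm * cjM g) := by
    rw [h1]
    push_cast
    rw [one_smul]
  have h2 : ξ ⟨γ * k.gam, true⟩ = ξ ⟨h.gam * cjG γ, true⟩ := by
    apply xi_smul hξ (u := g.det) true
    change γ.val.val * k.gm = g.det • (h.gm * cjM γ.val.val)
    rw [hγ]
    exact h1'
  have e1 : (⟨γ * k.gam, true⟩ : SS n M) = ⟨γ, false⟩ * k.tau := by
    apply SS.ext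
    · rfl
    · rfl
  have e2 : (⟨h.gam * cjG γ, true⟩ : SS n M) = h.tau * ⟨γ, false⟩ := by
    apply SS.ext
    · rfl
    · rfl
  rw [e1, e2, hξ.mul, hξ.mul, add_comm (ξ h.tau)] at h2
  exact add_left_cancel h2


/-- `γ_h γ̄_h = -1`, so for a class `y` (`y(-1) = 0`, `-1` has finite order) `y (γ̄_h) = - y (γ_h) = y (γ_h)`. -/
theorem hy_gam (y : HY (M : OK n)) (h : Herm n M) : y.val (cjG h.gam) = y.val h.gam := by
  have hm : h.gm * cjM h.gm = -1 := by
    have h1 := mul_star_eq h.B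
    have h2 := h.det
    have h3 : ((h.A * h.C - nrm h.B : ℤ) : OK n) = 1 := by rw [h2]; push_cast; rfl
    push_cast at h3
    rw [← h1] at h3
    have c1 : star (h.A : OK n) = h.A := star_icast _
    have c2 : star (h.C : OK n) = h.C := star_icast _
    ext1 i j
    rw [Matrix.mul_apply, Fin.sum_univ_two, Matrix.neg_apply]
    fin_cases i <;> fin_cases j
    · simp [Herm.gm, cjM_apply, c1]
      linear_combination -h3
    · simp [Herm.gm, cjM_apply, c1, c2]
      ring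
    · simp [Herm.gm, cjM_apply, c1, c2]
      ring
    · simp [Herm.gm, cjM_apply, c1, c2]
      linear_combination -h3
  have h4 : IsOfFinOrder (h.gam * cjG h.gam) := by
    rw [isOfFinOrder_iff_pow_eq_one]
    refine ⟨2, by norm_num, ?_⟩
    apply Subtype.ext
    apply Units.ext
    rw [pow_two]
    change (h.gm * cjM h.gm) * (h.gm * cjM h.gm) = 1
    rw [hm, neg_mul_neg, one_mul]
  have h5 := y.fin _ h4
  have h6 := y.mul h.gam (cjG h.gam)
  have h7 : y.val h.gam + y.val (cjG h.gam) = 0 := h6.symm.trans h5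
  have h8 : y.val (cjG h.gam) = - y.val h.gam := (neg_eq_of_add_eq_zero_right h7).symm
  rw [h8]
  exact CharTwo.neg_eq _


/-- The fixed points of `τ_h`: if `Tr p α h k` (`α` of type `TD M p`) then `γ_h ᾱ = α c` with `c = v γ_k`, `v` a
unit (`tr_iff`: `det(α) γ_h ᾱ = p α γ_k`, `det α = u p`, `v = u⁻¹`). -/
theorem fix_of_tr {p : ℕ} (hp : p ≠ 0) {α : Mat n} {h k : Herm n M}
    (ha : TD (M : OK n) (p : OK n) α) (hk : Tr p α h k) : ∃ c : G0 n M,
      h.gm * cjM α = α * c.val.val ∧ ∀ ξ : SS n M → FF, IsXi ξ → ξ ⟨c, true⟩ = ξ k.tau := by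
  obtain ⟨u, hu⟩ := ha.1
  have hp0 : (p : OK n) ≠ 0 := by
    intro h
    apply hp
    have h1 : ((p : OK n)).re = (0 : OK n).re := by rw [h]
    rw [QuadraticAlgebra.re_natCast, QuadraticAlgebra.re_zero] at h1
    exact_mod_cast h1
  have hd : α.det ≠ 0 := by
    intro h
    rw [h, zero_mul] at hu
    exact hp0 hu.symm
  have h1 := (tr_iff p α h k hd).1 hk
  rw [← hu, mul_smul] at h1
  have h2 : h.gm * cjM α = (u : OK n) • (α * k.gm) := by
    ext1 i j
    have h3 : α.det * (h.gm * cjM α) i j = α.det * ((u : OK n) • (α * k.gm)) i j :=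
      congrFun (congrFun h1 i) j
    exact mul_left_cancel₀ hd h3
  have hTA : TA (M : OK n) ((u : OK n) • k.gm) := by
    refine ⟨?_, ?_⟩
    · rw [Matrix.det_smul, k.gm_det, mul_one]
      exact u.isUnit.pow _
    · change (M : OK n) ∣ (u : OK n) * (-(k.A : OK n))
      obtain ⟨c, hc⟩ := k.lev
      refine Dvd.dvd.mul_left ?_ _
      rw [dvd_neg]
      exact ⟨(c : OK n), by rw [hc]; push_cast; rfl⟩
  obtain ⟨c, hc⟩ := ta_gl hTA
  refine ⟨c, ?_, ?_⟩
  · rw [hc, mul_smul_comm, h2]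
  · intro ξ hξ
    exact xi_smul hξ (u := (u : OK n)) true hc


/-- Conversely: if `γ_h ᾱ = α c` then `w (αᵀ h ᾱ) = adj(α) γ_h ᾱ = det(α) c` is divisible by `p`, so
`tr_exists` gives `k`; by `fix_of_tr` and cancellation of `α` the value `ξ ⟨c, true⟩` is `ξ k.tau`. -/
theorem tr_of_fix {p : ℕ} (hp : p ≠ 0) (hc : p.Coprime M) {α : Mat n} {h : Herm n M}
    (ha : TD (M : OK n) (p : OK n) α) {c : G0 n M} (hk : h.gm * cjM α = α * c.val.val) :
    ∃ k : Herm n M, Tr p α h k ∧ ∀ ξ : SS n M → FF, IsXi ξ → ξ ⟨c, true⟩ = ξ k.tau := by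
  have hp0 : (p : OK n) ≠ 0 := by
    intro h
    apply hp
    have h1 : ((p : OK n)).re = (0 : OK n).re := by rw [h]
    rw [QuadraticAlgebra.re_natCast, QuadraticAlgebra.re_zero] at h1
    exact_mod_cast h1
  have hd : α.det ≠ 0 := by
    intro h
    obtain ⟨u, hu⟩ := ha.1
    rw [h, zero_mul] at hu
    exact hp0 hu.symm
  have hpd : (p : OK n) ∣ α.det := ha.1.symm.dvd
  have e0 : α.adjugate * (h.gm * cjM α) = α.det • c.val.val := by
    rw [hk, ← mul_assoc, Matrix.adjugate_mul, smul_mul_assoc, one_mul]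
  have e1 : ∀ j, (αᵀ * h.mat * cjM α) 1 j = (α.adjugate * (h.gm * cjM α)) 0 j := by
    intro j
    simp only [Matrix.mul_apply, Fin.sum_univ_two, Matrix.adjugate_fin_two, Matrix.transpose_apply,
      Herm.mat, Herm.gm, Matrix.of_apply, Matrix.cons_val', Matrix.cons_val_zero,
      Matrix.cons_val_one, Matrix.cons_val_fin_one]
    ring
  have e2 : ∀ j, (αᵀ * h.mat * cjM α) 0 j = -(α.adjugate * (h.gm * cjM α)) 1 j := by
    intro j
    simp only [Matrix.mul_apply, Fin.sum_univ_two, Matrix.adjugate_fin_two, Matrix.transpose_apply,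
      Herm.mat, Herm.gm, Matrix.of_apply, Matrix.cons_val', Matrix.cons_val_zero,
      Matrix.cons_val_one, Matrix.cons_val_fin_one]
    ring
  have hdiv : ∀ i j : Fin 2, (p : OK n) ∣ (αᵀ * h.mat * cjM α) i j := by
    intro i j
    fin_cases i
    · change (p : OK n) ∣ (αᵀ * h.mat * cjM α) 0 j
      rw [e2, e0, dvd_neg]
      exact Dvd.dvd.mul_right hpd _
    · change (p : OK n) ∣ (αᵀ * h.mat * cjM α) 1 j
      rw [e1, e0]
      exact Dvd.dvd.mul_right hpd _
  obtain ⟨k, hT⟩ := tr_exists hp hc α h ha hdiv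
  obtain ⟨c', h1, h2⟩ := fix_of_tr hp ha hT
  have h3 : c.val.val = c'.val.val := by
    apply uhec_cancel hd
    rw [← hk, ← h1]
  have h4 : c = c' := Subtype.ext (Units.ext h3)
  rw [h4]
  exact ⟨k, hT, h2⟩


end QTW
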