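import Pool.Agent.QTW.Alg
import Pool.Agent.QTW.HsF
import Pool.Agent.QTW.XiA
import Pool.Agent.QTW.Ari
import Pool.Agent.SerreK.KPORT

/-!
# MainA: from an eigenfunctional on hermitian forms to an eigenform (size 5)
-/

open Matrix

namespace QTW

open SerreE SerreK SerreU

variable {n M : ℕ}

theorem mainA_nrm {a b : OK n} (h : Associated a b) : nrm a = nrm b := by
  obtain ⟨u, rfl⟩ := h
  rw [nrm_mul, nrm_isUnit.1 u.isUnit, mul_one]

open Classical in
/-- the eigenvalue at `π` -/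
noncomputable def apQ (b : ℕ → FF) (π : GP (M : OK n)) : FF :=
  if h : ∃ p : ℕ, p.Prime ∧ Associated π.el (p : OK n) then b h.choose ^ 2
  else if nrm π.el = 4 * n + 3 then 0 else b (nrm π.el).toNat

/-- the values of `apQ`; `p` is determined by `π` (`nrm π.el = p²`, resp. `p`); if `nrm π.el = p` then `π` is
not associated to an integer. -/
theorem apQ_spec (hd : (4 * n + 3).Prime) (b : ℕ → FF) (π : GP (M : OK n)) :
    (∀ p : ℕ, p.Prime → p ≠ 4 * n + 3 → nrm π.el = p → apQ b π = b p) ∧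
    (∀ p : ℕ, p.Prime → Associated π.el (p : OK n) → apQ b π = b p ^ 2) ∧
    (nrm π.el = 4 * n + 3 → apQ b π = 0) := by
  have key : ∀ p : ℕ, p.Prime → nrm π.el = p → ¬ ∃ p : ℕ, p.Prime ∧ Associated π.el (p : OK n) := by
    rintro p hp hπ ⟨p', hp', hA⟩
    have h1 := mainA_nrm hA
    rw [hπ, nrm_natCast] at h1
    have h2 : p = p' ^ 2 := by exact_mod_cast h1
    rw [h2] at hp
    exact Nat.Prime.not_prime_pow (le_refl 2) hp
  refine ⟨fun p hp hpd hπ => ?_, fun p hp hπ => ?_, fun hπ => ?_⟩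
  · unfold apQ
    rw [dif_neg (key p hp hπ), if_neg, hπ, Int.toNat_natCast]
    rw [hπ]
    intro h
    exact hpd (by exact_mod_cast h)
  · have hex : ∃ p : ℕ, p.Prime ∧ Associated π.el (p : OK n) := ⟨p, hp, hπ⟩
    unfold apQ
    rw [dif_pos hex]
    have h1 := mainA_nrm hex.choose_spec.2
    have h2 := mainA_nrm hπ
    rw [h1, nrm_natCast, nrm_natCast] at h2
    have h3 : hex.choose ^ 2 = p ^ 2 := by exact_mod_cast h2
    have h4 : hex.choose = p := Nat.pow_left_injective (by norm_num : 2 ≠ 0) h3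
    rw [h4]
  · have h1 : nrm π.el = ((4 * n + 3 : ℕ) : ℤ) := by rw [hπ]; push_cast; rfl
    unfold apQ
    rw [dif_neg (key _ hd h1), if_pos hπ]

/-- One step: `T_π T_π̄` for the prime `π`.

Proof.  `ari_class`.  (a) `nrm π = p`, `p ≠ d`: `π π̄ = p`, `π, π̄` not associated (`ari_na`), `p` does not divide
`2 d M` (`π.not_dvd`): `G1`, with the first property of `HRes`; `apQ = b p`.  (b) `nrm π = d`: `G2` twice, for `π̄` (`nrm_star`) and for `π`.  (c) `π ~ p`:
`T_π̄ = T_π` (`T_assoc`; `π̄ ~ p`), and `G1` twice, with the second property of `HRes`: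
`β ↦ b p ^ 2 * (b p ^ 2 * β)`, `apQ = b p ^ 2`; `p ≠ d` by `ari_ram`. -/
theorem step_pp [IsPrincipalIdealRing (OK n)] (hd : (4 * n + 3).Prime) (b : ℕ → FF)
    (Good : (SS n M → FF) → FF → Prop)
    (G1 : ∀ p : ℕ, p.Prime → ¬ p ∣ 2 * (4 * n + 3) * M → ∀ ξ β, Good ξ β →
      ∃ ξ', Good ξ' (b p ^ 2 * β) ∧ HRes p ξ ξ')
    (G2 : ∀ ξ β, Good ξ β → ∃ ξ', Good ξ' 0 ∧ LRes ξ ξ') (π : GP (M : OK n))
    (ξ : SS n M → FF) (β : FF) (hξ : Good ξ β) : ∃ ξ', Good ξ' (apQ b π ^ 2 * β) ∧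
      ∀ x, RS ξ x → RS ξ' (T (M : OK n) π.el π.ne (T (M : OK n) (cjP π).el (cjP π).ne x)) := by
  obtain ⟨s1, s2, s3⟩ := apQ_spec hd b π
  obtain ⟨p, hp, hdvd, hcl⟩ := ari_class π.prime
  have hp2M : ¬ p ∣ 2 * M := by
    rintro ⟨c, hc⟩
    apply π.not_dvd
    have h1 : (2 * (M : OK n)) = ((2 * M : ℕ) : OK n) := by push_cast; rfl
    rw [h1, hc]
    push_cast
    exact Dvd.dvd.mul_right hdvd _
  have hpM : p ≠ 4 * n + 3 → ¬ p ∣ 2 * (4 * n + 3) * M := by
    intro hne h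
    have h1 : p ∣ (2 * M) * (4 * n + 3) := by
      have : 2 * (4 * n + 3) * M = (2 * M) * (4 * n + 3) := by ring
      rwa [this] at h
    rcases (Nat.Prime.dvd_mul hp).1 h1 with h2 | h2
    · exact hp2M h2
    · exact hne ((Nat.prime_dvd_prime_iff_eq hp hd).1 h2)
  rcases hcl with hcl | hcl
  · by_cases hpd : p = 4 * n + 3
    · -- the ramified prime
      have hπd : nrm π.el = 4 * n + 3 := by rw [hcl, hpd]; push_cast; rfl
      obtain ⟨ξ1, a1, b1⟩ := G2 ξ β hξ
      obtain ⟨ξ2, a2, b2⟩ := G2 ξ1 0 a1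
      refine ⟨ξ2, ?_, fun x hx => ?_⟩
      · rw [s3 hπd]
        have : (0 : FF) ^ 2 * β = 0 := by ring
        rw [this]
        exact a2
      · apply b2 π hπd
        apply b1 (cjP π) (by rw [cjP_el, nrm_star]; exact hπd)
        exact hx
    · obtain ⟨ξ1, a1, b1⟩ := G1 p hp (hpM hpd) ξ β hξ
      refine ⟨ξ1, ?_, fun x hx => ?_⟩
      · rw [s1 p hp hpd hcl]
        exact a1
      · apply b1.1 π (cjP π)
        · rw [cjP_el]
          refine ari_na hp ?_ hcl
          intro h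
          rcases (Nat.Prime.dvd_mul hp).1 h with h2 | h2
          · exact hp2M (Dvd.dvd.mul_right h2 _)
          · exact hpd ((Nat.prime_dvd_prime_iff_eq hp hd).1 h2)
        · rw [cjP_el, mul_star_eq, hcl]
          push_cast
          exact Associated.refl _
        · exact hx
  · have hpd : p ≠ 4 * n + 3 := ari_ram (hcl.prime π.prime)
    obtain ⟨ξ1, a1, b1⟩ := G1 p hp (hpM hpd) ξ β hξ
    obtain ⟨ξ2, a2, b2⟩ := G1 p hp (hpM hpd) ξ1 _ a1
    have hst : Associated (cjP π).el (p : OK n) := by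
      rw [cjP_el]
      obtain ⟨u, hu⟩ := hcl
      have h1 : star π.el * star (u : OK n) = (p : OK n) := by
        rw [← star_mul', hu, star_cast]
      have h2 : IsUnit (star (u : OK n)) := u.isUnit.star
      obtain ⟨v, hv⟩ := h2
      exact ⟨v, by rw [hv]; exact h1⟩
    refine ⟨ξ2, ?_, fun x hx => ?_⟩
    · rw [s2 p hp hcl]
      have : (b p ^ 2) ^ 2 * β = b p ^ 2 * (b p ^ 2 * β) := by ring
      rw [this]
      exact a2
    · apply b2.2 π hcl
      apply b1.2 (cjP π) hst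
      exact hx

/-- Proof.  Let `H = HY (M : OK n)`, `T x = T_{x}` (`TE`), `cj = cjP`, `σ = cjL`, `e y = Σ_j μ j * y.val (κ j).gam`, a
linear functional; `e (σ y) = e y` by `hy_gam`.  If `RS ξ y`, `IsXi ξ` then `e y = Σ_j μ j * ξ (κ j).tau` (`xi_tau`
and `hμ`), so `e y = β * e0` if `Good ξ β` (`G0`, `G3`).  `σ x0 = x0`: `x0 (cjG γ) = ξ0 ⟨cjG γ, false⟩` and
`⟨cjG γ, false⟩ = ⟨1, true⟩ * ⟨γ, false⟩ * ⟨1, true⟩`, `2 ξ0 ⟨1, true⟩ = 0`.  `hT`: `T_comm`; `hσ`: `cj_T`; `hcj`: `star_star`.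
`hdiag`: by induction on `l` (`step_pp`, reordering the factors by `hT`) there is `ξ` with
`Good ξ ((l.map a).prod ^ 2)` and `RS ξ (T_l T_{cj l} x0)`.  `alg_key` gives: `L w = 0` implies
`lift a w = 0` (`a = apQ b`), so `KP.exists_hom_of_key` (KPORT.lean; `LYN` is the lift of `TE`; apply it to
`x - y`) gives `Φ` with `Φ.ev π = apQ b π`; `apQ_spec`. -/
theorem main_alg [IsPrincipalIdealRing (OK n)] (hd : (4 * n + 3).Prime) (b : ℕ → FF)
    {J : Type} [Fintype J] (κ : J → Herm n M) (μ : J → FF) (hμ : ∑ j, μ j = 0)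
    (Good : (SS n M → FF) → FF → Prop) (e0 : FF) (he0 : e0 ≠ 0)
    (G0 : ∀ ξ β, Good ξ β → IsXi ξ)
    (G1 : ∀ p : ℕ, p.Prime → ¬ p ∣ 2 * (4 * n + 3) * M → ∀ ξ β, Good ξ β →
      ∃ ξ', Good ξ' (b p ^ 2 * β) ∧ HRes p ξ ξ')
    (G2 : ∀ ξ β, Good ξ β → ∃ ξ', Good ξ' 0 ∧ LRes ξ ξ')
    (G3 : ∀ ξ β, Good ξ β → ∑ j, μ j * ξ (κ j).tau = β * e0)
    (ξ0 : SS n M → FF) (hξ0 : Good ξ0 1) (x0 : HY (M : OK n)) (hx0 : RS ξ0 x0) :
    ∃ Φ : Eigenform (M : OK n), AttQ Φ b := by
  classical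
  have hIs0 : IsXi ξ0 := G0 ξ0 1 hξ0
  let e : HY (M : OK n) →ₗ[FF] FF :=
    { toFun := fun y => ∑ j, μ j * y.val (κ j).gam
      map_add' := by
        intro y z
        rw [← Finset.sum_add_distrib]
        refine Finset.sum_congr rfl fun j _ => ?_
        change μ j * (y.val (κ j).gam + z.val (κ j).gam) = _
        rw [mul_add]
      map_smul' := by
        intro c y
        rw [RingHom.id_apply, smul_eq_mul, Finset.mul_sum]
        refine Finset.sum_congr rfl fun j _ => ?_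
        change μ j * (c * y.val (κ j).gam) = _
        ring }
  have e_apply : ∀ y : HY (M : OK n), e y = ∑ j, μ j * y.val (κ j).gam := fun y => rfl
  let TM : GP (M : OK n) → Module.End FF (HY (M : OK n)) := fun π => T (M : OK n) π.el π.ne
  have TM_apply : ∀ π h, TM π h = T (M : OK n) π.el π.ne h := fun π h => rfl
  have hcjcj : ∀ π : GP (M : OK n), cjP (cjP π) = π := by
    intro π
    apply Subtype.ext
    exact star_star π.el
  have hval : ∀ ξ β, Good ξ β → ∀ y : HY (M : OK n), RS ξ y → e y = β * e0 := by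
    intro ξ β hξ y hy
    have hIs := G0 ξ β hξ
    rw [← G3 ξ β hξ, e_apply]
    have h1 : ∑ j, μ j * ξ (κ j).tau = ∑ j, μ j * y.val (κ j).gam +
        (∑ j, μ j) * ξ ⟨1, true⟩ := by
      rw [Finset.sum_mul, ← Finset.sum_add_distrib]
      refine Finset.sum_congr rfl fun j _ => ?_
      rw [xi_tau hIs, hy (κ j).gam]
      ring
    rw [h1, hμ, zero_mul, add_zero]
  have hT : ∀ x y, TM x * TM y = TM y * TM x := by
    intro x y
    apply LinearMap.ext
    intro h
    exact T_comm x y h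
  have hx0' : cjL x0 = x0 := by
    rw [cjL_apply]
    apply Subtype.ext
    funext γ
    have h1 := hx0 (cjG (γ : Gam0 (M : OK n)))
    have h2 := hx0 (γ : Gam0 (M : OK n))
    have h3 : (⟨cjG (γ : Gam0 (M : OK n)), false⟩ : SS n M) =
        ⟨1, true⟩ * ⟨(γ : Gam0 (M : OK n)), false⟩ * ⟨1, true⟩ := by
      apply SS.ext
      · change cjG (γ : Gam0 (M : OK n)) = (1 * cjG (γ : Gam0 (M : OK n))) * cjG (1 : Gam0 (M : OK n))
        rw [cjG_one, one_mul, mul_one]
      · rfl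
    change x0.val (cjG (γ : Gam0 (M : OK n))) = x0.val (γ : Gam0 (M : OK n))
    rw [h1, h2, h3, hIs0.mul, hIs0.mul]
    have h4 : (2 : FF) = 0 := CharTwo.two_eq_zero
    linear_combination ξ0 ⟨1, true⟩ * h4
  have hdiag : ∀ l : List (GP (M : OK n)), ∃ ξ, Good ξ ((l.map (apQ b)).prod ^ 2) ∧
      RS ξ ((l.map TM).prod ((l.map (fun x => TM (cjP x))).prod x0)) := by
    intro l
    induction l with
    | nil =>
      refine ⟨ξ0, ?_, ?_⟩
      · have : ((([] : List (GP (M : OK n))).map (apQ b)).prod) ^ 2 = (1 : FF) := by simp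
        rw [this]
        exact hξ0
      · exact hx0
    | cons π l ih =>
      obtain ⟨ξ, h1, h2⟩ := ih
      obtain ⟨ξ', h3, h4⟩ := step_pp hd b Good G1 G2 π ξ _ h1
      refine ⟨ξ', ?_, ?_⟩
      · have : ((π :: l).map (apQ b)).prod ^ 2 = apQ b π ^ 2 * (l.map (apQ b)).prod ^ 2 := by
          rw [List.map_cons, List.prod_cons, mul_pow]
        rw [this]
        exact h3
      · have h5 := h4 _ h2
        have hcom : Commute (TM (cjP π)) (l.map TM).prod := by
          apply Commute.list_prod_right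
          intro y hy
          obtain ⟨z, -, rfl⟩ := List.mem_map.1 hy
          exact hT _ _
        have h6 : ((π :: l).map TM).prod (((π :: l).map (fun x => TM (cjP x))).prod x0) =
            TM π (TM (cjP π) ((l.map TM).prod ((l.map (fun x => TM (cjP x))).prod x0))) := by
          rw [List.map_cons, List.map_cons, List.prod_cons, List.prod_cons]
          have h7 : TM (cjP π) * (l.map TM).prod = (l.map TM).prod * TM (cjP π) := hcom
          have h8 := congrArg (fun f : Module.End FF (HY (M : OK n)) =>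
            TM π (f ((l.map (fun x => TM (cjP x))).prod x0))) h7
          exact h8.symm
        rw [h6]
        exact h5
  have hkey := alg_key TM hT cjP (fun x => by rw [hcjcj]) cjL (fun x h => cj_T x h) e
    (fun h => by
      rw [e_apply, e_apply, cjL_apply]
      refine Finset.sum_congr rfl fun j _ => ?_
      rw [cjH_val, hy_gam]) x0 hx0' (apQ b)
    (fun l => by
      obtain ⟨ξ, h1, h2⟩ := hdiag l
      rw [hval ξ _ h1 _ h2, hval ξ0 1 hξ0 x0 hx0]
      ring)
    (by rw [hval ξ0 1 hξ0 x0 hx0, one_mul]; exact he0)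
  obtain ⟨Φ, hΦ⟩ := KP.exists_hom_of_key (M : OK n) (apQ b) (by
    intro x y hxy
    have h1 : KP.LYN (M : OK n) (x - y) = 0 := by rw [map_sub, hxy, sub_self]
    have h2 := hkey (x - y) h1
    rw [map_sub, sub_eq_zero] at h2
    exact h2)
  refine ⟨Φ, fun π => ?_⟩
  obtain ⟨s1, s2, s3⟩ := apQ_spec hd b π
  rw [hΦ]
  exact ⟨s1, s2, s3⟩

end QTW
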