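import Pool.Agent.QTW.NbA

/-!
# NbB: Hecke operators on homomorphisms (size 4)
`SSt S h.tau x x c` is `h.gm * cjM (S.D x) = S.D x * c` (`cmE true = cjM`); `hss`: HssB.lean.
-/

open Matrix

namespace QTW

open SerreE SerreK SerreU

variable {n M : ℕ}

private theorem nbb_hrel (h : Herm n M) :
    (h.A : OK n) * (h.C : OK n) - h.B * star h.B = 1 := by
  have h1 := mul_star_eq h.B
  have h2 := h.det
  have h3 : ((h.A * h.C - nrm h.B : ℤ) : OK n) = 1 := by rw [h2]; push_cast; rfl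
  push_cast at h3
  rw [h1]
  exact h3

private theorem nbb_tau_sq (h : Herm n M) :
    ∃ u : OK n, (h.tau * h.tau).g.val.val = u • (1 : Mat n) := by
  refine ⟨-1, ?_⟩
  change h.gm * cjM h.gm = (-1 : OK n) • (1 : Mat n)
  have h3 := nbb_hrel h
  have e00 : h.gm 0 0 = star h.B := rfl
  have e01 : h.gm 0 1 = (h.C : OK n) := rfl
  have e10 : h.gm 1 0 = -(h.A : OK n) := rfl
  have e11 : h.gm 1 1 = -h.B := rfl
  refine Matrix.ext fun i j => ?_
  fin_cases i <;> fin_cases j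
  · change (h.gm * cjM h.gm) 0 0 = (-1 : OK n) * 1
    rw [Matrix.mul_apply, Fin.sum_univ_two, cjM_apply, cjM_apply, e00, e01, e10, star_star,
      star_neg, star_icast]
    linear_combination -h3
  · change (h.gm * cjM h.gm) 0 1 = (-1 : OK n) * 0
    rw [Matrix.mul_apply, Fin.sum_univ_two, cjM_apply, cjM_apply, e00, e01, e11,
      star_neg, star_icast]
    ring
  · change (h.gm * cjM h.gm) 1 0 = (-1 : OK n) * 0
    rw [Matrix.mul_apply, Fin.sum_univ_two, cjM_apply, cjM_apply, e00, e10, e11,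
      star_neg, star_icast, star_star]
    ring
  · change (h.gm * cjM h.gm) 1 1 = (-1 : OK n) * 1
    rw [Matrix.mul_apply, Fin.sum_univ_two, cjM_apply, cjM_apply, e01, e10, e11,
      star_neg, star_icast]
    linear_combination -h3

private theorem nbb_p {p : ℕ} (hp : p.Prime) (hp2 : ¬ p ∣ 2 * (4 * n + 3) * M) :
    (p : OK n) ≠ 0 ∧ Associated (star (p : OK n)) (p : OK n) ∧ p.Coprime M := by
  refine ⟨?_, ?_, ?_⟩
  · exact_mod_cast hp.ne_zero
  · rw [star_cast]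
  · exact (hp.coprime_iff_not_dvd).2 fun h => hp2 (h.mul_left _)

private theorem nbb_zero : IsXi (fun _ : SS n M => (0 : FF)) :=
  ⟨fun _ _ => by rw [add_zero], fun _ _ _ => rfl⟩

/-- `hps`, `hss` (with `ξ = 0`), `nbr_of_F`; `τ_h²` is the scalar `-1`. -/
theorem nbrs_exist [IsPrincipalIdealRing (OK n)] {p : ℕ} (hp : p.Prime)
    (hp2 : ¬ p ∣ 2 * (4 * n + 3) * M) (h : Herm n M) :
    ∃ (r : ℕ) (α : Fin r → Mat n) (k : Fin r → Herm n M), Nbrs p h α k := by
  obtain ⟨hp0, hpa, hpc⟩ := nbb_p hp hp2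
  obtain ⟨X, iX, S, _, _⟩ := hps hp hp2
  obtain ⟨ξ', _, _, h2⟩ := hss hp0 hpa S (fun _ => 0) nbb_zero
  obtain ⟨F, c, hF, hF', _, _⟩ := h2 h.tau (nbb_tau_sq h)
  obtain ⟨α, k, N⟩ := nbr_of_F hp.ne_zero hpc S h F c hF hF'
  exact ⟨F.card, α, k, N⟩

/-- `r = F.card`, `F.card + card X` is even and `card X` is even. -/
theorem nbrs_even [IsPrincipalIdealRing (OK n)] {p : ℕ} (hp : p.Prime)
    (hp2 : ¬ p ∣ 2 * (4 * n + 3) * M) {h : Herm n M} {r : ℕ} {α : Fin r → Mat n}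
    {k : Fin r → Herm n M} (N : Nbrs p h α k) : Even r := by
  obtain ⟨hp0, hpa, hpc⟩ := nbb_p hp hp2
  obtain ⟨X, iX, S, hE, _⟩ := hps hp hp2
  obtain ⟨ξ', _, _, h2⟩ := hss hp0 hpa S (fun _ => 0) nbb_zero
  obtain ⟨F, c, hF, hF', _, hE'⟩ := h2 h.tau (nbb_tau_sq h)
  rw [(nbr_sum hp.ne_zero hpc S h F c hF hF' N).1]
  exact (Nat.even_add.1 hE').2 hE

/-- `hps`, `hss`, `rs_opv` (with `step_ex`), `nbr_sum`. -/
theorem hecke_p [IsPrincipalIdealRing (OK n)] {p : ℕ} (hp : p.Prime)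
    (hp2 : ¬ p ∣ 2 * (4 * n + 3) * M) {ξ : SS n M → FF} (hξ : IsXi ξ) :
    ∃ ξ' : SS n M → FF, IsXi ξ' ∧ HRes p ξ ξ' ∧
      ∀ (h : Herm n M) (r : ℕ) (α : Fin r → Mat n) (k : Fin r → Herm n M), Nbrs p h α k →
        ξ' h.tau = ∑ i, ξ (k i).tau := by
  obtain ⟨hp0, hpa, hpc⟩ := nbb_p hp hp2
  obtain ⟨X, iX, S, _, hS1, hS2⟩ := hps hp hp2
  obtain ⟨ξ', h0, h1, h2⟩ := hss hp0 hpa S ξ hξ
  refine ⟨ξ', h0, ⟨fun π π' hna hA x hx => rs_opv hξ h1 hx (hS1 π π' hna hA x) (step_ex S),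
    fun π hA x hx => rs_opv hξ h1 hx (hS2 π hA x) (step_ex S)⟩, fun h r α k N => ?_⟩
  obtain ⟨F, c, hF, hF', hsum, _⟩ := h2 h.tau (nbb_tau_sq h)
  rw [hsum]
  exact (nbr_sum hp.ne_zero hpc S h F c hF hF' N).2 ξ hξ

private theorem nbb_tr (x : OK n) : x + star x = ((2 * x.re + x.im : ℤ) : OK n) := by
  generalize hm : 2 * x.re + x.im = m
  ext
  · simp
    rw [← hm]; ring
  · simp

private theorem nbb_int {m : ℤ} {d : ℕ} (hd : d.Prime) {l : OK n} (hl : nrm l = d)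
    (h : l ∣ (m : OK n)) : (d : ℤ) ∣ m := by
  obtain ⟨c, hc⟩ := h
  have h1 := congrArg nrm hc
  have h2 : nrm ((m : ℤ) : OK n) = m ^ 2 := by
    simp [nrm]
  rw [h2, nrm_mul, hl] at h1
  exact (Nat.prime_iff_prime_int.1 hd).dvd_of_dvd_pow ⟨nrm c, h1⟩

private theorem nbb_nofix (hd : (4 * n + 3).Prime) (h : Herm n M) {α g : Mat n}
    (hα : Associated α.det (⟨-1, 2⟩ : OK n)) (he : h.gm * cjM α = α * g) : False := by
  have hl : nrm (⟨-1, 2⟩ : OK n) = ((4 * n + 3 : ℕ) : ℤ) := by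
    simp only [nrm]
    push_cast
    ring
  set l : OK n := ⟨-1, 2⟩ with hldef
  have h3 := nbb_hrel h
  set a := α 0 0 with ha
  set b := α 0 1 with hb
  set c := α 1 0 with hc
  set d := α 1 1 with hd'
  have hD : α.det = a * d - b * c := Matrix.det_fin_two α
  have q00 := congrFun (congrFun he 0) 0
  have q01 := congrFun (congrFun he 0) 1
  have q10 := congrFun (congrFun he 1) 0
  have q11 := congrFun (congrFun he 1) 1
  have e00 : h.gm 0 0 = star h.B := rfl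
  have e01 : h.gm 0 1 = (h.C : OK n) := rfl
  have e10 : h.gm 1 0 = -(h.A : OK n) := rfl
  have e11 : h.gm 1 1 = -h.B := rfl
  simp only [Matrix.mul_apply, Fin.sum_univ_two, cjM_apply, e00, e01, e10, e11, ← ha, ← hb, ← hc,
    ← hd'] at q00 q01 q10 q11
  have hdv : l ∣ α.det := hα.symm.dvd
  -- the diagonal entries
  set t : ℤ := h.A * nrm a + h.C * nrm c + (2 * (a * h.B * star c).re + (a * h.B * star c).im)
  set t' : ℤ := h.A * nrm b + h.C * nrm d + (2 * (b * h.B * star d).re + (b * h.B * star d).im)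
  have ht : (t : OK n) = a * h.A * star a + a * h.B * star c + c * star h.B * star a +
      c * h.C * star c := by
    have h1 := nbb_tr (a * h.B * star c)
    simp only [t]
    push_cast at h1 ⊢
    rw [← h1, ← mul_star_eq, ← mul_star_eq, star_mul', star_mul', star_star]
    ring
  have ht' : (t' : OK n) = b * h.A * star b + b * h.B * star d + d * star h.B * star b +
      d * h.C * star d := by
    have h1 := nbb_tr (b * h.B * star d)
    simp only [t']
    push_cast at h1 ⊢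
    rw [← h1, ← mul_star_eq, ← mul_star_eq, star_mul', star_mul', star_star]
    ring
  set u := a * h.A * star b + a * h.B * star d + c * star h.B * star b + c * h.C * star d with hu
  have hsu : star u = b * h.A * star a + b * h.B * star c + d * star h.B * star a +
      d * h.C * star c := by
    simp only [hu, star_add, star_mul', star_star, star_icast]
    ring
  have d1 : l ∣ (t : OK n) := by
    refine hdv.trans ⟨-(g 1 0), ?_⟩
    rw [ht, hD]
    linear_combination c * q00 - a * q10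
  have d2 : l ∣ (t' : OK n) := by
    refine hdv.trans ⟨g 0 1, ?_⟩
    rw [ht', hD]
    linear_combination d * q01 - b * q11
  have d3 : l ∣ u := by
    refine hdv.trans ⟨-(g 1 1), ?_⟩
    rw [hu, hD]
    linear_combination c * q01 - a * q11
  have i1 := nbb_int hd hl d1
  have i2 := nbb_int hd hl d2
  obtain ⟨v, hv⟩ := d3
  have hdet : (t : OK n) * t' - u * star u = α.det * star α.det := by
    rw [ht, ht', hsu, hu, hD]
    simp only [star_sub, star_mul']
    linear_combination ((a * d - b * c) * (star a * star d - star b * star c)) * h3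
  have hn : t * t' - nrm u = nrm α.det := by
    rw [mul_star_eq, mul_star_eq] at hdet
    exact_mod_cast hdet
  have hnd : nrm α.det = ((4 * n + 3 : ℕ) : ℤ) := by
    obtain ⟨w, hw⟩ := hα
    rw [← hl, ← hw, nrm_mul, nrm_isUnit.1 w.isUnit, mul_one]
  rw [hnd, hv, nrm_mul, hl] at hn
  obtain ⟨s1, hs1⟩ := i1
  obtain ⟨s2, hs2⟩ := i2
  rw [hs1, hs2] at hn
  have hpos : ((4 * n + 3 : ℕ) : ℤ) ≠ 0 := by exact_mod_cast hd.ne_zero
  have hn2 : ((4 * n + 3 : ℕ) : ℤ) * s1 * s2 - nrm v = 1 := by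
    apply mul_left_cancel₀ hpos
    linear_combination hn
  haveI : Fact (4 * n + 3).Prime := ⟨hd⟩
  have hz : ((2 * v.re + v.im : ℤ) : ZMod (4 * n + 3)) ^ 2 = -4 := by
    have h4 := four_nrm v
    have h5 : (2 * v.re + v.im) ^ 2 = -4 + ((4 * n + 3 : ℕ) : ℤ) * (4 * s1 * s2 - v.im ^ 2) := by
      push_cast at hn2 ⊢
      linear_combination -h4 - 4 * hn2
    have h6 := congrArg (Int.cast : ℤ → ZMod (4 * n + 3)) h5
    rw [Int.cast_add, Int.cast_mul, Int.cast_natCast, ZMod.natCast_self, zero_mul, add_zero] at h6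
    rw [← Int.cast_pow, h6]
    norm_num
  have h2 : (2 : ZMod (4 * n + 3)) ≠ 0 := by
    intro h
    have h' : ((2 : ℕ) : ZMod (4 * n + 3)) = 0 := by exact_mod_cast h
    rw [ZMod.natCast_eq_zero_iff] at h'
    have := Nat.le_of_dvd (by norm_num) h'
    omega
  have hsq : IsSquare (-1 : ZMod (4 * n + 3)) := by
    refine ⟨((2 * v.re + v.im : ℤ) : ZMod (4 * n + 3)) / 2, ?_⟩
    have h7 : ((2 * v.re + v.im : ℤ) : ZMod (4 * n + 3)) / 2 *
        (((2 * v.re + v.im : ℤ) : ZMod (4 * n + 3)) / 2) =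
        ((2 * v.re + v.im : ℤ) : ZMod (4 * n + 3)) ^ 2 / (2 * 2) := by
      field_simp
    rw [h7, hz, eq_div_iff (mul_ne_zero h2 h2)]
    norm_num
  exact (ZMod.exists_sq_eq_neg_one_iff.1 hsq) (by omega)

/-- `hls`, `hss` with `m = λ = ⟨-1, 2⟩` (`star λ = -λ`), `rs_opv`.  The reflection `τ_h` has no fixed points:
suppose `γ_h ᾱ = α c` with `det α` associated to `λ`, `c ∈ Γ₀(M)`.  Then
`w (αᵀ h ᾱ) = adj(α) γ_h ᾱ = det(α) c`, so all entries of the hermitian matrix `H = αᵀ h ᾱ` are divisible by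
`λ`; its diagonal entries are rational integers divisible by `λ`, hence by the prime `d`
(`λ ∣ a ⇒ d ∣ a²`); `H 0 1 = λ b`; `det H = nrm (det α) = d`: `d = d² a' c' - d nrm b`, so
`d ∣ nrm b + 1`, and `4 nrm b ≡ (2x + y)²` modulo `d`: `-1` is a square modulo the prime `d ≡ 3 mod 4`,
a contradiction (`ZMod.exists_sq_eq_neg_one_iff`). -/
theorem hecke_l [IsPrincipalIdealRing (OK n)] (hd : (4 * n + 3).Prime)
    (hM : M.Coprime (2 * (4 * n + 3))) {ξ : SS n M → FF} (hξ : IsXi ξ) :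
    ∃ ξ' : SS n M → FF, IsXi ξ' ∧ LRes ξ ξ' ∧ ∀ h : Herm n M, ξ' h.tau = 0 := by
  have hl0 : (⟨-1, 2⟩ : OK n) ≠ 0 := by
    intro h
    have := congrArg QuadraticAlgebra.im h
    simp at this
  have hls' : Associated (star (⟨-1, 2⟩ : OK n)) (⟨-1, 2⟩ : OK n) := by
    have e : star (⟨-1, 2⟩ : OK n) = -⟨-1, 2⟩ := by
      ext <;> simp
    rw [e]
    exact (Associated.refl _).neg_left
  obtain ⟨X, iX, S, hS⟩ := hls hd hM
  obtain ⟨ξ', h0, h1, h2⟩ := hss hl0 hls' S ξ hξ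
  refine ⟨ξ', h0, fun π hπ x hx => rs_opv hξ h1 hx (hS π hπ x) (step_ex S), fun h => ?_⟩
  obtain ⟨F, c, hF, hF', hsum, _⟩ := h2 h.tau (nbb_tau_sq h)
  rw [hsum]
  refine Finset.sum_eq_zero fun x hx => ?_
  exact (nbb_nofix hd h (S.mem x).1 (hF x hx)).elim

end QTW
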