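import Pool.Agent.QTW.TorB
import Pool.Agent.QTW.NbB
import Pool.Agent.SerreK.FINO
import Pool.Agent.SerreK.PELL

/-!
# TorC: the Hecke operator at an inert prime `q ≡ 3 mod 4` kills the torsion (size 4)
-/

open Matrix

namespace QTW

open SerreE SerreK SerreU

variable {n M : ℕ}

theorem torC_dvd {q m : ℕ} (h : (q : OK n) ∣ (m : OK n)) : q ∣ m := by
  obtain ⟨c, hc⟩ := h
  have h1 : ((m : ℤ)) = (q : ℤ) * c.re := by
    have := congrArg (fun z : OK n => z.re) hc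
    simpa using this
  have h2 : (q : ℤ) ∣ (m : ℤ) := ⟨c.re, h1⟩
  exact_mod_cast h2

theorem torC_mul {ξ : SS n M → FF} (hξ : IsXi ξ) (a b : G0 n M) :
    ξ ⟨a * b, false⟩ = ξ ⟨a, false⟩ + ξ ⟨b, false⟩ := hξ.mul ⟨a, false⟩ ⟨b, false⟩

theorem torC_one {ξ : SS n M → FF} (hξ : IsXi ξ) : ξ ⟨(1 : G0 n M), false⟩ = 0 := by
  have h := torC_mul hξ (1 : G0 n M) 1
  rw [mul_one] at h
  exact left_eq_add.1 h

theorem torC_conj {ξ : SS n M → FF} (hξ : IsXi ξ) (a b : G0 n M) :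
    ξ ⟨a * b * a⁻¹, false⟩ = ξ ⟨b, false⟩ := by
  rw [torC_mul hξ, torC_mul hξ]
  have h := torC_mul hξ a a⁻¹
  rw [mul_inv_cancel, torC_one hξ] at h
  linear_combination -h

theorem torC_pow {ξ : SS n M → FF} (hξ : IsXi ξ) (a : G0 n M) (k : ℕ) :
    ξ ⟨a ^ k, false⟩ = k * ξ ⟨a, false⟩ := by
  induction k with
  | zero => simp [torC_one hξ]
  | succ k ih =>
    rw [pow_succ, torC_mul hξ, ih]
    push_cast
    ring

/-- trace zero: the square is scalar -/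
theorem torC_sq (A : Mat n) (h0 : A 0 0 + A 1 1 = 0) : A * A = (-A.det) • (1 : Mat n) := by
  have h1 : A 1 1 = -A 0 0 := by linear_combination h0
  ext1 i j
  fin_cases i <;> fin_cases j
  · simp only [Matrix.mul_apply, Fin.sum_univ_two, Matrix.det_fin_two, Matrix.smul_apply,
      Fin.zero_eta, Fin.isValue, Matrix.one_apply_eq, smul_eq_mul, mul_one]
    rw [h1]; ring
  · simp [Matrix.mul_apply, Fin.sum_univ_two, h1]
    ring
  · simp [Matrix.mul_apply, Fin.sum_univ_two, h1]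
    ring
  · simp only [Matrix.mul_apply, Fin.sum_univ_two, Matrix.det_fin_two, Matrix.smul_apply,
      Fin.mk_one, Fin.isValue, Matrix.one_apply_eq, smul_eq_mul, mul_one]
    rw [h1]; ring

/-- `γ_h γ̄_h = -1` -/
theorem torC_gm (h : Herm n M) : h.gm * cjM h.gm = (-1 : OK n) • (1 : Mat n) := by
  have h1 := mul_star_eq h.B
  have h2 := h.det
  have h3 : ((h.A * h.C - nrm h.B : ℤ) : OK n) = 1 := by rw [h2]; push_cast; rfl
  push_cast at h3
  rw [← h1] at h3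
  ext1 i j
  fin_cases i <;> fin_cases j
  · simp [Herm.gm, cjM, Matrix.mul_apply, Fin.sum_univ_two]
    linear_combination -h3
  · simp [Herm.gm, cjM, Matrix.mul_apply, Fin.sum_univ_two]
    try ring
  · simp [Herm.gm, cjM, Matrix.mul_apply, Fin.sum_univ_two]
    try ring
  · simp [Herm.gm, cjM, Matrix.mul_apply, Fin.sum_univ_two]
    linear_combination -h3

/-- Proof.  Let `ξ'` be the homomorphism of `hss` for the library system `S` (`hlib`, `uhx_finite`).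
The formula for `ξ' h.tau`: `nbr_sum`.  `ξ'` vanishes on `⟨γ, false⟩` for `γ` of trace zero: `γ² = -det(γ)`
is scalar; by `hss` and `tor_fix` (`F = {x₁, x₂}`) `ξ' ⟨γ, false⟩ = ξ ⟨g₁γg₁⁻¹, false⟩ +
ξ ⟨g₂γg₂⁻¹, false⟩ = 2 ξ ⟨γ, false⟩ = 0`.  Hence `γ ↦ ξ' ⟨γ, false⟩` vanishes on all elements of finite order:
as in `ufioV_fin` (UFIO.lean), by `fino_level` (`two_sq`, `two_not_unit`: PELL.lean). -/
theorem hecke_q (hn : n ∈ ({0, 1, 2, 4, 10, 16, 40} : Finset ℕ))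
    {q : ℕ} (hq : q.Prime) (hq4 : q % 4 = 3) (hqi : Prime (q : OK n)) (hqM : ¬ q ∣ M)
    {ξ : SS n M → FF} (hξ : IsXi ξ) :
    ∃ ξ' : SS n M → FF, IsXi ξ' ∧ (∃ x : HY (M : OK n), RS ξ' x) ∧
      ∀ (h : Herm n M) (r : ℕ) (α : Fin r → Mat n) (k : Fin r → Herm n M), Nbrs q h α k →
        ξ' h.tau = ∑ i, ξ (k i).tau := by
  classical
  have := pidm n hn
  have hq0 : (q : OK n) ≠ 0 := hqi.ne_zero
  have hqM' : ¬ (q : OK n) ∣ (M : OK n) := fun h => hqM (torC_dvd h)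
  have hcop : q.Coprime M := (Nat.Prime.coprime_iff_not_dvd hq).2 hqM
  obtain ⟨S, hS⟩ := hlib (M : OK n) (q : OK n) hqi hqM'
  have : Finite (UHX (M : OK n) (q : OK n)) := uhx_finite _ _ hq0
  let _ : Fintype (UHX (M : OK n) (q : OK n)) := Fintype.ofFinite _
  obtain ⟨ξ', hξ', h1, h2⟩ := hss hq0 (by rw [star_cast]) S ξ hξ
  have h20 : (2 : FF) = 0 := CharTwo.two_eq_zero
  -- trace zero
  have htr : ∀ γ : G0 n M, γ.val.val 0 0 + γ.val.val 1 1 = 0 → ξ' ⟨γ, false⟩ = 0 := by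
    intro γ h0
    obtain ⟨F, c, hF, hF', hsum, -⟩ := h2 ⟨γ, false⟩ ⟨-γ.val.val.det, torC_sq _ h0⟩
    obtain ⟨x₁, x₂, g₁, g₂, hne, hx1, hx2, hx⟩ := tor_fix hn hq hq4 hqi hqM' hS γ h0
    have hFe : F = {x₁, x₂} := by
      ext x
      simp only [Finset.mem_insert, Finset.mem_singleton]
      constructor
      · intro hxF
        by_contra hcon
        push Not at hcon
        exact hx x hcon.1 hcon.2 (c x) (hF x hxF)
      · rintro (rfl | rfl)
        · by_contra hcon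
          exact hF' _ hcon _ hx1
        · by_contra hcon
          exact hF' _ hcon _ hx2
    have hc1 : c x₁ = g₁ * γ * g₁⁻¹ :=
      (sst_unique hq0 S (hF x₁ (by rw [hFe]; simp)) hx1).2
    have hc2 : c x₂ = g₂ * γ * g₂⁻¹ :=
      (sst_unique hq0 S (hF x₂ (by rw [hFe]; simp)) hx2).2
    rw [hsum, hFe, Finset.sum_pair hne, hc1, hc2]
    change ξ ⟨g₁ * γ * g₁⁻¹, false⟩ + ξ ⟨g₂ * γ * g₂⁻¹, false⟩ = 0
    rw [torC_conj hξ, torC_conj hξ]
    linear_combination (ξ ⟨γ, false⟩) * h20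
  -- finite order
  have hfin : ∀ γ : G0 n M, IsOfFinOrder γ → ξ' ⟨γ, false⟩ = 0 := by
    intro γ hγ
    obtain ⟨k, hk, hk'⟩ := isOfFinOrder_iff_pow_eq_one.mp hγ
    obtain ⟨s, m, hm, hnm⟩ := Nat.exists_eq_two_pow_mul_odd hk.ne'
    have e1 : ξ' ⟨γ ^ m, false⟩ = ξ' ⟨γ, false⟩ := by
      rw [torC_pow hξ']
      obtain ⟨l, hl⟩ := hm
      have h3 : (m : FF) = 1 := by
        rw [hl]
        push_cast
        linear_combination (l : FF) * h20
      rw [h3, one_mul]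
    rw [← e1]
    have e2 : (γ ^ m).val ^ (2 ^ s) = 1 := by
      rw [SubmonoidClass.coe_pow, ← pow_mul, mul_comm, ← hnm]
      exact congrArg Subtype.val hk'
    have h2ne : (2 : OK n) ≠ 0 := by
      intro h
      have h' : ((2 : ℕ) : OK n) = 0 := by exact_mod_cast h
      have h3 : (((2 : ℕ) : OK n)).re = ((2 : ℕ) : ℤ) := QuadraticAlgebra.re_natCast 2
      rw [h'] at h3
      have h4 : (0 : OK n).re = 0 := rfl
      rw [h4] at h3
      norm_num at h3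
    rcases fino_level (two_sq n) (two_not_unit n) h2ne (γ ^ m).val s e2 with hsc | ⟨ht, -⟩
    · obtain ⟨u, hu⟩ := hsc.exists
      apply hξ'.scal (γ ^ m) (u : OK n)
      rw [hu]
      ext1 i j
      fin_cases i <;> fin_cases j <;> simp
    · exact htr _ ht
  refine ⟨ξ', hξ', ⟨Subtype.mk (p := fun y => y ∈ H (M : OK n)) (fun γ : G0 n M => ξ' ⟨γ, false⟩)
    ⟨fun a b => torC_mul hξ' a b, fun g hg => hfin g hg⟩, fun γ => rfl⟩, ?_⟩
  intro h r α k N
  obtain ⟨F, c, hF, hF', hsum, -⟩ := h2 h.tau ⟨-1, torC_gm h⟩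
  have := (nbr_sum hq.ne_zero hcop S h F c hF hF' N).2 ξ hξ
  rw [hsum]
  exact this

end QTW
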