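import Pool.Agent.QTW.PsiA
import Pool.Agent.QTW.TorC
import Pool.Agent.QTW.MainA

/-!
# CaseA: the first case (size 4)
-/

open Matrix

namespace QTW

open SerreE SerreK SerreU

variable {n M : ℕ}

/-- Proof.  Let `ξ0`, `x0` be given by `hecke_q` for `η`: `ξ0 (r i).tau = Σ_x η (k i x).tau`, so
`c0 = Σ_i φ (r i) ξ0 (r i).tau ≠ 0`.  Apply `main_alg` with `J = Σ i, Fin (ρ i)`, `κ ⟨i, x⟩ = k i x`,
`μ ⟨i, x⟩ = φ (r i)` (`Σ μ = Σ_i ρ i φ (r i) = 0` as `ρ i` is even, `nbrs_even`), `e0 = b q ^ 2 * c0` and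
`Good ξ β : IsXi ξ ∧ (∀ h, Ev h → ξ h.tau = 0) ∧ Σ_i φ (r i) ξ (r i).tau = β c0`.
`G1`: `hecke_p` gives `ξ'`, `ξ' h.tau = Σ ξ (k i).tau`; it vanishes for `Ev h` by `fix_ev` (`xi_inv`,
`nbrs_exist`); by `adj_sum` (`f = φ`, `Tf = b p ^ 2 φ`, `g h = ξ h.tau`, `Tg h = ξ' h.tau`)
`Σ_i φ (r i) ξ' (r i).tau = b p ^ 2 Σ_i φ (r i) ξ (r i).tau`.
`G2`: `hecke_l`.  `G3`: `Σ_i φ (r i) Σ_x ξ (k i x).tau = b q ^ 2 β c0` by `adj_sum` for `q`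
(`Tg h` = value of `hecke_p` for `q`).  `Good ξ0 1`: `fix_q` gives `ξ0 h.tau = 0` for `Ev h`. -/
theorem case_a (hn : n ∈ ({0, 1, 2, 4, 10, 16, 40} : Finset ℕ))
    (hM : M.Coprime (2 * (4 * n + 3))) {φ : Herm n M → FF} {b : ℕ → FF} (P : Psi φ b) {q : ℕ}
    (Q : QQ n M q) (hb : b q ≠ 0) {w : Herm n M → ℕ} (hw : IsWt w) {m : ℕ}
    {r : Fin m → Herm n M} (hr : Reps r) (ρ : Fin m → ℕ) (α : ∀ i, Fin (ρ i) → Mat n)
    (k : ∀ i, Fin (ρ i) → Herm n M) (N : ∀ i, Nbrs q (r i) (α i) (k i))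
    (η : SS n M → FF) (hη : IsXi η)
    (hne : ∑ y : (Σ i, Fin (ρ i)), φ (r y.1) * η (k y.1 y.2).tau ≠ 0) :
    ∃ Φ : Eigenform (M : OK n), AttQ Φ b := by
  classical
  have hpid : IsPrincipalIdealRing (OK n) := pidm n hn
  have hd : (4 * n + 3).Prime := by
    simp only [Finset.mem_insert, Finset.mem_singleton] at hn
    rcases hn with rfl | rfl | rfl | rfl | rfl | rfl | rfl <;> norm_num
  have cop : ∀ {p : ℕ}, p.Prime → ¬ p ∣ 2 * (4 * n + 3) * M → p.Coprime M := fun hp hp2 =>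
    (Nat.Prime.coprime_iff_not_dvd hp).2 fun h => hp2 (Dvd.dvd.mul_left h _)
  have hsig : ∀ f : Herm n M → FF, ∑ y : (Σ i, Fin (ρ i)), φ (r y.1) * f (k y.1 y.2) =
      ∑ i, φ (r i) * ∑ x, f (k i x) := by
    intro f
    rw [Fintype.sum_sigma]
    refine Finset.sum_congr rfl fun i _ => ?_
    rw [Finset.mul_sum]
  obtain ⟨ξ0, hξ0, ⟨x0, hx0⟩, hv0⟩ := hecke_q hn Q.prime Q.four Q.inert Q.nd hη
  have hc0 : ∑ i, φ (r i) * ξ0 (r i).tau ≠ 0 := by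
    intro h0
    apply hne
    rw [hsig (fun h => η h.tau), ← h0]
    refine Finset.sum_congr rfl fun i _ => ?_
    rw [hv0 (r i) (ρ i) (α i) (k i) (N i)]
  set c0 := ∑ i, φ (r i) * ξ0 (r i).tau with hc0d
  have key : ∀ {p : ℕ}, p.Prime → ¬ p ∣ 2 * (4 * n + 3) * M → ∀ {ξ ξ' : SS n M → FF},
      IsXi ξ → (∀ h : Herm n M, Ev h → ξ h.tau = 0) →
      (∀ (h : Herm n M) (r : ℕ) (α : Fin r → Mat n) (k : Fin r → Herm n M), Nbrs p h α k →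
        ξ' h.tau = ∑ i, ξ (k i).tau) →
      ∑ i, φ (r i) * ξ' (r i).tau = b p ^ 2 * ∑ i, φ (r i) * ξ (r i).tau := by
    intro p hp hp2 ξ ξ' hξ hev hv
    have h1 := adj_sum hw hp.ne_zero (cop hp hp2) hr (nbrs_exist hp hp2) φ (fun h => ξ h.tau)
      (fun h => b p ^ 2 * φ h) (fun h => ξ' h.tau) P.inv (xi_inv hξ) P.ev hev
      (P.eig p hp hp2) (fun h s α k N => (hv h s α k N).symm)
    rw [h1, Finset.mul_sum]
    refine Finset.sum_congr rfl fun i _ => ?_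
    rw [mul_assoc]
  refine main_alg hd b (J := Σ i, Fin (ρ i)) (fun y => k y.1 y.2) (fun y => φ (r y.1)) ?_
    (fun ξ β => IsXi ξ ∧ (∀ h : Herm n M, Ev h → ξ h.tau = 0) ∧
      ∑ i, φ (r i) * ξ (r i).tau = β * c0) (b q ^ 2 * c0) (mul_ne_zero (pow_ne_zero 2 hb) hc0)
    (fun ξ β h => h.1) ?_ ?_ ?_ ξ0 ⟨hξ0, ?_, ?_⟩ x0 hx0
  · rw [Fintype.sum_sigma]
    refine Finset.sum_eq_zero fun i _ => ?_
    obtain ⟨t, ht⟩ := nbrs_even Q.prime (qq_nd Q) (N i)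
    change ∑ _ : Fin (ρ i), φ (r i) = 0
    rw [Finset.sum_const, Finset.card_univ, Fintype.card_fin, ht, add_smul]
    exact CharTwo.add_self_eq_zero _
  · rintro p hp hp2 ξ β ⟨h1, h2, h3⟩
    obtain ⟨ξ', hξ', hres, hv⟩ := hecke_p hp hp2 h1
    refine ⟨ξ', ⟨hξ', fun h hh => ?_, ?_⟩, hres⟩
    · obtain ⟨s, α', k', N'⟩ := nbrs_exist hp hp2 h
      rw [hv h s α' k' N']
      exact fix_ev hp.ne_zero (cop hp hp2) hh N' (fun h => ξ h.tau) (xi_inv h1) h2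
    · rw [key hp hp2 h1 h2 hv, h3, mul_assoc]
  · rintro ξ β ⟨h1, h2, h3⟩
    obtain ⟨ξ', hξ', hres, hv⟩ := hecke_l hd hM h1
    refine ⟨ξ', ⟨hξ', fun h _ => hv h, ?_⟩, hres⟩
    rw [zero_mul]
    exact Finset.sum_eq_zero fun i _ => by rw [hv, mul_zero]
  · rintro ξ β ⟨h1, h2, h3⟩
    obtain ⟨ξ', hξ', hres, hv⟩ := hecke_p Q.prime (qq_nd Q) h1
    rw [hsig (fun h => ξ h.tau)]
    have e1 : ∑ i, φ (r i) * ∑ x, ξ (k i x).tau = ∑ i, φ (r i) * ξ' (r i).tau := by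
      refine Finset.sum_congr rfl fun i _ => ?_
      rw [hv (r i) (ρ i) (α i) (k i) (N i)]
    rw [e1, key Q.prime (qq_nd Q) h1 h2 hv, h3]
    ring
  · intro h hh
    obtain ⟨s, α', k', N'⟩ := nbrs_exist Q.prime (qq_nd Q) h
    rw [hv0 h s α' k' N']
    exact fix_q Q.prime Q.four Q.inert (cop Q.prime (qq_nd Q)) hh N' (fun h => η h.tau)
      (xi_inv hη)
  · rw [one_mul]

end QTW
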