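import Pool.Agent.QTW.PsiA
import Pool.Agent.QTW.TorC
import Pool.Agent.QTW.MainA

/-!
# CaseB: the second case (size 4)
-/

open Matrix

namespace QTW

open SerreE SerreK SerreU

variable {n M : ℕ}

theorem caseB_ind {X : Type} [Fintype X] (P : X → Prop) :
    ∑ x, ind FF (P x) = (Nat.card {x // P x} : FF) := by
  classical
  have h1 : ∀ x, ind FF (P x) = if P x then (1 : FF) else 0 := by
    intro x
    unfold ind
    by_cases h : P x
    · simp [h]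
    · simp [h]
  rw [Finset.sum_congr rfl (fun x _ => h1 x), Finset.sum_boole, Nat.card_eq_fintype_card,
    Fintype.card_subtype]

theorem caseB_odd {m : ℕ} (h : Odd m) : (m : FF) = 1 := by
  obtain ⟨l, rfl⟩ := h
  have h5 : (2 : FF) = 0 := CharTwo.two_eq_zero
  push_cast
  linear_combination (l : FF) * h5

theorem caseB_even {m : ℕ} (h : Even m) : (m : FF) = 0 := by
  obtain ⟨l, rfl⟩ := h
  have h5 : (2 : FF) = 0 := CharTwo.two_eq_zero
  push_cast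
  linear_combination (l : FF) * h5

/-- The homomorphism `η` has `η h.tau = b q ^ 2 * φ h`.

Proof.  If `Ev h`, `w h` is even (`IsWt.odd`) and `φ h = 0`: both sides vanish.  Otherwise `w h` is odd, i.e. `1`
in `FF`, and `η h.tau = Σ_i φ (r i) N_i`, `N_i` the number of `x` with `HEq' (k i x) h`.  Let `k'` be neighbours of
`h` at `q` (`nbrs_exist`), `N'_i` the number of `x` with `HEq' (k' x) (r i)`.  By `n_symm`
`N_i w h = N'_i w (r i)`.  If `Ev (r i)`, `φ (r i) = 0`; otherwise `w (r i)` is odd and `N_i = N'_i` in `FF`.  So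
`η h.tau = Σ_i N'_i φ (r i) = Σ_x φ (k' x) = b q ^ 2 φ h` by `class_sum`. -/
theorem case_b_val (hn : n ∈ ({0, 1, 2, 4, 10, 16, 40} : Finset ℕ))
    {φ : Herm n M → FF} {b : ℕ → FF} (P : Psi φ b) {q : ℕ}
    (Q : QQ n M q) {w : Herm n M → ℕ} (hw : IsWt w) {m : ℕ}
    {r : Fin m → Herm n M} (hr : Reps r) (ρ : Fin m → ℕ) (α : ∀ i, Fin (ρ i) → Mat n)
    (k : ∀ i, Fin (ρ i) → Herm n M) (N : ∀ i, Nbrs q (r i) (α i) (k i))
    (η : SS n M → FF)
    (hval : ∀ h : Herm n M, η h.tau =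
      ∑ y : (Σ i, Fin (ρ i)), φ (r y.1) * (ind FF (HEq' h (k y.1 y.2)) * (w h : FF)))
    (h : Herm n M) : η h.tau = b q ^ 2 * φ h := by
  have _ : IsPrincipalIdealRing (OK n) := pidm n hn
  have hc : q.Coprime M := (Nat.Prime.coprime_iff_not_dvd Q.prime).2 Q.nd
  rw [hval h]
  by_cases hEv : Ev h
  · have h1 : (w h : FF) = 0 := by
      apply caseB_even
      rw [← Nat.not_odd_iff_even, hw.odd]
      exact fun h2 => h2 hEv
    rw [P.ev h hEv, mul_zero]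
    apply Finset.sum_eq_zero
    intro y _
    rw [h1, mul_zero, mul_zero]
  · have h1 : (w h : FF) = 1 := caseB_odd ((hw.odd h).2 hEv)
    obtain ⟨s, α', k', N'⟩ := nbrs_exist Q.prime (qq_nd Q) h
    rw [← P.eig q Q.prime (qq_nd Q) h s α' k' N', class_sum hr φ P.inv k', Fintype.sum_sigma]
    refine Finset.sum_congr rfl fun i _ => ?_
    change ∑ x, φ (r i) * (ind FF (HEq' h (k i x)) * (w h : FF)) = _
    have h2 : ∑ x, φ (r i) * (ind FF (HEq' h (k i x)) * (w h : FF)) =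
        φ (r i) * ((Nat.card {x // HEq' (k i x) h} * w h : ℕ) : FF) := by
      rw [← Finset.mul_sum, ← Finset.sum_mul, caseB_ind (fun x => HEq' h (k i x))]
      push_cast
      congr 2
      have h3 : ∀ x, HEq' h (k i x) ↔ HEq' (k i x) h := fun x => ⟨heq_symm, heq_symm⟩
      have h4 : Nat.card {x // HEq' h (k i x)} = Nat.card {x // HEq' (k i x) h} :=
        Nat.card_congr (Equiv.subtypeEquivRight h3)
      rw [h4]
    rw [h2, n_symm hw Q.prime.ne_zero hc (N i) N']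
    by_cases hEr : Ev (r i)
    · rw [P.ev _ hEr, zero_mul, mul_zero]
    · push_cast
      rw [caseB_odd ((hw.odd (r i)).2 hEr)]
      ring

/-- Proof.  Let `ξ0, x0` be given by `hecke_q` for `η`; `ξ0 h.tau = Σ_x η (k' x).tau = b q ^ 2 * (b q ^ 2 * φ h)`
(`nbrs_exist`, `P.eig`).  Let `φ h0 ≠ 0` and let `k0 : Fin s → _` be neighbours of `h0` at `q`; `s` is even
(`nbrs_even`).  Apply `main_alg` with `J = Fin s`, `κ = k0`, `μ = 1`, `e0 = b q ^ 6 * φ h0` and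
`Good ξ β : IsXi ξ ∧ ∀ h, ξ h.tau = β * b q ^ 4 * φ h`.  `G1`: `hecke_p` and `P.eig`; `G2`: `hecke_l`;
`G3`: `Σ_x ξ (k0 x).tau = β b q ^ 4 * b q ^ 2 * φ h0`. -/
theorem case_b (hn : n ∈ ({0, 1, 2, 4, 10, 16, 40} : Finset ℕ))
    (hM : M.Coprime (2 * (4 * n + 3))) {φ : Herm n M → FF} {b : ℕ → FF} (P : Psi φ b) {q : ℕ}
    (Q : QQ n M q) (hb : b q ≠ 0) (hφ : φ ≠ 0) (η : SS n M → FF) (hη : IsXi η)
    (hval : ∀ h : Herm n M, η h.tau = b q ^ 2 * φ h) :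
    ∃ Φ : Eigenform (M : OK n), AttQ Φ b := by
  have _ : IsPrincipalIdealRing (OK n) := pidm n hn
  have hd := ari_d hn
  obtain ⟨ξ0, hξ0, ⟨x0, hx0⟩, hv0⟩ := hecke_q hn Q.prime Q.four Q.inert Q.nd hη
  have hξv : ∀ h : Herm n M, ξ0 h.tau = b q ^ 4 * φ h := by
    intro h
    obtain ⟨s, α', k', N'⟩ := nbrs_exist Q.prime (qq_nd Q) h
    rw [hv0 h s α' k' N', Finset.sum_congr rfl (fun i _ => hval (k' i)), ← Finset.mul_sum,
      P.eig q Q.prime (qq_nd Q) h s α' k' N']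
    ring
  obtain ⟨h0, hh0⟩ : ∃ h0, φ h0 ≠ 0 := by
    by_contra hcon
    push Not at hcon
    exact hφ (funext hcon)
  obtain ⟨s, α0, k0, N0⟩ := nbrs_exist Q.prime (qq_nd Q) h0
  have hs := nbrs_even Q.prime (qq_nd Q) N0
  refine main_alg hd b k0 (fun _ => 1) ?_
    (fun ξ β => IsXi ξ ∧ ∀ h : Herm n M, ξ h.tau = β * b q ^ 4 * φ h) (b q ^ 6 * φ h0)
    (mul_ne_zero (pow_ne_zero 6 hb) hh0) (fun ξ β h => h.1) ?_ ?_ ?_ ξ0 ⟨hξ0, fun h => ?_⟩ x0 hx0
  · rw [Finset.sum_const, Finset.card_univ, Fintype.card_fin, nsmul_eq_mul, mul_one]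
    exact caseB_even hs
  · rintro p hp hp2 ξ β ⟨h1, h2⟩
    obtain ⟨ξ', h3, h4, h5⟩ := hecke_p hp hp2 h1
    refine ⟨ξ', ⟨h3, fun h => ?_⟩, h4⟩
    obtain ⟨t, α', k', N'⟩ := nbrs_exist hp hp2 h
    rw [h5 h t α' k' N', Finset.sum_congr rfl (fun i _ => h2 (k' i)), ← Finset.mul_sum,
      P.eig p hp hp2 h t α' k' N']
    ring
  · rintro ξ β ⟨h1, h2⟩
    obtain ⟨ξ', h3, h4, h5⟩ := hecke_l hd hM h1
    refine ⟨ξ', ⟨h3, fun h => ?_⟩, h4⟩
    rw [h5 h]
    ring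
  · rintro ξ β ⟨h1, h2⟩
    rw [Finset.sum_congr rfl (fun i _ => congrArg (fun z => (1 : FF) * z) (h2 (k0 i)))]
    have h3 : ∑ i, (1 : FF) * (β * b q ^ 4 * φ (k0 i)) = β * b q ^ 4 * ∑ i, φ (k0 i) := by
      rw [Finset.mul_sum]
      refine Finset.sum_congr rfl fun i _ => ?_
      rw [one_mul]
    rw [h3, P.eig q Q.prime (qq_nd Q) h0 s α0 k0 N0]
    ring
  · rw [hξv h]
    ring

end QTW
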