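import Pool.Agent.QTW.TrB

/-!
# CntA: counting matrices (size 4)
-/

open Matrix

namespace QTW

open SerreE SerreK SerreU

variable {n M : ℕ}

private theorem cnta_icast {a b : ℤ} (h : (a : OK n) = (b : OK n)) : a = b := by
  have h1 := congrArg QuadraticAlgebra.re h
  simpa using h1

private theorem cnta_nfin (B : ℤ) : {x : OK n | nrm x ≤ B}.Finite := by
  refine ((sig_imQ n).fin (B : ℝ)).subset ?_
  intro x hx
  change Complex.normSq (sig n x) ≤ (B : ℝ)
  rw [sig_normSq]
  have h1 : nrm x ≤ B := hx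
  unfold nrm at h1
  exact_mod_cast h1

private theorem cnta_col (h : Herm n M) (x y : OK n) (m : ℤ)
    (hm : (h.A : OK n) * (x * star x) + x * h.B * star y + y * star h.B * star x +
      (h.C : OK n) * (y * star y) = (m : OK n)) :
    nrm ((h.A : OK n) * x + star h.B * y) + nrm y = h.A * m := by
  apply cnta_icast (n := n)
  push_cast
  rw [← mul_star_eq, ← mul_star_eq, ← hm]
  have h1 := mul_star_eq h.B
  have h2 := h.det
  have h3 : ((h.A * h.C - nrm h.B : ℤ) : OK n) = 1 := by rw [h2]; push_cast; rfl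
  push_cast at h3
  rw [← h1] at h3
  rw [star_add, star_mul', star_mul', star_star, star_icast]
  linear_combination (-(y * star y)) * h3

private theorem cnta_bd (h : Herm n M) (x y : OK n) (m B : ℤ) (hB : h.A * m ≤ B)
    (hm : (h.A : OK n) * (x * star x) + x * h.B * star y + y * star h.B * star x +
      (h.C : OK n) * (y * star y) = (m : OK n)) :
    nrm y ≤ B ∧ nrm ((h.A : OK n) * x + star h.B * y) ≤ B := by
  have h1 := cnta_col h x y m hm
  have h2 := nrm_nonneg y
  have h3 := nrm_nonneg ((h.A : OK n) * x + star h.B * y)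
  constructor <;> linarith

/-- Only finitely many `β` transform `h` into `p k`.

Proof.  For a column `b = (x, y)` of `β` the entry `(bᵀ h b̄)` is `p` times a diagonal entry of `k`, and
`A (bᵀ h b̄) = nrm (A x + B̄ y) + nrm y` (with `AC - nrm B = 1`), so `nrm y` and `nrm (A x + B̄ y)` are
bounded; there are finitely many elements of bounded norm (`(sig_imQ n).fin`, `sig_normSq`), so
finitely many `y`, and then finitely many `x` (`A ≠ 0`). -/
theorem tr_fin (p : ℕ) (h k : Herm n M) : {β : Mat n | Tr p β h k}.Finite := by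
  set B : ℤ := max (h.A * (p * k.A)) (h.A * (p * k.C)) with hB
  have hS := cnta_nfin (n := n) B
  have hfin := hS.prod (hS.prod (hS.prod hS))
  let f : Mat n → OK n × OK n × OK n × OK n := fun β =>
    (β 1 0, (h.A : OK n) * β 0 0 + star h.B * β 1 0, β 1 1, (h.A : OK n) * β 0 1 + star h.B * β 1 1)
  have hA : (h.A : OK n) ≠ 0 := by
    intro h0
    have h1 : h.A = 0 := cnta_icast (n := n) (by rw [h0]; push_cast; rfl)
    have := h.pos
    omega
  have hinj : Function.Injective f := by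
    intro β γ hβγ
    have e1 : β 1 0 = γ 1 0 := congrArg (fun z => z.1) hβγ
    have e2 : (h.A : OK n) * β 0 0 + star h.B * β 1 0 = (h.A : OK n) * γ 0 0 + star h.B * γ 1 0 :=
      congrArg (fun z => z.2.1) hβγ
    have e3 : β 1 1 = γ 1 1 := congrArg (fun z => z.2.2.1) hβγ
    have e4 : (h.A : OK n) * β 0 1 + star h.B * β 1 1 = (h.A : OK n) * γ 0 1 + star h.B * γ 1 1 :=
      congrArg (fun z => z.2.2.2) hβγ
    rw [e1] at e2
    rw [e3] at e4
    have e5 : β 0 0 = γ 0 0 := mul_left_cancel₀ hA (add_right_cancel e2)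
    have e6 : β 0 1 = γ 0 1 := mul_left_cancel₀ hA (add_right_cancel e4)
    ext1 i j
    fin_cases i <;> fin_cases j
    · exact e5
    · exact e6
    · exact e1
    · exact e3
  refine (hfin.preimage hinj.injOn).subset ?_
  intro β hβ
  have hT : βᵀ * h.mat * β.map star = (p : OK n) • k.mat := hβ
  have c0 := congrFun (congrFun hT 0) 0
  have c1 := congrFun (congrFun hT 1) 1
  simp only [Matrix.mul_apply, Fin.sum_univ_two, Matrix.transpose_apply, Matrix.map_apply,
    Matrix.smul_apply, Herm.mat, Matrix.of_apply, Matrix.cons_val', Matrix.cons_val_zero,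
    Matrix.cons_val_one, Matrix.cons_val_fin_one, smul_eq_mul] at c0 c1
  have b0 := cnta_bd h (β 0 0) (β 1 0) (p * k.A) B (le_max_left _ _) (by
    push_cast
    linear_combination c0)
  have b1 := cnta_bd h (β 0 1) (β 1 1) (p * k.C) B (le_max_right _ _) (by
    push_cast
    linear_combination c1)
  exact ⟨b0.1, b0.2, b1.1, b1.2⟩

private theorem cnta_adj (β : Mat n) : β.adjugate.adjugate = β := by
  rw [Matrix.adjugate_fin_two, Matrix.adjugate_fin_two]
  ext1 i j
  fin_cases i <;> fin_cases j <;> simp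

/-- `β ↦ adj(β)` (`tr_adj`, `td_adj`, `adj (adj β) = β` for `2 × 2` matrices). -/
theorem rr_symm {p : ℕ} (hp : p ≠ 0) (h k : Herm n M) :
    Nat.card {β : Mat n // TD (M : OK n) (p : OK n) β ∧ Tr p β h k} =
      Nat.card {β : Mat n // TD (M : OK n) (p : OK n) β ∧ Tr p β k h} := by
  refine Nat.card_congr
    { toFun := fun β => ⟨β.1.adjugate, td_adj β.2.1, tr_adj hp β.2.1.1 β.2.2⟩
      invFun := fun β => ⟨β.1.adjugate, td_adj β.2.1, tr_adj hp β.2.1.1 β.2.2⟩
      left_inv := fun β => Subtype.ext (cnta_adj β.1)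
      right_inv := fun β => Subtype.ext (cnta_adj β.1) }

private theorem cnta_det {g : Mat n} (hg : TA (M : OK n) g) : g.det ≠ 0 := by
  have := hg.1
  exact this.ne_zero

private theorem cnta_div {g g0 : Mat n} (h0 : TA (M : OK n) g0) (hg : TA (M : OK n) g) :
    ∃ s : Mat n, TA (M : OK n) s ∧ g0 * s = g := by
  obtain ⟨γ, hγ⟩ := ta_gl h0
  refine ⟨(γ⁻¹).val.val * g, uhec_TA_mul (uhec_TA_gl γ⁻¹) hg, ?_⟩
  rw [← hγ, ← mul_assoc]
  have h1 : γ.val.val * (γ⁻¹).val.val = 1 := uhec_mul_inv γ.val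
  rw [h1, one_mul]

/-- For equivalent `k, l` the set `{g // TA M g ∧ Tr 1 g k l}` has `stab l` elements: fix `g₀` in it;
`s ↦ g₀ s` is a bijection from the stabiliser of `l`, with inverse `g ↦ u adj(g₀) g`, `u = (det g₀)⁻¹`
(`tr_adj`, `tr_mul`; `Tr 1 (u • g)` iff `Tr 1 g` for a unit `u`, as `u ū = 1`). -/
theorem card_equiv {k l : Herm n M} (H : HEq' k l) :
    Nat.card {g : Mat n // TA (M : OK n) g ∧ Tr 1 g k l} = stab l := by
  obtain ⟨g0, h0, h0t⟩ := H
  symm
  refine Nat.card_congr (Equiv.ofBijective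
    (fun s : {g : Mat n // TA (M : OK n) g ∧ Tr 1 g l l} =>
      (⟨g0 * s.1, uhec_TA_mul h0 s.2.1, tr_mul_one h0t s.2.2⟩ :
        {g : Mat n // TA (M : OK n) g ∧ Tr 1 g k l})) ⟨?_, ?_⟩)
  · intro s t hst
    exact Subtype.ext (uhec_cancel (cnta_det h0) (congrArg Subtype.val hst))
  · rintro ⟨g, hg, hgt⟩
    obtain ⟨s, hs, hsg⟩ := cnta_div h0 hg
    refine ⟨⟨s, hs, ?_⟩, Subtype.ext hsg⟩
    apply tr_cancel one_ne_zero h0t
    rw [hsg]
    exact hgt

/-- Proof.  Let `Y = {β // TD M p β ∧ Tr p β h k0}`.  For `β ∈ Y` there are (`N.all`) `i, g` with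
`β = α i * g`, unique by `N.sep` and cancellation (`det (α i) ≠ 0`: if `α i g = α j g'` with `g'`
invertible then `α i (g g'⁻¹) = α j`); `TA M g` by `ta_of_td`, and `Tr 1 g (k i) k0` by `tr_cancel`.
Conversely for such `g` `α i * g ∈ Y` (`td_mul_ta`, `tr_mul_one`).  So `Y` is the disjoint union over `i`
of the sets `{g // TA M g ∧ Tr 1 g (k i) k0}`, which is empty if not `HEq' (k i) k0` and has `stab k0`
elements otherwise (`card_equiv`); all sets are finite by `tr_fin`. -/
theorem cnt {p : ℕ} (hp : p ≠ 0) (hc : p.Coprime M) {h : Herm n M} {r : ℕ} {α : Fin r → Mat n}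
    {k : Fin r → Herm n M} (N : Nbrs p h α k) (k0 : Herm n M) :
    Nat.card {i : Fin r // HEq' (k i) k0} * stab k0 =
      Nat.card {β : Mat n // TD (M : OK n) (p : OK n) β ∧ Tr p β h k0} := by
  have hp0 : (p : OK n) ≠ 0 := by
    intro h0
    have h1 : (p : ℤ) = 0 := cnta_icast (n := n) (by push_cast; exact h0)
    exact hp (by exact_mod_cast h1)
  have hdet : ∀ i, (α i).det ≠ 0 := by
    intro i h0
    have h1 := N.det i
    rw [h0] at h1
    exact hp0 ((associated_zero_iff_eq_zero _).1 h1.symm)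
  have hch : ∀ i : {i : Fin r // HEq' (k i) k0}, ∃ g : Mat n, TA (M : OK n) g ∧ Tr 1 g (k i.1) k0 :=
    fun i => i.2
  choose g hg hgt using hch
  rw [stab, ← Nat.card_prod]
  refine Nat.card_congr (Equiv.ofBijective
    (fun x : {i : Fin r // HEq' (k i) k0} × {s : Mat n // TA (M : OK n) s ∧ Tr 1 s k0 k0} =>
      (⟨α x.1.1 * (g x.1 * x.2.1),
        td_mul_ta ⟨N.det x.1.1, N.lev x.1.1⟩ (uhec_TA_mul (hg x.1) x.2.2.1),
        tr_mul_one (N.tr x.1.1) (tr_mul_one (hgt x.1) x.2.2.2)⟩ :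
        {β : Mat n // TD (M : OK n) (p : OK n) β ∧ Tr p β h k0})) ⟨?_, ?_⟩)
  · rintro ⟨i, s⟩ ⟨j, t⟩ hst
    have h1 : α i.1 * (g i * s.1) = α j.1 * (g j * t.1) := congrArg Subtype.val hst
    have hij : i = j := by
      obtain ⟨w, hw⟩ := ta_gl (uhec_TA_mul (hg j) t.2.1)
      apply Subtype.ext
      refine N.sep i.1 j.1 ((g i * s.1) * (w⁻¹).val.val) ?_
      rw [← mul_assoc, h1, ← hw, mul_assoc]
      have h2 : w.val.val * (w⁻¹).val.val = 1 := uhec_mul_inv w.val
      rw [h2, mul_one]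
    subst hij
    have h2 := uhec_cancel (hdet i.1) h1
    have h3 := uhec_cancel (cnta_det (hg i)) h2
    rw [Subtype.ext h3]
  · rintro ⟨β, hβ, hβt⟩
    obtain ⟨i, w, hw⟩ := N.all β k0 hβ.1 hβ.2 hβt
    have hwT : TA (M : OK n) w := ta_of_td hp hc ⟨N.det i, N.lev i⟩ (by rw [← hw]; exact hβ)
    have hwt : Tr 1 w (k i) k0 := tr_cancel hp (N.tr i) (by rw [← hw]; exact hβt)
    have hi : HEq' (k i) k0 := ⟨w, hwT, hwt⟩
    obtain ⟨s, hs, hsg⟩ := cnta_div (hg ⟨i, hi⟩) hwT
    refine ⟨(⟨i, hi⟩, ⟨s, hs, ?_⟩), ?_⟩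
    · apply tr_cancel one_ne_zero (hgt ⟨i, hi⟩)
      rw [hsg]
      exact hwt
    · apply Subtype.ext
      change α i * (g ⟨i, hi⟩ * s) = β
      rw [hsg, ← hw]

end QTW
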