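import Pool.Agent.SerreK.TSQM

/-!
# Definitions: quaternionic eigenfunctions on hermitian forms (MP_94f623_nt, `p = 2`)

`O = OK n = ℤ[ω]` is the ring of integers of `K = ℚ(√-d)`, `d = 4n + 3`, `nrm` is the absolute norm,
`star` is complex conjugation.
-/

open Matrix

namespace QTW

open SerreE SerreK

/-- `2 × 2` matrices over `O = OK n` -/
abbrev Mat (n : ℕ) : Type := Matrix (Fin 2) (Fin 2) (OK n)

/-- The positive definite hermitian matrices `[[A, B], [B̄, C]]` over `O` of determinant `1` with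
`M ∣ A`. -/
structure Herm (n M : ℕ) where
  A : ℤ
  B : OK n
  C : ℤ
  pos : 0 < A
  det : A * C - nrm B = 1
  lev : (M : ℤ) ∣ A

/-- the matrix `[[A, B], [B̄, C]]` -/
def Herm.mat {n M : ℕ} (h : Herm n M) : Mat n := !![(h.A : OK n), h.B; star h.B, (h.C : OK n)]

/-- `αᵀ h ᾱ = p k`: the lattice spanned by the columns of `α` with the form `h / p` is `k`. -/
def Tr {n M : ℕ} (p : ℕ) (α : Mat n) (h k : Herm n M) : Prop :=
  αᵀ * h.mat * α.map star = (p : OK n) • k.mat

/-- `(k i)` is the complete system of the `p`-neighbours of `h`: the matrices `α i` of determinant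
`p` up to a unit, with lower left entry divisible by `M`, and `(α i)ᵀ h (ᾱ i) = p k i`, represent
every such matrix exactly once up to multiplication on the right by `Γ₀(M)`. -/
structure Nbrs {n M : ℕ} (p : ℕ) (h : Herm n M) {r : ℕ} (α : Fin r → Mat n)
    (k : Fin r → Herm n M) : Prop where
  det : ∀ i, Associated (α i).det (p : OK n)
  lev : ∀ i, (M : OK n) ∣ α i 1 0
  tr : ∀ i, Tr p (α i) h (k i)
  sep : ∀ i j (g : Mat n), α j = α i * g → i = j
  all : ∀ (β : Mat n) (l : Herm n M), Associated β.det (p : OK n) → (M : OK n) ∣ β 1 0 →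
    Tr p β h l → ∃ i g, β = α i * g

/-- `ψ` is invariant under `Γ₀(M)` and an eigenfunction of the Hecke operators (sums over the
`p`-neighbours) with eigenvalues `b p`, for all primes `p` not dividing `2 d M`. -/
structure QEig {n M : ℕ} (ψ : Herm n M → FF) (b : ℕ → FF) : Prop where
  inv : ∀ (g : Mat n) (h k : Herm n M), IsUnit g.det → (M : OK n) ∣ g 1 0 → Tr 1 g h k → ψ k = ψ h
  eig : ∀ p : ℕ, p.Prime → ¬ p ∣ 2 * (4 * n + 3) * M → ∀ (h : Herm n M) (r : ℕ)
    (α : Fin r → Mat n) (k : Fin r → Herm n M), Nbrs p h α k → ∑ i, ψ (k i) = b p * ψ h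

/-- The eigenvalues of `Φ` are the Frobenius traces of `ρ|K`, where `ρ` has the Frobenius traces
`b p`: `b p` at `π` of norm `p ≠ d`, `(b p)²` at `π = p` inert, `0` at `π = √-d`. -/
def AttQ {n M : ℕ} (Φ : Eigenform (M : OK n)) (b : ℕ → FF) : Prop :=
  ∀ π : GP (M : OK n),
    (∀ p : ℕ, p.Prime → p ≠ 4 * n + 3 → nrm π.el = p → Φ.ev π = b p) ∧
    (∀ p : ℕ, p.Prime → Associated π.el (p : OK n) → Φ.ev π = b p ^ 2) ∧
    (nrm π.el = 4 * n + 3 → Φ.ev π = 0)

end QTW
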