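import Pool.Agent.QTW.FinB
import Pool.Agent.QTW.HDefs
import Pool.Agent.QTW.TrB

/-!
# FinC: finiteness of the number of classes (size 4)
-/

open Matrix

namespace QTW

open SerreE SerreK SerreU

private def base {n M : ℕ} (h : Herm n M) : Herm n 1 where
  A := h.A
  B := h.B
  C := h.C
  pos := h.pos
  det := h.det
  lev := by
    push_cast
    exact one_dvd _

/-- Proof.  For `h : Herm n M` let `h' : Herm n 1` be the same form.  By `red_finite` and `tr_adj` there
are `k ∈ S` and `g` with `det g` a unit and `Tr 1 g k h'`.  Let `c ∈ M₂(O/M)` be the class of `g` (a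
finite set: `FinQuot`, `M ≠ 0`).  If `h₁, h₂ : Herm n M` have the same `k` and `c`, with `g₁, g₂`, then
`g = u adj(g₁) g₂` (`u = (det g₁)⁻¹`) is congruent to `1` modulo `M`, so `M ∣ g 1 0`, `TA M g`, and
`Tr 1 g h₁ h₂` (`tr_adj`, `tr_mul`; unit scalars do not matter): `HEq' h₁ h₂`.  So the set of classes
(quotient by `HEq'`, an equivalence relation by `heq_refl`, `heq_symm`, `heq_trans`) is finite; choose
representatives (`Quotient.out`) and number them (`Finite.equivFin`). -/
theorem reps_exist (n M : ℕ) [IsPrincipalIdealRing (OK n)] (hM : M ≠ 0) :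
    ∃ (m : ℕ) (r : Fin m → Herm n M), Reps r := by
  classical
  obtain ⟨S, hSf, hS⟩ := red_finite n
  choose k hk g hg using fun h : Herm n M => hS (base h)
  have hfin1 : Finite S := hSf.to_subtype
  have hM' : (M : OK n) ≠ 0 := by
    intro h
    apply hM
    have h1 : ((M : OK n)).re = (0 : OK n).re := by rw [h]
    rw [QuadraticAlgebra.re_natCast, QuadraticAlgebra.re_zero] at h1
    exact_mod_cast h1
  have hfin2 : Finite (OK n ⧸ Ideal.span {(M : OK n)}) := FinQuot.fin _ hM'
  let Φ : Herm n M → S × (Fin 2 → Fin 2 → OK n ⧸ Ideal.span {(M : OK n)}) := fun h =>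
    (⟨k h, hk h⟩, fun i j => Ideal.Quotient.mk _ (g h i j))
  have hΦ : ∀ h₁ h₂ : Herm n M, Φ h₁ = Φ h₂ → HEq' h₁ h₂ := by
    intro h₁ h₂ h
    have e1 : k h₁ = k h₂ := congrArg (fun x => (x.1 : Herm n 1)) h
    have e2 : ∀ i j, (M : OK n) ∣ g h₁ i j - g h₂ i j := by
      intro i j
      have e3 : (Ideal.Quotient.mk (Ideal.span {(M : OK n)})) (g h₁ i j) =
          (Ideal.Quotient.mk (Ideal.span {(M : OK n)})) (g h₂ i j) :=
        congrFun (congrFun (congrArg Prod.snd h) i) j
      rw [Ideal.Quotient.eq, Ideal.mem_span_singleton] at e3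
      exact e3
    obtain ⟨u1, t1⟩ := hg h₁
    obtain ⟨u2, t2⟩ := hg h₂
    rw [← e1] at t2
    have t3 := tr_adj one_ne_zero (by
      push_cast
      exact associated_one_iff_isUnit.2 u2) t2
    have t4 := tr_mul t1 t3
    refine ⟨g h₁ * (g h₂).adjugate, ⟨?_, ?_⟩, t4⟩
    · rw [Matrix.det_mul, Matrix.det_adjugate]
      simp only [Fintype.card_fin]
      exact u1.mul (u2.pow _)
    · obtain ⟨a, ha⟩ := e2 1 0
      obtain ⟨b, hb⟩ := e2 1 1
      have e4 : (g h₁ * (g h₂).adjugate) 1 0 = g h₁ 1 0 * g h₂ 1 1 - g h₁ 1 1 * g h₂ 1 0 := by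
        rw [Matrix.mul_apply, Fin.sum_univ_two, Matrix.adjugate_fin_two]
        simp
        ring
      rw [e4]
      refine ⟨a * g h₂ 1 1 - b * g h₂ 1 0, ?_⟩
      linear_combination g h₂ 1 1 * ha - g h₂ 1 0 * hb
  let s : Setoid (Herm n M) := ⟨HEq', heq_refl, heq_symm, heq_trans⟩
  have hq : Finite (Quotient s) := by
    apply Finite.of_injective (fun q : Quotient s => Φ q.out)
    intro q q' h
    have h1 : q.out ≈ q'.out := hΦ _ _ h
    rw [← Quotient.out_eq q, ← Quotient.out_eq q']
    exact Quotient.sound h1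
  let e := Finite.equivFin (Quotient s)
  refine ⟨_, fun j => (e.symm j).out, ?_, ?_⟩
  · intro h
    refine ⟨e (Quotient.mk s h), ?_⟩
    rw [Equiv.symm_apply_apply]
    exact Quotient.mk_out h
  · intro i j h
    have h1 : Quotient.mk s (e.symm i).out = Quotient.mk s (e.symm j).out := Quotient.sound h
    rw [Quotient.out_eq, Quotient.out_eq] at h1
    exact e.symm.injective h1

end QTW
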