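import Pool.Agent.QTW.CntA
import Pool.Agent.QTW.HDefs
import Pool.Agent.SerreK.FINO

/-!
# OddW: the weights (size 4)
-/

open Matrix

namespace QTW

open SerreE SerreK SerreU

variable {n M : ℕ}

private def oddW_S (h : Herm n M) : Subgroup (GL (Fin 2) (OK n)) where
  carrier := {g | TA (M : OK n) g.val ∧ Tr 1 g.val h h}
  mul_mem' := by
    rintro a b ⟨ha, ha'⟩ ⟨hb, hb'⟩
    refine ⟨uhec_TA_mul ha hb, ?_⟩
    have := tr_mul ha' hb'
    simpa using this
  one_mem' := by
    refine ⟨⟨?_, ?_⟩, ?_⟩
    · simp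
    · simp
    · have hc : ((1 : Mat n).map star) = 1 := cjM_one
      simp [Tr, hc]
  inv_mem' := by
    rintro g ⟨hg, hg'⟩
    refine ⟨⟨uhec_GL_det _, ?_⟩, ?_⟩
    · have h1 : g ∈ Gam0 (M : OK n) := mem_Gam0.2 hg.2
      exact mem_Gam0.1 ((Gam0 (M : OK n)).inv_mem h1)
    · have e1 : g.val * (g⁻¹).val = 1 := uhec_mul_inv g
      have e2 : (g⁻¹).valᵀ * g.valᵀ = 1 := by
        rw [← Matrix.transpose_mul, e1, Matrix.transpose_one]
      have e3 : g.val.map star * (g⁻¹).val.map star = 1 := by
        have h2 : cjM (g.val * (g⁻¹).val) = cjM g.val * cjM (g⁻¹).val := cjM_mul _ _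
        rw [e1, cjM_one] at h2
        exact h2.symm
      have hg2 : g.valᵀ * h.mat * g.val.map star = ((1 : ℕ) : OK n) • h.mat := hg'
      change (g⁻¹).valᵀ * h.mat * (g⁻¹).val.map star = ((1 : ℕ) : OK n) • h.mat
      rw [Nat.cast_one, one_smul] at hg2 ⊢
      calc (g⁻¹).valᵀ * h.mat * (g⁻¹).val.map star
          = (g⁻¹).valᵀ * (g.valᵀ * h.mat * g.val.map star) * (g⁻¹).val.map star := by rw [hg2]
        _ = ((g⁻¹).valᵀ * g.valᵀ) * h.mat * (g.val.map star * (g⁻¹).val.map star) := by
            simp only [Matrix.mul_assoc]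
        _ = h.mat := by rw [e2, e3, Matrix.one_mul, Matrix.mul_one]

private theorem oddW_mem (h : Herm n M) (g : GL (Fin 2) (OK n)) :
    g ∈ oddW_S h ↔ TA (M : OK n) g.val ∧ Tr 1 g.val h h := Iff.rfl

private theorem oddW_sc_mem (h : Herm n M) (u : (OK n)ˣ) : sc u ∈ oddW_S h := by
  rw [oddW_mem]
  have hval : (sc u).val = (u : OK n) • (1 : Mat n) := by
    ext1 i j
    fin_cases i <;> fin_cases j <;> simp
  have hu : (u : OK n) * star (u : OK n) = 1 := by
    rw [mul_star_eq, nrm_isUnit.1 u.isUnit]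
    push_cast
    rfl
  refine ⟨⟨uhec_GL_det _, ?_⟩, ?_⟩
  · rw [hval]; simp
  · have hc : (((u : OK n) • (1 : Mat n)).map star) = star (u : OK n) • (1 : Mat n) := by
      ext1 i j
      fin_cases i <;> fin_cases j <;> simp
    rw [hval]
    change ((u : OK n) • (1 : Mat n))ᵀ * h.mat * (((u : OK n) • (1 : Mat n)).map star) =
      ((1 : ℕ) : OK n) • h.mat
    rw [hc, Matrix.transpose_smul, Matrix.transpose_one, Matrix.smul_mul, Matrix.one_mul,
      Matrix.smul_mul, Matrix.mul_smul, Matrix.mul_one, smul_smul, hu, Nat.cast_one]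

private def oddW_phi (h : Herm n M) : (OK n)ˣ →* oddW_S h :=
  (Matrix.GeneralLinearGroup.scalar (Fin 2)).codRestrict (oddW_S h) (oddW_sc_mem h)

private theorem oddW_phi_val (h : Herm n M) (u : (OK n)ˣ) :
    ((oddW_phi h u : oddW_S h) : GL (Fin 2) (OK n)) = sc u := rfl

private theorem oddW_phi_inj (h : Herm n M) : Function.Injective (oddW_phi h) := by
  intro u v huv
  have h1 : sc u = sc v := by rw [← oddW_phi_val h u, ← oddW_phi_val h v, huv]
  have h2 := congrArg (fun g : GL (Fin 2) (OK n) => g.val 0 0) h1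
  simp at h2
  exact Units.ext h2

private theorem oddW_normal (h : Herm n M) : (oddW_phi h).range.Normal := by
  constructor
  rintro _ ⟨u, rfl⟩ g
  refine ⟨u, ?_⟩
  apply Subtype.ext
  have h1 : sc u * (g : GL (Fin 2) (OK n)) = (g : GL (Fin 2) (OK n)) * sc u :=
    Matrix.GeneralLinearGroup.scalar_commute u (g : GL (Fin 2) (OK n))
  rw [Subgroup.coe_mul, Subgroup.coe_mul, oddW_phi_val, ← h1, Subgroup.coe_inv, mul_assoc,
    mul_inv_cancel, mul_one]

private theorem oddW_card (h : Herm n M) : Nat.card (oddW_S h) = stab h := by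
  unfold stab
  apply Nat.card_congr
  refine Equiv.ofBijective (fun g => ⟨g.1.val, g.2⟩) ⟨?_, ?_⟩
  · intro a b hab
    apply Subtype.ext
    apply Units.ext
    exact congrArg Subtype.val hab
  · rintro ⟨g, hg⟩
    have hdet : IsUnit g.det := hg.1.1
    have hv : (Matrix.GeneralLinearGroup.mk'' g hdet).val = g := rfl
    exact ⟨⟨Matrix.GeneralLinearGroup.mk'' g hdet, by rw [oddW_mem, hv]; exact hg⟩, rfl⟩

private theorem oddW_fin (h : Herm n M) : Finite (oddW_S h) := by
  have h1 := (tr_fin 1 h h)
  have h2 : Finite {β : Mat n | Tr 1 β h h} := h1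
  apply Finite.of_injective (β := {β : Mat n | Tr 1 β h h})
    (fun g => ⟨g.1.val, g.2.2⟩)
  intro a b hab
  apply Subtype.ext
  apply Units.ext
  exact congrArg Subtype.val hab

/-- Proof.  Let `S` be the subgroup of `GL₂(OK n)` (or of `Γ₀(M)`) of the `g` with `Tr 1 g h h`
(`tr_mul`, `tr_adj`); it is finite (`tr_fin`) with `stab h` elements and contains the central subgroup `Z`
of the unit scalars (`u ū = 1`), `Z ≃ (OK n)ˣ`.  Put `w h = Nat.card (S ⧸ Z)`, so
`stab h = w h * Nat.card (OK n)ˣ` (Lagrange, `Subgroup.card_eq_card_quotient_mul_card_subgroup`).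
If `w h` is even there is (Cauchy, `exists_prime_orderOf_dvd_card`) an element `s` of order `2` in
`S ⧸ Z`: `s` is not a scalar and `s²` is a scalar, so the trace of `s` is zero
(`fino_tr`, FINO.lean), i.e. `Ev h`.  If `Ev h` with `s`, then `s` is not scalar (otherwise `2 c = 0`,
`c = 0`) and `s² = -det(s) • 1` (`uhec_sq`) is scalar, so the class of `s` has order two and `w h` is
even. -/
theorem exists_wt (n M : ℕ) : ∃ w : Herm n M → ℕ, IsWt w := by
  refine ⟨fun h => Nat.card (oddW_S h ⧸ (oddW_phi h).range), ?_, ?_⟩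
  · intro h
    rw [← oddW_card h, Subgroup.card_eq_card_quotient_mul_card_subgroup (oddW_phi h).range]
    congr 1
    exact (Nat.card_congr (MonoidHom.ofInjective (oddW_phi_inj h)).toEquiv).symm
  · intro h
    have hN : (oddW_phi h).range.Normal := oddW_normal h
    have hF : Finite (oddW_S h) := oddW_fin h
    have hFQ : Finite (oddW_S h ⧸ (oddW_phi h).range) := inferInstance
    have key : 2 ∣ Nat.card (oddW_S h ⧸ (oddW_phi h).range) ↔ Ev h := by
      constructor
      · intro h2
        have : Fact (Nat.Prime 2) := ⟨Nat.prime_two⟩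
        obtain ⟨x, hx⟩ := exists_prime_orderOf_dvd_card' 2 h2
        obtain ⟨s, rfl⟩ := QuotientGroup.mk_surjective x
        have hs1 : s ∉ (oddW_phi h).range := by
          intro hs
          rw [(QuotientGroup.eq_one_iff s).2 hs, orderOf_one] at hx
          omega
        have hs2 : s ^ 2 ∈ (oddW_phi h).range := by
          rw [← QuotientGroup.eq_one_iff, QuotientGroup.mk_pow]
          have h3 := pow_orderOf_eq_one ((s : oddW_S h ⧸ (oddW_phi h).range))
          rw [hx] at h3
          exact h3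
        refine ⟨s.1.val, s.2.1, s.2.2, ?_⟩
        apply fino_tr
        · intro hsc
          obtain ⟨u, hu⟩ := hsc.exists
          exact hs1 ⟨u, Subtype.ext (by rw [oddW_phi_val, hu])⟩
        · obtain ⟨u, hu⟩ := hs2
          have h3 : (s.1) ^ 2 = sc u := by
            rw [← oddW_phi_val h u, hu]; rfl
          rw [h3]
          refine ⟨?_, ?_, ?_⟩ <;> simp
      · rintro ⟨s, hs, hs', htr⟩
        have hv : (Matrix.GeneralLinearGroup.mk'' s hs.1).val = s := rfl
        have hmem : Matrix.GeneralLinearGroup.mk'' s hs.1 ∈ oddW_S h := by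
          rw [oddW_mem, hv]; exact ⟨hs, hs'⟩
        have hsq := uhec_sq htr
        have hord : orderOf ((⟨_, hmem⟩ : oddW_S h) : oddW_S h ⧸ (oddW_phi h).range) = 2 := by
          apply orderOf_eq_prime
          · rw [← QuotientGroup.mk_pow, QuotientGroup.eq_one_iff]
            have hu : IsUnit (-s.det) := hs.1.neg
            obtain ⟨u, hu⟩ := hu
            refine ⟨u, Subtype.ext (Units.ext ?_)⟩
            have e1 : (((⟨Matrix.GeneralLinearGroup.mk'' s hs.1, hmem⟩ : oddW_S h) ^ 2 : oddW_S h) :
              GL (Fin 2) (OK n)).val = s * s := by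
              rw [SubgroupClass.coe_pow, sq]; rfl
            rw [e1, hsq, oddW_phi_val]
            rw [← hu]
            ext1 i j
            fin_cases i <;> fin_cases j <;> simp
          · intro hone
            rw [QuotientGroup.eq_one_iff] at hone
            obtain ⟨u, hu⟩ := hone
            have e1 : (sc u).val = s := by
              rw [← oddW_phi_val h u, hu]; rfl
            rw [← e1] at htr
            simp at htr
        have h3 := orderOf_dvd_natCard ((⟨_, hmem⟩ : oddW_S h) : oddW_S h ⧸ (oddW_phi h).range)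
        rw [hord] at h3
        exact h3
    rw [← Nat.not_even_iff_odd, even_iff_two_dvd]
    exact not_congr key

end QTW
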