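import Pool.Agent.QTW.PDefs

/-!
# PCh: the closed chain (size 3)
Model: `span_test`, `closed_test` in SerreM/MSPAN.lean (copy the proof with `ψ = 1`; the only change
is the error term `e i`).
-/

namespace QTW

open SerreK

private theorem PCh_span {Γ : Type} [Group Γ] {ρ : Γ →* (V →ₗ[ℝ] V)} {ι : Type} {t : ι → Γ}
    {k : Type} [Field k] [CharP k 2] (hC : ∀ g v, InC v → InC (ρ g v)) {x1 x2 x3 : V}
    (h1 : InC x1) (h2 : InC x2) (m : Γ →₀ k)
    (hm : m ∈ Submodule.span k (Set.range (fun x : Γ × Γ => relz (1 : Γ →* kˣ) x.1 x.2))) :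
    ∃ z : V → V → k, (∀ g p q, InC p → InC q → z (ρ g p) (ρ g q) = z p q) ∧
      ∀ ℓ f e, TestP ρ t x1 x2 x3 ℓ f e →
        ℓ z = Finsupp.linearCombination k (fun A => f x1 (ρ A x2)) m := by
  induction hm using Submodule.span_induction with
  | mem x hx =>
    obtain ⟨⟨g, h⟩, rfl⟩ := hx
    refine ⟨fun p q => (SA ρ 1 x3 (ρ 1 x1) (ρ (g * h) x2) p q +
      SA ρ 1 x3 (ρ g x1) (ρ (g * h) x2) p q) +
      (SA ρ 1 x3 (ρ g x1) (ρ g x2) p q + SA ρ 1 x3 (ρ 1 x1) (ρ g x2) p q), ?_, ?_⟩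
    · intro a p q _ _
      simp only [SA_mul, MonoidHom.one_apply, Units.val_one, one_mul]
    · intro ℓ f e T
      rw [T.add (fun p q => SA ρ 1 x3 (ρ 1 x1) (ρ (g * h) x2) p q +
          SA ρ 1 x3 (ρ g x1) (ρ (g * h) x2) p q)
        (fun p q => SA ρ 1 x3 (ρ g x1) (ρ g x2) p q +
          SA ρ 1 x3 (ρ 1 x1) (ρ g x2) p q),
        T.add (fun p q => SA ρ 1 x3 (ρ 1 x1) (ρ (g * h) x2) p q)
          (fun p q => SA ρ 1 x3 (ρ g x1) (ρ (g * h) x2) p q),
        T.add (fun p q => SA ρ 1 x3 (ρ g x1) (ρ g x2) p q)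
          (fun p q => SA ρ 1 x3 (ρ 1 x1) (ρ g x2) p q), T.tK, T.tK, T.tK, T.tK]
      unfold relz
      simp only [map_sub, map_smul, Finsupp.linearCombination_single, one_smul, smul_eq_mul]
      have e1 := T.eqv g x1 (ρ h x2) h1 (hC h _ h2)
      have e2 := T.eqv g x1 x2 h1 h2
      rw [← rho_mul ρ g h] at e1
      simp only [rho_one, MonoidHom.one_apply, Units.val_one, inv_one]
      have h2 : (2 : k) = 0 := CharTwo.two_eq_zero
      linear_combination e1 + e2 + (f x3 x1 + f x3 (ρ g x1) +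
        f x3 (ρ (g * h) x2) + f x3 (ρ g x2) + f x1 (ρ g x2) +
        f x1 (ρ h x2)) * h2
  | zero =>
    refine ⟨fun _ _ => 0, fun _ _ _ _ _ => rfl, ?_⟩
    intro ℓ f e T
    have h := T.smul 0 (fun _ _ => 0)
    simp only [zero_mul] at h
    rw [h, map_zero]
  | add x y _ _ hx hy =>
    obtain ⟨z, hz, hz'⟩ := hx
    obtain ⟨w, hw, hw'⟩ := hy
    refine ⟨fun p q => z p q + w p q, ?_, ?_⟩
    · intro g p q hp hq
      beta_reduce
      rw [hz g p q hp hq, hw g p q hp hq]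
    · intro ℓ f e T
      rw [T.add, hz' ℓ f e T, hw' ℓ f e T, map_add]
  | smul c x _ hx =>
    obtain ⟨z, hz, hz'⟩ := hx
    refine ⟨fun p q => c * z p q, ?_, ?_⟩
    · intro g p q hp hq
      beta_reduce
      rw [hz g p q hp hq]
    · intro ℓ f e T
      rw [T.smul, hz' ℓ f e T, map_smul, smul_eq_mul]

/-- Proof.  As in `SerreM.closed_test`.  For `m` in the span of the relations there is an equivariant
`z` with `ℓ z = Σ_A m(A) f x1 (ρ A x2)` for every test: for the relation of `g, h` take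
`SA x3 x1 (gh x2) + SA x3 (g x1) (gh x2) + SA x3 (g x1) (g x2) + SA x3 x1 (g x2)` and use `tK`,
`eqv`, `sym`, `char k = 2`.  For `Σ c i (t i - 1)` add `Σ c i SA x1 x2 (t i x2)` and use `tJ`:
`Σ c i (f x1 (t i x2) - f x1 x2) + Σ c i (f x1 x2 + f x2 (t i x2) + f x1 (t i x2) + e i)`.
Equivariance: `SA_mul` with `ψ = 1`. -/
theorem closedP {Γ : Type} [Group Γ] {ρ : Γ →* (V →ₗ[ℝ] V)} {ι : Type} [Fintype ι] {t : ι → Γ}
    {k : Type} [Field k] [CharP k 2] (hC : ∀ g v, InC v → InC (ρ g v)) {x1 x2 x3 : V}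
    (h1 : InC x1) (h2 : InC x2) (h3 : InC x3) (c : ι → k)
    (hm : ∑ i, c i • (Finsupp.single (t i) 1 - Finsupp.single 1 1 : Γ →₀ k) ∈
      Submodule.span k (Set.range (fun x : Γ × Γ => relz (1 : Γ →* kˣ) x.1 x.2))) :
    ∃ z : V → V → k, (∀ g p q, InC p → InC q → z (ρ g p) (ρ g q) = z p q) ∧
      ∀ ℓ f e, TestP ρ t x1 x2 x3 ℓ f e → ℓ z = ∑ i, c i * (f x2 (ρ (t i) x2) + e i) := by
  classical
  obtain ⟨z, hz, hz'⟩ := PCh_span (t := t) (x3 := x3) hC h1 h2 _ hm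
  have key : ∀ s : Finset ι, ∃ w : V → V → k,
      (∀ g p q, InC p → InC q → w (ρ g p) (ρ g q) = w p q) ∧
      ∀ ℓ f e, TestP ρ t x1 x2 x3 ℓ f e → ℓ w = ∑ i ∈ s,
        c i * (f x1 x2 + f x2 (ρ (t i) x2) + f x1 (ρ (t i) x2) + e i) := by
    intro s
    induction s using Finset.induction_on with
    | empty =>
      refine ⟨fun _ _ => 0, fun _ _ _ _ _ => rfl, ?_⟩
      intro ℓ f e T
      have h := T.smul 0 (fun _ _ => 0)
      simp only [zero_mul] at h
      rw [h, Finset.sum_empty]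
    | insert i s hi ih =>
      obtain ⟨w, hw, hw'⟩ := ih
      refine ⟨fun p q => c i * SA ρ 1 x1 x2 (ρ (t i) x2) p q + w p q, ?_, ?_⟩
      · intro g p q hp hq
        beta_reduce
        rw [hw g p q hp hq, SA_mul]
        simp only [MonoidHom.one_apply, Units.val_one, one_mul]
      · intro ℓ f e T
        rw [T.add (fun p q => c i * SA ρ 1 x1 x2 (ρ (t i) x2) p q) w, hw' ℓ f e T,
          T.smul (c i) (fun p q => SA ρ 1 x1 x2 (ρ (t i) x2) p q), T.tJ,
          Finset.sum_insert hi]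
  obtain ⟨w, hw, hw'⟩ := key Finset.univ
  refine ⟨fun p q => z p q + w p q, ?_, ?_⟩
  · intro g p q hp hq
    beta_reduce
    rw [hz g p q hp hq, hw g p q hp hq]
  · intro ℓ f e T
    rw [T.add, hz' ℓ f e T, hw' ℓ f e T, map_sum, ← Finset.sum_add_distrib]
    refine Finset.sum_congr rfl fun i _ => ?_
    simp only [map_sub, map_smul, Finsupp.linearCombination_single, smul_eq_mul,
      rho_one, one_mul]
    have h2 : (2 : k) = 0 := CharTwo.two_eq_zero
    linear_combination (c i * f x1 (ρ (t i) x2)) * h2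

end QTW
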