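import Pool.Agent.QTW.PDefs

/-!
# PSym: the half sums `HQ` (size 4)
Model: `IR_J`, `IR_fin`, `HR_mul`, `HR_swap` in SerreK/AXIS2.lean, with `ψ = 1`, `J = τ`, and the
weight `ε δ = ind (pos δ)`, which satisfies `ε δ + ε (τ δ) = 1` since `¬ pos τ`.
-/

namespace QTW

open SerreK

variable {Γ : Type} [Group Γ] {ρ : Γ →* (V →ₗ[ℝ] V)} {𝒯 : Set Γ} {o : Γ → V} {ι : Type}
  {t : ι → Γ} {pos : Γ → Prop} {k : Type} [Field k] [CharP k 2]

/-- `ε δ + ε (τ δ) = 1` from `H.pos_mul`, `H.neg`. -/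
theorem eps_tau (H : PHyp ρ 𝒯 o t pos) {τ : Γ} (hτ : τ ∈ 𝒯) (δ : Γ) :
    ind k (pos δ) + ind k (pos (τ * δ)) = 1 := by
  have h1 := H.pos_mul τ δ
  have h2 := H.neg τ hτ
  by_cases h : pos δ
  · rw [ind_true h, ind_false, add_zero]
    rw [h1]
    exact fun h3 => h2 (h3.2 h)
  · rw [ind_false h, ind_true, zero_add]
    rw [h1]
    exact ⟨fun h3 => absurd h3 h2, fun h3 => absurd h3 h⟩

/-- `τ` is not `1` (since `pos 1`, which follows from `H.pos_mul 1 1`), and `ρ τ (o τ) = o τ`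
(`PRef`: `φ(o) o - o = o`). -/
theorem tau_facts (H : PHyp ρ 𝒯 o t pos) {τ : Γ} (hτ : τ ∈ 𝒯) : τ ≠ 1 ∧ ρ τ (o τ) = o τ := by
  constructor
  · rintro rfl
    have h1 := H.pos_mul 1 1
    rw [mul_one] at h1
    exact H.neg 1 hτ (h1.2 Iff.rfl)
  · obtain ⟨φ, h1, h2⟩ := (H.pref τ hτ).ex
    rw [h2, h1, two_smul, add_sub_cancel_right]

private theorem PSym_tt (H : PHyp ρ 𝒯 o t pos) {τ : Γ} (hτ : τ ∈ 𝒯) (v : V) :
    ρ τ (ρ τ v) = v := by
  rw [← rho_mul, H.sq τ hτ, rho_one]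

/-- finite support, by properness (`iB_fin`). -/
theorem IQ_fin (H : PHyp ρ 𝒯 o t pos) {τ : Γ} (hτ : τ ∈ 𝒯) {y1 y2 p q : V} (h1 : InC y1)
    (h2 : InC y2) (hp : InC p) (hq : InC q) :
    (Function.support (IQ k ρ (o τ) y1 y2 τ p q)).Finite := by
  have h := fun {b c : V} (hb : InC b) (hc : InC c) =>
    iB_fin (ρ := ρ) (k := k) 1 H.proper (H.pref τ hτ).inC hb hc hp hq
  exact supp_add (supp_add (supp_add (h h1 h2) (h h1 (H.inC τ _ h2)))
    (h (H.inC τ _ h1) (H.inC τ _ h2))) (h (H.inC τ _ h1) h2)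

private theorem PSym_iB (H : PHyp ρ 𝒯 o t pos) {τ : Γ} (hτ : τ ∈ 𝒯) (b c p q : V) (δ : Γ) :
    iB ρ (1 : Γ →* kˣ) (o τ) b c p q (τ * δ) =
      iB ρ (1 : Γ →* kˣ) (o τ) (ρ τ b) (ρ τ c) p q δ := by
  have hinv : τ⁻¹ = τ := inv_eq_of_mul_eq_one_left (H.sq τ hτ)
  unfold iB
  rw [rho_mul, rho_mul, ind_congr (hit_inv ρ τ), hinv, (tau_facts H hτ).2]
  rfl

/-- `IQ (τ δ) = IQ δ`: apply `ρ τ` (an involution fixing `o τ`) to everything; the four triangles
are permuted. -/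
theorem IQ_tau (H : PHyp ρ 𝒯 o t pos) {τ : Γ} (hτ : τ ∈ 𝒯) (y1 y2 p q : V) (δ : Γ) :
    IQ k ρ (o τ) y1 y2 τ p q (τ * δ) = IQ k ρ (o τ) y1 y2 τ p q δ := by
  unfold IQ
  rw [PSym_iB H hτ, PSym_iB H hτ, PSym_iB H hτ, PSym_iB H hτ, PSym_tt H hτ, PSym_tt H hτ]
  ring

/-- equivariance, from `wsum_right` (as `HR_mul`). -/
theorem HQ_eqv (H : PHyp ρ 𝒯 o t pos) {τ : Γ} (hτ : τ ∈ 𝒯) {y1 y2 p q : V} (h1 : InC y1)
    (h2 : InC y2) (g : Γ) (hp : InC p) (hq : InC q) :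
    HQ k ρ pos (o τ) y1 y2 τ (ρ g p) (ρ g q) = HQ k ρ pos (o τ) y1 y2 τ p q := by
  unfold HQ
  have e1 : ∀ δ, IQ k ρ (o τ) y1 y2 τ (ρ g p) (ρ g q) δ =
      (fun δ => IQ k ρ (o τ) y1 y2 τ p q (δ * g)) δ := by
    intro δ
    unfold IQ
    rw [iB_mul, iB_mul, iB_mul, iB_mul, MonoidHom.one_apply, inv_one, Units.val_one]
    ring
  rw [wsum_congr _ e1]
  exact wsum_right (H.sq τ hτ) (tau_facts H hτ).1 (IQ_fin H hτ h1 h2 hp hq) (eps_tau H hτ)
    (fun δ => IQ_tau H hτ y1 y2 p q δ) g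

/-- symmetry -/
theorem HQ_sym (o' y1 y2 : V) (τ : Γ) (p q : V) :
    HQ k ρ pos o' y1 y2 τ q p = HQ k ρ pos o' y1 y2 τ p q := by
  unfold HQ
  apply wsum_congr
  intro δ
  unfold IQ
  simp only [iB_swap (ρ := ρ) (1 : Γ →* kˣ) _ _ _ p q]

/-- The segment `(x2, t j x2)` contributes `0`.

Proof.  `HQ` is the sum over `δ` with `pos δ` of `F δ`, `F δ = IQ x2 (t j x2) δ`.  We have
`F (τ δ) = F δ` (`IQ_tau`) and `F (δ t j) = F δ` (`t j` is an involution, so the segment is only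
reversed: `iB_mul` and `iB_swap`, as in `HR_cross`, SerreM/MCROSS.lean).  Consider the involution
`δ ↦ τ δ (t j)` of `{δ | pos δ}` (`finsum_involution` applied to `δ ↦ ind (pos δ) * F δ`).  A fixed
point satisfies `δ t j = τ δ` (as `τ² = 1`), and then `F δ = 0`: the segment is `(w, ρ τ w)` with
`w = ρ δ x2`, and for each of the four triangles `(o, a, b)`, `a = ρ d y1`, `b = ρ e y2`, the open
triangle does not meet it: `w, ρ τ w` are combinations of `o` and `w` (`PRef`), so a `Hit` gives a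
relation between `o, a, b, w` with positive coefficient at `a`, impossible by `F.g7` (take the
coefficient of `ρ a x1` equal to `0`). -/
theorem HQ_t (H : PHyp ρ 𝒯 o t pos) (F : PFam ρ 𝒯 o t) {τ : Γ} (hτ : τ ∈ 𝒯) (j : ι) :
    HQ k ρ pos (o τ) F.y1 F.y2 τ F.x2 (ρ (t j) F.x2) = 0 := by
  have hx' : InC (ρ (t j) F.x2) := H.inC (t j) _ F.x2_in
  have htt := H.sq (t j) (H.t_mem j)
  have hgg : ∀ v, ρ (t j) (ρ (t j) v) = v := fun v => by rw [← rho_mul, htt, rho_one]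
  have key : ∀ a b c δ, iB ρ (1 : Γ →* kˣ) a b c F.x2 (ρ (t j) F.x2) (δ * t j) =
      iB ρ (1 : Γ →* kˣ) a b c F.x2 (ρ (t j) F.x2) δ := by
    intro a b c δ
    have h := iB_mul (ρ := ρ) (1 : Γ →* kˣ) (t j) a b c F.x2 (ρ (t j) F.x2) δ
    rw [hgg, MonoidHom.one_apply, inv_one, Units.val_one, one_mul, iB_swap] at h
    exact h.symm
  have key2 : ∀ δ, IQ k ρ (o τ) F.y1 F.y2 τ F.x2 (ρ (t j) F.x2) (δ * t j) =
      IQ k ρ (o τ) F.y1 F.y2 τ F.x2 (ρ (t j) F.x2) δ := by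
    intro δ
    unfold IQ
    simp only [key]
  have hpos : ∀ δ, pos (τ * δ * t j) ↔ pos δ := by
    intro δ
    rw [H.pos_mul, H.pos_mul]
    have h1 := H.neg τ hτ
    have h2 := H.neg (t j) (H.t_mem j)
    tauto
  unfold HQ wsum
  refine finsum_involution (wsum_supp (IQ_fin H hτ F.y1_in F.y2_in F.x2_in hx'))
    (fun δ => τ * δ * t j) ?_ ?_ ?_
  · intro δ
    beta_reduce
    rw [← mul_assoc τ (τ * δ), ← mul_assoc τ τ, H.sq τ hτ, one_mul, mul_assoc δ, htt, mul_one]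
  · intro δ hne hfix
    apply hne
    beta_reduce at hfix
    have hfix' : δ * t j = τ * δ := by
      have h1 := congrArg (fun x => τ * x) hfix
      beta_reduce at h1
      rw [← mul_assoc τ (τ * δ), ← mul_assoc τ τ, H.sq τ hτ, one_mul] at h1
      exact h1
    have hseg : ρ δ (ρ (t j) F.x2) = ρ τ (ρ δ F.x2) := by
      rw [← rho_mul, hfix', rho_mul]
    obtain ⟨φ, hφ1, hφ2⟩ := (H.pref τ hτ).ex
    have hno : ∀ d e : Γ, ¬ Hit (o τ) (ρ d F.y1) (ρ e F.y2) (ρ δ F.x2)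
        (ρ δ (ρ (t j) F.x2)) := by
      rintro d e ⟨x, y, z, s, u, hx, hy, hz, hs, hu, hrel⟩
      rw [hseg, hφ2] at hrel
      have hG := F.g7 τ hτ 1 δ d e
      have h0 : (![x - u * φ (ρ δ F.x2), y, z, 0, u - s] : Fin 5 → ℝ) = 0 := by
        apply hG
        · rw [Fin.sum_univ_five]
          simp only [Matrix.cons_val_zero, Matrix.cons_val_one, Matrix.cons_val]
          rw [zero_smul, add_zero, sub_smul, sub_smul, mul_smul]
          rw [smul_sub] at hrel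
          have h3 := sub_eq_zero.2 hrel
          rw [← h3]
          abel
        · have h1 : ({i | (![x - u * φ (ρ δ F.x2), y, z, 0, u - s] : Fin 5 → ℝ) i ≠ 0} :
              Finset (Fin 5)) ⊆ Finset.univ.erase 3 := by
            intro i hi
            rw [Finset.mem_erase]
            refine ⟨?_, Finset.mem_univ _⟩
            rintro rfl
            rw [Finset.mem_filter] at hi
            exact hi.2 rfl
          refine (Finset.card_le_card h1).trans ?_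
          rw [Finset.card_erase_of_mem (Finset.mem_univ _), Finset.card_univ, Fintype.card_fin]
      have h1 : y = 0 := congrFun h0 1
      exact hy.ne' h1
    have hz : ∀ d e : Γ, iB ρ (1 : Γ →* kˣ) (o τ) (ρ d F.y1) (ρ e F.y2) F.x2
        (ρ (t j) F.x2) δ = 0 := by
      intro d e
      unfold iB
      rw [ind_false (hno d e), mul_zero]
    have z1 := hz 1 1
    have z2 := hz 1 τ
    have z3 := hz τ τ
    have z4 := hz τ 1
    rw [rho_one] at z1 z2 z4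
    rw [rho_one] at z1
    unfold IQ
    rw [z1, z2, z3, z4]
    ring
  · intro δ
    beta_reduce
    rw [ind_congr (hpos δ), key2, IQ_tau H hτ]

end QTW
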