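import Pool.Agent.QTW.SplD
import Pool.Agent.QTW.PSym

/-!
# PPar: parity for all translates (size 3)
-/

namespace QTW

open SerreK SerreK.GP

variable {Γ : Type} [Group Γ] {ρ : Γ →* (V →ₗ[ℝ] V)} {𝒯 : Set Γ} {o : Γ → V} {ι : Type}
  {t : ι → Γ} {pos : Γ → Prop} (k : Type) [Field k] [CharP k 2]

/-- Each of the four `P6` vanishes by `parity` (PARITY.lean) and `F.g2` (with `a = δ`, `b = δ α`,
`c = δ β`, `d, e ∈ {1, τ}`; `ρ (δ * α) = ρ δ ∘ ρ α`).  `0 = ind False`. -/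
theorem par_gen (F : PFam ρ 𝒯 o t) {τ : Γ} (hτ : τ ∈ 𝒯) (α β δ : Γ) :
    P24 k ρ (o τ) F.y1 F.y2 τ F.x3 (ρ α F.x1) (ρ β F.x2) δ = ind k False := by
  have key : ∀ d e : Γ, P6 k (ρ δ F.x3) (ρ δ (ρ α F.x1)) (ρ δ (ρ β F.x2)) (o τ) (ρ d F.y1)
      (ρ e F.y2) = 0 := by
    intro d e
    have h1 : ρ δ (ρ α F.x1) = ρ (δ * α) F.x1 := by rw [map_mul]; rfl
    have h2 : ρ δ (ρ β F.x2) = ρ (δ * β) F.x2 := by rw [map_mul]; rfl
    rw [h1, h2]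
    exact parity k _ _ _ _ _ _ (F.g2 τ hτ δ (δ * α) (δ * β) d e)
  have e1 : ρ 1 F.y1 = F.y1 := by rw [map_one]; rfl
  have e2 : ρ 1 F.y2 = F.y2 := by rw [map_one]; rfl
  have k1 := key 1 1
  have k2 := key 1 τ
  have k3 := key τ τ
  have k4 := key τ 1
  rw [e1, e2] at k1
  rw [e1] at k2
  rw [e2] at k4
  unfold P24
  rw [k1, k2, k3, k4]
  unfold ind
  rw [if_neg not_false]
  simp

/-- If `δ t j ≠ τ δ` each `P6` vanishes by `parity` and `F.g5`.  If `δ t j = τ δ` put `u = ρ δ x1`,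
`w = ρ δ x2`; then `ρ δ (ρ (t j) x2) = ρ τ w = φ(w) o - w` (`H.pref`), `ρ τ y1 = φ(y1) o - y1` etc., and
`special_parity` applies; `φ(w) > 0` since `w` and `ρ τ w` are in `InC` and
`w + ρ τ w = φ(w) o` (look at the coordinate `0`, positive for elements of `InC`); `G` from `F.g7`
(`ρ τ (ρ δ x2) = ρ (τ * δ) x2`, `b = τ * δ`). -/
theorem par_t (H : PHyp ρ 𝒯 o t pos) (F : PFam ρ 𝒯 o t) {τ : Γ} (hτ : τ ∈ 𝒯) (j : ι) (δ : Γ) :
    P24 k ρ (o τ) F.y1 F.y2 τ F.x1 F.x2 (ρ (t j) F.x2) δ = ind k (δ * t j = τ * δ) := by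
  have e1 : ρ 1 F.y1 = F.y1 := by rw [map_one]; rfl
  have e2 : ρ 1 F.y2 = F.y2 := by rw [map_one]; rfl
  by_cases h : δ * t j = τ * δ
  · obtain ⟨hoC, φ, -, hφ⟩ := H.pref τ hτ
    have h1 : ρ δ (ρ (t j) F.x2) = φ (ρ δ F.x2) • o τ - ρ δ F.x2 := by
      rw [← hφ]
      have h2 : ρ δ (ρ (t j) F.x2) = ρ (δ * t j) F.x2 := by rw [map_mul]; rfl
      rw [h2, h, map_mul]
      rfl
    have hw : 0 < φ (ρ δ F.x2) := by
      have h2 := (H.inC δ _ F.x2_in).1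
      have h3 := (H.inC τ _ (H.inC δ _ F.x2_in)).1
      rw [hφ, Pi.sub_apply, Pi.smul_apply, smul_eq_mul] at h3
      have h4 := hoC.1
      by_contra hcon
      push Not at hcon
      nlinarith
    unfold P24
    rw [h1, hφ F.y1, hφ F.y2, special_parity k (o τ) F.y1 F.y2 (ρ δ F.x1) (ρ δ F.x2) φ hw]
    · unfold ind
      rw [if_pos h]
    · have k1 : ∀ a' ∈ ({F.y1, φ F.y1 • o τ - F.y1} : Set V), ∃ d, ρ d F.y1 = a' := by
        rintro a' (rfl | rfl)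
        · exact ⟨1, e1⟩
        · exact ⟨τ, hφ _⟩
      have k2 : ∀ a' ∈ ({F.y2, φ F.y2 • o τ - F.y2} : Set V), ∃ d, ρ d F.y2 = a' := by
        rintro a' (rfl | rfl)
        · exact ⟨1, e2⟩
        · exact ⟨τ, hφ _⟩
      have k3 : ∀ w' ∈ ({ρ δ F.x2, φ (ρ δ F.x2) • o τ - ρ δ F.x2} : Set V),
          ∃ b, ρ b F.x2 = w' := by
        rintro w' (rfl | rfl)
        · exact ⟨δ, rfl⟩
        · refine ⟨τ * δ, ?_⟩
          rw [← hφ, map_mul]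
          rfl
      intro a' ha' b' hb' w' hw'
      obtain ⟨d, rfl⟩ := k1 a' ha'
      obtain ⟨e, rfl⟩ := k2 b' hb'
      obtain ⟨b, rfl⟩ := k3 w' hw'
      exact F.g7 τ hτ δ b d e
  · have key : ∀ d e : Γ, P6 k (ρ δ F.x1) (ρ δ F.x2) (ρ δ (ρ (t j) F.x2)) (o τ) (ρ d F.y1)
        (ρ e F.y2) = 0 := fun d e => parity k _ _ _ _ _ _ (F.g5 τ hτ j δ d e h)
    have k1 := key 1 1
    have k2 := key 1 τ
    have k3 := key τ τ
    have k4 := key τ 1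
    rw [e1, e2] at k1
    rw [e1] at k2
    rw [e2] at k4
    unfold P24
    rw [k1, k2, k3, k4]
    unfold ind
    rw [if_neg h]
    simp

end QTW
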