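import Pool.Agent.QTW.PFold
import Pool.Agent.QTW.PPar

/-!
# PTst: the two kinds of tests (size 3)
-/

namespace QTW

open SerreK SerreK.GP

variable {Γ : Type} [Group Γ] {ρ : Γ →* (V →ₗ[ℝ] V)} {𝒯 : Set Γ} {o : Γ → V} {ι : Type}
  {t : ι → Γ} {pos : Γ → Prop} {k : Type} [Field k] [CharP k 2]

/-- From `foldS` (AXIS2.lean, `ψ = 1`) with `F.g1` and `F.g4`, `SB_mul`, `SB_swap`.  Model: `test_y` in
SerreM/MTEST.lean. -/
theorem testY (H : PHyp ρ 𝒯 o t pos) (F : PFam ρ 𝒯 o t) (g h : Γ) :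
    TestP (k := k) ρ t F.x1 F.x2 F.x3
      (fun z => z F.y3 (ρ g F.y1) + z (ρ g F.y1) (ρ h F.y2) + z F.y3 (ρ h F.y2))
      (fun p q => SB ρ 1 F.y3 (ρ g F.y1) (ρ h F.y2) p q) (fun _ => 0) where
  add z z' := by ring
  smul c z := by ring
  eqv a p q _ _ := by
    have h1 := SB_mul (ρ := ρ) (k := k) 1 a F.y3 (ρ g F.y1) (ρ h F.y2) p q
    rw [MonoidHom.one_apply, inv_one, Units.val_one, one_mul] at h1
    exact h1
  sym p q := SB_swap (ρ := ρ) (k := k) 1 _ _ _ p q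
  tK a b := foldS (ρ := ρ) (k := k) 1 H.proper F.x3_in (H.inC a _ F.x1_in) (H.inC b _ F.x2_in)
    F.y3_in (H.inC g _ F.y1_in) (H.inC h _ F.y2_in) (fun δ => by
      rw [← SerreK.rho_mul ρ δ a, ← SerreK.rho_mul ρ δ b]
      exact F.g1 _ _ _ _ _)
  tJ j := by
    have h1 := foldS (ρ := ρ) (k := k) 1 H.proper F.x1_in F.x2_in (H.inC (t j) _ F.x2_in)
      F.y3_in (H.inC g _ F.y1_in) (H.inC h _ F.y2_in) (fun δ => F.g4 j δ g h)
    beta_reduce
    rw [add_zero]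
    exact h1

/-- From `foldQ` with `par_gen` (`S = False`, the error term is `0`) and `par_t`
(`S δ = (δ * t j = τ * δ)`), `HQ_eqv`, `HQ_sym`. -/
theorem testT (H : PHyp ρ 𝒯 o t pos) (F : PFam ρ 𝒯 o t) {τ : Γ} (hτ : τ ∈ 𝒯) :
    TestP (k := k) ρ t F.x1 F.x2 F.x3
      (fun z => z F.y1 F.y2 + z F.y1 (ρ τ F.y2))
      (fun p q => HQ k ρ pos (o τ) F.y1 F.y2 τ p q)
      (fun j => ∑ᶠ δ, ind k (pos δ ∧ δ * t j = τ * δ)) where
  add z z' := by ring
  smul c z := by ring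
  eqv g p q hp hq := HQ_eqv H hτ F.y1_in F.y2_in g hp hq
  sym p q := HQ_sym _ _ _ _ p q
  tK a b := by
    have h1 := foldQ (k := k) H hτ F.x3_in (H.inC a _ F.x1_in) (H.inC b _ F.x2_in) F.y1_in
      F.y2_in (fun _ => False) (fun δ => par_gen k F hτ a b δ)
    have h2 : ∑ᶠ δ, ind k (pos δ ∧ False) = 0 := by
      have h3 : (fun δ => ind k (pos δ ∧ False)) = fun _ => (0 : k) := by
        funext δ
        exact ind_false fun h => h.2
      rw [h3]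
      exact finsum_zero
    rw [h2, add_zero] at h1
    exact h1
  tJ j := foldQ (k := k) H hτ F.x1_in F.x2_in (H.inC (t j) _ F.x2_in) F.y1_in
    F.y2_in (fun δ => δ * t j = τ * δ) (fun δ => par_t k H F hτ j δ)

end QTW
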