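import Pool.Agent.QTW.PGen
import Pool.Agent.QTW.PCh
import Pool.Agent.QTW.PTst

/-!
# Point: the point reflection theorem (size 3)
-/

namespace QTW

open SerreK SerreK.GP

/-- Proof.  Let `m = Σ c i (t i - 1)` in `Γ →₀ k` and let `R` be the span of the `relz 1 g h`
(`closedP`).

(A) If `m ∉ R` there is a linear functional `L` with `L m ≠ 0`, `L = 0` on `R`
(`Submodule.exists_le_ker_of_notMem`; as in SerreM/AXISM.lean, line 225 ff.); put
`b g = L (single g 1) + L (single 1 1)`; unfolding `relz` (AXIS3.lean) `b (g h) = b g + b h` (signs do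
not matter, `char k = 2`), and `Σ c i b (t i) = L m ≠ 0`: the first alternative.

(B) If `m ∈ R` take `F : PFam` (`genposP`) and `z` from `closedP` (`H.inC`).  For all `g, h`, by `testY`,
`z y3 (g y1) + z (g y1) (h y2) + z y3 (h y2) = Σ c i (SB 1 y3 (g y1) (h y2) x2 (t i x2) + 0) = 0`,
by `SB_J` (AXIS2.lean; `t i * t i = 1` by `H.sq`, `t i ≠ 1` by `tau_facts`).  Put
`α g = z y3 (g y1)`, `β h = z y3 (h y2)`: `z (g y1) (h y2) = α g + β h` (`char 2`), in particular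
(equivariance, `g⁻¹`) `z y1 (g⁻¹ h y2) = α g + β h`.  Put `b g = z y1 (g y2) + z y1 y2`.  Then
`b h = β h + β 1`, `b g⁻¹ = α g + α 1`, `b (g⁻¹ h) = α g + β h + α 1 + β 1 = b g⁻¹ + b h`.
For `τ ∈ 𝒯`, by `testT` and `HQ_t`:
`b τ = z y1 y2 + z y1 (τ y2) = Σ c i (HQ x2 (t i x2) + ∑ᶠ ..) = Σ c i ∑ᶠ ..`. -/
theorem point {Γ : Type} [Group Γ] [Countable Γ] {ρ : Γ →* (V →ₗ[ℝ] V)} {𝒯 : Set Γ}
    {o : Γ → V} {ι : Type} [Fintype ι] {t : ι → Γ} {pos : Γ → Prop} {k : Type} [Field k]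
    [CharP k 2] (H : PHyp ρ 𝒯 o t pos) (c : ι → k) :
    (∃ b : Γ → k, (∀ g h, b (g * h) = b g + b h) ∧ ∑ i, c i * b (t i) ≠ 0) ∨
    (∃ b : Γ → k, (∀ g h, b (g * h) = b g + b h) ∧
      ∀ τ ∈ 𝒯, b τ = ∑ i, c i * ∑ᶠ δ, ind k (pos δ ∧ δ * t i = τ * δ)) := by
  classical
  by_cases hm : ∑ i, c i • (Finsupp.single (t i) 1 - Finsupp.single 1 1 : Γ →₀ k) ∈
      Submodule.span k (Set.range (fun x : Γ × Γ => relz (1 : Γ →* kˣ) x.1 x.2))
  · right
    obtain ⟨F⟩ := genposP H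
    obtain ⟨z, hz1, hz2⟩ := closedP (k := k) H.inC F.x1_in F.x2_in F.x3_in c hm
    have h2 : (2 : k) = 0 := CharTwo.two_eq_zero
    have hY : ∀ g h : Γ, z F.y3 (ρ g F.y1) + z (ρ g F.y1) (ρ h F.y2) + z F.y3 (ρ h F.y2) = 0 := by
      intro g h
      have h3 := hz2 _ _ _ (testY (k := k) H F g h)

      rw [h3]
      refine Finset.sum_eq_zero fun i _ => ?_
      rw [SB_J (1 : Γ →* kˣ) H.proper (H.sq _ (H.t_mem i)) (tau_facts H (H.t_mem i)).1 rfl
        F.y3_in (H.inC g _ F.y1_in) (H.inC h _ F.y2_in) F.x2_in (H.inC (t i) _ F.x2_in)]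
      ring
    have h1z : ∀ h : Γ, z F.y3 F.y1 + z F.y1 (ρ h F.y2) + z F.y3 (ρ h F.y2) = 0 := by
      intro h
      have h3 := hY 1 h
      rwa [SerreK.rho_one] at h3
    have h11 : z F.y3 F.y1 + z F.y1 F.y2 + z F.y3 F.y2 = 0 := by
      have h3 := h1z 1
      rwa [SerreK.rho_one] at h3
    have hE : ∀ g h : Γ, z (ρ g⁻¹ F.y1) (ρ h F.y2) = z F.y1 (ρ (g * h) F.y2) := by
      intro g h
      have h3 := hz1 g (ρ g⁻¹ F.y1) (ρ h F.y2) (H.inC _ _ F.y1_in) (H.inC _ _ F.y2_in)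
      rw [← SerreK.rho_mul ρ g g⁻¹, ← SerreK.rho_mul ρ g h, mul_inv_cancel, SerreK.rho_one] at h3
      exact h3.symm
    refine ⟨fun g => z F.y1 (ρ g F.y2) + z F.y1 F.y2, ?_, ?_⟩
    · intro g h
      change z F.y1 (ρ (g * h) F.y2) + z F.y1 F.y2 =
        z F.y1 (ρ g F.y2) + z F.y1 F.y2 + (z F.y1 (ρ h F.y2) + z F.y1 F.y2)
      have e1 := hY g⁻¹ h
      rw [hE] at e1
      have e2 := hY g⁻¹ 1
      rw [hE, mul_one, SerreK.rho_one] at e2
      have e3 := h1z h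
      linear_combination e1 - e2 - e3 + h11 - (z F.y1 F.y2) * h2 +
        (z F.y3 F.y1 - z F.y3 F.y1) * h2
    · intro τ hτ
      have h3 := hz2 _ _ _ (testT (k := k) H F hτ)

      change z F.y1 (ρ τ F.y2) + z F.y1 F.y2 = _
      rw [add_comm, h3]
      refine Finset.sum_congr rfl fun i _ => ?_
      rw [HQ_t H F hτ i, zero_add]
  · left
    obtain ⟨φ, hφ1, hφ2⟩ := Submodule.exists_le_ker_of_notMem hm
    refine ⟨fun g => φ (Finsupp.single g 1) - φ (Finsupp.single 1 1), ?_, ?_⟩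
    · intro g h
      have h1 : φ (relz (1 : Γ →* kˣ) g h) = 0 :=
        hφ2 (Submodule.subset_span ⟨(g, h), rfl⟩)
      unfold relz at h1
      simp only [map_sub, map_smul, smul_eq_mul, MonoidHom.one_apply, inv_one, Units.val_one,
        one_mul] at h1
      linear_combination h1
    · intro h
      apply hφ1
      rw [map_sum, ← h]
      refine Finset.sum_congr rfl fun i _ => ?_
      rw [map_smul, map_sub, smul_eq_mul]

end QTW
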