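import Pool.Agent.QTW.TauB
import Pool.Agent.QTW.Point
import Pool.Agent.QTW.CntA

/-!
# PtH: the point reflection theorem for hermitian forms (size 4)
-/

open Matrix

namespace QTW

open SerreE SerreK SerreU

variable {n M : ℕ}

private theorem pth_finsum {Γ : Type} (P : Γ → Prop) :
    ∑ᶠ δ, ind FF (P δ) = (Nat.card {δ : Γ // P δ} : FF) := by
  classical
  by_cases hfin : {δ | P δ}.Finite
  · have hsub : (Function.support fun δ => ind FF (P δ)) ⊆ (hfin.toFinset : Set Γ) := by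
      intro δ hδ
      rw [Set.Finite.coe_toFinset]
      by_contra hc
      apply hδ
      have hc' : ¬ P δ := hc
      simp [ind, hc']
    rw [finsum_eq_sum_of_support_subset _ hsub]
    have h1 : ∀ δ ∈ hfin.toFinset, ind FF (P δ) = 1 := by
      intro δ hδ
      have hc' : P δ := hfin.mem_toFinset.1 hδ
      simp [ind, hc']
    rw [Finset.sum_congr rfl h1, Finset.sum_const, nsmul_eq_mul, mul_one]
    congr 1
    have h2 : Nat.card {δ : Γ // P δ} = {δ | P δ}.ncard := rfl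
    rw [h2, Set.ncard_eq_toFinset_card _ hfin]
  · have h1 : (Function.support fun δ => ind FF (P δ)) = {δ | P δ} := by
      ext δ
      rw [Function.mem_support, Set.mem_ofPred_eq]
      by_cases hδ : P δ
      · simp [ind, hδ]
      · simp [ind, hδ]
    have hinf : (Function.support fun δ => ind FF (P δ)).Infinite := by
      rw [h1]; exact hfin
    rw [finsum_of_infinite_support hinf]
    have h2 : Nat.card {δ : Γ // P δ} = {δ | P δ}.ncard := rfl
    rw [h2, Set.Infinite.ncard hfin]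
    simp

private theorem pth_nrm_unit {u : OK n} (hu : IsUnit u) : u * star u = 1 := by
  rw [mul_star_eq, nrm_isUnit.1 hu]
  push_cast
  rfl

private theorem pth_smul_ta {u : OK n} (hu : IsUnit u) {g : Mat n} (hg : TA (M : OK n) g) :
    TA (M : OK n) (u • g) := by
  refine ⟨?_, ?_⟩
  · rw [Matrix.det_smul]
    exact (hu.pow _).mul hg.1
  · rw [Matrix.smul_apply, smul_eq_mul]
    exact hg.2.mul_left u

private theorem pth_smul_tr {u : OK n} (hu : IsUnit u) {g : Mat n} {h k : Herm n M}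
    (hg : Tr 1 g h k) : Tr 1 (u • g) h k := by
  unfold Tr at hg ⊢
  have h1 : (u • g).map star = star u • g.map star := by
    ext1 i j
    simp only [Matrix.map_apply, Matrix.smul_apply, smul_eq_mul, star_mul']
  rw [h1, Matrix.transpose_smul, Matrix.smul_mul, Matrix.smul_mul, Matrix.mul_smul, smul_smul,
    pth_nrm_unit hu, one_smul, hg]

/-- The number of `δ` with `δ τ_k = τ_h δ`, `δ` positive.

Proof.  By `mk_conj`, `tr_of_mk` the set `S` of these `δ` is the image of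
`Y = {g : Mat n // TA M g ∧ Tr 1 g h k}` under `g ↦ mkG ⟨g, false⟩` (`ta_gl`), and two `g` have the same
image iff they differ by a unit scalar (`mkG_eq_iff`); if `g ∈ Y` then `u • g ∈ Y` (`u ū = 1`).  The map
`Y → S` has all fibres in bijection with `(OK n)ˣ` (`g ≠ 0`), so `Nat.card Y = Nat.card S * Nat.card (OK n)ˣ`
(`Y ≃ S × (OK n)ˣ`, choosing representatives; this includes the infinite case, which does not occur:
`Nat.card = 0`).  `S` is finite, by `rr_proper`?  Not needed: if `S` is infinite then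
`∑ᶠ = 0` (infinite support) and `Nat.card S = 0`; if it is finite, `∑ᶠ δ, ind (δ ∈ S) = Nat.card S`. -/
theorem cnj (h k : Herm n M) : ∃ c : ℕ,
    ∑ᶠ δ, ind FF (posG δ ∧ δ * mkG n M k.tau = mkG n M h.tau * δ) = (c : FF) ∧
    Nat.card {g : Mat n // TA (M : OK n) g ∧ Tr 1 g h k} = c * Nat.card (OK n)ˣ := by
  refine ⟨Nat.card {δ : GG n M // posG δ ∧ δ * mkG n M k.tau = mkG n M h.tau * δ},
    pth_finsum _, ?_⟩
  rw [← Nat.card_prod]
  symm
  have hch : ∀ δ : {δ : GG n M // posG δ ∧ δ * mkG n M k.tau = mkG n M h.tau * δ},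
      ∃ g : G0 n M, δ.1 = mkG n M ⟨g, false⟩ := fun δ => δ.2.1
  choose g hg using hch
  have hgt : ∀ δ, Tr 1 (g δ).val.val h k := by
    intro δ
    apply tr_of_mk
    rw [← hg δ]
    exact δ.2.2
  refine Nat.card_congr (Equiv.ofBijective
    (fun x : {δ : GG n M // posG δ ∧ δ * mkG n M k.tau = mkG n M h.tau * δ} × (OK n)ˣ =>
      (⟨(x.2 : OK n) • (g x.1).val.val,
        pth_smul_ta x.2.isUnit (uhec_TA_gl (g x.1)), pth_smul_tr x.2.isUnit (hgt x.1)⟩ :
        {g : Mat n // TA (M : OK n) g ∧ Tr 1 g h k})) ⟨?_, ?_⟩)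
  · rintro ⟨δ, u⟩ ⟨ε, v⟩ huv
    have h1 : (u : OK n) • (g δ).val.val = (v : OK n) • (g ε).val.val := congrArg Subtype.val huv
    have hδε : δ = ε := by
      apply Subtype.ext
      rw [hg δ, hg ε, mkG_eq_iff]
      refine ⟨((u⁻¹ * v : (OK n)ˣ) : OK n), (u⁻¹ * v).isUnit, ?_⟩
      rw [Units.val_mul, mul_smul, ← h1, smul_smul, Units.inv_mul, one_smul]
    subst hδε
    have h2 : ((u : OK n) - (v : OK n)) • (g δ).val.val = 0 := by
      rw [sub_smul, h1, sub_self]
    have h3 : (u : OK n) - (v : OK n) = 0 := by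
      by_contra hne
      have h4 : (g δ).val.val = 0 := by
        rcases smul_eq_zero.1 h2 with h5 | h5
        · exact absurd h5 hne
        · exact h5
      have h5 := (uhec_TA_gl (g δ)).1
      rw [h4] at h5
      simp at h5
    rw [Units.ext (sub_eq_zero.1 h3)]
  · rintro ⟨w, hw, hwt⟩
    obtain ⟨γ, hγ⟩ := ta_gl hw
    have hmem : posG (mkG n M ⟨γ, false⟩) ∧
        mkG n M ⟨γ, false⟩ * mkG n M k.tau = mkG n M h.tau * mkG n M ⟨γ, false⟩ := by
      refine ⟨⟨γ, rfl⟩, mk_conj ?_⟩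
      rw [hγ]
      exact hwt
    obtain ⟨u, hu, hue⟩ := (mkG_eq_iff _ _ _).1 (hg ⟨_, hmem⟩)
    obtain ⟨u', rfl⟩ := hu
    refine ⟨(⟨_, hmem⟩, u'), Subtype.ext ?_⟩
    change (u' : OK n) • (g ⟨_, hmem⟩).val.val = w
    rw [← hue, hγ]

private theorem pth_units : Nat.card (OK n)ˣ ≠ 0 := by
  have hfin : Finite (OK n)ˣ := by
    have h1 : {x : OK n | Complex.normSq (sig n x) ≤ 1}.Finite := (sig_imQ n).fin 1
    have h2 : Finite {x : OK n | Complex.normSq (sig n x) ≤ 1} := h1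
    refine Finite.of_injective
      (fun u : (OK n)ˣ => (⟨(u : OK n), (unit_abs (sig_imQ n) u).le⟩ :
        {x : OK n | Complex.normSq (sig n x) ≤ 1})) ?_
    intro u v huv
    exact Units.ext (congrArg Subtype.val huv)
  exact Nat.card_pos.ne'

private theorem pth_tr_one (h : Herm n M) : Tr 1 (1 : Mat n) h h := by
  unfold Tr
  have h1 : (1 : Mat n).map star = 1 := cjM_one
  rw [h1]
  simp

private theorem pth_card {h k : Herm n M} (H : HEq' h k) :
    Nat.card {g : Mat n // TA (M : OK n) g ∧ Tr 1 g h k} = stab h := by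
  obtain ⟨g0, h0, h0t⟩ := H
  obtain ⟨γ, hγ⟩ := ta_gl h0
  have e1 : (γ⁻¹).val.val * g0 = 1 := by
    rw [← hγ]; exact uhec_inv_mul γ.val
  have e2 : g0 * (γ⁻¹).val.val = 1 := by
    rw [← hγ]; exact uhec_mul_inv γ.val
  have hinv : Tr 1 (γ⁻¹).val.val k h := by
    apply tr_cancel one_ne_zero h0t
    rw [e2]
    exact pth_tr_one h
  symm
  refine Nat.card_congr
    { toFun := fun s => ⟨s.1 * g0, uhec_TA_mul s.2.1 h0, tr_one_mul s.2.2 h0t⟩
      invFun := fun g => ⟨g.1 * (γ⁻¹).val.val, uhec_TA_mul g.2.1 (uhec_TA_gl γ⁻¹),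
        tr_one_mul g.2.2 hinv⟩
      left_inv := fun s => Subtype.ext (by
        change s.1 * g0 * (γ⁻¹).val.val = s.1
        rw [mul_assoc, e2, mul_one])
      right_inv := fun s => Subtype.ext (by
        change s.1 * (γ⁻¹).val.val * g0 = s.1
        rw [mul_assoc, e1, mul_one]) }

/-- Proof.  If not `HEq' h k` the set is empty, so `c = 0`.  Otherwise `Nat.card {g // ..} = stab k`
(torsor: fix `g₀`; `s ↦ g₀ s` is a bijection from the stabiliser of `k`, its inverse is
`g ↦ u adj(g₀) g`, `u = (det g₀)⁻¹`, `tr_adj`), `stab k = stab h` (conjugation by `g₀`), `= w h |Oˣ|`, so `c = w h`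
(`Oˣ` is finite and non-empty: `(sig_imQ n).fin 1`, `unit_abs`). -/
theorem cnj_w {w : Herm n M → ℕ} (hw : IsWt w) (h k : Herm n M) :
    ∑ᶠ δ, ind FF (posG δ ∧ δ * mkG n M k.tau = mkG n M h.tau * δ) =
      ind FF (HEq' h k) * (w h : FF) := by
  obtain ⟨c, hc1, hc2⟩ := cnj h k
  rw [hc1]
  by_cases H : HEq' h k
  · have h1 : ind FF (HEq' h k) = 1 := by simp [ind, H]
    rw [h1, one_mul]
    rw [pth_card H, hw.stab h] at hc2
    rw [Nat.eq_of_mul_eq_mul_right (Nat.pos_of_ne_zero pth_units) hc2]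
  · have h1 : ind FF (HEq' h k) = 0 := by simp [ind, H]
    rw [h1, zero_mul]
    have h2 : IsEmpty {g : Mat n // TA (M : OK n) g ∧ Tr 1 g h k} :=
      ⟨fun g => H ⟨g.1, g.2.1, g.2.2⟩⟩
    rw [Nat.card_of_isEmpty] at hc2
    rcases Nat.mul_eq_zero.1 hc2.symm with h3 | h3
    · rw [h3]; simp
    · exact absurd h3 pth_units

/-- `point` (Point.lean) with `phyp`, `isXi_of_hom`, `cnj_w`. -/
theorem point_herm {w : Herm n M → ℕ} (hw : IsWt w) {ι : Type} [Fintype ι] (κ : ι → Herm n M)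
    (c : ι → FF) :
    (∃ ξ : SS n M → FF, IsXi ξ ∧ ∑ i, c i * ξ (κ i).tau ≠ 0) ∨
    (∃ ξ : SS n M → FF, IsXi ξ ∧
      ∀ h : Herm n M, ξ h.tau = ∑ i, c i * (ind FF (HEq' h (κ i)) * (w h : FF))) := by
  obtain ⟨o, H⟩ := phyp (n := n) (M := M) κ
  rcases point H c with ⟨b, hb, hne⟩ | ⟨b, hb, hT⟩
  · exact Or.inl ⟨_, isXi_of_hom b hb, hne⟩
  · refine Or.inr ⟨_, isXi_of_hom b hb, ?_⟩
    intro h
    rw [hT (mkG n M h.tau) ⟨h, rfl⟩]
    apply Finset.sum_congr rfl
    intro i _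
    rw [cnj_w hw h (κ i)]

end QTW
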