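import Pool.Agent.QTW.CaseA
import Pool.Agent.QTW.CaseB
import Pool.Agent.QTW.PtH
import Pool.Agent.QTW.OddW
import Pool.Agent.QTW.FinC

/-!
# Fin: the theorem (size 3)
-/

open Matrix

namespace QTW

open SerreE SerreK SerreU

variable {n M : ℕ}

/-- Proof.  `pidm n hn`; `φ = ψ²` (`psi_sq`); `reps_exist` (`M ≠ 0` since `M` is prime to `2 d`), `exists_wt`,
neighbours `k i` of `r i` at `q` (`nbrs_exist`, choice); `point_herm` for `ι = Σ i, Fin (ρ i)`, `κ ⟨i, x⟩ = k i x`,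
`c ⟨i, x⟩ = φ (r i)`; `case_a`, resp. `case_b_val` and `case_b`. -/
theorem main (hn : n ∈ ({0, 1, 2, 4, 10, 16, 40} : Finset ℕ))
    (hM : M.Coprime (2 * (4 * n + 3))) (ψ : Herm n M → FF) (b : ℕ → FF) (h : QEig ψ b)
    (hψ : ψ ≠ 0) (q : ℕ) (hq : q.Prime) (hq4 : q % 4 = 3) (hqi : Prime (q : OK n))
    (hqM : ¬ q ∣ M) (hb : b q ≠ 0) : ∃ Φ : Eigenform (M : OK n), AttQ Φ b := by
  have _ : IsPrincipalIdealRing (OK n) := pidm n hn
  have Q : QQ n M q := ⟨hq, hq4, hqi, hqM⟩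
  have P := psi_sq hn h Q hb
  have hM0 : M ≠ 0 := by
    rintro rfl
    rw [Nat.coprime_zero_left] at hM
    omega
  obtain ⟨m, r, hr⟩ := reps_exist n M hM0
  obtain ⟨w, hw⟩ := exists_wt n M
  choose ρ α k N using fun i => nbrs_exist Q.prime (qq_nd Q) (r i)
  rcases point_herm hw (fun y : (Σ i, Fin (ρ i)) => k y.1 y.2) (fun y => ψ (r y.1) ^ 2) with
    ⟨η, hη, hne⟩ | ⟨η, hη, hval⟩
  · exact case_a hn hM P Q hb hw hr ρ α k N η hη hne
  · refine case_b hn hM P Q hb ?_ η hη (case_b_val hn P Q hw hr ρ α k N η hval)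
    intro h0
    apply hψ
    funext x
    have h1 := congrFun h0 x
    change ψ x ^ 2 = 0 at h1
    exact pow_eq_zero_iff (two_ne_zero) |>.1 h1

end QTW
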