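import Pool.Agent.QTW.Base
import Pool.Agent.SerreU.UDIR

/-!
# FinA: small values of hermitian forms (size 3)
-/

open Matrix

namespace QTW

open SerreE SerreK SerreU

variable {n M : ℕ}

/-- the value `(x, y)ᵀ h (x̄, ȳ) = A nrm x + B x ȳ + B̄ y x̄ + C nrm y` -/
def hv (h : Herm n M) (x y : OK n) : ℤ :=
  h.A * nrm x + (2 * (h.B * x * star y).re + (h.B * x * star y).im) + h.C * nrm y

private theorem FinA_tr (z : OK n) : ((2 * z.re + z.im : ℤ) : OK n) = z + star z := by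
  rw [show (2 * z.re + z.im : ℤ) = z.re + z.re + z.im by ring]
  ext <;> simp <;> ring

private theorem FinA_inj {a b : ℤ} (h : ((a : ℤ) : OK n) = ((b : ℤ) : OK n)) : a = b := by
  have h1 := congrArg (fun t : OK n => t.re) h
  simpa using h1

/-- `z + z̄ = 2 re z + im z` -/
theorem hv_cast (h : Herm n M) (x y : OK n) : ((hv h x y : ℤ) : OK n) =
    h.A * (x * star x) + h.B * x * star y + star h.B * y * star x + h.C * (y * star y) := by
  have h1 := FinA_tr (h.B * x * star y)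
  unfold hv
  rw [Int.cast_add, Int.cast_add, h1, Int.cast_mul, Int.cast_mul, mul_star_eq, mul_star_eq,
    star_mul', star_mul', star_star]
  ring

private theorem FinA_det (h : Herm n M) : (h.A : OK n) * h.C = 1 + h.B * star h.B := by
  have h2 := h.det
  have h3 : ((h.A * h.C - nrm h.B : ℤ) : OK n) = 1 := by rw [h2]; push_cast; rfl
  push_cast at h3
  rw [mul_star_eq]
  linear_combination h3

/-- `A hv(x, y) = nrm (A x + B̄ y) + nrm y` (from `AC - nrm B = 1`). -/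
theorem hv_nrm (h : Herm n M) (x y : OK n) :
    h.A * hv h x y = nrm ((h.A : OK n) * x + star h.B * y) + nrm y := by
  apply FinA_inj (n := n)
  have hd := FinA_det h
  rw [Int.cast_mul, Int.cast_add, hv_cast, ← mul_star_eq, ← mul_star_eq, star_add, star_mul',
    star_mul', star_star, star_icast]
  linear_combination (y * star y) * hd

theorem hv_pos (h : Herm n M) (x y : OK n) (hxy : x ≠ 0 ∨ y ≠ 0) : 0 < hv h x y := by
  by_contra hc
  push Not at hc
  have h1 := hv_nrm h x y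
  have h2 := nrm_nonneg ((h.A : OK n) * x + star h.B * y)
  have h3 := nrm_nonneg y
  have h4 : h.A * hv h x y ≤ 0 := by
    have := h.pos
    nlinarith
  have h5 : nrm y = 0 := by omega
  have h6 : nrm ((h.A : OK n) * x + star h.B * y) = 0 := by omega
  have h7 : y = 0 := nrm_eq_zero.1 h5
  rw [h7, mul_zero, add_zero, nrm_mul, nrm_intCast] at h6
  have h8 := h.pos
  have h9 : nrm x = 0 := by
    rcases mul_eq_zero.1 h6 with h | h
    · exfalso
      have := pow_eq_zero_iff (two_ne_zero) |>.1 h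
      omega
    · exact h
  rcases hxy with h10 | h10
  · exact h10 (nrm_eq_zero.1 h9)
  · exact h10 h7

/-- multiplication of the vector by `t` -/
theorem hv_mul (h : Herm n M) (t x y : OK n) : hv h (t * x) (t * y) = nrm t * hv h x y := by
  apply FinA_inj (n := n)
  rw [Int.cast_mul, hv_cast, hv_cast, ← mul_star_eq, star_mul', star_mul']
  ring

/-- Proof.  Let `C₀` be the constant of `dir_sig n : Dir (sig n)` (UDIR.lean, UDefs.lean) and `z = σ(B̄)/A`.
Choose `Q` with `A ≤ Q² ≤ 4 A` (`Q = Nat.sqrt A + 1` or so).  There are `x, y`, `y ≠ 0`,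
`|σ y|² ≤ C₀ Q²`, `|σ x + σ y z|² ≤ C₀ / Q²`.  By `hv_nrm` (`sig_normSq`: `normSq (sig x) = nrm x`, PELL.lean)
`hv = A |σ x + z σ y|² + |σ y|² / A ≤ A C₀ / Q² + C₀ Q² / A ≤ 5 C₀`. -/
theorem small_vec (n : ℕ) : ∃ K : ℕ, ∀ (M : ℕ) (h : Herm n M), ∃ x y : OK n,
    (x ≠ 0 ∨ y ≠ 0) ∧ hv h x y ≤ K := by
  obtain ⟨C₀, hC₀, hD⟩ := dir_sig n
  obtain ⟨K, hK⟩ := exists_nat_ge (5 * C₀)
  refine ⟨K, ?_⟩
  intro M h
  have hA := h.pos
  obtain ⟨a, ha⟩ : ∃ a : ℕ, (a : ℤ) = h.A := ⟨h.A.toNat, Int.toNat_of_nonneg hA.le⟩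
  have ha0 : 0 < a := by omega
  obtain ⟨Q, hQ, hQ1, hQ2⟩ : ∃ Q : ℕ, 0 < Q ∧ a ≤ Q ^ 2 ∧ Q ^ 2 ≤ 4 * a := by
    refine ⟨Nat.sqrt a + 1, by omega, ?_, ?_⟩
    · exact (Nat.lt_succ_sqrt' a).le
    · have h1 := Nat.sqrt_le' a
      have h2 : 0 < Nat.sqrt a := Nat.sqrt_pos.2 ha0
      nlinarith
  have haR : (0 : ℝ) < a := by exact_mod_cast ha0
  have hQR : (0 : ℝ) < Q := by exact_mod_cast hQ
  have hQ1R : (a : ℝ) ≤ (Q : ℝ) ^ 2 := by exact_mod_cast hQ1
  have hQ2R : (Q : ℝ) ^ 2 ≤ 4 * a := by exact_mod_cast hQ2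
  obtain ⟨x, y, hy, hy1, hx1⟩ := hD (sig n (star h.B) / (a : ℂ)) Q hQ
  refine ⟨x, y, Or.inr hy, ?_⟩
  have e1 := hv_nrm h x y
  have e2 : Complex.normSq (sig n y) = (nrm y : ℝ) := by
    rw [sig_normSq]
    unfold nrm
    push_cast
    ring
  have e3 : Complex.normSq (sig n ((h.A : OK n) * x + star h.B * y)) =
      (nrm ((h.A : OK n) * x + star h.B * y) : ℝ) := by
    rw [sig_normSq]
    unfold nrm
    push_cast
    ring
  have e4 : sig n ((h.A : OK n) * x + star h.B * y) =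
      (a : ℂ) * (sig n x + sig n y * (sig n (star h.B) / (a : ℂ))) := by
    have haC : (a : ℂ) ≠ 0 := by
      exact_mod_cast ha0.ne'
    rw [map_add, map_mul, map_mul, map_intCast, ← ha]
    push_cast
    field_simp
  rw [e4, Complex.normSq_mul] at e3
  have e5 : Complex.normSq (a : ℂ) = (a : ℝ) ^ 2 := by
    rw [show ((a : ℕ) : ℂ) = ((a : ℝ) : ℂ) by push_cast; rfl, Complex.normSq_ofReal]
    ring
  rw [e5] at e3
  rw [e2] at hy1
  generalize Complex.normSq (sig n x + sig n y * (sig n (star h.B) / (a : ℂ))) = T at hx1 e3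
  have e6 : (a : ℝ) * (hv h x y : ℝ) = (a : ℝ) ^ 2 * T + (nrm y : ℝ) := by
    rw [e3]
    have : ((h.A * hv h x y : ℤ) : ℝ) =
      ((nrm ((h.A : OK n) * x + star h.B * y) + nrm y : ℤ) : ℝ) := by rw [e1]
    rw [← ha] at this
    push_cast at this
    rw [← ha]
    push_cast
    exact this
  have hT : (a : ℝ) * T ≤ C₀ := by
    have h1 : T * (Q : ℝ) ^ 2 ≤ C₀ := by
      rwa [le_div_iff₀ (by positivity)] at hx1
    have hT0 : 0 ≤ T := by
      by_contra hc
      push Not at hc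
      have h3 := nrm_nonneg ((h.A : OK n) * x + star h.B * y)
      have h4 : (0 : ℝ) ≤ (nrm ((h.A : OK n) * x + star h.B * y) : ℝ) := by exact_mod_cast h3
      rw [← e3] at h4
      nlinarith [mul_pos haR haR]
    nlinarith
  have hfin : (a : ℝ) * (hv h x y : ℝ) ≤ a * (5 * C₀) := by
    rw [e6]
    have h2 : (nrm y : ℝ) ≤ C₀ * (4 * a) := hy1.trans (by nlinarith)
    nlinarith
  have hfin2 : (hv h x y : ℝ) ≤ K := (le_of_mul_le_mul_left hfin haR).trans hK
  exact_mod_cast hfin2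

end QTW
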