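import Pool.Agent.QTW.FinA
import Pool.Agent.QTW.TrB

/-!
# FinB: reduction of hermitian forms (size 4)
-/

open Matrix

namespace QTW

open SerreE SerreK SerreU

variable {n : ℕ}

private theorem FinB_ext {M : ℕ} {h k : Herm n M} (hA : h.A = k.A) (hB : h.B = k.B)
    (hC : h.C = k.C) : h = k := by
  obtain ⟨a, b, c, p1, p2, p3⟩ := h
  obtain ⟨a', b', c', q1, q2, q3⟩ := k
  dsimp only at hA hB hC
  subst hA hB hC
  rfl

private theorem FinB_inj {a b : ℤ} (h : ((a : ℤ) : OK n) = ((b : ℤ) : OK n)) : a = b := by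
  have h1 := congrArg (fun t : OK n => t.re) h
  simpa using h1

private theorem FinB_fin (n : ℕ) (K : ℕ) : {k : Herm n 1 | k.A ≤ K ∧ (0 ≤ k.B.re ∧ k.B.re < k.A) ∧
    (0 ≤ k.B.im ∧ k.B.im < k.A)}.Finite := by
  let f : Herm n 1 → ℤ × ℤ × ℤ := fun k => (k.A, k.B.re, k.B.im)
  apply Set.Finite.of_finite_image (f := f)
  · apply Set.Finite.subset (Set.Finite.prod (Set.finite_Icc (0 : ℤ) K)
      (Set.Finite.prod (Set.finite_Icc (0 : ℤ) K) (Set.finite_Icc (0 : ℤ) K)))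
    rintro _ ⟨k, ⟨h1, ⟨h2, h3⟩, h4, h5⟩, rfl⟩
    have := k.pos
    refine ⟨⟨by dsimp only [f]; omega, h1⟩, ⟨h2, by dsimp only [f]; omega⟩,
      ⟨h4, by dsimp only [f]; omega⟩⟩
  · intro h _ k _ hhk
    have e1 : h.A = k.A := congrArg (fun t : ℤ × ℤ × ℤ => t.1) hhk
    have e2 : h.B.re = k.B.re := congrArg (fun t : ℤ × ℤ × ℤ => t.2.1) hhk
    have e3 : h.B.im = k.B.im := congrArg (fun t : ℤ × ℤ × ℤ => t.2.2) hhk
    have e4 : h.B = k.B := QuadraticAlgebra.ext e2 e3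
    refine FinB_ext e1 e4 ?_
    have d1 := h.det
    have d2 := k.det
    rw [e4, e1] at d1
    have h0 := k.pos
    have : k.A * h.C = k.A * k.C := by linarith
    exact mul_left_cancel₀ h0.ne' this

private theorem FinB_A (g : Mat n) (h k : Herm n 1) (ht : Tr 1 g h k) :
    k.A = hv h (g 0 0) (g 1 0) := by
  apply FinB_inj (n := n)
  rw [hv_cast]
  have h1 := congrFun (congrFun ht 0) 0
  simp only [Herm.mat, Matrix.mul_apply, Fin.sum_univ_two, Matrix.transpose_apply,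
    Matrix.map_apply, Matrix.smul_apply, Matrix.of_apply, Matrix.cons_val', Matrix.cons_val_zero,
    Matrix.cons_val_one, Matrix.cons_val_fin_one, Nat.cast_one, one_smul] at h1
  rw [← h1]
  ring

private theorem FinB_B (t : OK n) (h k : Herm n 1) (ht : Tr 1 (!![1, t; 0, 1] : Mat n) h k) :
    k.B = h.A * star t + h.B := by
  have h1 := congrFun (congrFun ht 0) 1
  simp only [Herm.mat, Matrix.mul_apply, Fin.sum_univ_two, Matrix.transpose_apply,
    Matrix.map_apply, Matrix.smul_apply, Matrix.of_apply, Matrix.cons_val', Matrix.cons_val_zero,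
    Matrix.cons_val_one, Matrix.cons_val_fin_one, Nat.cast_one, one_smul] at h1
  rw [← h1]
  simp

/-- Proof.  Among the non-zero vectors choose one, `(x, y)`, with `hv h x y` minimal (`hv_pos`,
`Nat.find` for `toNat`); `hv h x y ≤ K` by `small_vec`.  `x, y` are coprime: if `x = t x'`, `y = t y'` with
`t` not a unit, then `nrm t ≥ 2` and `hv h x' y' < hv h x y` (`hv_mul`).  So `a x + c y = 1`
(principal ideal ring) and `g₁ = [[x, -c], [y, a]]` has determinant `1`; let `Tr 1 g₁ h k₁`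
(`tr_exists_one` for `M = 1`): `k₁.A = hv h x y ≤ K` (`hv_cast`).  With `g₂ = [[1, t], [0, 1]]`,
`Tr 1 g₂ k₁ k₂`, `k₂.A = k₁.A`, `k₂.B = k₁.A * star t + k₁.B`: choose `t` such that `0 ≤ re, im < k₁.A`
for `k₂.B` (`Int.emod`).  So `k₂.A ≤ K` and the coordinates of `k₂.B` are bounded, and `k₂.C` is determined
by `A C = 1 + nrm B`: finitely many `k₂`.  `g = g₁ g₂` (`tr_mul`). -/
theorem red_finite (n : ℕ) [IsPrincipalIdealRing (OK n)] : ∃ S : Set (Herm n 1), S.Finite ∧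
    ∀ h : Herm n 1, ∃ k ∈ S, ∃ g : Mat n, IsUnit g.det ∧ Tr 1 g h k := by
  obtain ⟨K, hK⟩ := small_vec n
  refine ⟨_, FinB_fin n K, ?_⟩
  intro h
  obtain ⟨x0, y0, hxy0, hxy0'⟩ := hK 1 h
  classical
  have hex : ∃ m : ℕ, ∃ x y : OK n, (x ≠ 0 ∨ y ≠ 0) ∧ hv h x y = m :=
    ⟨(hv h x0 y0).toNat, x0, y0, hxy0, (Int.toNat_of_nonneg (hv_pos h x0 y0 hxy0).le).symm⟩
  obtain ⟨x, y, hxy, hm⟩ := Nat.find_spec hex
  have hmin : ∀ x' y' : OK n, (x' ≠ 0 ∨ y' ≠ 0) → hv h x y ≤ hv h x' y' := by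
    intro x' y' h'
    rw [hm]
    have h1 := Nat.find_min' hex (m := (hv h x' y').toNat) ⟨x', y', h',
      (Int.toNat_of_nonneg (hv_pos h x' y' h').le).symm⟩
    have h2 := hv_pos h x' y' h'
    omega
  have hle : hv h x y ≤ K := (hmin x0 y0 hxy0).trans hxy0'
  have hpos := hv_pos h x y hxy
  obtain ⟨t, ht⟩ := (IsPrincipalIdealRing.principal (Ideal.span {x, y} : Ideal (OK n))).principal
  have hx : x ∈ (Ideal.span {x, y} : Ideal (OK n)) := Ideal.subset_span (by simp)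
  have hy : y ∈ (Ideal.span {x, y} : Ideal (OK n)) := Ideal.subset_span (by simp)
  have htm : t ∈ (Ideal.span {x, y} : Ideal (OK n)) := by
    rw [ht]
    exact Submodule.subset_span rfl
  rw [ht] at hx hy
  obtain ⟨x', hx'⟩ := Ideal.mem_span_singleton'.1 hx
  obtain ⟨y', hy'⟩ := Ideal.mem_span_singleton'.1 hy
  obtain ⟨a, c, hac⟩ := Ideal.mem_span_pair.1 htm
  have hxy' : x' ≠ 0 ∨ y' ≠ 0 := by
    rcases hxy with h1 | h1
    · left
      rintro rfl
      exact h1 (by rw [← hx', zero_mul])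
    · right
      rintro rfl
      exact h1 (by rw [← hy', zero_mul])
  have htu : IsUnit t := by
    rw [nrm_isUnit]
    have h1 := hv_mul h t x' y'
    rw [mul_comm t x', mul_comm t y', hx', hy'] at h1
    have h2 := hmin x' y' hxy'
    have h3 := hv_pos h x' y' hxy'
    have h4 := nrm_nonneg t
    by_contra hc
    have h5 : nrm t ≠ 0 := by
      intro h6
      rw [h6, zero_mul] at h1
      omega
    have h6 : 2 ≤ nrm t := by omega
    nlinarith
  obtain ⟨u, hu⟩ := htu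
  have hac' : (((u⁻¹ : (OK n)ˣ) : OK n) * a) * x + (((u⁻¹ : (OK n)ˣ) : OK n) * c) * y = 1 := by
    have : (((u⁻¹ : (OK n)ˣ) : OK n) * a) * x + (((u⁻¹ : (OK n)ˣ) : OK n) * c) * y =
      ((u⁻¹ : (OK n)ˣ) : OK n) * (a * x + c * y) := by ring
    rw [this, hac, ← hu, Units.inv_mul]
  generalize ((u⁻¹ : (OK n)ˣ) : OK n) * a = a' at hac'
  generalize ((u⁻¹ : (OK n)ˣ) : OK n) * c = c' at hac'
  have hd1 : (!![x, -c'; y, a'] : Mat n).det = 1 := by
    rw [Matrix.det_fin_two_of]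
    linear_combination hac'
  obtain ⟨k₁, hk₁, -⟩ := tr_exists_one (M := 1) (!![x, -c'; y, a'] : Mat n) h
    ⟨by rw [hd1]; exact isUnit_one, ⟨y, by push_cast; simp⟩⟩
  have hA₁ : k₁.A = hv h x y := FinB_A _ _ _ hk₁
  let b : OK n := ⟨-(k₁.B.re / k₁.A), -(k₁.B.im / k₁.A)⟩
  have hd2 : (!![1, star b; 0, 1] : Mat n).det = 1 := by
    rw [Matrix.det_fin_two_of]
    ring
  obtain ⟨k₂, hk₂, -⟩ := tr_exists_one (M := 1) (!![1, star b; 0, 1] : Mat n) k₁
    ⟨by rw [hd2]; exact isUnit_one, ⟨0, by push_cast; simp⟩⟩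
  have hA₂ : k₂.A = k₁.A := by
    have h1 := FinB_A _ _ _ hk₂
    have h2 : hv k₁ ((!![1, star b; 0, 1] : Mat n) 0 0) ((!![1, star b; 0, 1] : Mat n) 1 0) =
        k₁.A := by
      change hv k₁ 1 0 = k₁.A
      have h0 : nrm (1 : OK n) = 1 := nrm_isUnit.1 isUnit_one
      have h0' : nrm (0 : OK n) = 0 := nrm_eq_zero.2 rfl
      unfold hv
      rw [h0, h0']
      simp
    rw [h1, h2]
  have hB₂ : k₂.B = k₁.A * b + k₁.B := by
    have h1 := FinB_B _ _ _ hk₂
    rw [h1, star_star]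
  have hre : k₂.B.re = k₁.B.re % k₁.A := by
    rw [hB₂, Int.emod_def]
    simp only [QuadraticAlgebra.re_add, QuadraticAlgebra.re_mul, QuadraticAlgebra.re_intCast,
      QuadraticAlgebra.im_intCast, Int.cast_id, b]
    ring
  have him : k₂.B.im = k₁.B.im % k₁.A := by
    rw [hB₂, Int.emod_def]
    simp only [QuadraticAlgebra.im_add, QuadraticAlgebra.im_mul, QuadraticAlgebra.re_intCast,
      QuadraticAlgebra.im_intCast, Int.cast_id, b]
    ring
  have hpos₁ := k₁.pos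
  refine ⟨k₂, ⟨?_, ⟨?_, ?_⟩, ?_, ?_⟩, !![x, -c'; y, a'] * !![1, star b; 0, 1], ?_, ?_⟩
  · rw [hA₂, hA₁]
    exact hle
  · rw [hre]
    exact Int.emod_nonneg _ hpos₁.ne'
  · rw [hre, hA₂]
    exact Int.emod_lt_of_pos _ hpos₁
  · rw [him]
    exact Int.emod_nonneg _ hpos₁.ne'
  · rw [him, hA₂]
    exact Int.emod_lt_of_pos _ hpos₁
  · rw [Matrix.det_mul, hd1, hd2, one_mul]
    exact isUnit_one
  · have := tr_mul hk₁ hk₂
    simpa using this

end QTW
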