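import Pool.Agent.QTW.TrB

/-!
# Fix: neighbours of the forms with an extra symmetry (size 4)
-/

open Matrix

namespace QTW

open SerreE SerreK SerreU

variable {n M : ℕ}

/-- Proof.  `s² = -det(s) • 1` (`uhec_sq`, UHEC.lean).  For every `i`, `s * α i` is of type `TD M p`
(`ta_mul_td`), `Tr p (s * α i) h (k i)` by `tr_one_mul`, so by `N.all` `s * α i = α (e i) * g i`;
`TA M (g i)` (`ta_of_td`), `Tr 1 (g i) (k (e i)) (k i)` (`tr_cancel`), so `f (k i) = f (k (e i))`.
`e (e i) = i`: `s * (s * α i) = -det(s) • α i` and `= α (e (e i)) * (g (e i) * g i)`, so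
`α (e (e i)) * (unit • g g) = α i`, use `N.sep`.  `Finset.sum_involution`: the pairs `i, e i` with
`e i ≠ i` cancel in characteristic two, and if `e i = i` then `f (k i) = 0` by `hfix`. -/
theorem fix_sum {p : ℕ} (hp : p ≠ 0) (hc : p.Coprime M) {h : Herm n M} {s : Mat n}
    (hs : TA (M : OK n) s) (hs1 : Tr 1 s h h) (hs0 : s 0 0 + s 1 1 = 0) {r : ℕ}
    {α : Fin r → Mat n} {k : Fin r → Herm n M} (N : Nbrs p h α k) (f : Herm n M → FF)
    (hf : HInv f) (hfix : ∀ i (g : Mat n), s * α i = α i * g → f (k i) = 0) :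
    ∑ i, f (k i) = 0 := by
  have hTD : ∀ i, TD (M : OK n) (p : OK n) (α i) := fun i => ⟨N.det i, N.lev i⟩
  have hsT : ∀ i, TD (M : OK n) (p : OK n) (s * α i) := fun i => ta_mul_td hs (hTD i)
  have hsr : ∀ i, Tr p (s * α i) h (k i) := fun i => tr_one_mul hs1 (N.tr i)
  choose e g heg using fun i => N.all (s * α i) (k i) (hsT i).1 (hsT i).2 (hsr i)
  have hfe : ∀ i, f (k i) = f (k (e i)) := by
    intro i
    have h1 : TD (M : OK n) (p : OK n) (α (e i) * g i) := by
      rw [← heg i]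
      exact hsT i
    have h2 : TA (M : OK n) (g i) := ta_of_td hp hc (hTD _) h1
    have h3 : Tr p (α (e i) * g i) h (k i) := by
      rw [← heg i]
      exact hsr i
    have h4 : Tr 1 (g i) (k (e i)) (k i) := tr_cancel hp (N.tr (e i)) h3
    exact hf _ _ ⟨g i, h2, h4⟩
  have hee : ∀ i, e (e i) = i := by
    intro i
    have h1 : s * (s * α i) = (-s.det) • α i := by
      rw [← mul_assoc, uhec_sq hs0, Matrix.smul_mul, Matrix.one_mul]
    have h2 : s * (s * α i) = α (e (e i)) * (g (e i) * g i) := by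
      rw [heg i, ← mul_assoc, heg (e i), mul_assoc]
    obtain ⟨u, hu⟩ := hs.1
    apply N.sep (e (e i)) i ((-((u⁻¹ : (OK n)ˣ) : OK n)) • (g (e i) * g i))
    rw [Matrix.mul_smul, ← h2, h1, smul_smul, ← hu, neg_mul_neg, Units.inv_mul, one_smul]
  refine Finset.sum_involution (fun i _ => e i) ?_ ?_ ?_ ?_
  · intro i _
    change f (k i) + f (k (e i)) = 0
    rw [← hfe i]
    exact CharTwo.add_self_eq_zero _
  · intro i _ hi he
    apply hi
    have he' : e i = i := he
    apply hfix i (g i)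
    have := heg i
    rw [he'] at this
    exact this
  · intro i _
    exact Finset.mem_univ _
  · intro i _
    exact hee i

/-- If `f` is invariant and zero on the classes with an extra symmetry, then so is the sum over the
neighbours.

Proof.  `fix_sum`: if `s * α i = α i * g` then `g ∈ Γ₀(M)` (`ta_of_td`), `Tr 1 g (k i) (k i)`
(`tr_one_mul`, `tr_cancel`) and `g` has trace zero (`uhec_trace`, UHEC.lean), so `Ev (k i)`. -/
theorem fix_ev {p : ℕ} (hp : p ≠ 0) (hc : p.Coprime M) {h : Herm n M} (hh : Ev h) {r : ℕ}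
    {α : Fin r → Mat n} {k : Fin r → Herm n M} (N : Nbrs p h α k) (f : Herm n M → FF)
    (hf : HInv f) (hf0 : ∀ h, Ev h → f h = 0) : ∑ i, f (k i) = 0 := by
  obtain ⟨s, hs, hs1, hs0⟩ := hh
  apply fix_sum hp hc hs hs1 hs0 N f hf
  intro i g hg
  apply hf0
  have hTD : TD (M : OK n) (p : OK n) (α i) := ⟨N.det i, N.lev i⟩
  have hp0 : (p : OK n) ≠ 0 := by
    intro h0
    have h1 := nrm_natCast (n := n) p
    rw [h0, nrm_eq_zero.2 rfl] at h1
    have h2 : (p : ℤ) ≠ 0 := by exact_mod_cast hp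
    exact h2 (pow_eq_zero_iff (two_ne_zero) |>.1 h1.symm)
  have hd : (α i).det ≠ 0 := by
    intro h0
    have h1 := N.det i
    rw [h0] at h1
    exact hp0 ((associated_zero_iff_eq_zero _).1 h1.symm)
  refine ⟨g, ?_, ?_, ?_⟩
  · apply ta_of_td hp hc hTD
    rw [← hg]
    exact ta_mul_td hs hTD
  · apply tr_cancel hp (N.tr i)
    rw [← hg]
    exact tr_one_mul hs1 (N.tr i)
  · rw [uhec_trace hd hg, hs0]

end QTW
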