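import Pool.Agent.QTW.Fix

/-!
# FixQ: no fixed neighbours at inert primes `q ≡ 3 mod 4` (size 4)
-/

open Matrix

namespace QTW

open SerreE SerreK SerreU

variable {n M : ℕ}

/-- Units: for `n ≠ 0` the units are `±1`; for `n = 0` they are the sixth roots of unity, and every unit
is `± v²` with a unit `v` (`v` a third root of unity).  Proof: `nrm u = 1`, `four_nrm` (TSQM.lean):
`4 = (2x + y)² + (4n+3) y²`, so `|y| ≤ 1`, and `y = 0` if `n ≠ 0`; for `n = 0`: `(x, y) = ±(1,0), ±(0,1),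
±(1,-1)`; `ω² = ω - 1`, `ω = -(ω²)²`, `ω - 1 = ω²`: check the six cases. -/
theorem unit_sq (u : OK n) (hu : IsUnit u) : ∃ v : OK n, IsUnit v ∧ (u = v ^ 2 ∨ u = -v ^ 2) := by
  obtain ⟨x, y⟩ := u
  have h1 : nrm (⟨x, y⟩ : OK n) = 1 := nrm_isUnit.1 hu
  have h4 := four_nrm (⟨x, y⟩ : OK n)
  rw [h1] at h4
  change 4 * 1 = (2 * x + y) ^ 2 + (4 * (n : ℤ) + 3) * y ^ 2 at h4
  by_cases hy : y = 0
  · subst hy
    have h5 : x ^ 2 = 1 := by nlinarith
    refine ⟨1, isUnit_one, ?_⟩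
    rcases sq_eq_one_iff.1 h5 with h6 | h6
    · left
      rw [one_pow]
      apply QuadraticAlgebra.ext
      · simpa [QuadraticAlgebra.re_one] using h6
      · simp [QuadraticAlgebra.im_one]
    · right
      rw [one_pow]
      apply QuadraticAlgebra.ext
      · simpa [QuadraticAlgebra.re_one] using h6
      · simp [QuadraticAlgebra.im_one]
  · have hy2 : 1 ≤ y ^ 2 := by
      have := pow_pos (abs_pos.2 hy) 2
      rw [sq_abs] at this
      omega
    have hn : n = 0 := by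
      by_contra hn
      have h7 : (1 : ℤ) ≤ n := by
        have : 1 ≤ n := Nat.one_le_iff_ne_zero.2 hn
        exact_mod_cast this
      nlinarith [sq_nonneg (2 * x + y), mul_le_mul h7 hy2 (by norm_num) (by positivity)]
    subst hn
    have h7 : (2 * x + y) ^ 2 + 3 * y ^ 2 = 4 := by
      have : ((0 : ℕ) : ℤ) = 0 := rfl
      rw [this] at h4
      linarith
    have hy3 : y ^ 2 = 1 := by
      have : y ^ 2 < 2 := by nlinarith [sq_nonneg (2 * x + y)]
      omega
    have hx3 : (2 * x + y) ^ 2 = 1 := by linarith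
    have hu1 : IsUnit (⟨0, 1⟩ : OK 0) := by
      rw [nrm_isUnit]
      simp [nrm]
    have hu2 : IsUnit (⟨-1, 1⟩ : OK 0) := by
      rw [nrm_isUnit]
      simp [nrm]
    rcases sq_eq_one_iff.1 hy3 with h8 | h8
    · rcases sq_eq_one_iff.1 hx3 with h9 | h9
      · have hx : x = 0 := by omega
        subst hx h8
        refine ⟨⟨-1, 1⟩, hu2, Or.inr ?_⟩
        apply QuadraticAlgebra.ext <;> simp [pow_two]
      · have hx : x = -1 := by omega
        subst hx h8
        refine ⟨⟨0, 1⟩, hu1, Or.inl ?_⟩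
        apply QuadraticAlgebra.ext <;> simp [pow_two]
    · rcases sq_eq_one_iff.1 hx3 with h9 | h9
      · have hx : x = 1 := by omega
        subst hx h8
        refine ⟨⟨0, 1⟩, hu1, Or.inr ?_⟩
        apply QuadraticAlgebra.ext <;> simp [pow_two]
      · have hx : x = 0 := by omega
        subst hx h8
        refine ⟨⟨-1, 1⟩, hu2, Or.inl ?_⟩
        apply QuadraticAlgebra.ext <;> simp [pow_two]

private theorem fxq_dvd {q : ℕ} {x : OK n} (h : (q : OK n) ∣ x) :
    (q : ℤ) ∣ x.re ∧ (q : ℤ) ∣ x.im := by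
  obtain ⟨c, rfl⟩ := h
  constructor
  · exact ⟨c.re, by simp⟩
  · exact ⟨c.im, by simp⟩

private theorem fxq_int {q : ℕ} {k : ℤ} (h : (q : OK n) ∣ (k : OK n)) : (q : ℤ) ∣ k := by
  have h1 := (fxq_dvd h).1
  simpa using h1

private theorem fxq_star {q : ℕ} {x : OK n} (h : (q : OK n) ∣ x) : (q : OK n) ∣ star x := by
  obtain ⟨c, rfl⟩ := h
  exact ⟨star c, by rw [star_mul', star_cast]⟩

private theorem fxq_inv {q : ℕ} (hq : q.Prime) (hqi : Prime (q : OK n)) {t : OK n}
    (ht : ¬ (q : OK n) ∣ t) : ∃ t', (q : OK n) ∣ t * t' - 1 := by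
  have h1 : ¬ (q : ℤ) ∣ nrm t := by
    rintro ⟨c, hc⟩
    have h2 : (q : OK n) ∣ t * star t := by
      rw [mul_star_eq, hc]
      exact ⟨(c : OK n), by push_cast; rfl⟩
    rcases hqi.dvd_or_dvd h2 with h3 | h3
    · exact ht h3
    · apply ht
      have h4 := fxq_star h3
      rwa [star_star] at h4
  have h2 : IsCoprime (q : ℤ) (nrm t) :=
    (Nat.prime_iff_prime_int.1 hq).irreducible.coprime_iff_not_dvd.2 h1
  obtain ⟨a, b, hab⟩ := h2
  refine ⟨b * star t, ⟨-a, ?_⟩⟩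
  have h3 : ((a * q + b * nrm t : ℤ) : OK n) = 1 := by
    rw [hab]
    push_cast
    rfl
  push_cast at h3
  have h4 := mul_star_eq t
  linear_combination (b : OK n) * h4 + h3

private theorem fxq_prop {q : ℕ} (hq : q.Prime) (hqi : Prime (q : OK n)) {x y p0 p1 : OK n}
    (hxy : ¬ ((q : OK n) ∣ x ∧ (q : OK n) ∣ y)) (h : (q : OK n) ∣ p0 * y - p1 * x) :
    ∃ μ : OK n, (q : OK n) ∣ p0 - μ * x ∧ (q : OK n) ∣ p1 - μ * y := by
  by_cases hx : (q : OK n) ∣ x
  · have hy : ¬ (q : OK n) ∣ y := fun hy => hxy ⟨hx, hy⟩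
    obtain ⟨t, ht⟩ := fxq_inv hq hqi hy
    refine ⟨p1 * t, ?_, ?_⟩
    · have e : p0 - p1 * t * x = (p0 * y - p1 * x) * t - p0 * (y * t - 1) := by ring
      rw [e]
      exact dvd_sub (h.mul_right _) (ht.mul_left _)
    · have e : p1 - p1 * t * y = -(p1 * (y * t - 1)) := by ring
      rw [e, dvd_neg]
      exact ht.mul_left _
  · obtain ⟨t, ht⟩ := fxq_inv hq hqi hx
    refine ⟨p0 * t, ?_, ?_⟩
    · have e : p0 - p0 * t * x = -(p0 * (x * t - 1)) := by ring
      rw [e, dvd_neg]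
      exact ht.mul_left _
    · have e : p1 - p0 * t * y = -((p0 * y - p1 * x) * t) - p1 * (x * t - 1) := by ring
      rw [e]
      exact dvd_sub ((dvd_neg).2 (h.mul_right _)) (ht.mul_left _)

private theorem fxq_col {c : OK n} {α X g : Mat n} (hα : c ∣ α.det) (hX : X = α * g)
    (j : Fin 2) : c ∣ X 0 j * α 1 j - X 1 j * α 0 j := by
  subst hX
  rw [Matrix.det_fin_two] at hα
  obtain ⟨w, hw⟩ := hα
  rw [Matrix.mul_apply, Matrix.mul_apply, Fin.sum_univ_two, Fin.sum_univ_two]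
  fin_cases j
  · refine ⟨-(g 1 0) * w, ?_⟩
    change (α 0 0 * g 0 0 + α 0 1 * g 1 0) * α 1 0 - (α 1 0 * g 0 0 + α 1 1 * g 1 0) * α 0 0 =
      c * (-(g 1 0) * w)
    linear_combination -(g 1 0) * hw
  · refine ⟨g 0 1 * w, ?_⟩
    change (α 0 0 * g 0 1 + α 0 1 * g 1 1) * α 1 1 - (α 1 0 * g 0 1 + α 1 1 * g 1 1) * α 0 1 =
      c * (g 0 1 * w)
    linear_combination (g 0 1) * hw

private theorem fxq_both {q : ℕ} (hqi : Prime (q : OK n)) {x y z : OK n}
    (hxy : ¬ ((q : OK n) ∣ x ∧ (q : OK n) ∣ y)) (h0 : (q : OK n) ∣ z * x)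
    (h1 : (q : OK n) ∣ z * y) : (q : OK n) ∣ z := by
  by_contra hz
  exact hxy ⟨(hqi.dvd_or_dvd h0).resolve_left hz, (hqi.dvd_or_dvd h1).resolve_left hz⟩

/-- `μ μ̄ ≡ -1` and `μ² ≡ ± 1` modulo an inert prime `q ≡ 3 mod 4` is impossible.

Proof.  `q` is odd, `q ≠ 4n+3` (`(4n+3)` is not prime in `OK n`: `√-d² = -d`, `⟨-1, 2⟩`).  If
`q ∣ μ² - 1` then `q ∣ μ - 1` or `q ∣ μ + 1`, so `μ ≡ ±1`, `μ̄ ≡ ±1`, `μ μ̄ ≡ 1`, `q ∣ 2`: `nrm`
gives `q² ∣ 4`, impossible.  If `q ∣ μ² + 1`: `q ∣ μ (μ - μ̄)`, `q ∤ μ`, so `q ∣ μ - μ̄ = y √-d`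
(`y = im μ`, `√-d = ⟨-1, 2⟩`), `q ∣ y` or `q ∣ √-d`; the latter would give `q² ∣ d` (norms), impossible since
`d = 4n+3` is prime or: `q ∣ ⟨-1, 2⟩` gives `q ∣ -1`.  So `q ∣ y` (in `ℤ`), `μ ≡ x` modulo `q` with `x ∈ ℤ`,
`q ∣ x² + 1` in `ℤ`: impossible for `q ≡ 3 mod 4` (`ZMod.exists_sq_eq_neg_one_iff` or similar). -/
theorem no_mu {q : ℕ} (hq : q.Prime) (hq4 : q % 4 = 3) (hqi : Prime (q : OK n)) (μ : OK n)
    (h1 : (q : OK n) ∣ μ * star μ + 1) (h2 : (q : OK n) ∣ μ ^ 2 - 1 ∨ (q : OK n) ∣ μ ^ 2 + 1) :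
    False := by
  have hqZ : Prime (q : ℤ) := Nat.prime_iff_prime_int.1 hq
  rcases h2 with h2 | h2
  · -- `μ ≡ ± 1`
    have h3 : (q : OK n) ∣ (μ - 1) * (μ + 1) := by
      have e : (μ - 1) * (μ + 1) = μ ^ 2 - 1 := by ring
      rw [e]
      exact h2
    have h4 : (q : OK n) ∣ ((2 : ℤ) : OK n) := by
      rcases hqi.dvd_or_dvd h3 with h5 | h5
      · have h6 := fxq_star h5
        rw [star_sub, star_one] at h6
        have e : ((2 : ℤ) : OK n) = (μ * star μ + 1) - ((μ - 1) * star μ + (star μ - 1)) := by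
          push_cast
          ring
        rw [e]
        exact dvd_sub h1 (dvd_add (h5.mul_right _) h6)
      · have h6 := fxq_star h5
        rw [star_add, star_one] at h6
        have e : ((2 : ℤ) : OK n) = (μ * star μ + 1) - ((μ + 1) * star μ - (star μ + 1)) := by
          push_cast
          ring
        rw [e]
        exact dvd_sub h1 (dvd_sub (h5.mul_right _) h6)
    have h7 := fxq_int h4
    have h8 : q ∣ 2 := by exact_mod_cast h7
    have h9 := Nat.le_of_dvd (by norm_num) h8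
    omega
  · have h3 : (q : OK n) ∣ μ * (μ - star μ) := by
      have e : μ * (μ - star μ) = (μ ^ 2 + 1) - (μ * star μ + 1) := by ring
      rw [e]
      exact dvd_sub h2 h1
    have h4 : ¬ (q : OK n) ∣ μ := by
      intro h
      have e : (1 : OK n) = (μ * star μ + 1) - μ * star μ := by ring
      apply hqi.not_isUnit
      apply isUnit_of_dvd_one
      rw [e]
      exact dvd_sub h1 (h.mul_right _)
    have h5 := (fxq_dvd ((hqi.dvd_or_dvd h3).resolve_left h4)).1
    have h6 : (μ - star μ).re = -μ.im := by simp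
    rw [h6, dvd_neg] at h5
    rw [mul_star_eq] at h1
    have h7 : (q : ℤ) ∣ nrm μ + 1 := by
      apply fxq_int (n := n)
      push_cast
      exact h1
    have h8 : (q : ℤ) ∣ μ.re ^ 2 + 1 := by
      have e : μ.re ^ 2 + 1 = (nrm μ + 1) - μ.im * (μ.re + (n + 1) * μ.im) := by
        unfold nrm
        ring
      rw [e]
      exact dvd_sub h7 (h5.mul_right _)
    have : Fact q.Prime := ⟨hq⟩
    have h9 : ((μ.re ^ 2 + 1 : ℤ) : ZMod q) = 0 := (ZMod.intCast_zmod_eq_zero_iff_dvd _ _).2 h8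
    have h10 : IsSquare (-1 : ZMod q) := by
      refine ⟨(μ.re : ZMod q), ?_⟩
      push_cast at h9
      linear_combination -h9
    exact (ZMod.exists_sq_eq_neg_one_iff.1 h10) hq4

/-- A symmetry `s` of trace zero fixes no neighbour at `q`.

Proof.  `det s = ε v²` with `ε = ±1`, `v` a unit (`unit_sq`); replace `s` by `v⁻¹ s` (still in `Γ₀(M)`,
trace zero, `Tr 1 s h h` as `v v̄ = 1`, `s α = α g`), so `det s = ε`, `s² = -ε`.  By `hlib`-type
arguments: `α` is not divisible by `q` (its determinant is `q` up to a unit), let `v` be a column of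
`α` which is not divisible by `q`; the other column is a multiple of `v` modulo `q` (`q ∣ det α`).  From
`s α = α g`, `s v ≡ μ v` modulo `q`; `s² = -ε` gives `μ² ≡ -ε` (`v ≢ 0`).  From `Tr q α h k`,
`vᵀ h v̄ ≡ 0`.  With `γ_h = w h`: `det [v, γ_h v̄] = ± vᵀ h v̄ ≡ 0`, so `γ_h v̄ ≡ ρ v` modulo `q` for some
`ρ`, and `ρ ≢ 0` (`γ_h` is invertible, `v̄ ≢ 0`).  `tr_iff` for `Tr 1 s h h`: `ε γ_h s̄ = s γ_h`; applied
to `v̄`: `ε γ_h s̄ v̄ ≡ ε μ̄ γ_h v̄ ≡ ε μ̄ ρ v` and `s γ_h v̄ ≡ ρ s v ≡ ρ μ v`.  So `μ ≡ ε μ̄`,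
`μ μ̄ ≡ ε μ²  ≡ -1` (`ε² = 1`).  Contradiction by `no_mu`. -/
theorem noq {q : ℕ} (hq : q.Prime) (hq4 : q % 4 = 3) (hqi : Prime (q : OK n)) {h k : Herm n M}
    {s α g : Mat n} (hs : TA (M : OK n) s) (hs1 : Tr 1 s h h) (hs0 : s 0 0 + s 1 1 = 0)
    (hα : Associated α.det (q : OK n)) (hk : Tr q α h k) (hg : s * α = α * g) : False := by
  have hdet0 : α.det ≠ 0 := by
    intro h0
    rw [h0] at hα
    exact hqi.ne_zero ((associated_zero_iff_eq_zero _).1 hα.symm)
  have hcol : ∃ j : Fin 2, ¬ ((q : OK n) ∣ α 0 j ∧ (q : OK n) ∣ α 1 j) := by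
    by_contra hcon
    have hcon' : ∀ j : Fin 2, (q : OK n) ∣ α 0 j ∧ (q : OK n) ∣ α 1 j := by
      intro j
      by_contra hj
      exact hcon ⟨j, hj⟩
    have h0 := hcon' 0
    have h1 := hcon' 1
    have h2 : (q : OK n) * q ∣ α.det := by
      rw [Matrix.det_fin_two]
      exact dvd_sub (mul_dvd_mul h0.1 h1.2) (mul_dvd_mul h1.1 h0.2)
    have h3 : (q : OK n) * q ∣ q * 1 := by
      rw [mul_one]
      exact h2.trans hα.dvd
    exact hqi.not_isUnit (isUnit_of_dvd_one ((mul_dvd_mul_iff_left hqi.ne_zero).1 h3))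
  obtain ⟨j, hj⟩ := hcol
  have hqd : (q : OK n) ∣ α.det := hα.symm.dvd
  -- the matrix `γ_h`
  have hX : ∃ g' : Mat n, h.gm * cjM α = α * g' := by
    obtain ⟨u, hu⟩ := hα
    have h1 := (tr_iff q α h k hdet0).1 hk
    refine ⟨(u : OK n) • k.gm, ?_⟩
    rw [← hu, mul_smul] at h1
    apply smul_right_injective _ hdet0
    change α.det • (h.gm * cjM α) = α.det • (α * ((u : OK n) • k.gm))
    rw [h1, Matrix.mul_smul]
  obtain ⟨g', hg'⟩ := hX
  have E1 := fxq_col hqd hg j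
  have E2 := fxq_col hqd hg' j
  obtain ⟨μ, D0, D1⟩ := fxq_prop hq hqi hj E1
  obtain ⟨ρ, R0, R1⟩ := fxq_prop hq hqi hj E2
  have hss := hs.1
  have hts := (tr_iff 1 s h h hss.ne_zero).1 hs1
  set x := α 0 j with hx
  set y := α 1 j with hy
  have es0 : (s * α) 0 j = s 0 0 * x + s 0 1 * y := by
    rw [Matrix.mul_apply, Fin.sum_univ_two]
  have es1 : (s * α) 1 j = s 1 0 * x + s 1 1 * y := by
    rw [Matrix.mul_apply, Fin.sum_univ_two]
  have g00 : h.gm 0 0 = star h.B := rfl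
  have g01 : h.gm 0 1 = (h.C : OK n) := rfl
  have g10 : h.gm 1 0 = -(h.A : OK n) := rfl
  have g11 : h.gm 1 1 = -h.B := rfl
  have eg0 : (h.gm * cjM α) 0 j = star h.B * star x + (h.C : OK n) * star y := by
    rw [Matrix.mul_apply, Fin.sum_univ_two]
    rfl
  have eg1 : (h.gm * cjM α) 1 j = -(h.A : OK n) * star x + -h.B * star y := by
    rw [Matrix.mul_apply, Fin.sum_univ_two]
    rfl
  rw [es0] at D0
  rw [es1] at D1
  rw [eg0] at R0
  rw [eg1] at R1
  have D0s := fxq_star D0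
  have D1s := fxq_star D1
  rw [star_sub, star_add, star_mul', star_mul', star_mul'] at D0s D1s
  -- determinant of `γ_h`
  have hgd : -(star h.B * h.B) + (h.A : OK n) * h.C = 1 := by
    have h1 := h.gm_det
    rw [Matrix.det_fin_two, g00, g01, g10, g11] at h1
    linear_combination h1
  -- `d = det s`
  obtain ⟨d, hd⟩ : ∃ d : OK n, d = s.det := ⟨_, rfl⟩
  have hd' : s 0 0 * s 1 1 - s 0 1 * s 1 0 = d := by rw [hd, Matrix.det_fin_two]
  have hs11 : s 1 1 = - s 0 0 := by linear_combination hs0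
  -- `μ² ≡ - d`
  have hmu2 : (q : OK n) ∣ μ ^ 2 + d := by
    apply fxq_both hqi hj
    · have e : (μ ^ 2 + d) * x = -(s 0 0 * (s 0 0 * x + s 0 1 * y - μ * x) +
          s 0 1 * (s 1 0 * x + s 1 1 * y - μ * y) + μ * (s 0 0 * x + s 0 1 * y - μ * x)) := by
        rw [hs11] at hd' ⊢
        linear_combination -x * hd'
      rw [e, dvd_neg]
      exact dvd_add (dvd_add (D0.mul_left _) (D1.mul_left _)) (D0.mul_left _)
    · have e : (μ ^ 2 + d) * y = -(s 1 0 * (s 0 0 * x + s 0 1 * y - μ * x) +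
          s 1 1 * (s 1 0 * x + s 1 1 * y - μ * y) + μ * (s 1 0 * x + s 1 1 * y - μ * y)) := by
        rw [hs11] at hd' ⊢
        linear_combination -y * hd'
      rw [e, dvd_neg]
      exact dvd_add (dvd_add (D0.mul_left _) (D1.mul_left _)) (D1.mul_left _)
  -- the relation `det(s) γ s̄ = s γ`
  have ht : ∀ i l : Fin 2, d * (h.gm i 0 * star (s 0 l) + h.gm i 1 * star (s 1 l)) =
      s i 0 * h.gm 0 l + s i 1 * h.gm 1 l := by
    intro i l
    have h1 := congrFun (congrFun hts i) l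
    rw [Matrix.smul_apply, Matrix.smul_apply, Matrix.mul_apply, Matrix.mul_apply,
      Fin.sum_univ_two, Fin.sum_univ_two, smul_eq_mul, smul_eq_mul, Nat.cast_one, one_mul,
      ← hd] at h1
    exact h1
  have t00 := ht 0 0
  have t01 := ht 0 1
  have t10 := ht 1 0
  have t11 := ht 1 1
  rw [g00, g01] at t00 t01
  rw [g10, g11] at t10 t11
  rw [g10] at t00
  rw [g11] at t01
  rw [g00] at t10
  rw [g01] at t11
  have hrho : (q : OK n) ∣ ρ * (μ - d * star μ) := by
    apply fxq_both hqi hj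
    · have e : ρ * (μ - d * star μ) * x =
          d * (star h.B * (star (s 0 0) * star x + star (s 0 1) * star y - star μ * star x) +
            (h.C : OK n) * (star (s 1 0) * star x + star (s 1 1) * star y - star μ * star y)) +
          d * star μ * (star h.B * star x + (h.C : OK n) * star y - ρ * x) -
          (s 0 0 * (star h.B * star x + (h.C : OK n) * star y - ρ * x) +
            s 0 1 * (-(h.A : OK n) * star x + -h.B * star y - ρ * y)) -
          ρ * (s 0 0 * x + s 0 1 * y - μ * x) := by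
        linear_combination -star x * t00 - star y * t01
      rw [e]
      exact dvd_sub (dvd_sub (dvd_add (Dvd.dvd.mul_left (dvd_add (D0s.mul_left _)
        (D1s.mul_left _)) _) (R0.mul_left _)) (dvd_add (R0.mul_left _) (R1.mul_left _)))
        (D0.mul_left _)
    · have e : ρ * (μ - d * star μ) * y =
          d * (-(h.A : OK n) * (star (s 0 0) * star x + star (s 0 1) * star y - star μ * star x) +
            (-h.B) * (star (s 1 0) * star x + star (s 1 1) * star y - star μ * star y)) +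
          d * star μ * (-(h.A : OK n) * star x + -h.B * star y - ρ * y) -
          (s 1 0 * (star h.B * star x + (h.C : OK n) * star y - ρ * x) +
            s 1 1 * (-(h.A : OK n) * star x + -h.B * star y - ρ * y)) -
          ρ * (s 1 0 * x + s 1 1 * y - μ * y) := by
        linear_combination -star x * t10 - star y * t11
      rw [e]
      exact dvd_sub (dvd_sub (dvd_add (Dvd.dvd.mul_left (dvd_add (D0s.mul_left _)
        (D1s.mul_left _)) _) (R1.mul_left _)) (dvd_add (R0.mul_left _) (R1.mul_left _)))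
        (D1.mul_left _)
  have hrho0 : ¬ (q : OK n) ∣ ρ := by
    intro hr
    have ex : star x = -h.B * ((star h.B * star x + (h.C : OK n) * star y - ρ * x) + ρ * x) -
        (h.C : OK n) * ((-(h.A : OK n) * star x + -h.B * star y - ρ * y) + ρ * y) := by
      linear_combination -star x * hgd
    have ey : star y = (h.A : OK n) * ((star h.B * star x + (h.C : OK n) * star y - ρ * x) +
        ρ * x) +
        star h.B * ((-(h.A : OK n) * star x + -h.B * star y - ρ * y) + ρ * y) := by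
      linear_combination -star y * hgd
    have hqx : (q : OK n) ∣ star x := by
      rw [ex]
      exact dvd_sub (Dvd.dvd.mul_left (dvd_add R0 (hr.mul_right _)) _)
        (Dvd.dvd.mul_left (dvd_add R1 (hr.mul_right _)) _)
    have hqy : (q : OK n) ∣ star y := by
      rw [ey]
      exact dvd_add (Dvd.dvd.mul_left (dvd_add R0 (hr.mul_right _)) _)
        (Dvd.dvd.mul_left (dvd_add R1 (hr.mul_right _)) _)
    apply hj
    have h1 := fxq_star hqx
    have h2 := fxq_star hqy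
    rw [star_star] at h1 h2
    exact ⟨h1, h2⟩
  have hm1 : (q : OK n) ∣ μ - d * star μ := (hqi.dvd_or_dvd hrho).resolve_left hrho0
  have hdu : IsUnit d := by rw [hd]; exact hss
  have hm2 : (q : OK n) ∣ μ * star μ + 1 := by
    have h1 : (q : OK n) ∣ d * (μ * star μ + 1) := by
      have e : d * (μ * star μ + 1) = (μ ^ 2 + d) - μ * (μ - d * star μ) := by ring
      rw [e]
      exact dvd_sub hmu2 (hm1.mul_left _)
    exact (hdu.dvd_mul_left).1 h1
  obtain ⟨v, hv, hdv⟩ := unit_sq d hdu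
  obtain ⟨v, rfl⟩ := hv
  have hvi : (v : OK n) * ((v⁻¹ : (OK n)ˣ) : OK n) = 1 := v.mul_inv
  have hvs : ((v⁻¹ : (OK n)ˣ) : OK n) * star ((v⁻¹ : (OK n)ˣ) : OK n) = 1 := by
    rw [mul_star_eq, nrm_isUnit.1 (v⁻¹).isUnit]
    push_cast
    rfl
  apply no_mu hq hq4 hqi (((v⁻¹ : (OK n)ˣ) : OK n) * μ)
  · rw [star_mul']
    have e : ((v⁻¹ : (OK n)ˣ) : OK n) * μ * (star ((v⁻¹ : (OK n)ˣ) : OK n) * star μ) + 1 =
        μ * star μ + 1 := by
      linear_combination (μ * star μ) * hvs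
    rw [e]
    exact hm2
  · rcases hdv with h1 | h1
    · right
      have e : (((v⁻¹ : (OK n)ˣ) : OK n) * μ) ^ 2 + 1 = ((v⁻¹ : (OK n)ˣ) : OK n) ^ 2 *
          (μ ^ 2 + d) := by
        rw [h1]
        linear_combination (-(1 + (v : OK n) * ((v⁻¹ : (OK n)ˣ) : OK n))) * hvi
      rw [e]
      exact hmu2.mul_left _
    · left
      have e : (((v⁻¹ : (OK n)ˣ) : OK n) * μ) ^ 2 - 1 = ((v⁻¹ : (OK n)ˣ) : OK n) ^ 2 *
          (μ ^ 2 + d) := by
        rw [h1]
        linear_combination (1 + (v : OK n) * ((v⁻¹ : (OK n)ˣ) : OK n)) * hvi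
      rw [e]
      exact hmu2.mul_left _

/-- `fix_sum` and `noq` -/
theorem fix_q {q : ℕ} (hq : q.Prime) (hq4 : q % 4 = 3) (hqi : Prime (q : OK n))
    (hc : q.Coprime M) {h : Herm n M} (hh : Ev h) {r : ℕ} {α : Fin r → Mat n}
    {k : Fin r → Herm n M} (N : Nbrs q h α k) (f : Herm n M → FF) (hf : HInv f) :
    ∑ i, f (k i) = 0 := by
  obtain ⟨s, hs, hs1, hs0⟩ := hh
  apply fix_sum hq.ne_zero hc hs hs1 hs0 N f hf
  intro i g hg
  exact absurd (noq hq hq4 hqi hs hs1 hs0 (N.det i) (N.tr i) hg) id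

end QTW
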