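import Pool.Agent.QTW.HDefs

/-!
# GeA: the kernel of the representation, orientation (size 4)
`V` is the space of hermitian matrices `ACT_hm v = [[v 0, v 2 + i v 3], [v 2 - i v 3, v 1]]`, `act M` is
`H ↦ M H M*` (`ACT_hm_act`), `cJ` is `H ↦ H̄ = Hᵀ`.
-/

open Matrix

namespace QTW

open SerreE SerreK SerreU

variable {n M : ℕ}

private theorem hm_one : ACT_hm ![1, 1, 0, 0] = 1 := by
  ext i j
  fin_cases i <;> fin_cases j <;> simp [ACT_hm]

private theorem hm_e0 : ACT_hm ![1, 0, 0, 0] = !![1, 0; 0, 0] := by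
  ext i j
  fin_cases i <;> fin_cases j <;> simp [ACT_hm]

private theorem hm_e2 : ACT_hm ![0, 0, 1, 0] = !![0, 1; 1, 0] := by
  ext i j
  fin_cases i <;> fin_cases j <;> simp [ACT_hm]

private theorem hm_e3 : ACT_hm ![0, 0, 0, 1] = !![0, Complex.I; -Complex.I, 0] := by
  ext i j
  fin_cases i <;> fin_cases j <;> simp [ACT_hm]

private theorem hm_e3' : ACT_hm ![0, 0, 0, -1] = !![0, -Complex.I; Complex.I, 0] := by
  ext i j
  fin_cases i <;> fin_cases j <;> simp [ACT_hm]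

/-- transfer to `C = B⁻¹ A` -/
private theorem key_C {A B : Matrix (Fin 2) (Fin 2) ℂ} (hB : B.det ≠ 0) {v w : V}
    (h : act A v = act B w) : (B⁻¹ * A) * ACT_hm v * (B⁻¹ * A)ᴴ = ACT_hm w := by
  have h1 : ACT_hm (act A v) = ACT_hm (act B w) := by rw [h]
  rw [ACT_hm_act, ACT_hm_act] at h1
  have hu : IsUnit B.det := isUnit_iff_ne_zero.2 hB
  have h2 : B⁻¹ * B = 1 := Matrix.nonsing_inv_mul B hu
  have h3 : Bᴴ * (B⁻¹)ᴴ = 1 := by
    rw [← Matrix.conjTranspose_mul, h2, Matrix.conjTranspose_one]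
  calc (B⁻¹ * A) * ACT_hm v * (B⁻¹ * A)ᴴ = B⁻¹ * (A * ACT_hm v * Aᴴ) * (B⁻¹)ᴴ := by
        rw [Matrix.conjTranspose_mul]
        simp only [Matrix.mul_assoc]
    _ = B⁻¹ * (B * ACT_hm w * Bᴴ) * (B⁻¹)ᴴ := by rw [h1]
    _ = (B⁻¹ * B) * ACT_hm w * (Bᴴ * (B⁻¹)ᴴ) := by simp only [Matrix.mul_assoc]
    _ = ACT_hm w := by rw [h2, h3, Matrix.one_mul, Matrix.mul_one]

private theorem comm_C {A B : Matrix (Fin 2) (Fin 2) ℂ} (hB : B.det ≠ 0)
    (h1 : act A ![1, 1, 0, 0] = act B ![1, 1, 0, 0]) {v w : V} (h : act A v = act B w) :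
    (B⁻¹ * A) * ACT_hm v = ACT_hm w * (B⁻¹ * A) := by
  have h2 := key_C hB h1
  rw [hm_one, Matrix.mul_one] at h2
  have h3 : (B⁻¹ * A)ᴴ * (B⁻¹ * A) = 1 := mul_eq_one_comm.1 h2
  have h4 := key_C hB h
  calc (B⁻¹ * A) * ACT_hm v = (B⁻¹ * A) * ACT_hm v * ((B⁻¹ * A)ᴴ * (B⁻¹ * A)) := by
        rw [h3, Matrix.mul_one]
    _ = ((B⁻¹ * A) * ACT_hm v * (B⁻¹ * A)ᴴ) * (B⁻¹ * A) := by simp only [Matrix.mul_assoc]
    _ = _ := by rw [h4]

private theorem scal_of {C : Matrix (Fin 2) (Fin 2) ℂ}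
    (h0 : C * ACT_hm ![1, 0, 0, 0] = ACT_hm ![1, 0, 0, 0] * C)
    (h2 : C * ACT_hm ![0, 0, 1, 0] = ACT_hm ![0, 0, 1, 0] * C) : C = C 0 0 • 1 := by
  rw [hm_e0] at h0
  rw [hm_e2] at h2
  have a1 := congrFun (congrFun h0 1) 0
  have a2 := congrFun (congrFun h0 0) 1
  have a3 := congrFun (congrFun h2 0) 1
  simp [Matrix.mul_apply, Fin.sum_univ_two] at a1 a2 a3
  ext i j
  fin_cases i <;> fin_cases j
  · simp
  · simp [← a2]
  · simp [a1]
  · simp [a3]

/-- Matrices over `ℂ` with non-zero determinant acting in the same way are proportional.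

Proof.  Use `ACT_0 .. ACT_3` on the basis vectors.  Let `e0 = ![1,0,0,0]`, `e1 = ![0,1,0,0]`,
`e2 = ![0,0,1,0]`, `e3 = ![0,0,0,1]`.  With `a, b` the columns of `A` and `a', b'` those of `B`, the
images of `e0`, `e1` are `a a*`, `b b*`, and those of `e2`, `e3` are `a b* + b a*`, `i (a b* - b a*)`.  So
`a a* = a' a'*`, `b b* = b' b'*`, `a b* = a' b'*`.  An entry of `A` is non-zero, say in the column `a`
(the other case is symmetric): `a_i ≠ 0`.  From `a a* = a' a'*`: `a = c a'` with `c = conj(a'_i)/conj(a_i)`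
(`a_j conj(a_i) = a'_j conj(a'_i)`), `|a_i| = |a'_i|`, so `|c| = 1`.  From `a b* = a' b'*`:
`a_i conj(b_j) = a'_i conj(b'_j)`, `a_i = c a'_i`, so `conj(b'_j) = c conj(b_j)`, `b_j = c b'_j`
(`|c| = 1`). -/
theorem ker_actC {A B : Matrix (Fin 2) (Fin 2) ℂ} (hA : A.det ≠ 0) (h : act A = act B) :
    ∃ c : ℂ, Complex.normSq c = 1 ∧ A = c • B := by
  have hB : B.det ≠ 0 := by
    intro h0
    have h1 := ACT_detM A ![1, 1, 0, 0]
    rw [h, ACT_detM, h0] at h1
    simp [ACT_det] at h1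
    exact hA (Complex.normSq_eq_zero.1 h1.symm)
  have hu : IsUnit B.det := isUnit_iff_ne_zero.2 hB
  have e1 : act A ![1, 1, 0, 0] = act B ![1, 1, 0, 0] := by rw [h]
  have hs : B⁻¹ * A = (B⁻¹ * A) 0 0 • 1 :=
    scal_of (comm_C hB e1 (by rw [h])) (comm_C hB e1 (by rw [h]))
  have hk := key_C hB e1
  rw [hm_one, Matrix.mul_one, hs] at hk
  refine ⟨(B⁻¹ * A) 0 0, ?_, ?_⟩
  · have h2 := congrFun (congrFun hk 0) 0
    simp [Matrix.mul_apply, Fin.sum_univ_two] at h2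
    have h3 : (((B⁻¹ * A) 0 0 : ℂ)) * (starRingEnd ℂ) ((B⁻¹ * A) 0 0) = 1 := by
      rw [Matrix.mul_apply, Fin.sum_univ_two]
      simpa [mul_comm] using h2
    rw [Complex.mul_conj] at h3
    exact_mod_cast h3
  · calc A = B * (B⁻¹ * A) := by rw [← Matrix.mul_assoc, Matrix.mul_nonsing_inv B hu, Matrix.one_mul]
      _ = B * ((B⁻¹ * A) 0 0 • 1) := by rw [← hs]
      _ = _ := by rw [Matrix.mul_smul, Matrix.mul_one]

/-- Proof.  By `ker_actC` (`sig n` is injective: `sig_imQ`), `A i j = c B i j` in `ℂ` (write `A i j` for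
`sig (A i j)`).  Then `A = B * (adj(B) * A) / det B` and `adj(B) A = c det B • 1` in `ℂ`; put
`u = (adj(B) A) 0 0 * (det B)⁻¹ ∈ O`, `sig u = c`; so `A = u • B` (injectivity of `sig`); `det A = u² det B`
shows that `u` is a unit. -/
theorem ker_act {A B : Mat n} (hA : IsUnit A.det) (hB : IsUnit B.det)
    (h : act (cm A) = act (cm B)) : ∃ u : OK n, IsUnit u ∧ A = u • B := by
  have hdet : ∀ C : Mat n, (cm C).det = sig n C.det := by
    intro C
    simp [cm, Matrix.det_fin_two]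
  have hinj := (sig_imQ n).inj
  have hA0 : (cm A).det ≠ 0 := by
    rw [hdet]
    intro h0
    exact hA.ne_zero (hinj (by rw [h0, map_zero]))
  obtain ⟨c, hc, hAB⟩ := ker_actC hA0 h
  have hij : ∀ i j, sig n (A i j) = c * sig n (B i j) := by
    intro i j
    have := congrFun (congrFun hAB i) j
    simpa [cm] using this
  obtain ⟨b, hb⟩ := hB
  have hbd : (B.det) * ((b⁻¹ : (OK n)ˣ) : OK n) = 1 := by rw [← hb]; exact b.mul_inv
  set u : OK n := (B 1 1 * A 0 0 - B 0 1 * A 1 0) * ((b⁻¹ : (OK n)ˣ) : OK n) with hu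
  have hsu : sig n u = c := by
    rw [hu, map_mul, map_sub, map_mul, map_mul, hij, hij]
    have h1 : sig n (B.det) * sig n ((b⁻¹ : (OK n)ˣ) : OK n) = 1 := by rw [← map_mul, hbd, map_one]
    rw [Matrix.det_fin_two, map_sub, map_mul, map_mul] at h1
    linear_combination c * h1
  have hAu : A = u • B := by
    ext1 i j
    apply hinj
    rw [hij, Matrix.smul_apply, smul_eq_mul, map_mul, hsu]
  refine ⟨u, ?_, hAu⟩
  have h2 : A.det = u ^ 2 * B.det := by
    rw [hAu, Matrix.det_smul]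
    simp
  rw [h2] at hA
  have h3 := isUnit_of_mul_isUnit_left hA
  exact (isUnit_pow_iff two_ne_zero).1 h3

/-- The converse: `sig u` has absolute value one (`unit_abs`, MM.lean); `act_scalar`, ACT.lean. -/
theorem act_smul {A : Mat n} {u : OK n} (hu : IsUnit u) : act (cm (u • A)) = act (cm A) := by
  have h : cm (u • A) = sig n u • cm A := by
    ext i j
    simp [cm]
  obtain ⟨v, rfl⟩ := hu
  rw [h, act_scalar _ (unit_abs (sig_imQ n) v)]

/-- Orientation: `act A = act B ∘ cJ` is impossible.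

Proof.  With `a, b` the columns of `A` and `a', b'` those of `B`: the images of `e0, e1, e2, e3` (see
`ker_actC`) give `a a* = a' a'*`, `b b* = b' b'*`, `a b* + b a* = a' b'* + b' a'*`,
`i (a b* - b a*) = - i (a' b'* - b' a'*)`, so `a b* = b' a'*`.  Hence `a_i conj(b_j) = b'_i conj(a'_j)`
for all `i, j`: the left hand side has rank one with column space `a`, the right hand side with column
space `b'`: so `a` is proportional to `b'` if `b ≠ 0`; and `a` is proportional to `a'` from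
`a a* = a' a'*`.  As `a ≠ 0`, `b ≠ 0` (`det A ≠ 0`), `a'` and `b'` are proportional: `det B = 0`. -/
theorem or_act {A B : Matrix (Fin 2) (Fin 2) ℂ} (hA : A.det ≠ 0) (hB : B.det ≠ 0) :
    act A ≠ act B * cJ := by
  intro h
  have hv : ∀ v, act A v = act B (cJ v) := fun v => by rw [h]; rfl
  have c1 : cJ (![1, 1, 0, 0] : V) = ![1, 1, 0, 0] := by
    apply ext4' <;> simp [cJ]
  have c0 : cJ (![1, 0, 0, 0] : V) = ![1, 0, 0, 0] := by
    apply ext4' <;> simp [cJ]
  have c2 : cJ (![0, 0, 1, 0] : V) = ![0, 0, 1, 0] := by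
    apply ext4' <;> simp [cJ]
  have c3 : cJ (![0, 0, 0, 1] : V) = ![0, 0, 0, -1] := by
    apply ext4' <;> simp [cJ]
  have e1 : act A ![1, 1, 0, 0] = act B ![1, 1, 0, 0] := by rw [hv, c1]
  have hs : B⁻¹ * A = (B⁻¹ * A) 0 0 • 1 :=
    scal_of (comm_C hB e1 (by rw [hv, c0])) (comm_C hB e1 (by rw [hv, c2]))
  have h3 := comm_C hB e1 (v := ![0, 0, 0, 1]) (w := ![0, 0, 0, -1]) (by rw [hv, c3])
  rw [hm_e3, hm_e3', hs] at h3
  have h4 := congrFun (congrFun h3 0) 1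
  simp only [Matrix.smul_mul, Matrix.mul_smul, Matrix.one_mul, Matrix.mul_one, Matrix.smul_apply,
    Matrix.of_apply, Matrix.cons_val', Matrix.cons_val_zero, Matrix.cons_val_one,
    Matrix.cons_val_fin_one, smul_eq_mul] at h4
  have hc : (B⁻¹ * A) 0 0 = 0 := by
    have h5 : (2 * Complex.I) * (B⁻¹ * A) 0 0 = 0 := by linear_combination h4
    have h6 : (2 * Complex.I) ≠ 0 := by simp
    exact (mul_eq_zero.1 h5).resolve_left h6
  have hk := key_C hB e1
  rw [hm_one, Matrix.mul_one, hs, hc] at hk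
  have h7 := congrFun (congrFun hk 0) 0
  simp at h7

end QTW
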