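import Pool.Agent.QTW.GeA
import Pool.Agent.SerreK.AXIS1

/-!
# GeB: the group `GG n M` (size 4)
`rr_mk : rr (mkG s) = rep s`, `mkG_surj`, `mkG_eq : mkG s = mkG t ↔ rep s = rep t`, `rep_false`,
`rep_true` (Base.lean).
-/

open Matrix

namespace QTW

open SerreE SerreK SerreU

variable {n M : ℕ}

private theorem s_inj : Function.Injective
    (fun s : SS n M => ((fun i j => s.g.val.val i j : Fin 2 → Fin 2 → OK n), s.e)) := by
  intro s t h
  have h1 := (Prod.mk.inj h).1
  have h2 := (Prod.mk.inj h).2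
  apply SS.ext
  · apply Subtype.ext
    apply Units.ext
    ext1 i j
    exact congrFun (congrFun h1 i) j
  · exact h2

/-- `SS n M` is countable (`OK n` is countable: `countable_of_imQ`, MM.lean), `mkG` is surjective. -/
instance gg_countable : Countable (GG n M) := by
  haveI : Countable (OK n) := countable_of_imQ (sig_imQ n)
  haveI : Countable (SS n M) := s_inj.countable
  exact (mkG_surj (n := n) (M := M)).countable

private theorem cm_det (C : Mat n) : (cm C).det = sig n C.det := by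
  simp [cm, Matrix.det_fin_two]

private theorem det_unit (g : G0 n M) : IsUnit g.val.val.det := Matrix.isUnits_det_units g.val

private theorem det_abs (g : G0 n M) : Complex.normSq (cm g.val.val).det = 1 := by
  rw [cm_det]
  obtain ⟨u, hu⟩ := det_unit g
  rw [← hu]
  exact unit_abs (sig_imQ n) u

private theorem det_ne (g : G0 n M) : (cm g.val.val).det ≠ 0 := by
  intro h
  have h1 := det_abs g
  rw [h, map_zero] at h1
  exact zero_ne_one h1

private theorem cJ_inC {v : V} (hv : InC v) : InC (cJ v) := by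
  have c0 : cJ v 0 = v 0 := rfl
  have c1 : cJ v 1 = v 1 := rfl
  have c2 : cJ v 2 = v 2 := rfl
  have c3 : cJ v 3 = -v 3 := rfl
  unfold InC
  rw [c0, c1, c2, c3, neg_sq]
  exact hv

/-- `act_inC` (ACT.lean; `det (cm g) = sig (det g) ≠ 0`), and `cJ` preserves `InC`. -/
theorem rr_inC (g : GG n M) (v : V) (hv : InC v) : InC (rr n M g v) := by
  obtain ⟨⟨γ, e⟩, rfl⟩ := mkG_surj g
  rw [rr_mk]
  cases e
  · rw [rep_false]
    exact act_inC _ (det_ne γ) v hv
  · rw [rep_true]
    exact act_inC _ (det_ne γ) _ (cJ_inC hv)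

/-- Proof.  As `rho_proper` (MM.lean).  Let `g = mkG s`, `s = ⟨γ, e⟩`.  `Hit (rr g a) (rr g b) (rr g c) p q`
is `Hit (act (cm γ) a') ..` with `a' = a` or `a' = cJ a` (`InC`).  By `act_proper` the entries of `cm γ`
are bounded (`normSq (det (cm γ)) = 1` by `unit_abs`), so `γ` is in a finite set (`(sig_imQ n).fin`),
`s` is in a finite set, and so is `g`. -/
theorem rr_proper : Proper (rr n M) := by
  intro a b c p q ha hb hc hp hq
  obtain ⟨K1, hK1⟩ := act_proper a b c p q ha hb hc hp hq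
  obtain ⟨K2, hK2⟩ := act_proper (cJ a) (cJ b) (cJ c) p q (cJ_inC ha) (cJ_inC hb) (cJ_inC hc) hp hq
  set K := max K1 K2 with hK
  have hfin : {m : Fin 2 → Fin 2 → OK n | ∀ i j, m i j ∈ {x : OK n | Complex.normSq (sig n x) ≤ K}}.Finite := by
    have h1 : {r : Fin 2 → OK n | ∀ j, r j ∈ {x : OK n | Complex.normSq (sig n x) ≤ K}}.Finite :=
      Set.Finite.pi' (fun _ => (sig_imQ n).fin K)
    exact Set.Finite.pi' (fun _ => h1)
  have hfin2 : ({m : Fin 2 → Fin 2 → OK n | ∀ i j, m i j ∈ {x : OK n | Complex.normSq (sig n x) ≤ K}} ×ˢ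
      (Set.univ : Set Bool)).Finite := hfin.prod Set.finite_univ
  have hfin3 := Set.Finite.preimage (s_inj (n := n) (M := M)).injOn hfin2
  refine (hfin3.image (mkG n M)).subset ?_
  intro g hg
  obtain ⟨⟨γ, e⟩, rfl⟩ := mkG_surj g
  refine ⟨⟨γ, e⟩, ?_, rfl⟩
  refine Set.mk_mem_prod ?_ (Set.mem_univ _)
  intro i j
  have hcm : sig n (γ.val.val i j) = cm γ.val.val i j := rfl
  change Complex.normSq (sig n (γ.val.val i j)) ≤ K
  rw [hcm]
  change Hit (rr n M (mkG n M ⟨γ, e⟩) a) (rr n M (mkG n M ⟨γ, e⟩) b) (rr n M (mkG n M ⟨γ, e⟩) c) p q at hg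
  rw [rr_mk] at hg
  cases e
  · rw [rep_false, rep_false, rep_false] at hg
    exact (hK1 _ (det_abs γ) hg i j).trans (le_max_left _ _)
  · rw [rep_true, rep_true, rep_true] at hg
    exact (hK2 _ (det_abs γ) hg i j).trans (le_max_right _ _)

private theorem rep_false' (g : G0 n M) : rep n M ⟨g, false⟩ = act (cm g.val.val) := rfl

private theorem rep_true' (g : G0 n M) : rep n M ⟨g, true⟩ = act (cm g.val.val) * cJ := rfl

/-- `mkG ⟨g, false⟩ = mkG ⟨g', false⟩` iff `g, g'` differ by a unit scalar (`mkG_eq`, `ker_act`,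
`act_smul`); likewise for `true` (`cJ` is invertible: `cJ_cJ`). -/
theorem mkG_eq_iff (g g' : G0 n M) (e : Bool) :
    mkG n M ⟨g, e⟩ = mkG n M ⟨g', e⟩ ↔ ∃ u : OK n, IsUnit u ∧ g.val.val = u • g'.val.val := by
  have key : act (cm g.val.val) = act (cm g'.val.val) ↔
      ∃ u : OK n, IsUnit u ∧ g.val.val = u • g'.val.val := by
    constructor
    · exact ker_act (det_unit g) (det_unit g')
    · rintro ⟨u, hu, h⟩
      rw [h, act_smul hu]
  rw [mkG_eq, ← key]
  cases e
  · rw [rep_false', rep_false']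
  · rw [rep_true', rep_true']
    constructor
    · intro h
      have h1 : act (cm g.val.val) * cJ * cJ = act (cm g'.val.val) * cJ * cJ := by rw [h]
      rwa [mul_assoc, mul_assoc, cJ_cJ, mul_one, mul_one] at h1
    · intro h
      rw [h]

/-- `or_act` -/
theorem mkG_ne (g g' : G0 n M) : mkG n M ⟨g, false⟩ ≠ mkG n M ⟨g', true⟩ := by
  intro h
  rw [mkG_eq, rep_false', rep_true'] at h
  exact or_act (det_ne g) (det_ne g') h

/-- `posG (mkG ⟨g, e⟩) ↔ e = false` by `mkG_ne`; then case analysis (`mkG_surj`, `map_mul`,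
`SS.mul_e`). -/
theorem posG_iff (s : SS n M) : posG (mkG n M s) ↔ s.e = false := by
  obtain ⟨g, e⟩ := s
  constructor
  · rintro ⟨g', h⟩
    cases e
    · rfl
    · exact absurd h.symm (mkG_ne g' g)
  · intro h
    change e = false at h
    subst h
    exact ⟨g, rfl⟩

theorem posG_mul (g h : GG n M) : posG (g * h) ↔ (posG g ↔ posG h) := by
  obtain ⟨s, rfl⟩ := mkG_surj g
  obtain ⟨t, rfl⟩ := mkG_surj h
  rw [← map_mul, posG_iff, posG_iff, posG_iff, SS.mul_e]
  cases s.e <;> cases t.e <;> simp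

/-- a homomorphism on `GG` gives one on `SS` trivial on unit scalars (`mkG ⟨u • 1, false⟩ = 1`; `u` is a
unit because `det g = u²` is). -/
theorem isXi_of_hom (b : GG n M → FF) (hb : ∀ g h, b (g * h) = b g + b h) :
    IsXi (fun s : SS n M => b (mkG n M s)) := by
  refine ⟨fun s t => by rw [map_mul, hb], fun g u hg => ?_⟩
  have hu : IsUnit u := by
    have h1 := det_unit g
    rw [hg, Matrix.det_smul, Matrix.det_one, mul_one, Fintype.card_fin] at h1
    exact (isUnit_pow_iff two_ne_zero).1 h1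
  have h1 : mkG n M ⟨g, false⟩ = mkG n M ⟨1, false⟩ := (mkG_eq_iff g 1 false).2 ⟨u, hu, hg⟩
  have h2 : mkG n M ⟨1, false⟩ = 1 := map_one (mkG n M)
  have h3 := hb 1 1
  rw [mul_one] at h3
  rw [h1, h2]
  exact left_eq_add.1 h3

end QTW
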