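import Pool.Agent.QTW.HsB
import Pool.Agent.QTW.HsF
import Pool.Agent.QTW.Ari

/-!
# HpA: the Hecke systems of a rational prime and of `√-d` (size 4)
-/

open Matrix

namespace QTW

open SerreE SerreK SerreU

variable {n M : ℕ}

private theorem hpa_opv {m m' : OK n} (hA : Associated m m') {X : Type} [Fintype X]
    (S : HSys (M : OK n) m' X) {h h' : G0 n M → FF}
    (H : ∀ S' : HSys (M : OK n) m X, Opv S' h h') : Opv S h h' := by
  obtain ⟨S', hS'⟩ := hsys_assoc hA.symm S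
  intro γ y c hc
  refine H S' γ y c fun x => ?_
  rw [hS', hS']
  exact hc x

private theorem hpa_hexp [IsPrincipalIdealRing (OK n)] {π : OK n} (hπ : Prime π)
    (hM : ¬ π ∣ (M : OK n)) :
    ∃ (X : Type) (_ : Fintype X) (_ : HSys (M : OK n) π X),
      Fintype.card X = Nat.card (OK n ⧸ Ideal.span {π}) + 1 := by
  obtain ⟨S⟩ := hexp (M : OK n) π hπ hM
  haveI : Finite (OK n ⧸ Ideal.span {π}) := FinQuot.fin π hπ.ne_zero
  haveI : Fintype (OK n ⧸ Ideal.span {π}) := Fintype.ofFinite _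
  refine ⟨Option (OK n ⧸ Ideal.span {π}), inferInstance, S, ?_⟩
  rw [Fintype.card_option, Nat.card_eq_fintype_card]

/-- Proof.  `ari_cases`.  (a) `p` is prime in `OK n`: `hexp` for `π = p`, `X = Option (O/p)`; its
cardinality is `Nat.card (O/p) + 1`, even by `odd_quot` (`¬ p ∣ 2`: `ari_dvd` with `m = 2`).  The first
property is void (`π π' ~ p` prime, `π, π'` not units), the second is `opv_T` (with `hsys_assoc`; `Opv` only
involves the matrices `D`).  (b) `p = π π̄`: `hexp` for `π` and `π̄`, `hprod` (`ari_na`, `ari_dvd`),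
`X = Option (O/π) × Option (O/π̄)`; the first property is `opv_TT` (with `hsys_assoc`, for the system of type
`π₁ π₁' ~ p`), the second is void (`π ~ p` would make `p` prime). -/
theorem hps [IsPrincipalIdealRing (OK n)] {p : ℕ} (hp : p.Prime)
    (hp2 : ¬ p ∣ 2 * (4 * n + 3) * M) :
    ∃ (X : Type) (_ : Fintype X) (S : HSys (M : OK n) (p : OK n) X), Even (Fintype.card X) ∧
      (∀ π π' : GP (M : OK n), ¬ Associated π.el π'.el → Associated (π.el * π'.el) (p : OK n) →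
        ∀ h : HY (M : OK n),
          Opv S h.val (T (M : OK n) π.el π.ne (T (M : OK n) π'.el π'.ne h)).val) ∧
      (∀ π : GP (M : OK n), Associated π.el (p : OK n) →
        ∀ h : HY (M : OK n), Opv S h.val (T (M : OK n) π.el π.ne h).val) := by
  have hpM : ¬ p ∣ M := fun h => hp2 (h.mul_left _)
  have hpd : ¬ p ∣ 2 * (4 * n + 3) := fun h => hp2 (h.mul_right _)
  have hp22 : ¬ p ∣ 2 := fun h => hpd (h.mul_right _)
  have hcast : ((2 : ℕ) : OK n) = 2 := by norm_num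
  rcases ari_cases n hp with hP | ⟨ρ, hρ, hnρ, hρρ⟩
  · have h2 : ¬ (p : OK n) ∣ 2 := by
      rw [← hcast]
      exact ari_dvd hp hp22 hP dvd_rfl
    obtain ⟨X, iX, S, hX⟩ := hpa_hexp hP (ari_dvd hp hpM hP dvd_rfl)
    refine ⟨X, iX, S, ?_, fun π π' _ hA h => ?_, fun π hA h => ?_⟩
    · rw [hX]
      exact (odd_quot (p : OK n) hP h2).add_one
    · exfalso
      have hI : Irreducible (π.el * π'.el) := hA.symm.irreducible hP.irreducible
      rcases hI.isUnit_or_isUnit rfl with h1 | h1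
      · exact π.prime.not_isUnit h1
      · exact π'.prime.not_isUnit h1
    · exact hpa_opv hA S (fun S' => opv_T π S' h)
  · have hsρ : Prime (star ρ) := ari_prime hp (by rw [nrm_star, hnρ])
    have hd1 : ρ ∣ (p : OK n) := ⟨star ρ, hρρ.symm⟩
    have hd2 : star ρ ∣ (p : OK n) := ⟨ρ, by rw [mul_comm, hρρ]⟩
    have h2 : ¬ ρ ∣ 2 := by
      rw [← hcast]
      exact ari_dvd hp hp22 hρ hd1
    obtain ⟨X, iX, S, hX⟩ := hpa_hexp hρ (ari_dvd hp hpM hρ hd1)
    obtain ⟨Y, iY, S', hY⟩ := hpa_hexp hsρ (ari_dvd hp hpM hsρ hd2)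
    obtain ⟨P, hP⟩ := hprod hρ hsρ (ari_na hp hpd hnρ) (ari_dvd hp hpM hρ hd1) S S'
    obtain ⟨P', hP'⟩ := hsys_assoc (Associated.of_eq hρρ) P
    refine ⟨X × Y, inferInstance, P', ?_, fun π π' hna hA h => ?_, fun π hA h => ?_⟩
    · rw [Fintype.card_prod, hX]
      exact (odd_quot ρ hρ h2).add_one.mul_right _
    · exact hpa_opv hA P' (fun S'' => opv_TT π π' hna S'' h)
    · exfalso
      have hI : Irreducible (ρ * star ρ) := by
        rw [hρρ]
        exact hA.irreducible π.prime.irreducible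
      rcases hI.isUnit_or_isUnit rfl with h1 | h1
      · exact hρ.not_isUnit h1
      · exact hsρ.not_isUnit h1

/-- `λ = √-d = ⟨-1, 2⟩`: `hexp` for `λ`, with `opv_T` and `ari_lam`. -/
theorem hls [IsPrincipalIdealRing (OK n)] (hd : (4 * n + 3).Prime)
    (hM : M.Coprime (2 * (4 * n + 3))) :
    ∃ (X : Type) (_ : Fintype X) (S : HSys (M : OK n) (⟨-1, 2⟩ : OK n) X),
      (∀ π : GP (M : OK n), nrm π.el = 4 * n + 3 →
        ∀ h : HY (M : OK n), Opv S h.val (T (M : OK n) π.el π.ne h).val) := by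
  have hn : nrm (⟨-1, 2⟩ : OK n) = ((4 * n + 3 : ℕ) : ℤ) := by
    simp only [nrm]
    push_cast
    ring
  have hL : Prime (⟨-1, 2⟩ : OK n) := ari_prime hd hn
  have hdv : (⟨-1, 2⟩ : OK n) ∣ ((4 * n + 3 : ℕ) : OK n) := by
    refine ⟨star (⟨-1, 2⟩ : OK n), ?_⟩
    rw [mul_star_eq, hn]
    push_cast
    rfl
  have hdM : ¬ (4 * n + 3) ∣ M := by
    intro h
    have h1 : (4 * n + 3) ∣ M.gcd (2 * (4 * n + 3)) := Nat.dvd_gcd h (Nat.dvd_mul_left _ _)
    rw [hM] at h1
    exact hd.one_lt.ne' (Nat.dvd_one.1 h1)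
  obtain ⟨X, iX, S, _⟩ := hpa_hexp hL (ari_dvd hd hdM hL hdv)
  refine ⟨X, iX, S, fun π hπ h => ?_⟩
  exact hpa_opv (ari_lam hd hπ) S (fun S' => opv_T π S' h)

end QTW
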