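import Pool.Agent.QTW.HDefs

/-!
# HsA: the library Hecke system (size 4)
`uhD N π x = (KP.fexT N π x).val.val * PM π`, `PM π = diag(π, 1)` (UHEC.lean).
-/

open Matrix

namespace QTW

open SerreE SerreK SerreU

/-- Proof.  `mem`: `det (uhD) = unit * π`, lower left entry `t₁₀ π`.
`cover`: let `β` have `det β` associated to `π`, `N ∣ β₁₀`.  Let `v = (p, q)` be a column of `β` which
is not divisible by `π` (if both are, `π² ∣ det β`, impossible); both columns `(β 0 j, β 1 j)` satisfy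
`π ∣ p β 1 j - q β 0 j` (as `π ∣ det β`).  `uhec_cover N π hπ hN p q` gives `τ ∈ Γ₀(N)` with
`π ∣ r p + s q`, `(r, s)` the first row of `τ⁻¹`.  Then `π ∣ p (r β 0 j + s β 1 j)` and
`π ∣ q (r β 0 j + s β 1 j)`, so `π` divides the first row of `τ⁻¹ β`: `τ⁻¹ β = PM π * β'`, i.e.
`β = τ PM π β'`.  Let `x = QuotientGroup.mk τ`, `t = KP.fexT N π x`, `K = t⁻¹ τ`; `π ∣ K 0 1` by
`KP.fexT_mk`, `K PM π = PM π K'` by `uhec_conj`, so `β = t K PM π β' = uhD N π x * (K' β')`.
`γ = K' β'` is in `Γ₀(N)`: `det γ` is a unit (compare determinants, `π ≠ 0`), and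
`N ∣ β₁₀ = D₁₀ γ₀₀ + D₁₁ γ₁₀`, `N ∣ D₁₀`, and `D₁₁ = t₁₁` is prime to `N` since
`t₀₀ t₁₁ ≡ det t` modulo `N`.
`sep`: `uhec_step_unique` with `c = c' = 1`, `M = γ`, `M' = 1` (`det γ` is a unit). -/
theorem hlib {O : Type} [CommRing O] [IsDomain O] [IsPrincipalIdealRing O] (N π : O)
    (hπ : Prime π) (hN : ¬ π ∣ N) :
    ∃ S : HSys N π (UHX N π), ∀ x, S.D x = uhD N π x := by
  have hmem : ∀ x, TD N π (uhD N π x) := by
    intro x
    refine ⟨?_, ?_⟩
    · rw [uhec_D_det]
      obtain ⟨u, hu⟩ := uhec_GL_det (KP.fexT N π x).val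
      exact ⟨u⁻¹, by rw [← hu, mul_assoc, mul_comm π, ← mul_assoc, Units.mul_inv, one_mul]⟩
    · have e : uhD N π x 1 0 = (KP.fexT N π x).val.val 1 0 * π := by
        simp [uhD, PM, Matrix.mul_apply, Fin.sum_univ_two]
      rw [e]
      exact Dvd.dvd.mul_right (KP.fexT N π x).2 _
  refine ⟨⟨uhD N π, hmem, fun β hβ => ?_, fun x y γ h => ?_⟩, fun x => rfl⟩
  · obtain ⟨hd, hl⟩ := hβ
    have hdd : π ∣ β 0 0 * β 1 1 - β 0 1 * β 1 0 := by
      rw [← Matrix.det_fin_two]
      exact hd.symm.dvd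
    -- a column which is not divisible by `π`
    obtain ⟨p, q, hpq, hcol⟩ : ∃ p q : O, (¬ π ∣ p ∨ ¬ π ∣ q) ∧
        ∀ j, π ∣ p * β 1 j - q * β 0 j := by
      by_cases h1 : π ∣ β 0 1 ∧ π ∣ β 1 1
      · by_cases h0 : π ∣ β 0 0 ∧ π ∣ β 1 0
        · exfalso
          obtain ⟨⟨a, ha⟩, ⟨b, hb⟩⟩ := h0
          obtain ⟨⟨c, hc⟩, ⟨e, he⟩⟩ := h1
          obtain ⟨u, hu⟩ := hd
          have h2 : π * (π * ((a * e - c * b) * u)) = π * 1 := by
            rw [mul_one]
            nth_rewrite 3 [← hu]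
            rw [Matrix.det_fin_two, ha, hb, hc, he]
            ring
          have h3 := mul_left_cancel₀ hπ.ne_zero h2
          exact hπ.not_isUnit (IsUnit.of_mul_eq_one _ h3)
        · refine ⟨β 0 0, β 1 0, ?_, ?_⟩
          · by_contra hcon
            push Not at hcon
            exact h0 hcon
          · intro j
            fin_cases j
            · exact ⟨0, by simp; ring⟩
            · obtain ⟨c, hc⟩ := hdd
              exact ⟨c, by simp; linear_combination hc⟩
      · refine ⟨β 0 1, β 1 1, ?_, ?_⟩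
        · by_contra hcon
          push Not at hcon
          exact h1 hcon
        · intro j
          fin_cases j
          · obtain ⟨c, hc⟩ := hdd
            exact ⟨-c, by simp; linear_combination -hc⟩
          · exact ⟨0, by simp; ring⟩
    obtain ⟨τ, hτ⟩ := uhec_cover N π hπ hN p q
    set r := ((τ.val)⁻¹).val 0 0 with hr
    set s := ((τ.val)⁻¹).val 0 1 with hs
    have hrow : ∀ j, π ∣ (((τ.val)⁻¹).val * β) 0 j := by
      intro j
      have e : (((τ.val)⁻¹).val * β) 0 j = r * β 0 j + s * β 1 j := by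
        rw [Matrix.mul_apply, Fin.sum_univ_two]
      rw [e]
      obtain ⟨c, hc⟩ := hτ
      obtain ⟨f, hf⟩ := hcol j
      have h1 : π ∣ p * (r * β 0 j + s * β 1 j) := ⟨c * β 0 j + s * f, by
        linear_combination (β 0 j) * hc + s * hf⟩
      have h2 : π ∣ q * (r * β 0 j + s * β 1 j) := ⟨c * β 1 j - r * f, by
        linear_combination (β 1 j) * hc - r * hf⟩
      rcases hpq with h3 | h3
      · exact (hπ.dvd_or_dvd h1).resolve_left h3
      · exact (hπ.dvd_or_dvd h2).resolve_left h3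
    obtain ⟨a, ha⟩ := hrow 0
    obtain ⟨b, hb⟩ := hrow 1
    set L := ((τ.val)⁻¹).val * β with hL
    have hfac : L = PM π * !![a, b; L 1 0, L 1 1] := by
      ext i j
      fin_cases i <;> fin_cases j <;> simp [PM, Matrix.mul_apply, Fin.sum_univ_two, ha, hb]
    set t := KP.fexT N π (QuotientGroup.mk τ) with ht
    have h1 : π ∣ (((t.val)⁻¹).val * τ.val.val) 0 1 := KP.fexT_mk N π τ
    obtain ⟨k, hk⟩ := h1
    set K := ((t.val)⁻¹).val * τ.val.val with hK
    have hconj := uhec_conj π K k hk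
    set β'' : Matrix (Fin 2) (Fin 2) O := !![a, b; L 1 0, L 1 1] with hβ''
    set γ : Matrix (Fin 2) (Fin 2) O := !![K 0 0, k; π * K 1 0, K 1 1] * β'' with hγ
    have hβγ : β = uhD N π (QuotientGroup.mk τ) * γ := by
      have e1 : β = τ.val.val * L := by
        rw [hL, ← mul_assoc, uhec_mul_inv, one_mul]
      have e2 : τ.val.val = t.val.val * K := by
        rw [hK, ← mul_assoc, uhec_mul_inv, one_mul]
      rw [e1, hfac, e2, hγ, uhD, ← ht]
      simp only [mul_assoc]
      rw [← mul_assoc K, hconj]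
      simp only [mul_assoc]
    refine ⟨QuotientGroup.mk τ, γ, ⟨?_, ?_⟩, hβγ⟩
    · -- the determinant
      have h2 : β.det = (uhD N π (QuotientGroup.mk τ)).det * γ.det := by
        rw [← Matrix.det_mul, ← hβγ]
      obtain ⟨u, hu⟩ := hd
      obtain ⟨v, hv⟩ := (hmem (QuotientGroup.mk τ)).1
      have hD0 : (uhD N π (QuotientGroup.mk τ)).det ≠ 0 := uhec_D_ne hπ _
      have h3 : (uhD N π (QuotientGroup.mk τ)).det * (γ.det * u) =
          (uhD N π (QuotientGroup.mk τ)).det * v := by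
        rw [← mul_assoc, ← h2, hu, hv]
      have h4 := mul_left_cancel₀ hD0 h3
      exact isUnit_of_mul_isUnit_left (h4 ▸ v.isUnit)
    · have e10 := congrFun (congrFun hβγ 1) 0
      rw [Matrix.mul_apply, Fin.sum_univ_two] at e10
      set D := uhD N π (QuotientGroup.mk τ) with hD
      have hD10 : N ∣ D 1 0 := (hmem (QuotientGroup.mk τ)).2
      have hD11 : D 1 1 = t.val.val 1 1 := by
        rw [hD, uhD, ← ht]
        simp [PM, Matrix.mul_apply, Fin.sum_univ_two]
      have h2 : N ∣ D 1 1 * γ 1 0 := by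
        have h3 : N ∣ D 1 0 * γ 0 0 + D 1 1 * γ 1 0 := e10 ▸ hl
        exact (dvd_add_right (Dvd.dvd.mul_right hD10 _)).1 h3
      rw [hD11] at h2
      have h5 : N ∣ (t.val.val 0 0 * t.val.val 1 1) * γ 1 0 := by
        rw [mul_assoc]
        exact Dvd.dvd.mul_left h2 _
      have h6 : t.val.val 0 0 * t.val.val 1 1 = t.val.val.det +
          t.val.val 0 1 * t.val.val 1 0 := by
        rw [Matrix.det_fin_two]; ring
      rw [h6, add_mul] at h5
      have h7 : N ∣ t.val.val 0 1 * t.val.val 1 0 * γ 1 0 :=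
        Dvd.dvd.mul_right (Dvd.dvd.mul_left t.2 _) _
      have h8 := (dvd_add_left h7).1 h5
      exact (IsUnit.dvd_mul_left (uhec_GL_det t.val)).1 h8
  · have h2 : (uhD N π y).det = (uhD N π x).det * γ.det := by
      rw [← Matrix.det_mul, ← h]
    have hu : IsUnit γ.det := by
      obtain ⟨u, hu⟩ := (hmem y).1
      obtain ⟨v, hv⟩ := (hmem x).1
      have h3 : (uhD N π x).det * (γ.det * u) = (uhD N π x).det * v := by
        rw [← mul_assoc, ← h2, hu, hv]
      have h4 := mul_left_cancel₀ (uhec_D_ne hπ x) h3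
      exact isUnit_of_mul_isUnit_left (h4 ▸ v.isUnit)
    refine uhec_step_unique hπ (M := γ) (M' := 1) (c := 1) (c' := 1) one_ne_zero ?_ ?_ ?_
    · intro hd
      exact hπ.not_isUnit (isUnit_of_dvd_unit hd hu)
    · rw [Matrix.det_one]
      intro hd
      exact hπ.not_isUnit (isUnit_of_dvd_one hd)
    · rw [one_smul, one_smul, mul_one, h]

/-- `Γ₀(N) / (Γ₀(N) ∩ Γ⁰(π))` is finite (`KP.heckeSub_finiteIndex`). -/
theorem uhx_finite {O : Type} [CommRing O] [IsDomain O] [FinQuot O] (N π : O) (hπ : π ≠ 0) :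
    Finite (UHX N π) := by
  have hfi := KP.heckeSub_finiteIndex N π hπ
  exact Subgroup.finite_quotient_of_finiteIndex

/-- the same system for an associated element: the same matrices `D`. -/
theorem hsys_assoc {O : Type} [CommRing O] {N m m' : O} (h : Associated m m') {X : Type}
    (S : HSys N m X) : ∃ S' : HSys N m' X, ∀ x, S'.D x = S.D x :=
  ⟨⟨S.D, fun x => ⟨(S.mem x).1.trans h, (S.mem x).2⟩,
    fun β hβ => S.cover β ⟨hβ.1.trans h.symm, hβ.2⟩, S.sep⟩, fun x => rfl⟩

end QTW
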