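import Pool.Agent.QTW.HDefs

/-!
# HsB: the explicit Hecke system (size 4)
-/

open Matrix

namespace QTW

open SerreE SerreK SerreU

/-- The explicit system: `D (some j) = [[π, j'], [0, 1]]` (`j' = Quotient.out j` a representative of
`j ∈ O/π`), `D none = [[1, 0], [0, π]]`.

Proof.  `cover`: `β = [[a, b], [c, d]]`, `N ∣ c`, `π ∣ det β`.  If `π ∣ c` and `π ∣ d` then
`β = D none * [[a, b], [c/π, d/π]]`, and `N ∣ c / π` since `π` is prime to `N`
(`(Prime.coprime_iff_not_dvd hπ).2 hN`).  Otherwise the row `(a, b)` is a multiple of `(c, d)` modulo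
`π`: let `π ∤ c` (resp. `π ∤ d`), `x π + y c = 1`; take `j` the class of `a y` (resp. `b y`); then
`π ∣ a - j' c` and `π ∣ b - j' d` (use `π ∣ a d - b c`) and
`β = D (some j) * [[(a - j' c)/π, (b - j' d)/π], [c, d]]`.
The determinant of the second factor is a unit (compare determinants and cancel `π`).
`sep`: look at the entries of `D y = D x * γ`: `x = some i`, `y = some j`: the second rows give
`γ 1 0 = 0`, `γ 1 1 = 1`, and `j' = π γ 0 1 + i'`, so `j = i`; `x = none`, `y = some j`:
`1 = π γ 1 1`, impossible; `x = some i`, `y = none`: `γ 1 0 = 0` (second rows) and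
`1 = π γ 0 0 + i' γ 1 0 = π γ 0 0`, impossible. -/
theorem hexp {O : Type} [CommRing O] [IsDomain O] [IsPrincipalIdealRing O] (N π : O)
    (hπ : Prime π) (hN : ¬ π ∣ N) :
    Nonempty (HSys N π (Option (O ⧸ Ideal.span {π}))) := by
  have hdet : ∀ (β δ γ : Matrix (Fin 2) (Fin 2) O), δ.det = π → Associated β.det π → β = δ * γ →
      IsUnit γ.det := by
    intro β δ γ h1 h2 h3
    obtain ⟨u, hu⟩ := h2
    rw [h3, Matrix.det_mul, h1, mul_assoc] at hu
    have h4 : γ.det * (u : O) = 1 := mul_left_cancel₀ hπ.ne_zero (by rw [hu, mul_one])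
    exact IsUnit.of_mul_eq_one _ h4
  have hNπ : IsCoprime N π := ((Prime.coprime_iff_not_dvd hπ).2 hN).symm
  have hout : ∀ j : O ⧸ Ideal.span {π}, (Ideal.Quotient.mk (Ideal.span {π})) (Quotient.out j) = j :=
    fun j => Quotient.out_eq j
  have hlow : ∀ (a b c d t : O), π ∣ a - t * c → π ∣ b - t * d → ∃ j : O ⧸ Ideal.span {π},
      π ∣ a - Quotient.out j * c ∧ π ∣ b - Quotient.out j * d := by
    intro a b c d t h1 h2
    refine ⟨Ideal.Quotient.mk _ t, ?_⟩
    have h3 : π ∣ Quotient.out (Ideal.Quotient.mk (Ideal.span {π}) t) - t := by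
      rw [← Ideal.mem_span_singleton, ← Ideal.Quotient.eq]
      exact hout _
    constructor
    · have e : a - Quotient.out (Ideal.Quotient.mk (Ideal.span {π}) t) * c =
          (a - t * c) - (Quotient.out (Ideal.Quotient.mk (Ideal.span {π}) t) - t) * c := by ring
      rw [e]
      exact dvd_sub h1 (Dvd.dvd.mul_right h3 _)
    · have e : b - Quotient.out (Ideal.Quotient.mk (Ideal.span {π}) t) * d =
          (b - t * d) - (Quotient.out (Ideal.Quotient.mk (Ideal.span {π}) t) - t) * d := by ring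
      rw [e]
      exact dvd_sub h2 (Dvd.dvd.mul_right h3 _)
  have hcov : ∀ (a b c d : O), π ∣ a * d - b * c → ¬ (π ∣ c ∧ π ∣ d) →
      ∃ j : O ⧸ Ideal.span {π}, π ∣ a - Quotient.out j * c ∧ π ∣ b - Quotient.out j * d := by
    intro a b c d h1 h2
    by_cases hc : π ∣ c
    · have hd : ¬ π ∣ d := fun h => h2 ⟨hc, h⟩
      obtain ⟨x, y, hxy⟩ := (Prime.coprime_iff_not_dvd hπ).2 hd
      refine hlow a b c d (b * y) ?_ ?_
      · have e : a - b * y * c = π * (a * x) + y * (a * d - b * c) := by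
          linear_combination (-a) * hxy
        rw [e]
        exact dvd_add (Dvd.intro _ rfl) (Dvd.dvd.mul_left h1 _)
      · have e : b - b * y * d = π * (b * x) := by
          linear_combination (-b) * hxy
        rw [e]
        exact Dvd.intro _ rfl
    · obtain ⟨x, y, hxy⟩ := (Prime.coprime_iff_not_dvd hπ).2 hc
      refine hlow a b c d (a * y) ?_ ?_
      · have e : a - a * y * c = π * (a * x) := by
          linear_combination (-a) * hxy
        rw [e]
        exact Dvd.intro _ rfl
      · have e : b - a * y * d = π * (b * x) - y * (a * d - b * c) := by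
          linear_combination (-b) * hxy
        rw [e]
        exact dvd_sub (Dvd.intro _ rfl) (Dvd.dvd.mul_left h1 _)
  refine ⟨⟨fun x => match x with
    | some j => !![π, Quotient.out j; 0, 1]
    | none => !![1, 0; 0, π], ?_, ?_, ?_⟩⟩
  · rintro (_ | j)
    · refine ⟨?_, ?_⟩
      · simp [Matrix.det_fin_two]
      · simp
    · refine ⟨?_, ?_⟩
      · simp [Matrix.det_fin_two]
      · simp
  · rintro β ⟨h1, h2⟩
    have hd : π ∣ β 0 0 * β 1 1 - β 0 1 * β 1 0 := by
      rw [← Matrix.det_fin_two]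
      exact h1.symm.dvd
    by_cases hcd : π ∣ β 1 0 ∧ π ∣ β 1 1
    · obtain ⟨⟨c, hc⟩, ⟨d, hd'⟩⟩ := hcd
      have e : β = !![1, 0; 0, π] * !![β 0 0, β 0 1; c, d] := by
        ext i j
        fin_cases i <;> fin_cases j <;> simp [Matrix.mul_apply, Fin.sum_univ_two, hc, hd']
      refine ⟨none, !![β 0 0, β 0 1; c, d], ⟨?_, ?_⟩, e⟩
      · exact hdet β _ _ (by simp [Matrix.det_fin_two]) h1 e
      · have h3 : N ∣ π * c := hc ▸ h2
        simpa using hNπ.dvd_of_dvd_mul_left h3
    · obtain ⟨j, ⟨a, ha⟩, ⟨b, hb⟩⟩ := hcov _ _ _ _ hd hcd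
      have e : β = !![π, Quotient.out j; 0, 1] * !![a, b; β 1 0, β 1 1] := by
        ext i k
        fin_cases i <;> fin_cases k <;>
          simp [Matrix.mul_apply, Fin.sum_univ_two, ← ha, ← hb]
      refine ⟨some j, !![a, b; β 1 0, β 1 1], ⟨?_, ?_⟩, e⟩
      · exact hdet β _ _ (by simp [Matrix.det_fin_two]) h1 e
      · simpa using h2
  · rintro (_ | i) (_ | j) γ h
    · rfl
    · exfalso
      have h11 := congrFun (congrFun h 1) 1
      simp [Matrix.mul_apply, Fin.sum_univ_two] at h11
      exact hπ.not_isUnit (IsUnit.of_mul_eq_one _ h11.symm)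
    · exfalso
      have h10 := congrFun (congrFun h 1) 0
      have h00 := congrFun (congrFun h 0) 0
      simp [Matrix.mul_apply, Fin.sum_univ_two] at h10 h00
      rw [← h10, mul_zero, add_zero] at h00
      exact hπ.not_isUnit (IsUnit.of_mul_eq_one _ h00.symm)
    · have h11 := congrFun (congrFun h 1) 1
      have h01 := congrFun (congrFun h 0) 1
      simp [Matrix.mul_apply, Fin.sum_univ_two] at h11 h01
      rw [← h11, mul_one] at h01
      congr 1
      rw [← hout i, ← hout j]
      symm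
      rw [Ideal.Quotient.eq, Ideal.mem_span_singleton]
      exact ⟨γ 0 1, by rw [h01]; ring⟩

/-- The number of elements of `O/π` is odd if `π ∤ 2`: otherwise there is an element of additive order
`2` (Cauchy, `exists_prime_addOrderOf_dvd_card`), i.e. `x ∉ (π)` with `2 x ∈ (π)`; `π` is prime. -/
theorem odd_quot {O : Type} [CommRing O] [IsDomain O] [FinQuot O] (π : O) (hπ : Prime π)
    (h2 : ¬ π ∣ 2) : Odd (Nat.card (O ⧸ Ideal.span {π})) := by
  haveI : Finite (O ⧸ Ideal.span {π}) := FinQuot.fin π hπ.ne_zero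
  haveI := Fintype.ofFinite (O ⧸ Ideal.span {π})
  by_contra hodd
  rw [Nat.not_odd_iff_even, even_iff_two_dvd] at hodd
  haveI : Fact (Nat.Prime 2) := ⟨Nat.prime_two⟩
  obtain ⟨x, hx⟩ := exists_prime_addOrderOf_dvd_card' 2 hodd
  obtain ⟨a, rfl⟩ := Ideal.Quotient.mk_surjective x
  have h3 : (2 : ℕ) • (Ideal.Quotient.mk (Ideal.span {π}) a) = 0 := by
    rw [← hx]
    exact addOrderOf_nsmul_eq_zero _
  have h4 : (Ideal.Quotient.mk (Ideal.span {π})) (2 * a) = 0 := by
    rw [map_mul, map_ofNat, ← h3, nsmul_eq_mul, Nat.cast_ofNat]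
  rw [Ideal.Quotient.eq_zero_iff_mem, Ideal.mem_span_singleton] at h4
  rcases hπ.dvd_or_dvd h4 with h5 | h5
  · exact h2 h5
  · have h6 : (Ideal.Quotient.mk (Ideal.span {π})) a = 0 := by
      rw [Ideal.Quotient.eq_zero_iff_mem, Ideal.mem_span_singleton]
      exact h5
    rw [h6, addOrderOf_zero] at hx
    exact absurd hx (by norm_num)

end QTW
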