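import Pool.Agent.QTW.HDefs

/-!
# HsC: independence of the Hecke system (size 4)
-/

open Matrix

namespace QTW

open SerreE SerreK SerreU

variable {O : Type} [CommRing O] {N m : O}

private theorem hsc_gl {g : Matrix (Fin 2) (Fin 2) O} (h : TA N g) :
    ∃ c : Gam0 N, c.val.val = g := by
  obtain ⟨v, hv⟩ := (Matrix.isUnit_iff_isUnit_det g).2 h.1
  refine ⟨⟨v, ?_⟩, hv⟩
  rw [mem_Gam0, hv]
  exact h.2

private theorem hsc_val_mul (a b : Gam0 N) : (a * b).val.val = a.val.val * b.val.val := rfl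

private theorem hsc_inv_mul (a : Gam0 N) : (a⁻¹).val.val * a.val.val = 1 := uhec_inv_mul a.val

private theorem hsc_mul_inv (a : Gam0 N) : a.val.val * (a⁻¹).val.val = 1 := uhec_mul_inv a.val

private theorem hsc_TD_mul (γ : Gam0 N) {β : Matrix (Fin 2) (Fin 2) O} (h : TD N m β) :
    TD N m (γ.val.val * β) := by
  have hγ := uhec_TA_gl γ
  refine ⟨?_, ?_⟩
  · rw [Matrix.det_mul]
    obtain ⟨u, hu⟩ := hγ.1
    rw [← hu]
    exact (associated_unit_mul_left _ _ u.isUnit).trans h.1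
  · rw [Matrix.mul_apply, Fin.sum_univ_two]
    exact dvd_add (Dvd.dvd.mul_right hγ.2 _) (Dvd.dvd.mul_left h.2 _)

/-- `γ * D x` has type `TD N m`; use `cover` (`TA N g`: `g` is the matrix of an element of `Γ₀(N)`). -/
theorem step_ex {X : Type} (S : HSys N m X) (γ : Gam0 N) :
    ∃ (y : X → X) (c : X → Gam0 N), ∀ x, γ.val.val * S.D x = S.D (y x) * (c x).val.val := by
  have h : ∀ x, ∃ (y : X) (c : Gam0 N), γ.val.val * S.D x = S.D y * c.val.val := by
    intro x
    obtain ⟨y, g, hg, e⟩ := S.cover _ (hsc_TD_mul γ (S.mem x))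
    obtain ⟨c, hc⟩ := hsc_gl hg
    exact ⟨y, c, by rw [hc]; exact e⟩
  choose y c hyc using h
  exact ⟨y, c, hyc⟩

/-- `y` is injective: if `y x = y x'` then `D x = γ⁻¹ D (y x) c x = D x' (c x')⁻¹ (c x)`, so `x = x'` by
`sep`. -/
theorem step_inj {X : Type} (S : HSys N m X) (γ : Gam0 N) (y : X → X) (c : X → Gam0 N)
    (h : ∀ x, γ.val.val * S.D x = S.D (y x) * (c x).val.val) : Function.Injective y := by
  intro x x' hxx
  have h1 := h x
  have h2 := h x'
  rw [← hxx] at h2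
  have e1 : S.D (y x) = γ.val.val * S.D x * ((c x)⁻¹).val.val := by
    rw [h1, mul_assoc, hsc_mul_inv, mul_one]
  have e2 : S.D x' = (γ⁻¹).val.val * (γ.val.val * S.D x') := by
    rw [← mul_assoc, hsc_inv_mul, one_mul]
  have e3 : S.D x' = S.D x * (((c x)⁻¹).val.val * (c x').val.val) := by
    rw [e2, h2, e1, mul_assoc (γ.val.val), mul_assoc (γ.val.val), ← mul_assoc (γ⁻¹).val.val,
      hsc_inv_mul, one_mul, mul_assoc]
  exact S.sep x x' _ e3

/-- Two systems of the same type define the same operator on homomorphisms.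

Proof.  By `cover` there are `θ : X → X'`, `u : X → Gam0 N` with `D x = D' (θ x) u x`, and `θ' : X' → X`
similarly; `θ' ∘ θ = id` and `θ ∘ θ' = id` by `sep`.  Let `γ D x = D (y x) c x` (`step_ex`); then
`γ D' (θ x) = γ D x (u x)⁻¹ = D (y x) c x (u x)⁻¹ = D' (θ (y x)) (u (y x) c x (u x)⁻¹)`.  So with
`y' = θ ∘ y ∘ θ'` and `c' (θ x) = u (y x) c x (u x)⁻¹` we get steps of `S'`, and
`h'' γ = Σ h (c' ..) = Σ h (u (y x)) + h (c x) - h (u x) = Σ h (c x) = h' γ` since `y` is a bijection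
(`step_inj`, `X` finite). -/
theorem opv_unique {X X' : Type} [Fintype X] [Fintype X'] (S : HSys N m X) (S' : HSys N m X')
    {h : Gam0 N → FF} (hadd : ∀ a b, h (a * b) = h a + h b) {h' h'' : Gam0 N → FF}
    (H : Opv S h h') (H' : Opv S' h h'') : h' = h'' := by
  have ex1 : ∀ x, ∃ (x' : X') (u : Gam0 N), S.D x = S'.D x' * u.val.val := by
    intro x
    obtain ⟨y, g, hg, e⟩ := S'.cover _ (S.mem x)
    obtain ⟨c, hc⟩ := hsc_gl hg
    exact ⟨y, c, by rw [hc]; exact e⟩
  have ex2 : ∀ x', ∃ (x : X) (u : Gam0 N), S'.D x' = S.D x * u.val.val := by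
    intro x
    obtain ⟨y, g, hg, e⟩ := S.cover _ (S'.mem x)
    obtain ⟨c, hc⟩ := hsc_gl hg
    exact ⟨y, c, by rw [hc]; exact e⟩
  choose θ u hu using ex1
  choose θ' v hv using ex2
  have hl : ∀ x, θ' (θ x) = x := by
    intro x
    have e : S.D x = S.D (θ' (θ x)) * ((v (θ x)).val.val * (u x).val.val) := by
      rw [← mul_assoc, ← hv, ← hu]
    exact S.sep _ _ _ e
  have hr : ∀ x, θ (θ' x) = x := by
    intro x
    have e : S'.D x = S'.D (θ (θ' x)) * ((u (θ' x)).val.val * (v x).val.val) := by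
      rw [← mul_assoc, ← hu, ← hv]
    exact S'.sep _ _ _ e
  have h1 : h 1 = 0 := by
    have := hadd 1 1
    rw [mul_one] at this
    exact left_eq_add.1 this
  have hinv : ∀ a, h a⁻¹ = - h a := by
    intro a
    have := hadd a⁻¹ a
    rw [inv_mul_cancel, h1] at this
    exact eq_neg_of_add_eq_zero_left this.symm
  let e : X ≃ X' := ⟨θ, θ', hl, hr⟩
  funext γ
  obtain ⟨y, c, hyc⟩ := step_ex S γ
  have hinj := step_inj S γ y c hyc
  have hbij : Function.Bijective y := Finite.injective_iff_bijective.1 hinj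
  have E1 : h' γ = ∑ x, h (c x) := H γ y c hyc
  have hstep : ∀ x', γ.val.val * S'.D x' = S'.D (θ (y (θ' x'))) *
      (u (y (θ' x')) * c (θ' x') * (u (θ' x'))⁻¹ : Gam0 N).val.val := by
    intro x'
    have a1 : S'.D x' = S.D (θ' x') * ((u (θ' x'))⁻¹).val.val := by
      have := hu (θ' x')
      rw [hr] at this
      rw [this, mul_assoc, hsc_mul_inv, mul_one]
    rw [a1, ← mul_assoc, hyc, hu (y (θ' x')), hsc_val_mul, hsc_val_mul]
    simp only [mul_assoc]
  have E2 : h'' γ = ∑ x', h (u (y (θ' x')) * c (θ' x') * (u (θ' x'))⁻¹) :=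
    H' γ _ _ hstep
  rw [E1, E2]
  have E3 : ∑ x', h (u (y (θ' x')) * c (θ' x') * (u (θ' x'))⁻¹) =
      ∑ x, h (u (y x) * c x * (u x)⁻¹) := by
    rw [← e.symm.sum_comp (fun x => h (u (y x) * c x * (u x)⁻¹))]
    rfl
  rw [E3]
  have E4 : ∀ x, h (u (y x) * c x * (u x)⁻¹) = h (u (y x)) + h (c x) - h (u x) := by
    intro x
    rw [hadd, hadd, hinv, sub_eq_add_neg]
  simp only [E4]
  rw [Finset.sum_sub_distrib, Finset.sum_add_distrib, hbij.sum_comp (fun x => h (u x))]
  ring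

end QTW
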