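import Pool.Agent.QTW.HsA
import Pool.Agent.QTW.HsC

/-!
# HsD: `T_π` through any Hecke system (size 3)
-/

open Matrix

namespace QTW

open SerreE SerreK SerreU

variable {O : Type} [CommRing O] [IsDomain O] [IsPrincipalIdealRing O] [FinQuot O] {N : O}

/-- Proof.  For the system of `hlib` this is `KP.hecke_formula` (KPORT.lean; as in `hecke_plus`,
UHEC.lean): `Opv S₀ h.val (T h).val`.  Let `h'` be defined by `h' γ = Σ h (c x)` for some steps
(`step_ex`) of `S` at `γ`; it does not depend on the steps (`y` and `c` are unique by `sep` and since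
`det (D x) ≠ 0`), so `Opv S h.val h'`; `opv_unique` gives `h' = (T h).val`. -/
theorem opv_T (π : GP N) {X : Type} [Fintype X] (S : HSys N π.el X) (h : HY N) :
    Opv S h.val (T N π.el π.ne h).val := by
  classical
  have hπ := π.prime
  have hπN : ¬ π.el ∣ N := fun h => π.not_dvd (Dvd.dvd.mul_left h _)
  obtain ⟨S₀, hS₀⟩ := hlib N π.el hπ hπN
  have : Finite (UHX N π.el) := uhx_finite N π.el π.ne
  let _ : Fintype (UHX N π.el) := Fintype.ofFinite _
  have H₀ : Opv S₀ h.val (T N π.el π.ne h).val := by
    intro γ y c hyc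
    change heckeVal π.el π.ne h γ = ∑ i, h.val (c i)
    exact KP.hecke_formula N π.el π.ne (KP.fexT N π.el)
      (fun g => ⟨QuotientGroup.mk g, KP.fexT_mk N π.el g⟩)
      (KP.fexT_sep N π.el) h γ y c (fun i => by
        have := hyc i
        rw [hS₀, hS₀, uhD, uhD, ← mul_assoc] at this
        exact this)
  choose y₀ c₀ hyc₀ using fun γ : Gam0 N => step_ex S γ
  have H : Opv S h.val (fun γ => ∑ x, h.val (c₀ γ x)) := by
    intro γ y c hyc
    refine Finset.sum_congr rfl fun x _ => ?_
    have e1 : S.D (y x) * (c x).val.val = S.D (y₀ γ x) * (c₀ γ x).val.val := by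
      rw [← hyc, ← hyc₀]
    have e2 : S.D (y x) = S.D (y₀ γ x) * ((c₀ γ x).val.val * ((c x)⁻¹).val.val) := by
      rw [← mul_assoc, ← e1, mul_assoc]
      have : (c x).val.val * ((c x)⁻¹).val.val = 1 := uhec_mul_inv (c x).val
      rw [this, mul_one]
    have e3 : y₀ γ x = y x := S.sep _ _ _ e2
    rw [e3] at e1
    have hdet : (S.D (y x)).det ≠ 0 := by
      intro h0
      have := (S.mem (y x)).1
      rw [h0] at this
      exact π.ne ((Associated.eq_zero_iff this).1 rfl)
    have e4 := uhec_cancel hdet e1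
    have e5 : c x = c₀ γ x := by
      apply Subtype.ext
      apply Units.ext
      exact e4
    rw [e5]
  have E := opv_unique S S₀ h.mul H H₀
  rw [← E]
  exact H

end QTW
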