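import Pool.Agent.QTW.HDefs
import Pool.Agent.QTW.TrB

/-!
# HssA: the action of `Γ₀(M) ⋊ ⟨σ⟩` on a Hecke system of real type (size 4)
-/

open Matrix

namespace QTW

open SerreE SerreK SerreU

variable {n M : ℕ} {m : OK n} {X : Type}

/-- `s · x = y` with cocycle `c`: `g σ^e(D x) = D y c` for `s = ⟨g, e⟩` -/
def SSt (S : HSys (M : OK n) m X) (s : SS n M) (x y : X) (c : G0 n M) : Prop :=
  s.g.val.val * cmE s.e (S.D x) = S.D y * c.val.val

private theorem hssa_mul (e : Bool) (α β : Mat n) : cmE e (α * β) = cmE e α * cmE e β := by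
  cases e
  · rfl
  · exact cjM_mul α β

private theorem hssa_cmE_cmE (e f : Bool) (α : Mat n) : cmE e (cmE f α) = cmE (xor e f) α := by
  cases e <;> cases f
  · rfl
  · rfl
  · rfl
  · exact cjM_cjM α

private theorem hssa_cje (e : Bool) (g : G0 n M) : (cje e g).val.val = cmE e g.val.val := by
  cases e
  · rfl
  · rfl

private theorem hssa_assoc {a b : OK n} (h : Associated a b) : Associated (star a) (star b) := by
  obtain ⟨u, hu⟩ := h
  refine associated_of_dvd_dvd ⟨star (u : OK n), ?_⟩ ⟨star ((u⁻¹ : (OK n)ˣ) : OK n), ?_⟩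
  · rw [← hu, star_mul']
  · rw [← hu, ← star_mul', mul_assoc, Units.mul_inv, mul_one]

private theorem hssa_TD (hm : Associated (star m) m) (e : Bool) {α : Mat n}
    (h : TD (M : OK n) m α) : TD (M : OK n) m (cmE e α) := by
  cases e
  · exact h
  · refine ⟨?_, ?_⟩
    · change Associated (cjM α).det m
      rw [cjM_det]
      exact (hssa_assoc h.1).trans hm
    · change (M : OK n) ∣ star (α 1 0)
      obtain ⟨c, hc⟩ := h.2
      exact ⟨star c, by rw [hc, star_mul', star_cast]⟩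

private theorem hssa_TA_TD {A B : Mat n} (hA : TA (M : OK n) A) (hB : TD (M : OK n) m B) :
    TD (M : OK n) m (A * B) := by
  refine ⟨?_, ?_⟩
  · rw [Matrix.det_mul]
    exact (associated_unit_mul_left B.det A.det hA.1).trans hB.1
  · rw [Matrix.mul_apply, Fin.sum_univ_two]
    exact dvd_add (Dvd.dvd.mul_right hA.2 _) (Dvd.dvd.mul_left hB.2 _)

/-- `g σ^e(D x)` has type `TD M m` (`det (cjM α) = star (det α)`, `cjM_det`; `star m ~ m`;
`star M = M`: `star_cast`); `cover`, `ta_gl`. -/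
theorem sst_ex (hm : Associated (star m) m) (S : HSys (M : OK n) m X) (s : SS n M) (x : X) :
    ∃ y c, SSt S s x y c := by
  obtain ⟨y, γ, hγ, h⟩ := S.cover _ (hssa_TA_TD (uhec_TA_gl s.g) (hssa_TD hm s.e (S.mem x)))
  obtain ⟨c, hc⟩ := ta_gl hγ
  exact ⟨y, c, by rw [SSt, h, hc]⟩

/-- `sep` and cancellation (`det (D y) ≠ 0` since `m ≠ 0`) -/
theorem sst_unique (hm0 : m ≠ 0) (S : HSys (M : OK n) m X) {s : SS n M} {x y y' : X}
    {c c' : G0 n M} (h : SSt S s x y c) (h' : SSt S s x y' c') : y = y' ∧ c = c' := by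
  have h1 : S.D y * c.val.val = S.D y' * c'.val.val := by rw [← h, ← h']
  have h2 : S.D y = S.D y' * (c'.val.val * (c.val⁻¹).val) := by
    rw [← mul_assoc, ← h1, mul_assoc, uhec_mul_inv, mul_one]
  have hy : y' = y := S.sep y' y _ h2
  subst hy
  refine ⟨rfl, ?_⟩
  have hd : (S.D y').det ≠ 0 := by
    intro h0
    apply hm0
    have := (S.mem y').1
    rw [h0] at this
    exact (this.symm.eq_zero_iff).2 rfl
  exact Subtype.ext (Units.ext (uhec_cancel hd h1))

/-- `⟨g, e⟩ ⟨h, f⟩ = ⟨g σ^e(h), e + f⟩` and `⟨c', e⟩ ⟨c, f⟩ = ⟨c' σ^e(c), e + f⟩`: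
`g σ^e(h σ^f(D x)) = g σ^e(D y c) = D z c' σ^e(c)`.  (`cje` on `G0` and `cmE` on matrices agree.) -/
theorem sst_comp (S : HSys (M : OK n) m X) {s t : SS n M} {x y z : X} {c c' : G0 n M}
    (h : SSt S t x y c) (h' : SSt S s y z c') : SSt S (s * t) x z (c' * cje s.e c) := by
  have e1 : (s * t).g.val.val = s.g.val.val * cmE s.e t.g.val.val := by
    rw [SS.mul_g, ← hssa_cje]
    rfl
  have e2 : (c' * cje s.e c).val.val = c'.val.val * cmE s.e c.val.val := by
    rw [← hssa_cje]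
    rfl
  rw [SSt] at h h' ⊢
  rw [e1, e2, SS.mul_e, ← hssa_cmE_cmE, mul_assoc, ← hssa_mul, h, hssa_mul, ← mul_assoc, h',
    mul_assoc]

/-- unit scalars act trivially: `u D x = D x u` -/
theorem sst_scal (S : HSys (M : OK n) m X) {g : G0 n M} {u : OK n}
    (hg : g.val.val = u • (1 : Mat n)) (x : X) : SSt S ⟨g, false⟩ x x g := by
  change g.val.val * S.D x = S.D x * g.val.val
  rw [hg, Matrix.smul_mul, Matrix.mul_smul, Matrix.one_mul, Matrix.mul_one]

end QTW
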