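import Pool.Agent.QTW.HssA

/-!
# HssB: the Hecke operator on homomorphisms of `Γ₀(M) ⋊ ⟨σ⟩` (size 4)
-/

open Matrix

namespace QTW

open SerreE SerreK SerreU

variable {n M : ℕ} {m : OK n} {X : Type}

/-- Proof.  For `s, x` let `y = a s x`, `c = c s x` be the unique solution of `SSt S s x y c` (`sst_ex`,
`sst_unique`), `u s x = ξ ⟨c s x, s.e⟩`, `ξ' s = Σ_x u s x`.  By `sst_comp` `a (s t) x = a s (a t x)` and
`u (s t) x = u s (a t x) + u t x` (since `⟨c', e⟩ ⟨c, f⟩ = ⟨c' σ^e(c), e + f⟩`); `a s` is a bijection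
(`a s⁻¹` is the inverse, `a 1 = id`), so `ξ'` is additive; unit scalars: `sst_scal`.
First property: `sst_unique` with `SSt S ⟨γ, false⟩ x (y x) (c x)`.
Second: let `s * s` be the scalar `u` (`(s * s).e = xor e e = false`).  By `sst_scal`, `a s (a s x) = x`
and `u s (a s x) + u s x = u (s * s) x = ξ ⟨scalar⟩ = 0`.  Let `F` be the set of the fixed points of
`a s`, `c x = c s x`.  The sum over the complement of `F` vanishes (`Finset.sum_involution`), and its
cardinality is even (fixed point free involution, `Finset.card_involution` or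
`Finset.even_card_of_involution`-type lemma; or take the sum of the constant function `1` in `ZMod 2`
with `Finset.sum_involution`).  For `x ∉ F` there is no `g` with `SSt S s x x g` by `sst_unique`. -/
theorem hss (hm0 : m ≠ 0) (hm : Associated (star m) m) [Fintype X] (S : HSys (M : OK n) m X)
    (ξ : SS n M → FF) (hξ : IsXi ξ) : ∃ ξ' : SS n M → FF, IsXi ξ' ∧
      (∀ (γ : G0 n M) (y : X → X) (c : X → G0 n M),
        (∀ x, γ.val.val * S.D x = S.D (y x) * (c x).val.val) →
          ξ' ⟨γ, false⟩ = ∑ x, ξ ⟨c x, false⟩) ∧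
      (∀ s : SS n M, (∃ u : OK n, (s * s).g.val.val = u • (1 : Mat n)) →
        ∃ (F : Finset X) (c : X → G0 n M), (∀ x ∈ F, SSt S s x x (c x)) ∧
          (∀ x, x ∉ F → ∀ g, ¬ SSt S s x x g) ∧ ξ' s = ∑ x ∈ F, ξ ⟨c x, s.e⟩ ∧
          Even (F.card + Fintype.card X)) := by
  classical
  choose a c hac using fun (s : SS n M) (x : X) => sst_ex hm S s x
  have hmul : ∀ s t x, a (s * t) x = a s (a t x) ∧
      c (s * t) x = c s (a t x) * cje s.e (c t x) := fun s t x =>
    sst_unique hm0 S (hac (s * t) x) (sst_comp S (hac t x) (hac s _))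
  have hone : ∀ x, a 1 x = x := fun x =>
    (sst_unique hm0 S (hac 1 x)
      (sst_scal S (g := 1) (u := 1) (by rw [one_smul]; rfl) x)).1
  have hbij : ∀ s, Function.Bijective (a s) := fun s => by
    refine Function.bijective_iff_has_inverse.2 ⟨a s⁻¹, fun x => ?_, fun x => ?_⟩
    · rw [← (hmul s⁻¹ s x).1, inv_mul_cancel, hone]
    · rw [← (hmul s s⁻¹ x).1, mul_inv_cancel, hone]
  have humul : ∀ s t x, ξ ⟨c (s * t) x, (s * t).e⟩ = ξ ⟨c s (a t x), s.e⟩ + ξ ⟨c t x, t.e⟩ := by
    intro s t x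
    rw [← hξ.mul, (hmul s t x).2]
    rfl
  refine ⟨fun s => ∑ x, ξ ⟨c s x, s.e⟩, ⟨fun s t => ?_, fun g u hg => ?_⟩, fun γ y c' h => ?_,
    fun s hs => ?_⟩
  · change ∑ x, ξ ⟨c (s * t) x, (s * t).e⟩ = ∑ x, ξ ⟨c s x, s.e⟩ + ∑ x, ξ ⟨c t x, t.e⟩
    rw [Finset.sum_congr rfl (fun x _ => humul s t x), Finset.sum_add_distrib]
    congr 1
    exact (hbij t).sum_comp (fun y => ξ ⟨c s y, s.e⟩)
  · change ∑ x, ξ ⟨c ⟨g, false⟩ x, false⟩ = 0
    refine Finset.sum_eq_zero fun x _ => ?_
    rw [(sst_unique hm0 S (hac ⟨g, false⟩ x) (sst_scal S hg x)).2]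
    exact hξ.scal g u hg
  · change ∑ x, ξ ⟨c ⟨γ, false⟩ x, false⟩ = _
    refine Finset.sum_congr rfl fun x _ => ?_
    have h1 : SSt S ⟨γ, false⟩ x (y x) (c' x) := h x
    rw [(sst_unique hm0 S (hac ⟨γ, false⟩ x) h1).2]
  · obtain ⟨u, hu⟩ := hs
    have hss : s * s = ⟨(s * s).g, false⟩ := by
      apply SS.ext
      · rfl
      · rw [SS.mul_e, Bool.xor_self]
    have hk : ∀ x, a (s * s) x = x ∧ c (s * s) x = (s * s).g := by
      intro x
      have h1 : SSt S (s * s) x x (s * s).g := by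
        rw [hss]
        exact sst_scal S hu x
      exact sst_unique hm0 S (hac (s * s) x) h1
    have hinv : ∀ x, a s (a s x) = x := fun x => by rw [← (hmul s s x).1, (hk x).1]
    have hsum : ∀ x, ξ ⟨c s (a s x), s.e⟩ + ξ ⟨c s x, s.e⟩ = 0 := by
      intro x
      rw [← humul s s x, (hk x).2]
      have h2 : (s * s).e = false := by rw [SS.mul_e, Bool.xor_self]
      rw [h2]
      exact hξ.scal _ u hu
    have hne : ∀ x, ¬ a s x = x → ¬ a s (a s x) = a s x := by
      intro x hx h
      apply hx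
      rw [hinv] at h
      exact h.symm
    refine ⟨Finset.univ.filter (fun x => a s x = x), c s, fun x hx => ?_, fun x hx g hg => ?_,
      ?_, ?_⟩
    · have h1 := hac s x
      rw [(Finset.mem_filter.1 hx).2] at h1
      exact h1
    · exact hx (Finset.mem_filter.2 ⟨Finset.mem_univ _, (sst_unique hm0 S (hac s x) hg).1⟩)
    · change ∑ x, ξ ⟨c s x, s.e⟩ = _
      rw [← Finset.sum_filter_add_sum_filter_not Finset.univ (fun x => a s x = x)]
      have h0 : ∑ x ∈ Finset.univ.filter (fun x => ¬ a s x = x), ξ ⟨c s x, s.e⟩ = 0 := by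
        refine Finset.sum_involution (fun x _ => a s x) (fun x _ => ?_) (fun x hx _ => ?_)
          (fun x hx => ?_) (fun x _ => ?_)
        · rw [add_comm]
          exact hsum x
        · exact (Finset.mem_filter.1 hx).2
        · exact Finset.mem_filter.2 ⟨Finset.mem_univ _, hne x (Finset.mem_filter.1 hx).2⟩
        · exact hinv x
      rw [h0, add_zero]
    · have h0 : ∑ x ∈ Finset.univ.filter (fun x => ¬ a s x = x), (1 : ZMod 2) = 0 := by
        refine Finset.sum_involution (fun x _ => a s x) (fun x _ => ?_) (fun x hx _ => ?_)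
          (fun x hx => ?_) (fun x _ => ?_)
        · exact CharTwo.add_self_eq_zero _
        · exact (Finset.mem_filter.1 hx).2
        · exact Finset.mem_filter.2 ⟨Finset.mem_univ _, hne x (Finset.mem_filter.1 hx).2⟩
        · exact hinv x
      rw [Finset.sum_const, nsmul_eq_mul, mul_one, ZMod.natCast_eq_zero_iff_even] at h0
      have h1 := Finset.card_filter_add_card_filter_not (s := (Finset.univ : Finset X))
        (fun x => a s x = x)
      rw [← Finset.card_univ, ← h1, ← add_assoc]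
      exact (Even.add_self _).add h0

/-- if `RS ξ x` then `x` is a homomorphism agreeing with `ξ`: the first property of `hss` says that
`(fun γ => ξ ⟨γ, false⟩)` is mapped to `(fun γ => ξ' ⟨γ, false⟩)` by the operator of `S`. -/
theorem rs_opv [Fintype X] {S : HSys (M : OK n) m X} {ξ ξ' : SS n M → FF} (hξ : IsXi ξ)
    (h1 : ∀ (γ : G0 n M) (y : X → X) (c : X → G0 n M),
        (∀ x, γ.val.val * S.D x = S.D (y x) * (c x).val.val) →
          ξ' ⟨γ, false⟩ = ∑ x, ξ ⟨c x, false⟩)
    {x x' : HY (M : OK n)} (hx : RS ξ x) (hx' : Opv S x.val x'.val)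
    (hS : ∀ γ : G0 n M, ∃ (y : X → X) (c : X → G0 n M),
      ∀ x, γ.val.val * S.D x = S.D (y x) * (c x).val.val) : RS ξ' x' := by
  intro γ
  obtain ⟨y, c, h⟩ := hS γ
  rw [hx' γ y c h, h1 γ y c h]
  exact Finset.sum_congr rfl fun z _ => hx (c z)

end QTW
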