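import Pool.Agent.QTW.HssB
import Pool.Agent.QTW.XiA
import Pool.Agent.QTW.HpA

/-!
# NbA: neighbours and fixed points (size 4)
`SSt S h.tau x x c` is `h.gm * cjM (S.D x) = S.D x * c` (by `rfl`-type unfolding: `cmE true = cjM`).
-/

open Matrix

namespace QTW

open SerreE SerreK SerreU

variable {n M : ℕ}

private theorem nba_mem {p : ℕ} (hp : p ≠ 0) {X : Type}
    (S : HSys (M : OK n) (p : OK n) X) {h : Herm n M} {F : Finset X}
    (hF' : ∀ x, x ∉ F → ∀ g, ¬ SSt S h.tau x x g) {β γ : Mat n} {l : Herm n M} {x : X}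
    (hγ : TA (M : OK n) γ) (he : β = S.D x * γ) (hl : Tr p β h l) : x ∈ F := by
  by_contra hx
  obtain ⟨γ', hγ'⟩ := ta_gl hγ
  obtain ⟨l', h1, _⟩ := tr_exists_one (γ'⁻¹).val.val l (uhec_TA_gl γ'⁻¹)
  have h2 := tr_mul_one hl h1
  have h3 : β * (γ'⁻¹).val.val = S.D x := by
    rw [he, ← hγ', mul_assoc]
    change S.D x * (γ'.val.val * (γ'.val⁻¹).val) = S.D x
    rw [uhec_mul_inv, mul_one]
  rw [h3] at h2
  obtain ⟨c, hc, _⟩ := fix_of_tr hp (S.mem x) h2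
  exact hF' x hx c hc

/-- Existence: enumerate `F` (`Finset.equivFin`): `α i = S.D (x i)`, `k i` from `tr_of_fix`.  `sep`: `S.sep`.
`all`: `β = S.D x * γ` by `S.cover`, `TA M γ`; with `Tr 1 γ' l l'`, `γ' = γ⁻¹` (`tr_exists_one`),
`Tr p (S.D x) h l'` (`tr_mul_one`), so `x ∈ F` by `fix_of_tr`. -/
theorem nbr_of_F {p : ℕ} (hp : p ≠ 0) (hc : p.Coprime M) {X : Type}
    (S : HSys (M : OK n) (p : OK n) X) (h : Herm n M) (F : Finset X) (c : X → G0 n M)
    (hF : ∀ x ∈ F, SSt S h.tau x x (c x)) (hF' : ∀ x, x ∉ F → ∀ g, ¬ SSt S h.tau x x g) :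
    ∃ (α : Fin F.card → Mat n) (k : Fin F.card → Herm n M), Nbrs p h α k := by
  have hk : ∀ x : F, ∃ k : Herm n M, Tr p (S.D x.1) h k := fun x => by
    obtain ⟨k, hk, _⟩ := tr_of_fix hp hc (S.mem x.1) (hF x.1 x.2)
    exact ⟨k, hk⟩
  choose k hk using hk
  refine ⟨fun i => S.D (F.equivFin.symm i).1, fun i => k (F.equivFin.symm i),
    fun i => (S.mem _).1, fun i => (S.mem _).2, fun i => hk _, fun i j g hg => ?_,
    fun β l h1 h2 h3 => ?_⟩
  · exact F.equivFin.symm.injective (Subtype.ext (S.sep _ _ g hg))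
  · obtain ⟨x, γ, hγ, he⟩ := S.cover β ⟨h1, h2⟩
    have hx := nba_mem hp S hF' hγ he h3
    refine ⟨F.equivFin ⟨x, hx⟩, γ, ?_⟩
    rw [Equiv.symm_apply_apply]
    exact he

/-- Uniqueness: for `Nbrs p h α k`, `α i = S.D (x i) * g i` (`S.cover`), `x i ∈ F` (as above); `i ↦ x i` is a
bijection `Fin r → F`: injective by `sep` (`α j = α i * (g i)⁻¹ * g j` if `x i = x j`), surjective by `all`
(`S.D x = α i * g`, so `S.D (x i) * (g i * g) = S.D x`, and `S.sep`).  With `Tr p (S.D (x i)) h l`,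
`Tr 1 (g i) l (k i)` (`tr_cancel`), `ξ ⟨c (x i), true⟩ = ξ l.tau = ξ (k i).tau` (`tr_of_fix`, `xi_inv`). -/
theorem nbr_sum {p : ℕ} (hp : p ≠ 0) (hc : p.Coprime M) {X : Type}
    (S : HSys (M : OK n) (p : OK n) X) (h : Herm n M) (F : Finset X) (c : X → G0 n M)
    (hF : ∀ x ∈ F, SSt S h.tau x x (c x)) (hF' : ∀ x, x ∉ F → ∀ g, ¬ SSt S h.tau x x g)
    {r : ℕ} {α : Fin r → Mat n} {k : Fin r → Herm n M} (N : Nbrs p h α k) :
    r = F.card ∧ ∀ ξ : SS n M → FF, IsXi ξ → ∑ x ∈ F, ξ ⟨c x, true⟩ = ∑ i, ξ (k i).tau := by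
  have hx : ∀ i, ∃ (x : X) (γ : Mat n), TA (M : OK n) γ ∧ α i = S.D x * γ := fun i =>
    S.cover (α i) ⟨N.det i, N.lev i⟩
  choose x γ hγ hα using hx
  have hmem : ∀ i, x i ∈ F := fun i => nba_mem hp S hF' (hγ i) (hα i) (N.tr i)
  have hbij : Function.Bijective (fun i => (⟨x i, hmem i⟩ : F)) := by
    constructor
    · intro i j hij
      have hij' : x i = x j := congrArg Subtype.val hij
      obtain ⟨g, hg⟩ := ta_gl (hγ i)
      refine N.sep i j ((g.val⁻¹).val * γ j) ?_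
      rw [hα j, hα i, ← hg, ← hij', mul_assoc (S.D (x i)), ← mul_assoc g.val.val, uhec_mul_inv,
        one_mul]
    · rintro ⟨y, hy⟩
      obtain ⟨l, hl, _⟩ := tr_of_fix hp hc (S.mem y) (hF y hy)
      obtain ⟨i, g, hg⟩ := N.all (S.D y) l (S.mem y).1 (S.mem y).2 hl
      refine ⟨i, Subtype.ext (S.sep (x i) y (γ i * g) ?_)⟩
      rw [hg, hα i, mul_assoc]
  refine ⟨?_, fun ξ hξ => ?_⟩
  · have h1 := Fintype.card_of_bijective hbij
    rw [Fintype.card_fin, Fintype.card_coe] at h1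
    exact h1
  · have h1 : ∀ i, ξ ⟨c (x i), true⟩ = ξ (k i).tau := by
      intro i
      obtain ⟨l, hl, hl'⟩ := tr_of_fix hp hc (S.mem (x i)) (hF (x i) (hmem i))
      rw [hl' ξ hξ]
      have h2 := N.tr i
      rw [hα i] at h2
      exact (xi_inv hξ l (k i) ⟨γ i, hγ i, tr_cancel hp hl h2⟩).symm
    rw [← Finset.sum_coe_sort F, ← Finset.sum_congr rfl (fun i _ => h1 i)]
    exact (hbij.sum_comp (fun y : F => ξ ⟨c y.1, true⟩)).symm

end QTW
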