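import Pool.Agent.SerreK.AXIS2
import Pool.Agent.SerreK.AXIS3
import Pool.Agent.SerreK.GENPOS

/-!
# PDefs: definitions for the point reflection theorem

`Γ` acts through `ρ` on `V = ℝ⁴`, preserving the cone `InC`; `𝒯` is a set of point reflections
`τ ∈ Γ` with centres `o τ`.
-/

namespace QTW

open SerreK SerreK.GP

/-- `L` is a point reflection with centre `o`: `L v = φ(v) o - v`, `φ(o) = 2` -/
structure PRef (L : V →ₗ[ℝ] V) (o : V) : Prop where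
  inC : InC o
  ex : ∃ φ : V →ₗ[ℝ] ℝ, φ o = 2 ∧ ∀ v, L v = φ v • o - v

/-- three independent vectors -/
def LI3 (a b c : V) : Prop := ∀ x y z : ℝ, x • a + y • b + z • c = 0 → x = 0 ∧ y = 0 ∧ z = 0

/-- the six terms of the parity lemma for the triangles `(A, B, C)` and `(p, q, r)` -/
noncomputable def P6 (k : Type) [Field k] (A B C p q r : V) : k :=
  ind k (Hit A B C p q) + ind k (Hit A B C q r) + ind k (Hit A B C p r) +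
    (ind k (Hit p q r A B) + ind k (Hit p q r B C) + ind k (Hit p q r A C))

/-- the open cones of `a, b` and of `p, q` meet modulo `o` -/
def X5 (o a b p q : V) : Prop :=
  ∃ β γ s t c : ℝ, 0 < β ∧ 0 < γ ∧ 0 < s ∧ 0 < t ∧ β • a + γ • b + c • o = s • p + t • q

section
variable {Γ : Type} [Group Γ] (ρ : Γ →* (V →ₗ[ℝ] V)) (𝒯 : Set Γ) (o : Γ → V)
  {ι : Type} (t : ι → Γ)

/-- the data of the theorem -/
structure PHyp (pos : Γ → Prop) : Prop where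
  inC : ∀ g v, InC v → InC (ρ g v)
  proper : Proper ρ
  pos_mul : ∀ g h, pos (g * h) ↔ (pos g ↔ pos h)
  neg : ∀ τ ∈ 𝒯, ¬ pos τ
  sq : ∀ τ ∈ 𝒯, τ * τ = 1
  pref : ∀ τ ∈ 𝒯, PRef (ρ τ) (o τ)
  ns : ∀ τ ∈ 𝒯, ∀ τ' ∈ 𝒯, τ ≠ τ' → ∃ x, LI3 (o τ) x (ρ τ' x)
  conj : ∀ τ ∈ 𝒯, ∀ g, g * τ * g⁻¹ ∈ 𝒯
  t_mem : ∀ i, t i ∈ 𝒯

/-- base points in general position -/
structure PFam where
  x1 : V
  x2 : V
  x3 : V
  y1 : V
  y2 : V
  y3 : V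
  x1_in : InC x1
  x2_in : InC x2
  x3_in : InC x3
  y1_in : InC y1
  y2_in : InC y2
  y3_in : InC y3
  g1 : ∀ a b c d e, Gen6 (ρ a x3) (ρ b x1) (ρ c x2) y3 (ρ d y1) (ρ e y2)
  g2 : ∀ τ ∈ 𝒯, ∀ a b c d e, Gen6 (ρ a x3) (ρ b x1) (ρ c x2) (o τ) (ρ d y1) (ρ e y2)
  g4 : ∀ j a d e, Gen6 (ρ a x1) (ρ a x2) (ρ a (ρ (t j) x2)) y3 (ρ d y1) (ρ e y2)
  g5 : ∀ τ ∈ 𝒯, ∀ j a d e, a * t j ≠ τ * a →
    Gen6 (ρ a x1) (ρ a x2) (ρ a (ρ (t j) x2)) (o τ) (ρ d y1) (ρ e y2)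
  g7 : ∀ τ ∈ 𝒯, ∀ a b d e, GF ![o τ, ρ d y1, ρ e y2, ρ a x1, ρ b x2]

variable {k : Type} [Field k]

/-- A test: an additive functional `ℓ` on functions of segments and the function `f` measuring the
contribution of the boundary segments; `e j` is the error of the triangle `(x1, x2, t j x2)`. -/
structure TestP (x1 x2 x3 : V) (ℓ : (V → V → k) → k) (f : V → V → k) (e : ι → k) : Prop where
  add : ∀ z z', ℓ (fun p q => z p q + z' p q) = ℓ z + ℓ z'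
  smul : ∀ (c : k) z, ℓ (fun p q => c * z p q) = c * ℓ z
  eqv : ∀ g p q, InC p → InC q → f (ρ g p) (ρ g q) = f p q
  sym : ∀ p q, f q p = f p q
  tK : ∀ a b, ℓ (fun p q => SA ρ 1 x3 (ρ a x1) (ρ b x2) p q) =
    f x3 (ρ a x1) + f (ρ a x1) (ρ b x2) + f x3 (ρ b x2)
  tJ : ∀ j, ℓ (fun p q => SA ρ 1 x1 x2 (ρ (t j) x2) p q) =
    f x1 x2 + f x2 (ρ (t j) x2) + f x1 (ρ (t j) x2) + e j

/-- the sum over the four triangles `(o, y1, y2)`, `(o, y1, τ y2)`, `(o, τ y1, τ y2)`,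
`(o, τ y1, y2)` -/
noncomputable def IQ (k : Type) [Field k] (ρ : Γ →* (V →ₗ[ℝ] V)) (o y1 y2 : V) (τ : Γ) (p q : V)
    (δ : Γ) : k :=
  iB ρ 1 o y1 y2 p q δ + iB ρ 1 o y1 (ρ τ y2) p q δ + iB ρ 1 o (ρ τ y1) (ρ τ y2) p q δ +
    iB ρ 1 o (ρ τ y1) y2 p q δ

/-- the sum over the half `pos` of the group -/
noncomputable def HQ (k : Type) [Field k] (ρ : Γ →* (V →ₗ[ℝ] V)) (pos : Γ → Prop)
    (o y1 y2 : V) (τ : Γ) (p q : V) : k :=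
  wsum (fun δ => ind k (pos δ)) (IQ k ρ o y1 y2 τ p q)

/-- the sum of the terms of the parity lemma over the four triangles -/
noncomputable def P24 (k : Type) [Field k] (ρ : Γ →* (V →ₗ[ℝ] V)) (o y1 y2 : V) (τ : Γ)
    (a b c : V) (δ : Γ) : k :=
  P6 k (ρ δ a) (ρ δ b) (ρ δ c) o y1 y2 + P6 k (ρ δ a) (ρ δ b) (ρ δ c) o y1 (ρ τ y2) +
    P6 k (ρ δ a) (ρ δ b) (ρ δ c) o (ρ τ y1) (ρ τ y2) + P6 k (ρ δ a) (ρ δ b) (ρ δ c) o (ρ τ y1) y2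

end

end QTW
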