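import Pool.Agent.QTW.PSym

/-!
# PFold: the fold identity for the four triangles (size 4)
Model: `fold`, `HA_sym`, `foldR` in SerreK/AXIS2.lean.
-/

namespace QTW

open SerreK

variable {Γ : Type} [Group Γ] {ρ : Γ →* (V →ₗ[ℝ] V)} {𝒯 : Set Γ} {o : Γ → V} {ι : Type}
  {t : ι → Γ} {pos : Γ → Prop} {k : Type} [Field k] [CharP k 2]

omit [CharP k 2] in
private theorem PFold_ind_and (A B : Prop) : ind k (A ∧ B) = ind k A * ind k B := by
  by_cases hA : A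
  · by_cases hB : B
    · rw [ind_true ⟨hA, hB⟩, ind_true hA, ind_true hB, mul_one]
    · rw [ind_false (fun h => hB h.2), ind_false hB, mul_zero]
  · rw [ind_false (fun h => hA h.1), ind_false hA, zero_mul]

omit [CharP k 2] in
private theorem PFold_P6 (a b c p q r : V) (δ : Γ) :
    P6 k (ρ δ a) (ρ δ b) (ρ δ c) p q r =
      iA ρ (1 : Γ →* kˣ) a b c p q δ + iA ρ 1 a b c q r δ + iA ρ 1 a b c p r δ +
        (iB ρ 1 p q r a b δ + iB ρ 1 p q r b c δ + iB ρ 1 p q r a c δ) := by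
  unfold P6 iA iB
  simp only [MonoidHom.one_apply, Units.val_one, one_mul]

omit [CharP k 2] in
private theorem PFold_six (hP : Proper ρ) (ε : Γ → k) {a b c p q r : V} (ha : InC a) (hb : InC b)
    (hc : InC c) (hp : InC p) (hq : InC q) (hr : InC r) :
    (Function.support (fun δ => P6 k (ρ δ a) (ρ δ b) (ρ δ c) p q r)).Finite ∧
    wsum ε (fun δ => P6 k (ρ δ a) (ρ δ b) (ρ δ c) p q r) =
      wsum ε (iA ρ 1 a b c p q) + wsum ε (iA ρ 1 a b c q r) + wsum ε (iA ρ 1 a b c p r) +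
        (wsum ε (iB ρ 1 p q r a b) + wsum ε (iB ρ 1 p q r b c) + wsum ε (iB ρ 1 p q r a c)) := by
  have A1 := iA_fin (1 : Γ →* kˣ) hP ha hb hc hp hq
  have A2 := iA_fin (1 : Γ →* kˣ) hP ha hb hc hq hr
  have A3 := iA_fin (1 : Γ →* kˣ) hP ha hb hc hp hr
  have B1 := iB_fin (1 : Γ →* kˣ) hP hp hq hr ha hb
  have B2 := iB_fin (1 : Γ →* kˣ) hP hp hq hr hb hc
  have B3 := iB_fin (1 : Γ →* kˣ) hP hp hq hr ha hc
  have hfun : (fun δ => P6 k (ρ δ a) (ρ δ b) (ρ δ c) p q r) = fun δ =>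
      iA ρ (1 : Γ →* kˣ) a b c p q δ + iA ρ 1 a b c q r δ + iA ρ 1 a b c p r δ +
        (iB ρ 1 p q r a b δ + iB ρ 1 p q r b c δ + iB ρ 1 p q r a c δ) := by
    funext δ
    exact PFold_P6 a b c p q r δ
  rw [hfun]
  refine ⟨supp_add (supp_add (supp_add A1 A2) A3) (supp_add (supp_add B1 B2) B3), ?_⟩
  rw [← wsum_add ε A1 A2, ← wsum_add ε (supp_add A1 A2) A3, ← wsum_add ε B1 B2,
    ← wsum_add ε (supp_add B1 B2) B3,
    ← wsum_add ε (supp_add (supp_add A1 A2) A3) (supp_add (supp_add B1 B2) B3)]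

omit [CharP k 2] in
private theorem PFold_HQ (hP : Proper ρ) (hin : ∀ g v, InC v → InC (ρ g v)) {o' y1 y2 p q : V}
    (τ : Γ) (ho : InC o') (h1 : InC y1) (h2 : InC y2) (hp : InC p) (hq : InC q) :
    HQ k ρ pos o' y1 y2 τ p q =
      wsum (fun δ => ind k (pos δ)) (iB ρ 1 o' y1 y2 p q) +
        wsum (fun δ => ind k (pos δ)) (iB ρ 1 o' y1 (ρ τ y2) p q) +
        wsum (fun δ => ind k (pos δ)) (iB ρ 1 o' (ρ τ y1) (ρ τ y2) p q) +
        wsum (fun δ => ind k (pos δ)) (iB ρ 1 o' (ρ τ y1) y2 p q) := by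
  have B1 := iB_fin (1 : Γ →* kˣ) hP ho h1 h2 hp hq
  have B2 := iB_fin (1 : Γ →* kˣ) hP ho h1 (hin τ _ h2) hp hq
  have B3 := iB_fin (1 : Γ →* kˣ) hP ho (hin τ _ h1) (hin τ _ h2) hp hq
  have B4 := iB_fin (1 : Γ →* kˣ) hP ho (hin τ _ h1) h2 hp hq
  rw [← wsum_add _ B1 B2, ← wsum_add _ (supp_add B1 B2) B3,
    ← wsum_add _ (supp_add (supp_add B1 B2) B3) B4]
  rfl

/-- Proof.  Multiply `hpar δ` by `ε δ = ind (pos δ)` and sum over `δ` (all sums are finite: `iA_fin`,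
`iB_fin`; `ε δ * ind (S δ) = ind (pos δ ∧ S δ)`, which has finite support because `ind (S δ)` is the
finite sum `P24`).  With `ψ = 1`, `ind (Hit (ρ δ a) (ρ δ b) (ρ δ c) p q) = iA ρ 1 a b c p q δ` and
`ind (Hit p q r (ρ δ a) (ρ δ b)) = iB ρ 1 p q r a b δ`.  The terms `iA (o, y1)`, `iA (o, y2)`,
`iA (o, τ y1)`, `iA (o, τ y2)` occur twice and cancel.  The terms with triangles `(o, *, *)` add up to
`HQ a b + HQ b c + HQ a c`.  The remaining terms are the weighted sums of `iA (y1, y2)`,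
`iA (y1, τ y2)`, `iA (τ y1, τ y2)`, `iA (τ y1, y2)`; the first and the third add up to `SA y1 y2`,
the second and the fourth to `SA y1 (τ y2)` (`wsum_sym`, as in `HA_sym`: `iA (τ p, τ q) δ =
iA (p, q) (τ δ)` by `iA_mul`, `τ τ y2 = y2`). -/
theorem foldQ (H : PHyp ρ 𝒯 o t pos) {τ : Γ} (hτ : τ ∈ 𝒯) {a b c y1 y2 : V} (ha : InC a)
    (hb : InC b) (hc : InC c) (h1 : InC y1) (h2 : InC y2) (S : Γ → Prop)
    (hpar : ∀ δ, P24 k ρ (o τ) y1 y2 τ a b c δ = ind k (S δ)) :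
    SA ρ 1 a b c y1 y2 + SA ρ 1 a b c y1 (ρ τ y2) =
      HQ k ρ pos (o τ) y1 y2 τ a b + HQ k ρ pos (o τ) y1 y2 τ b c +
        HQ k ρ pos (o τ) y1 y2 τ a c + ∑ᶠ δ, ind k (pos δ ∧ S δ) := by
  have hP := H.proper
  have hin := H.inC
  have ho : InC (o τ) := (H.pref τ hτ).inC
  have hε := eps_tau (k := k) H hτ
  have hT := tau_facts H hτ
  have ht1 := hin τ _ h1
  have ht2 := hin τ _ h2
  have hττ : ρ τ (ρ τ y2) = y2 := by rw [← rho_mul, H.sq τ hτ, rho_one]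
  let P : Pts ρ τ 1 :=
    { o := o τ, y1 := y1, y2 := y2, o_in := ho, y1_in := h1, y2_in := h2, Jo := hT.2,
      J2 := H.sq τ hτ, J1 := hT.1, ηJ := by rw [one_mul, mul_one], inC := hin, proper := hP }
  have s1 := HA_sym (1 : Γ →* kˣ) P hε (MonoidHom.one_apply τ) ha hb hc h1 h2
  have s2 := HA_sym (1 : Γ →* kˣ) P hε (MonoidHom.one_apply τ) ha hb hc h1 ht2
  rw [hττ] at s2
  obtain ⟨f1, e1⟩ := PFold_six hP (fun δ => ind k (pos δ)) ha hb hc ho h1 h2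
  obtain ⟨f2, e2⟩ := PFold_six hP (fun δ => ind k (pos δ)) ha hb hc ho h1 ht2
  obtain ⟨f3, e3⟩ := PFold_six hP (fun δ => ind k (pos δ)) ha hb hc ho ht1 ht2
  obtain ⟨f4, e4⟩ := PFold_six hP (fun δ => ind k (pos δ)) ha hb hc ho ht1 h2
  have eW : ∑ᶠ δ, ind k (pos δ ∧ S δ) =
      wsum (fun δ => ind k (pos δ)) (fun δ => P6 k (ρ δ a) (ρ δ b) (ρ δ c) (o τ) y1 y2) +
      wsum (fun δ => ind k (pos δ)) (fun δ => P6 k (ρ δ a) (ρ δ b) (ρ δ c) (o τ) y1 (ρ τ y2)) +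
      wsum (fun δ => ind k (pos δ))
        (fun δ => P6 k (ρ δ a) (ρ δ b) (ρ δ c) (o τ) (ρ τ y1) (ρ τ y2)) +
      wsum (fun δ => ind k (pos δ))
        (fun δ => P6 k (ρ δ a) (ρ δ b) (ρ δ c) (o τ) (ρ τ y1) y2) := by
    rw [← wsum_add _ f1 f2, ← wsum_add _ (supp_add f1 f2) f3,
      ← wsum_add _ (supp_add (supp_add f1 f2) f3) f4]
    unfold wsum
    apply finsum_congr
    intro δ
    rw [PFold_ind_and, ← hpar δ]
    rfl
  have q1 := PFold_HQ (k := k) (pos := pos) hP hin τ ho h1 h2 ha hb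
  have q2 := PFold_HQ (k := k) (pos := pos) hP hin τ ho h1 h2 hb hc
  have q3 := PFold_HQ (k := k) (pos := pos) hP hin τ ho h1 h2 ha hc
  rw [e1, e2, e3, e4] at eW
  have h2' : (2 : k) = 0 := CharTwo.two_eq_zero
  linear_combination (-1 : k) * s1 - s2 - eW + q1 + q2 + q3 -
    (wsum (fun δ => ind k (pos δ)) (iA ρ 1 a b c (o τ) y1) +
      wsum (fun δ => ind k (pos δ)) (iA ρ 1 a b c (o τ) y2) +
      wsum (fun δ => ind k (pos δ)) (iA ρ 1 a b c (o τ) (ρ τ y1)) +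
      wsum (fun δ => ind k (pos δ)) (iA ρ 1 a b c (o τ) (ρ τ y2)) +
      HQ k ρ pos (o τ) y1 y2 τ a b + HQ k ρ pos (o τ) y1 y2 τ b c +
      HQ k ρ pos (o τ) y1 y2 τ a c) * h2'

end QTW
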