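import Pool.Agent.QTW.PDefs
import Pool.Agent.SerreM.MGENPOS

/-!
# PGen: base points in general position (size 4)
Model: `genposM` in SerreM/MGENPOS.lean and `genpos` in SerreK/GENPOS.lean (tools: `Poly2`,
`exists_generic`, `mg_exists_free`, `Free`, `GF.cons`, `gen6_of`, `mg_GF2`, `mg_GF3`).
-/

namespace QTW

open SerreK SerreK.GP SerreM

private theorem pg_poly2 (A B C D : V →ₗ[ℝ] ℝ) : Poly2 fun v => A v * D v - B v * C v := by
  constructor
  · exact (A.continuous_of_finiteDimensional.mul D.continuous_of_finiteDimensional).sub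
      (B.continuous_of_finiteDimensional.mul C.continuous_of_finiteDimensional)
  · intro y v
    refine ⟨A y * D y - B y * C y, A y * D v + A v * D y - B y * C v - B v * C y,
      A v * D v - B v * C v, fun t => ?_⟩
    simp only [map_add, map_smul, smul_eq_mul]
    ring

private theorem pg_q3 (u : V) (hu : u 0 ≠ 0) (L M : V →ₗ[ℝ] V)
    (h : ∃ x, LI3 u (L x) (M x)) :
    ∃ q : V → ℝ, Poly2 q ∧ (∃ v, q v ≠ 0) ∧ ∀ v, q v ≠ 0 → LI3 u (L v) (M v) := by
  let B : Fin 4 → V →ₗ[ℝ] ℝ := fun i =>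
    u 0 • ((LinearMap.proj i).comp L) - u i • ((LinearMap.proj 0).comp L)
  let G : Fin 4 → V →ₗ[ℝ] ℝ := fun i =>
    u 0 • ((LinearMap.proj i).comp M) - u i • ((LinearMap.proj 0).comp M)
  have hB : ∀ i v, B i v = u 0 * L v i - u i * L v 0 := fun i v => rfl
  have hG : ∀ i v, G i v = u 0 * M v i - u i * M v 0 := fun i v => rfl
  obtain ⟨x, hx⟩ := h
  have hne : ∃ i j, B i x * G j x - B j x * G i x ≠ 0 := by
    by_contra hcon
    push Not at hcon
    by_cases hb : ∀ i, B i x = 0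
    · have h1 := hx (-(L x 0)) (u 0) 0 (by
        ext i
        simp only [Pi.add_apply, Pi.smul_apply, smul_eq_mul, Pi.zero_apply]
        have h2 := hb i
        rw [hB] at h2
        linear_combination h2)
      exact hu h1.2.1
    · push Not at hb
      obtain ⟨i, hi⟩ := hb
      have h1 := hx (G i x * L x 0 - B i x * M x 0) (-(G i x * u 0)) (B i x * u 0) (by
        ext j
        simp only [Pi.add_apply, Pi.smul_apply, smul_eq_mul, Pi.zero_apply]
        have h2 := hcon i j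
        rw [hB j, hG j] at h2
        linear_combination h2)
      exact (mul_ne_zero hi hu) h1.2.2
  obtain ⟨i, j, hij⟩ := hne
  refine ⟨fun v => B i v * G j v - B j v * G i v, pg_poly2 _ _ _ _, ⟨x, hij⟩, ?_⟩
  intro v hv a b c hr
  have e : ∀ m, a * u m + b * L v m + c * M v m = 0 := fun m => congrFun hr m
  have r0 := e 0
  have ri := e i
  have rj := e j
  have k1 : b * B i v + c * G i v = 0 := by
    rw [hB, hG]; linear_combination u 0 * ri - u i * r0
  have k2 : b * B j v + c * G j v = 0 := by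
    rw [hB, hG]; linear_combination u 0 * rj - u j * r0
  have k3 : b * (B i v * G j v - B j v * G i v) = 0 := by
    linear_combination G j v * k1 - G i v * k2
  have k4 : c * (B i v * G j v - B j v * G i v) = 0 := by
    linear_combination B i v * k2 - B j v * k1
  have hb : b = 0 := (mul_eq_zero.1 k3).resolve_right hv
  have hc : c = 0 := (mul_eq_zero.1 k4).resolve_right hv
  subst hb
  subst hc
  have k5 : a * u 0 = 0 := by linarith
  exact ⟨(mul_eq_zero.1 k5).resolve_right hu, rfl, rfl⟩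

open Finset in
private theorem pg_perm {m : ℕ} {f : Fin m → V} (hf : GF f) (σ : Equiv.Perm (Fin m)) :
    GF (fun i => f (σ i)) := by
  intro x hx hc
  have h1 : ∑ k, x (σ.symm k) • f k = 0 := by
    rw [← Equiv.sum_comp σ]
    simpa only [Equiv.symm_apply_apply] using hx
  have h2 : #{k | x (σ.symm k) ≠ 0} ≤ 4 := by
    refine le_trans (le_of_eq ?_) hc
    apply card_bij (fun k _ => σ.symm k)
    · intro k hk
      rw [mem_filter] at hk ⊢
      exact ⟨mem_univ _, hk.2⟩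
    · intro k _ k' _ h
      exact σ.symm.injective h
    · intro k hk
      rw [mem_filter] at hk
      refine ⟨σ k, ?_, by simp⟩
      rw [mem_filter]
      exact ⟨mem_univ _, by simpa using hk.2⟩
  have h3 := hf (fun k => x (σ.symm k)) h1 h2
  ext k
  have := congrFun h3 (σ k)
  simpa using this

/-- Proof.  (1) Choose `x2 ∈ InC` outside countably many closed nowhere dense sets (`exists_generic`,
or `mg_exists_free` with an empty `W`) such that
 (i) for all `j`: `x2` and `ρ (t j) x2` are independent: `ρ (t j) v = φ(v) o' - v` is a point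
 reflection; choose `v` with `φ(v) ≠ 0` and `v` not proportional to `o'`; some `2 × 2` minor of
 `(v, ρ (t j) v)` is non-zero at this `v`, and it is a polynomial of degree two on lines (`Poly2`);
 (ii) for all `τ ∈ 𝒯`, all `j` and all `a ∈ Γ` with `a t j ≠ τ a`: `o τ, ρ a x2, ρ a (ρ (t j) x2)`
 are independent.  By `H.ns` for `τ` and `τ' = a t j a⁻¹ ≠ τ` (in `𝒯` by `H.conj`, `H.t_mem`) there
 is `x` with `LI3 (o τ) x (ρ τ' x)`; put `x' = ρ a⁻¹ x`, so `ρ a x' = x`,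
 `ρ a (ρ (t j) x') = ρ τ' x`.  `LI3 (o τ) (ρ a v) (ρ a (ρ (t j) v))` holds as soon as some `3 × 3` minor (or the
 determinant with a fixed fourth vector) is non-zero, and this is a `Poly2` function of `v`,
 non-zero at `x'` for a suitable minor;
 (iii) for all `τ ∈ 𝒯` and `b ∈ Γ`: `o τ` and `ρ b x2` are independent (a linear condition:
 `(o τ) 0 * (ρ b v) 1 - (o τ) 1 * (ρ b v) 0 ≠ 0`; `(o τ) 0 > 0` since `o τ ∈ InC` by `H.pref`).
The index sets are countable since `Γ` is (use the range of `t` instead of `ι`).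
(2) Choose successively `x1, x3, y1, y2, y3 ∈ InC` such that no translate is in the span of three
elements of the union of the orbits of all `o τ`, of `x2` and of the points chosen before
(`exists_free`); note that this union is invariant under `Γ` only for the orbits, but `Free W (ρ g v)`
is given for all `g`, and `W` may contain all `ρ g (o τ)`.
(3) Each of the required families is obtained with `GF.cons` from one of the base families
`![ρ c x2]`, `![o τ, ρ b x2]` (iii), `![ρ a x2, ρ a (ρ (t j) x2)]` (i, translated by `a`),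
`![o τ, ρ a x2, ρ a (ρ (t j) x2)]` (ii) by adding the free vectors in the order `x1, x3, y1, y2, y3`;
reorder with `gen6_of` (for `g7` reorder by hand: `GF` of a permuted family). -/
theorem genposP {Γ : Type} [Group Γ] [Countable Γ] {ρ : Γ →* (V →ₗ[ℝ] V)} {𝒯 : Set Γ}
    {o : Γ → V} {ι : Type} {t : ι → Γ} {pos : Γ → Prop} (H : PHyp ρ 𝒯 o t pos) :
    Nonempty (PFam ρ 𝒯 o t) := by
  have hT : 𝒯.Countable := Set.to_countable 𝒯
  have ho0 : ∀ τ ∈ 𝒯, (o τ) 0 ≠ 0 := fun τ hτ => ((H.pref τ hτ).inC.1).ne'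
  choose φ hφ using fun τ : 𝒯 => (H.pref τ.1 τ.2).ex
  have hex : ∀ p : {p : 𝒯 × 𝒯 × Γ // p.1 ≠ p.2.1}, ∃ q : V → ℝ, Poly2 q ∧ (∃ v, q v ≠ 0) ∧
      ∀ v, q v ≠ 0 → LI3 (o p.1.1) (ρ p.1.2.2 v) (ρ p.1.2.1 (ρ p.1.2.2 v)) := by
    rintro ⟨⟨τ, τ', a⟩, hne⟩
    obtain ⟨x, hx⟩ := H.ns τ.1 τ.2 τ'.1 τ'.2 (fun h => hne (Subtype.ext h))
    refine pg_q3 (o τ) (ho0 τ τ.2) (ρ a) ((ρ τ').comp (ρ a)) ⟨ρ a⁻¹ x, ?_⟩
    rw [LinearMap.comp_apply, GP.rho_inv]
    exact hx
  choose Q hQ1 hQ2 hQ3 using hex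
  obtain ⟨x2, hx2, hgen⟩ := exists_generic
    (ι := 𝒯 ⊕ ((𝒯 × Γ) ⊕ {p : 𝒯 × 𝒯 × Γ // p.1 ≠ p.2.1}))
    (fun k v => Sum.elim (fun τ : 𝒯 => φ τ v) (fun k' => Sum.elim
      (fun s : 𝒯 × Γ => (ρ s.2 v) 0 * (o s.1) 1 - (ρ s.2 v) 1 * (o s.1) 0)
      (fun p => Q p v) k') k)
    (by
      rintro (τ | s | p)
      · exact poly2_linear (φ τ)
      · exact poly2_linear (mgLin _ _ (ρ s.2))
      · exact hQ1 p)
    (by
      rintro (τ | s | p)
      · refine ⟨o τ, ?_⟩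
        simp only [Sum.elim_inl]
        rw [(hφ τ).1]
        norm_num
      · refine ⟨ρ s.2⁻¹ ![0, 1, 0, 0], ?_⟩
        simp only [Sum.elim_inl, Sum.elim_inr]
        rw [GP.rho_inv]
        have h1 := ho0 s.1 s.1.2
        simpa using h1
      · exact hQ2 p)
  have c1 : ∀ τ : 𝒯, φ τ x2 ≠ 0 := fun τ => hgen (Sum.inl τ)
  have c2 : ∀ (τ : 𝒯) (b : Γ), (ρ b x2) 0 * (o τ) 1 - (ρ b x2) 1 * (o τ) 0 ≠ 0 :=
    fun τ b => hgen (Sum.inr (Sum.inl (τ, b)))
  have c3 : ∀ τ ∈ 𝒯, ∀ τ' ∈ 𝒯, ∀ a, τ ≠ τ' → LI3 (o τ) (ρ a x2) (ρ τ' (ρ a x2)) :=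
    fun τ hτ τ' hτ' a hne => hQ3 ⟨(⟨τ, hτ⟩, ⟨τ', hτ'⟩, a), fun h => hne (congrArg Subtype.val h)⟩
      x2 (hgen (Sum.inr (Sum.inr _)))
  have hx2D : ∀ g, InC (ρ g x2) := fun g => H.inC g x2 hx2
  -- two independent vectors
  have li2o : ∀ τ ∈ 𝒯, ∀ b, ∀ x y : ℝ, x • ρ b x2 + y • o τ = 0 → x = 0 ∧ y = 0 := by
    intro τ hτ b x y h
    have e : ∀ m, x * (ρ b x2) m + y * (o τ) m = 0 := fun m => congrFun h m
    have e0 := e 0
    have e1 := e 1
    have h1 : x * ((ρ b x2) 0 * (o τ) 1 - (ρ b x2) 1 * (o τ) 0) = 0 := by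
      linear_combination (o τ) 1 * e0 - (o τ) 0 * e1
    have hx : x = 0 := (mul_eq_zero.1 h1).resolve_right (c2 ⟨τ, hτ⟩ b)
    subst hx
    have h2 : y * (o τ) 0 = 0 := by linarith
    exact ⟨rfl, (mul_eq_zero.1 h2).resolve_right (ho0 τ hτ)⟩
  have li2t : ∀ j a, ∀ x y : ℝ, x • ρ a x2 + y • ρ a (ρ (t j) x2) = 0 → x = 0 ∧ y = 0 := by
    intro j a x y h
    have h1 := congrArg (ρ a⁻¹) h
    rw [map_add, map_smul, map_smul, map_zero, GP.rho_inv', GP.rho_inv'] at h1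
    have h2 : ρ (t j) x2 = φ ⟨t j, H.t_mem j⟩ x2 • o (t j) - x2 :=
      (hφ ⟨t j, H.t_mem j⟩).2 x2
    rw [h2] at h1
    have h3 : (x - y) • ρ 1 x2 + (y * φ ⟨t j, H.t_mem j⟩ x2) • o (t j) = 0 := by
      rw [GP.rho_one, ← h1]
      module
    obtain ⟨h4, h5⟩ := li2o (t j) (H.t_mem j) 1 _ _ h3
    have hy : y = 0 := (mul_eq_zero.1 h5).resolve_right (c1 _)
    subst hy
    exact ⟨by linarith, rfl⟩
  have li3 : ∀ τ ∈ 𝒯, ∀ j a, a * t j ≠ τ * a → ∀ x y z : ℝ,
      x • ρ a x2 + y • ρ a (ρ (t j) x2) + z • o τ = 0 → x = 0 ∧ y = 0 ∧ z = 0 := by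
    intro τ hτ j a hne x y z h
    have h1 : τ ≠ a * t j * a⁻¹ := by
      intro h2
      apply hne
      rw [h2]
      group
    have h2 := c3 τ hτ _ (H.conj (t j) (H.t_mem j) a) a h1
    have h3 : ρ (a * t j * a⁻¹) (ρ a x2) = ρ a (ρ (t j) x2) := by
      rw [← GP.rho_mul, ← GP.rho_mul]
      congr 2
      group
    rw [h3] at h2
    obtain ⟨k1, k2, k3⟩ := h2 z x y (by rw [← h]; abel)
    exact ⟨k2, k3, k1⟩
  -- free letters
  let Orb : V → Set V := fun w => Set.range fun g => ρ g w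
  have hOrb : ∀ w, (Orb w).Countable := fun w => Set.countable_range _
  set Wa : Set V := (o '' 𝒯) ∪ Orb x2 with hWa
  have cWa : Wa.Countable := (hT.image o).union (hOrb x2)
  have ma_o : ∀ τ ∈ 𝒯, o τ ∈ Wa := fun τ hτ => Or.inl ⟨τ, hτ, rfl⟩
  have ma_x2 : ∀ g, ρ g x2 ∈ Wa := fun g => Or.inr ⟨g, rfl⟩
  have ma_x2J : ∀ g j, ρ g (ρ (t j) x2) ∈ Wa := fun g j => by rw [← GP.rho_mul]; exact ma_x2 _
  have ec : ∀ {n : ℕ} {f : Fin n → V} {v : V} {W : Set V}, v ∈ W → (∀ i, f i ∈ W) →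
      ∀ i, (Matrix.vecCons v f) i ∈ W := by
    intro n f v W hv hf i
    refine Fin.cases ?_ (fun j => ?_) i
    · simpa using hv
    · simpa using hf j
  have e0 : ∀ {W : Set V}, ∀ i, (![] : Fin 0 → V) i ∈ W := fun i => i.elim0
  obtain ⟨y2, hy2, fy2⟩ := exists_free ρ cWa
  set W0 : Set V := Wa ∪ Orb y2 with hW0
  have cW0 : W0.Countable := cWa.union (hOrb y2)
  obtain ⟨x1, hx1, fx1⟩ := exists_free ρ cW0
  set W1 : Set V := W0 ∪ Orb x1 with hW1
  have cW1 : W1.Countable := cW0.union (hOrb x1)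
  obtain ⟨x3, hx3, fx3⟩ := exists_free ρ cW1
  set W2 : Set V := W1 ∪ Orb x3 with hW2
  have cW2 : W2.Countable := cW1.union (hOrb x3)
  obtain ⟨y1, hy1, fy1⟩ := exists_free ρ cW2
  set W3 : Set V := W2 ∪ Orb y1 with hW3
  have cW3 : W3.Countable := cW2.union (hOrb y1)
  obtain ⟨y3, hy3, fy3⟩ := exists_free ρ cW3
  have fy3' : Free W3 y3 := by
    have := fy3 1
    rwa [GP.rho_one] at this
  have ia0 : Wa ⊆ W0 := Set.subset_union_left
  have m_y2 : ∀ g, ρ g y2 ∈ W0 := fun g => Or.inr ⟨g, rfl⟩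
  have m_x1 : ∀ g, ρ g x1 ∈ W1 := fun g => Or.inr ⟨g, rfl⟩
  have m_x3 : ∀ g, ρ g x3 ∈ W2 := fun g => Or.inr ⟨g, rfl⟩
  have m_y1 : ∀ g, ρ g y1 ∈ W3 := fun g => Or.inr ⟨g, rfl⟩
  have i01 : W0 ⊆ W1 := Set.subset_union_left
  have i12 : W1 ⊆ W2 := Set.subset_union_left
  have i23 : W2 ⊆ W3 := Set.subset_union_left
  have GF1 : ∀ c, GF ![ρ c x2] := by
    intro c x hx _
    rw [Fin.sum_univ_one] at hx
    ext i
    fin_cases i
    have h1 : x 0 • ρ c x2 = 0 := by simpa using hx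
    have h2 : ρ c x2 ≠ 0 := by
      intro h3
      have h4 := (hx2D c).1
      rw [h3] at h4
      exact absurd h4 (by simp)
    exact (smul_eq_zero.1 h1).resolve_right h2
  let σ1 : Equiv.Perm (Fin 6) := ⟨![2, 3, 5, 0, 1, 4], ![3, 4, 0, 1, 5, 2], by decide, by decide⟩
  let σ2 : Equiv.Perm (Fin 6) := ⟨![1, 2, 4, 5, 0, 3], ![4, 0, 1, 5, 2, 3], by decide, by decide⟩
  let σ4 : Equiv.Perm (Fin 6) := ⟨![2, 4, 5, 0, 1, 3], ![3, 4, 0, 5, 1, 2], by decide, by decide⟩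
  let σ5 : Equiv.Perm (Fin 6) := ⟨![1, 3, 4, 5, 0, 2], ![4, 0, 5, 1, 2, 3], by decide, by decide⟩
  let σ7 : Equiv.Perm (Fin 5) := ⟨![4, 0, 2, 1, 3], ![1, 3, 2, 4, 0], by decide, by decide⟩
  refine ⟨⟨x1, x2, x3, y1, y2, y3, hx1, hx2, hx3, hy1, hy2, hy3, ?_, ?_, ?_, ?_, ?_⟩⟩
  · intro a b c d e
    have wa := ec (ma_x2 c) (e0 (W := Wa))
    have h0 := (GF1 c).cons wa (fy2 e)
    have w0 := ec (m_y2 e) (fun i => ia0 (wa i))
    have h1 := h0.cons w0 (fx1 b)
    have w1 := ec (m_x1 b) (fun i => i01 (w0 i))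
    have h2 := h1.cons w1 (fx3 a)
    have w2 := ec (m_x3 a) (fun i => i12 (w1 i))
    have h3 := h2.cons w2 (fy1 d)
    have w3 := ec (m_y1 d) (fun i => i23 (w2 i))
    have h4 := h3.cons w3 fy3'
    exact gen6_of h4 σ1
  · intro τ hτ a b c d e
    have wa := ec (ma_x2 c) (ec (ma_o τ hτ) (e0 (W := Wa)))
    have hb : GF ![ρ c x2, o τ] := mg_GF2 fun x y h => li2o τ hτ c x y h
    have h0 := hb.cons wa (fy2 e)
    have w0 := ec (m_y2 e) (fun i => ia0 (wa i))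
    have h1 := h0.cons w0 (fx1 b)
    have w1 := ec (m_x1 b) (fun i => i01 (w0 i))
    have h2 := h1.cons w1 (fx3 a)
    have w2 := ec (m_x3 a) (fun i => i12 (w1 i))
    have h3 := h2.cons w2 (fy1 d)
    exact gen6_of h3 σ2
  · intro j a d e
    have wa := ec (ma_x2 a) (ec (ma_x2J a j) (e0 (W := Wa)))
    have h0 := (mg_GF2 (li2t j a)).cons wa (fy2 e)
    have w0 := ec (m_y2 e) (fun i => ia0 (wa i))
    have h1 := h0.cons w0 (fx1 a)
    have w1 := ec (m_x1 a) (fun i => i01 (w0 i))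
    have h2 := h1.cons (fun i => i12 (w1 i)) (fy1 d)
    have w2 := ec (m_y1 d) (fun i => i23 (i12 (w1 i)))
    have h3 := h2.cons w2 fy3'
    exact gen6_of h3 σ4
  · intro τ hτ j a d e hne
    have wa := ec (ma_x2 a) (ec (ma_x2J a j) (ec (ma_o τ hτ) (e0 (W := Wa))))
    have h0 := (mg_GF3 (li3 τ hτ j a hne)).cons wa (fy2 e)
    have w0 := ec (m_y2 e) (fun i => ia0 (wa i))
    have h1 := h0.cons w0 (fx1 a)
    have w1 := ec (m_x1 a) (fun i => i01 (w0 i))
    have h2 := h1.cons (fun i => i12 (w1 i)) (fy1 d)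
    exact gen6_of h2 σ5
  · intro τ hτ a b d e
    have wa := ec (ma_x2 b) (ec (ma_o τ hτ) (e0 (W := Wa)))
    have hb : GF ![ρ b x2, o τ] := mg_GF2 fun x y h => li2o τ hτ b x y h
    have h0 := hb.cons wa (fy2 e)
    have w0 := ec (m_y2 e) (fun i => ia0 (wa i))
    have h1 := h0.cons w0 (fx1 a)
    have w1 := ec (m_x1 a) (fun i => i01 (w0 i))
    have h2 := h1.cons (fun i => i12 (w1 i)) (fy1 d)
    have h3 := pg_perm h2 σ7
    have h4 : (fun i => ![ρ d y1, ρ a x1, ρ e y2, ρ b x2, o τ] (σ7 i)) =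
        ![o τ, ρ d y1, ρ e y2, ρ a x1, ρ b x2] := by
      funext i
      fin_cases i <;> rfl
    rwa [h4] at h3

end QTW
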