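import Pool.Agent.QTW.AdjA
import Pool.Agent.QTW.NbB
import Pool.Agent.QTW.FixQ

/-!
# PsiA: the function `ψ²` (size 3)
-/

open Matrix

namespace QTW

open SerreE SerreK SerreU

variable {n M : ℕ}

/-- the data of an eigenfunction with eigenvalues `b p ^ 2` -/
structure Psi (φ : Herm n M → FF) (b : ℕ → FF) : Prop where
  inv : HInv φ
  ev : ∀ h, Ev h → φ h = 0
  eig : ∀ p : ℕ, p.Prime → ¬ p ∣ 2 * (4 * n + 3) * M → ∀ (h : Herm n M) (r : ℕ)
    (α : Fin r → Mat n) (k : Fin r → Herm n M), Nbrs p h α k → ∑ i, φ (k i) = b p ^ 2 * φ h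

/-- the conditions on `q` -/
structure QQ (n M q : ℕ) : Prop where
  prime : q.Prime
  four : q % 4 = 3
  inert : Prime (q : OK n)
  nd : ¬ q ∣ M

/-- `q` is odd and different from `4n+3` (`ari_ram`) -/
theorem qq_nd {q : ℕ} (Q : QQ n M q) : ¬ q ∣ 2 * (4 * n + 3) * M := by
  intro hdvd
  rcases (Nat.Prime.dvd_mul Q.prime).1 hdvd with h | h
  · rcases (Nat.Prime.dvd_mul Q.prime).1 h with h2 | h3
    · have h4 : q ≤ 2 := Nat.le_of_dvd (by norm_num) h2
      have h5 := Q.four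
      omega
    · have h4 : (q : OK n) ∣ (⟨-1, 2⟩ : OK n) ^ 2 := by
        obtain ⟨c, hc⟩ := h3
        have h6 : (⟨-1, 2⟩ : OK n) ^ 2 = -((4 * n + 3 : ℕ) : OK n) := by
          rw [pow_two]
          ext
          · rw [QuadraticAlgebra.re_mul, QuadraticAlgebra.re_neg, QuadraticAlgebra.re_natCast]
            push_cast
            ring
          · rw [QuadraticAlgebra.im_mul, QuadraticAlgebra.im_neg, QuadraticAlgebra.im_natCast]
            ring
        rw [h6, hc]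
        push_cast
        exact ⟨-(c : OK n), by ring⟩
      obtain ⟨c, hc⟩ := Q.inert.dvd_of_dvd_pow h4
      have h5 := congrArg QuadraticAlgebra.re hc
      rw [QuadraticAlgebra.re_mul] at h5
      simp at h5
      have h6 : (q : ℤ) ∣ 1 := ⟨-c.re, by linear_combination -h5⟩
      have h7 : q ∣ 1 := by exact_mod_cast h6
      exact Q.prime.one_lt.ne' (Nat.dvd_one.1 h7)
  · exact Q.nd h

/-- Proof.  `φ h = ψ h ^ 2`; sums of squares are squares of sums (`CharTwo.sum_sq` / `sum_pow_char`).  `ev`: for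
`Ev h` and neighbours at `q` (`nbrs_exist`), `0 = Σ φ (k i) = b q ^ 2 φ h` by `fix_q`, and `b q ≠ 0`. -/
theorem psi_sq (hn : n ∈ ({0, 1, 2, 4, 10, 16, 40} : Finset ℕ)) {ψ : Herm n M → FF} {b : ℕ → FF}
    (h : QEig ψ b) {q : ℕ} (Q : QQ n M q) (hb : b q ≠ 0) :
    Psi (fun h => ψ h ^ 2) b := by
  have _ : IsPrincipalIdealRing (OK n) := pidm n hn
  have hinv : HInv (fun h => ψ h ^ 2) := by
    rintro h1 h2 ⟨g, hg, ht⟩
    change ψ h2 ^ 2 = ψ h1 ^ 2
    rw [h.inv g h1 h2 hg.1 hg.2 ht]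
  have heig : ∀ p : ℕ, p.Prime → ¬ p ∣ 2 * (4 * n + 3) * M → ∀ (h : Herm n M) (r : ℕ)
      (α : Fin r → Mat n) (k : Fin r → Herm n M), Nbrs p h α k →
      ∑ i, ψ (k i) ^ 2 = b p ^ 2 * ψ h ^ 2 := by
    intro p hp hp2 h1 r α k N
    rw [← CharTwo.sum_sq, h.eig p hp hp2 h1 r α k N, mul_pow]
  refine ⟨hinv, fun h1 hEv => ?_, heig⟩
  obtain ⟨r, α, k, N⟩ := nbrs_exist Q.prime (qq_nd Q) h1
  have hc : q.Coprime M := (Nat.Prime.coprime_iff_not_dvd Q.prime).2 Q.nd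
  have h2 := fix_q Q.prime Q.four Q.inert hc hEv N (fun h => ψ h ^ 2) hinv
  have h3 := heig q Q.prime (qq_nd Q) h1 r α k N
  change ψ h1 ^ 2 = 0
  have h4 : b q ^ 2 * ψ h1 ^ 2 = 0 := by rw [← h3]; exact h2
  exact (mul_eq_zero.1 h4).resolve_left (pow_ne_zero 2 hb)

end QTW
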