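import Pool.Agent.QTW.PDefs

/-!
# SplA: crossings in the link of a point (size 3)
-/

namespace QTW

open SerreK SerreK.GP

private theorem SplA_card (x : Fin 5 → ℝ) (i0 : Fin 5) (h : x i0 = 0) :
    (Finset.univ.filter fun i => x i ≠ 0).card ≤ 4 := by
  have h1 : (Finset.univ.filter fun i => x i ≠ 0) ⊆ Finset.univ.erase i0 := by
    intro i hi
    rw [Finset.mem_filter] at hi
    rw [Finset.mem_erase]
    refine ⟨?_, Finset.mem_univ _⟩
    rintro rfl
    exact hi.2 h
  refine (Finset.card_le_card h1).trans ?_
  rw [Finset.card_erase_of_mem (Finset.mem_univ _)]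
  simp

private theorem SplA_rel {o a b p q : V} (G : GF ![o, a, b, p, q]) (x : Fin 5 → ℝ)
    (h : x 0 • o + x 1 • a + x 2 • b + x 3 • p + x 4 • q = 0) (i0 : Fin 5) (h0 : x i0 = 0) :
    x = 0 := by
  refine G x ?_ ?_
  · rw [Fin.sum_univ_five]
    exact h
  · convert SplA_card x i0 h0

/-- Every four of the vectors `o, a, b, p, q` are independent (`GF`, see GENPOS.lean). Then exactly one
of `Hit o a b p q`, `Hit o p q a b` holds if `X5 o a b p q`, and none otherwise.

Proof.  Both `Hit`s imply `X5` (with `c > 0`, resp. `c < 0`; order the terms).  Let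
`β a + γ b + c o = s p + t q` with `β, γ, s, t > 0`.  Then `c ≠ 0` (otherwise `a, b, p, q` are
dependent: apply `G` to the coefficient vector `![0, β, γ, -s, -t]`, whose support has at most four
elements).  If `c > 0` this is `Hit o a b p q`, if `c < 0` it is `Hit o p q a b`.  Both cannot hold:
two relations `(c, β, γ, -s, -t)`, `(-c', β', γ', -s', -t')` with `c, c' > 0`; the combination
`β' * (first) - β * (second)` has coefficient `0` at `a`, so by `G` it is the zero relation, and the
coefficient `β' c + β c'` at `o` vanishes, which is impossible. -/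
theorem link (k : Type) [Field k] (o a b p q : V) (G : GF ![o, a, b, p, q]) :
    ind k (Hit o a b p q) + ind k (Hit o p q a b) = ind k (X5 o a b p q) := by
  have hX1 : Hit o a b p q → X5 o a b p q := by
    rintro ⟨x, y, z, s, t, hx, hy, hz, hs, ht, h⟩
    refine ⟨y, z, s, t, x, hy, hz, hs, ht, ?_⟩
    rw [← h]
    abel
  have hX2 : Hit o p q a b → X5 o a b p q := by
    rintro ⟨x, y, z, s, t, hx, hy, hz, hs, ht, h⟩
    refine ⟨s, t, y, z, -x, hs, ht, hy, hz, ?_⟩
    rw [← h, neg_smul]
    abel
  have hno : Hit o a b p q → ¬ Hit o p q a b := by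
    rintro ⟨x, y, z, s, t, hx, hy, hz, hs, ht, h⟩ ⟨x', y', z', s', t', hx', hy', hz', hs', ht', h'⟩
    have e1 := SplA_rel G ![s' * x + y * x', 0, s' * z - y * t', y * y' - s' * s, y * z' - s' * t]
      (by
        have e2 : (x • o + y • a + z • b) - (s • p + t • q) = 0 := sub_eq_zero.2 h
        have e3 : (x' • o + y' • p + z' • q) - (s' • a + t' • b) = 0 := sub_eq_zero.2 h'
        have e4 : s' • ((x • o + y • a + z • b) - (s • p + t • q)) +
            y • ((x' • o + y' • p + z' • q) - (s' • a + t' • b)) = 0 := by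
          rw [e2, e3, smul_zero, smul_zero, add_zero]
        rw [← e4]
        show (s' * x + y * x') • o + (0 : ℝ) • a + (s' * z - y * t') • b +
          (y * y' - s' * s) • p + (y * z' - s' * t) • q = _
        module) 1 rfl
    have e5 := congrFun e1 0
    have e6 : s' * x + y * x' = 0 := e5
    have e7 : 0 < s' * x + y * x' := by positivity
    exact e7.ne' e6
  have hor : X5 o a b p q → Hit o a b p q ∨ Hit o p q a b := by
    rintro ⟨β, γ, s, t, c, hβ, hγ, hs, ht, h⟩
    rcases lt_trichotomy c 0 with hc | hc | hc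
    · right
      refine ⟨-c, s, t, β, γ, neg_pos.2 hc, hs, ht, hβ, hγ, ?_⟩
      have e1 : s • p + t • q = β • a + γ • b + c • o := h.symm
      calc (-c) • o + s • p + t • q = (-c) • o + (s • p + t • q) := by abel
        _ = β • a + γ • b := by rw [e1]; module
    · exfalso
      have e1 := SplA_rel G ![0, β, γ, -s, -t] (by
        show (0 : ℝ) • o + β • a + γ • b + (-s) • p + (-t) • q = 0
        have e2 : (β • a + γ • b + c • o) - (s • p + t • q) = 0 := sub_eq_zero.2 h
        rw [hc] at e2
        rw [← e2]
        module) 0 rfl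
      have e2 : β = 0 := congrFun e1 1
      exact hβ.ne' e2
    · left
      refine ⟨c, β, γ, s, t, hc, hβ, hγ, hs, ht, ?_⟩
      rw [← h]
      abel
  by_cases hX : X5 o a b p q
  · rw [ind_true hX]
    rcases hor hX with h1 | h2
    · rw [ind_true h1, ind_false (hno h1), add_zero]
    · rw [ind_true h2, ind_false (fun h => hno h h2), zero_add]
  · rw [ind_false hX, ind_false (fun h => hX (hX1 h)), ind_false (fun h => hX (hX2 h)), add_zero]

end QTW
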