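import Pool.Agent.QTW.PDefs

/-!
# SplB: a triangle with an edge through `o` (size 3)
`w' = φ(w) o - w` is the image of `w` under the point reflection at `o`.
-/

namespace QTW

open SerreK SerreK.GP

private theorem SplB_rel {o a b u w : V} (G : GF ![o, a, b, u, w]) (x : Fin 5 → ℝ)
    (h : x 0 • o + x 1 • a + x 2 • b + x 3 • u + x 4 • w = 0) (i : Fin 5) (hi : x i = 0) :
    x = 0 := by
  apply G x
  · rw [Fin.sum_univ_five]
    exact h
  · have h1 : (Finset.univ.filter fun j => x j ≠ 0) ⊆ Finset.univ.erase i := by
      intro j hj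
      rw [Finset.mem_erase]
      refine ⟨?_, Finset.mem_univ _⟩
      rintro rfl
      exact (Finset.mem_filter.1 hj).2 hi
    refine (Finset.card_le_card h1).trans ?_
    rw [Finset.card_erase_of_mem (Finset.mem_univ _), Finset.card_univ, Fintype.card_fin]

private theorem SplB_ind (k : Type) [Field k] {P Q R : Prop} (h1 : P ↔ Q ∨ R) (h2 : ¬ (Q ∧ R)) :
    ind k P = ind k Q + ind k R := by
  unfold ind
  by_cases hQ : Q
  · have hR : ¬ R := fun hR => h2 ⟨hQ, hR⟩
    rw [if_pos (h1.2 (Or.inl hQ)), if_pos hQ, if_neg hR, add_zero]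
  · by_cases hR : R
    · rw [if_pos (h1.2 (Or.inr hR)), if_neg hQ, if_pos hR, zero_add]
    · rw [if_neg (fun h => (h1.1 h).elim hQ hR), if_neg hQ, if_neg hR, zero_add]

/-- The triangle `(u, w, w')`, `w + w' = φ(w) o`, is the union of `(o, u, w)` and `(o, u, w')`.

Proof.  Write `x u + y w + z w' = s a + t b` (all `> 0`).  If `y > z` it is
`x u + (y - z) w + z φ(w) o`, so `Hit o u w a b`; if `y < z`, `Hit o u w' a b`; `y = z` gives a
relation between `o, u, a, b`, impossible by `G` (coefficient vector with a `0` at `w`).  Conversely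
`c o + x u + y w = s a + t b` gives `x u + (y + c/φ(w)) w + (c/φ(w)) w' = s a + t b`, similarly for
`w'`.  `Hit o u w a b` and `Hit o u w' a b` exclude each other: relations
`c o + x u + y w - s a - t b = 0` and `(c' + y' φ(w)) o + x' u - y' w - s' a - t' b = 0`; eliminate
`u` (`x' * first - x * second`), then by `G` all coefficients vanish, but the one of `w` is
`x' y + x y' > 0`. -/
theorem split2 (k : Type) [Field k] (o a b u w : V) (φ : V →ₗ[ℝ] ℝ) (hw : 0 < φ w)
    (G : GF ![o, a, b, u, w]) :
    ind k (Hit u w (φ w • o - w) a b) =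
      ind k (Hit o u w a b) + ind k (Hit o u (φ w • o - w) a b) := by
  generalize φ w = f at hw ⊢
  refine SplB_ind k ⟨?_, ?_⟩ ?_
  · rintro ⟨x, y, z, s, t, hx, hy, hz, hs, ht, h⟩
    rcases lt_trichotomy y z with hyz | hyz | hyz
    · right
      refine ⟨y * f, x, z - y, s, t, mul_pos hy hw, hx, sub_pos.2 hyz, hs, ht, ?_⟩
      rw [← h]
      module
    · exfalso
      have h0 := SplB_rel G ![z * f, -s, -t, x, 0] (by
        have h' : (z * f) • o + (-s) • a + (-t) • b + x • u + (0 : ℝ) • w =
          (x • u + y • w + z • (f • o - w)) - (s • a + t • b) := by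
          rw [hyz]
          module
        simpa [h, sub_self] using h') 4 rfl
      have h1 := congrFun h0 1
      simp only [Matrix.cons_val_one, Matrix.cons_val_zero, Pi.zero_apply] at h1
      linarith
    · left
      refine ⟨z * f, x, y - z, s, t, mul_pos hz hw, hx, sub_pos.2 hyz, hs, ht, ?_⟩
      rw [← h]
      module
  · rintro (⟨c, x, y, s, t, hc, hx, hy, hs, ht, h⟩ | ⟨c, x, y, s, t, hc, hx, hy, hs, ht, h⟩)
    · refine ⟨x, y + c / f, c / f, s, t, hx, by positivity, by positivity, hs, ht, ?_⟩
      rw [← h]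
      have h1 : c = c / f * f := by field_simp
      have h2 : c • o = (c / f) • (f • o) := by rw [smul_smul, ← h1]
      rw [h2]
      module
    · refine ⟨x, c / f, y + c / f, s, t, hx, by positivity, by positivity, hs, ht, ?_⟩
      rw [← h]
      have h1 : c = c / f * f := by field_simp
      have h2 : c • o = (c / f) • (f • o) := by rw [smul_smul, ← h1]
      rw [h2]
      module
  · rintro ⟨⟨c, x, y, s, t, hc, hx, hy, hs, ht, h⟩, c', x', y', s', t', hc', hx', hy', hs', ht', h'⟩
    have h0 := SplB_rel G ![x' * c - x * (c' + y' * f), x * s' - x' * s, x * t' - x' * t, 0,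
      x' * y + x * y'] (by
        have h1 : (x' * c - x * (c' + y' * f)) • o + (x * s' - x' * s) • a +
            (x * t' - x' * t) • b + (0 : ℝ) • u + (x' * y + x * y') • w =
            x' • ((c • o + x • u + y • w) - (s • a + t • b)) -
            x • ((c' • o + x' • u + y' • (f • o - w)) - (s' • a + t' • b)) := by
          module
        rw [h, h', sub_self, sub_self, smul_zero, smul_zero, sub_zero] at h1
        exact h1) 3 rfl
    have h1 := congrFun h0 4
    have h2 : x' * y + x * y' = 0 := h1
    have h3 : 0 < x' * y + x * y' := by positivity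
    exact h3.ne' h2

/-- The segment `(w, w')` does not meet the open triangle `(o, a, b)`: `c o + β a + γ b =
s w + t w' = (s - t) w + t φ(w) o` is a relation between `o, a, b, w` with coefficient `β > 0` at `a`,
impossible by `G` (zero coefficient at `u`). -/
theorem no_axis (o a b u w : V) (φ : V →ₗ[ℝ] ℝ) (G : GF ![o, a, b, u, w]) :
    ¬ Hit o a b w (φ w • o - w) := by
  rintro ⟨x, y, z, s, t, hx, hy, hz, hs, ht, h⟩
  have h0 := SplB_rel G ![x - t * φ w, y, z, 0, t - s] (by
    have h1 : (x - t * φ w) • o + y • a + z • b + (0 : ℝ) • u + (t - s) • w =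
        (x • o + y • a + z • b) - (s • w + t • (φ w • o - w)) := by
      module
    rw [h, sub_self] at h1
    exact h1) 3 rfl
  have h1 : y = 0 := congrFun h0 1
  exact hy.ne' h1

end QTW
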