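import Pool.Agent.QTW.PDefs

/-!
# SplC: the great circle in the link of `o` (size 4)
`v' = φ(v) o - v`; modulo `o` we have `v' = -v`.
-/

namespace QTW

open SerreK SerreK.GP

private theorem SplC_rel {o a b u w : V} (G : GF ![o, a, b, u, w]) (x : Fin 5 → ℝ)
    (h : x 0 • o + x 1 • a + x 2 • b + x 3 • u + x 4 • w = 0) (i : Fin 5) (hi : x i = 0) :
    x = 0 := by
  apply G x
  · rw [Fin.sum_univ_five]
    exact h
  · have h1 : (Finset.univ.filter fun j => x j ≠ 0) ⊆ Finset.univ.erase i := by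
      intro j hj
      rw [Finset.mem_erase]
      refine ⟨?_, Finset.mem_univ _⟩
      rintro rfl
      exact (Finset.mem_filter.1 hj).2 hi
    refine (Finset.card_le_card h1).trans ?_
    rw [Finset.card_erase_of_mem (Finset.mem_univ _), Finset.card_univ, Fintype.card_fin]

/-- the segment `(p, q)` meets the plane through `o, a, b` -/
private def SplC_Y (o a b p q : V) : Prop :=
  ∃ s t β γ c : ℝ, 0 < s ∧ 0 < t ∧ β • a + γ • b + c • o = s • p + t • q

private theorem SplC_ind4 (k : Type) [Field k] {Y A B C D : Prop} (hY : Y ↔ A ∨ B ∨ C ∨ D)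
    (hAB : ¬ (A ∧ B)) (hAC : ¬ (A ∧ C)) (hAD : ¬ (A ∧ D)) (hBC : ¬ (B ∧ C)) (hBD : ¬ (B ∧ D))
    (hCD : ¬ (C ∧ D)) : ind k A + ind k B + ind k C + ind k D = ind k Y := by
  unfold ind
  by_cases hA : A
  · have hB : ¬ B := fun h => hAB ⟨hA, h⟩
    have hC : ¬ C := fun h => hAC ⟨hA, h⟩
    have hD : ¬ D := fun h => hAD ⟨hA, h⟩
    rw [if_pos hA, if_neg hB, if_neg hC, if_neg hD, if_pos (hY.2 (Or.inl hA))]
    simp
  by_cases hB : B
  · have hC : ¬ C := fun h => hBC ⟨hB, h⟩
    have hD : ¬ D := fun h => hBD ⟨hB, h⟩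
    rw [if_neg hA, if_pos hB, if_neg hC, if_neg hD, if_pos (hY.2 (Or.inr (Or.inl hB)))]
    simp
  by_cases hC : C
  · have hD : ¬ D := fun h => hCD ⟨hC, h⟩
    rw [if_neg hA, if_neg hB, if_pos hC, if_neg hD, if_pos (hY.2 (Or.inr (Or.inr (Or.inl hC))))]
    simp
  by_cases hD : D
  · rw [if_neg hA, if_neg hB, if_neg hC, if_pos hD, if_pos (hY.2 (Or.inr (Or.inr (Or.inr hD))))]
    simp
  rw [if_neg hA, if_neg hB, if_neg hC, if_neg hD, if_neg (fun h => ?_)]
  · simp
  · rcases hY.1 h with h | h | h | h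
    exacts [hA h, hB h, hC h, hD h]

private def SplC_Z (o a b p q : V) (σ τ : ℝ) : Prop :=
  ∃ s t β γ c : ℝ, 0 < s ∧ 0 < t ∧ 0 < σ * β ∧ 0 < τ * γ ∧ β • a + γ • b + c • o = s • p + t • q

private theorem SplC_dis {o a b p q : V}
    (R : ∀ c β γ s t : ℝ, c • o + β • a + γ • b + s • p + t • q = 0 →
      (β = 0 ∨ γ = 0 ∨ s = 0) → β = 0 ∧ γ = 0 ∧ s = 0 ∧ t = 0) {σ τ σ' τ' : ℝ}
    (h1 : SplC_Z o a b p q σ τ) (h2 : SplC_Z o a b p q σ' τ') : 0 < σ * σ' ∧ 0 < τ * τ' := by
  obtain ⟨s, t, β, γ, c, hs, ht, hβ, hγ, h⟩ := h1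
  obtain ⟨s', t', β', γ', c', hs', ht', hβ', hγ', h'⟩ := h2
  obtain ⟨e1, e2, -, -⟩ := R (s' * c - s * c') (s' * β - s * β') (s' * γ - s * γ') 0
    (s * t' - s' * t) (by
      have h3 : (s' * c - s * c') • o + (s' * β - s * β') • a + (s' * γ - s * γ') • b +
          (0 : ℝ) • p + (s * t' - s' * t) • q =
          s' • ((β • a + γ • b + c • o) - (s • p + t • q)) -
          s • ((β' • a + γ' • b + c' • o) - (s' • p + t' • q)) := by
        module
      rw [h3, h, h', sub_self, sub_self, smul_zero, smul_zero, sub_zero]) (Or.inr (Or.inr rfl))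
  have key : ∀ x y x' y' : ℝ, 0 < x * y → 0 < x' * y' → s' * y - s * y' = 0 → 0 < x * x' := by
    intro x y x' y' hy hy' e
    have h4 : s * ((x * y) * (x' * y')) = (x * x') * (s' * y ^ 2) := by
      have h5 : s * y' = s' * y := by linarith
      linear_combination (x * y * x') * h5
    have h6 : 0 < s * ((x * y) * (x' * y')) := by positivity
    rw [h4] at h6
    by_contra hn
    have h7 : (x * x') * (s' * y ^ 2) ≤ 0 :=
      mul_nonpos_of_nonpos_of_nonneg (not_lt.1 hn) (by positivity)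
    linarith
  exact ⟨key _ _ _ _ hβ hβ' e1, key _ _ _ _ hγ hγ' e2⟩

private theorem SplC_sum (k : Type) [Field k] (o a b p q : V) (f g : ℝ)
    (R : ∀ c β γ s t : ℝ, c • o + β • a + γ • b + s • p + t • q = 0 →
      (β = 0 ∨ γ = 0 ∨ s = 0) → β = 0 ∧ γ = 0 ∧ s = 0 ∧ t = 0) :
    ind k (X5 o a b p q) + ind k (X5 o a (g • o - b) p q) +
      ind k (X5 o (f • o - a) (g • o - b) p q) + ind k (X5 o (f • o - a) b p q) =
      ind k (SplC_Y o a b p q) := by
  have hA : X5 o a b p q ↔ SplC_Z o a b p q 1 1 := by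
    constructor
    · rintro ⟨β, γ, s, t, c, hβ, hγ, hs, ht, h⟩
      exact ⟨s, t, β, γ, c, hs, ht, by linarith, by linarith, h⟩
    · rintro ⟨s, t, β, γ, c, hs, ht, hβ, hγ, h⟩
      exact ⟨β, γ, s, t, c, by linarith, by linarith, hs, ht, h⟩
  have hB : X5 o a (g • o - b) p q ↔ SplC_Z o a b p q 1 (-1) := by
    constructor
    · rintro ⟨β, γ, s, t, c, hβ, hγ, hs, ht, h⟩
      refine ⟨s, t, β, -γ, c + γ * g, hs, ht, by linarith, by linarith, ?_⟩
      rw [← h]
      module
    · rintro ⟨s, t, β, γ, c, hs, ht, hβ, hγ, h⟩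
      refine ⟨β, -γ, s, t, c + γ * g, by linarith, by linarith, hs, ht, ?_⟩
      rw [← h]
      module
  have hC : X5 o (f • o - a) (g • o - b) p q ↔ SplC_Z o a b p q (-1) (-1) := by
    constructor
    · rintro ⟨β, γ, s, t, c, hβ, hγ, hs, ht, h⟩
      refine ⟨s, t, -β, -γ, c + β * f + γ * g, hs, ht, by linarith, by linarith, ?_⟩
      rw [← h]
      module
    · rintro ⟨s, t, β, γ, c, hs, ht, hβ, hγ, h⟩
      refine ⟨-β, -γ, s, t, c + β * f + γ * g, by linarith, by linarith, hs, ht, ?_⟩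
      rw [← h]
      module
  have hD : X5 o (f • o - a) b p q ↔ SplC_Z o a b p q (-1) 1 := by
    constructor
    · rintro ⟨β, γ, s, t, c, hβ, hγ, hs, ht, h⟩
      refine ⟨s, t, -β, γ, c + β * f, hs, ht, by linarith, by linarith, ?_⟩
      rw [← h]
      module
    · rintro ⟨s, t, β, γ, c, hs, ht, hβ, hγ, h⟩
      refine ⟨-β, γ, s, t, c + β * f, by linarith, by linarith, hs, ht, ?_⟩
      rw [← h]
      module
  rw [hA, hB, hC, hD]
  refine SplC_ind4 k ⟨?_, ?_⟩ ?_ ?_ ?_ ?_ ?_ ?_
  · rintro ⟨s, t, β, γ, c, hs, ht, h⟩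
    have h0 : c • o + β • a + γ • b + (-s) • p + (-t) • q = 0 := by
      have h3 : c • o + β • a + γ • b + (-s) • p + (-t) • q =
        (β • a + γ • b + c • o) - (s • p + t • q) := by module
      rw [h3, h, sub_self]
    have hβ : β ≠ 0 := fun e => by
      have := (R _ _ _ _ _ h0 (Or.inl e)).2.2.1
      linarith
    have hγ : γ ≠ 0 := fun e => by
      have := (R _ _ _ _ _ h0 (Or.inr (Or.inl e))).2.2.1
      linarith
    rcases lt_or_gt_of_ne hβ with hβ' | hβ' <;> rcases lt_or_gt_of_ne hγ with hγ' | hγ'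
    · exact Or.inr (Or.inr (Or.inl ⟨s, t, β, γ, c, hs, ht, by linarith, by linarith, h⟩))
    · exact Or.inr (Or.inr (Or.inr ⟨s, t, β, γ, c, hs, ht, by linarith, by linarith, h⟩))
    · exact Or.inr (Or.inl ⟨s, t, β, γ, c, hs, ht, by linarith, by linarith, h⟩)
    · exact Or.inl ⟨s, t, β, γ, c, hs, ht, by linarith, by linarith, h⟩
  · rintro (h | h | h | h)
    all_goals
      obtain ⟨s, t, β, γ, c, hs, ht, -, -, h⟩ := h
      exact ⟨s, t, β, γ, c, hs, ht, h⟩
  all_goals
    rintro ⟨h1, h2⟩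
    have h3 := SplC_dis R h1 h2
    have h4 := h3.1
    have h5 := h3.2
    linarith

private theorem SplC_xor {o a b u w : V} (f : ℝ) (G : GF ![o, a, b, u, w]) :
    (SplC_Y o a b u w ∨ SplC_Y o a b u (f • o - w)) ∧
      ¬ (SplC_Y o a b u w ∧ SplC_Y o a b u (f • o - w)) := by
  constructor
  · have hn : ¬ LinearIndependent ℝ ![o, a, b, u, w] := by
      intro h
      have := h.fintype_card_le_finrank
      simp at this
    rw [Fintype.not_linearIndependent_iff] at hn
    obtain ⟨x, hx, i, hi⟩ := hn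
    rw [Fin.sum_univ_five] at hx
    have hx' : x 0 • o + x 1 • a + x 2 • b + x 3 • u + x 4 • w = 0 := hx
    have h3 : x 3 ≠ 0 := fun e => hi (congrFun (SplC_rel G x hx' 3 e) i)
    have h4 : x 4 ≠ 0 := fun e => hi (congrFun (SplC_rel G x hx' 4 e) i)
    rcases lt_or_gt_of_ne h3 with h3' | h3' <;> rcases lt_or_gt_of_ne h4 with h4' | h4'
    · left
      refine ⟨-x 3, -x 4, x 1, x 2, x 0, by linarith, by linarith, ?_⟩
      rw [← sub_eq_zero, ← hx']
      module
    · right
      refine ⟨-x 3, x 4, x 1, x 2, x 0 + x 4 * f, by linarith, by linarith, ?_⟩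
      rw [← sub_eq_zero, ← hx']
      module
    · right
      refine ⟨x 3, -x 4, -x 1, -x 2, -x 0 - x 4 * f, by linarith, by linarith, ?_⟩
      rw [eq_comm, ← sub_eq_zero, ← hx']
      module
    · left
      refine ⟨x 3, x 4, -x 1, -x 2, -x 0, by linarith, by linarith, ?_⟩
      rw [eq_comm, ← sub_eq_zero, ← hx']
      module
  · rintro ⟨⟨s, t, β, γ, c, hs, ht, h⟩, s', t', β', γ', c', hs', ht', h'⟩
    have h0 := SplC_rel G ![s' * c - s * c' + s * t' * f, s' * β - s * β', s' * γ - s * γ', 0,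
      -(s' * t + s * t')] (by
        have h1 : (s' * c - s * c' + s * t' * f) • o + (s' * β - s * β') • a +
            (s' * γ - s * γ') • b + (0 : ℝ) • u + (-(s' * t + s * t')) • w =
            s' • ((β • a + γ • b + c • o) - (s • u + t • w)) -
            s • ((β' • a + γ' • b + c' • o) - (s' • u + t' • (f • o - w))) := by
          module
        rw [h, h', sub_self, sub_self, smul_zero, smul_zero, sub_zero] at h1
        exact h1) 3 rfl
    have h1 : -(s' * t + s * t') = 0 := congrFun h0 4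
    have h2 : 0 < s' * t + s * t' := by positivity
    linarith

/-- The four arcs `(±a, ±b)` form the great circle through `a, b` in the link of `o`; the segment
`(u, w)` crosses it iff `u, w` are on different sides.

Proof.  Let `Y p q` be the proposition `∃ s t > 0, ∃ β γ c, β a + γ b + c o = s p + t q`.
(1) For `(p, q) = (u, w)` and for `(p, q) = (u, w')`: the sum of the four `ind (X5 o a* b* p q)`,
`a* ∈ {a, a'}`, `b* ∈ {b, b'}`, is `ind (Y p q)`.  Indeed if `β a + γ b + c o = s p + t q` with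
`s, t > 0` then `β ≠ 0`, `γ ≠ 0` (otherwise `o, b, u, w` or `o, a, u, w` are dependent; for
`q = w' = φ(w) o - w` substitute), so exactly the sign pattern `(sign β, sign γ)` occurs in it
(`-|β| a = |β| a' - |β| φ(a) o`), and two relations with different sign patterns are impossible: the
relations between `o, a, b, u, w` form a line (`G`: eliminate `u`, then everything vanishes), the
coefficients of `u` are both negative, hence the coefficients of `a` have the same sign, and the
same for `b`.  Conversely each `X5` implies `Y`.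
(2) `Y u w` or `Y u w'`, not both.  Since `o, a, b, w` are independent (`G`), they are a basis of
`V = ℝ⁴` (`finrank = 4`), so `u = r w + (combination of o, a, b)`, and `r ≠ 0` since `o, a, b, u` are
independent.  If `r < 0` then `u + |r| w` is in the span of `o, a, b`: `Y u w`.  If `r > 0` then
`u + r w' = u - r w + r φ(w) o` is in the span: `Y u w'`.  If both held, `s u + t w` and
`s' u - t' w` would be in the span of `o, a, b` with `s, t, s', t' > 0`; eliminate `u`:
`(s' t + s t') w` is in the span, a contradiction with the independence of `o, a, b, w`. -/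
theorem circle (k : Type) [Field k] (o a b u w : V) (φ : V →ₗ[ℝ] ℝ) (G : GF ![o, a, b, u, w]) :
    (ind k (X5 o a b u w) + ind k (X5 o a (φ b • o - b) u w) +
      ind k (X5 o (φ a • o - a) (φ b • o - b) u w) + ind k (X5 o (φ a • o - a) b u w)) +
    (ind k (X5 o a b u (φ w • o - w)) + ind k (X5 o a (φ b • o - b) u (φ w • o - w)) +
      ind k (X5 o (φ a • o - a) (φ b • o - b) u (φ w • o - w)) +
      ind k (X5 o (φ a • o - a) b u (φ w • o - w))) = 1 := by
  have G' : ∀ c β γ s t : ℝ, c • o + β • a + γ • b + s • u + t • w = 0 →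
      (β = 0 ∨ γ = 0 ∨ s = 0) → β = 0 ∧ γ = 0 ∧ s = 0 ∧ t = 0 := by
    intro c β γ s t h h0
    have hx : ![c, β, γ, s, t] = 0 := by
      rcases h0 with h0 | h0 | h0
      · exact SplC_rel G ![c, β, γ, s, t] h 1 h0
      · exact SplC_rel G ![c, β, γ, s, t] h 2 h0
      · exact SplC_rel G ![c, β, γ, s, t] h 3 h0
    exact ⟨congrFun hx 1, congrFun hx 2, congrFun hx 3, congrFun hx 4⟩
  rw [SplC_sum k o a b u w (φ a) (φ b) G', SplC_sum k o a b u (φ w • o - w) (φ a) (φ b) (by
    intro c β γ s t h h0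
    obtain ⟨h1, h2, h3, h4⟩ := G' (c + t * φ w) β γ s (-t) (by
      rw [← h]
      module) h0
    exact ⟨h1, h2, h3, neg_eq_zero.1 h4⟩)]
  obtain ⟨h1, h2⟩ := SplC_xor (φ w) G
  unfold ind
  by_cases hA : SplC_Y o a b u w
  · rw [if_pos hA, if_neg (fun h => h2 ⟨hA, h⟩), add_zero]
  · rw [if_neg hA, if_pos (h1.resolve_left hA), zero_add]

end QTW
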