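import Pool.Agent.QTW.SplA
import Pool.Agent.QTW.SplB
import Pool.Agent.QTW.SplC

/-!
# SplD: the special parity lemma (size 3)
-/

namespace QTW

open SerreK SerreK.GP

/-- The special parity lemma: the triangle `(u, w, w')` with an edge through `o` against the four
triangles `(o, ±a, ±b)`.

Proof.  Write `w' = φ(w) o - w` etc.  In the sum of the four `P6` the terms `Hit u w w' o a*` and
`Hit u w w' o b*` occur twice and cancel (`char k = 2`).  `Hit o a* b* w w'` is false (`no_axis`;
`P6` contains the segments `(u, w)`, `(w, w')`, `(u, w')`).  Use `split2` for `Hit u w w' a* b*`.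
What remains is the sum over the four `(a*, b*)` of
`Hit o u w a* b* + Hit o u w' a* b* + Hit o a* b* u w + Hit o a* b* u w'`, which by `link` (for
`(p, q) = (u, w)` and `(u, w')`) is `X5 o a* b* u w + X5 o a* b* u w'`; apply `circle`. -/
theorem special_parity (k : Type) [Field k] [CharP k 2] (o a b u w : V) (φ : V →ₗ[ℝ] ℝ)
    (hw : 0 < φ w)
    (G : ∀ a' ∈ ({a, φ a • o - a} : Set V), ∀ b' ∈ ({b, φ b • o - b} : Set V),
      ∀ w' ∈ ({w, φ w • o - w} : Set V), GF ![o, a', b', u, w']) :
    P6 k u w (φ w • o - w) o a b + P6 k u w (φ w • o - w) o a (φ b • o - b) +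
      P6 k u w (φ w • o - w) o (φ a • o - a) (φ b • o - b) +
      P6 k u w (φ w • o - w) o (φ a • o - a) b = 1 := by
  have two : (2 : k) = 0 := CharTwo.two_eq_zero
  have key : ∀ a' ∈ ({a, φ a • o - a} : Set V), ∀ b' ∈ ({b, φ b • o - b} : Set V),
      P6 k u w (φ w • o - w) o a' b' =
        ind k (Hit u w (φ w • o - w) o a') + ind k (Hit u w (φ w • o - w) o b') +
          ind k (X5 o a' b' u w) + ind k (X5 o a' b' u (φ w • o - w)) := by
    intro a' ha b' hb
    have G1 := G a' ha b' hb w (Set.mem_insert _ _)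
    have G2 := G a' ha b' hb (φ w • o - w) (Set.mem_insert_of_mem _ rfl)
    have h1 : ind k (Hit o a' b' w (φ w • o - w)) = 0 := by
      unfold ind
      rw [if_neg (no_axis o a' b' u w φ G1)]
    have h2 := split2 k o a' b' u w φ hw G1
    have h3 := link k o a' b' u w G1
    have h4 := link k o a' b' u (φ w • o - w) G2
    unfold P6
    linear_combination h1 + h2 + h3 + h4
  have hc := circle k o a b u w φ (G a (Set.mem_insert _ _) b (Set.mem_insert _ _) w
    (Set.mem_insert _ _))
  rw [key a (Set.mem_insert _ _) b (Set.mem_insert _ _),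
    key a (Set.mem_insert _ _) _ (Set.mem_insert_of_mem _ rfl),
    key _ (Set.mem_insert_of_mem _ rfl) _ (Set.mem_insert_of_mem _ rfl),
    key _ (Set.mem_insert_of_mem _ rfl) b (Set.mem_insert _ _)]
  linear_combination hc + (ind k (Hit u w (φ w • o - w) o a) +
    ind k (Hit u w (φ w • o - w) o b) + ind k (Hit u w (φ w • o - w) o (φ a • o - a)) +
    ind k (Hit u w (φ w • o - w) o (φ b • o - b))) * two

end QTW
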