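import Pool.Agent.QTW.GeB
import Pool.Agent.QTW.TrB
import Pool.Agent.QTW.PDefs

/-!
# TauA: the point reflections `τ_h` (size 4)
`h.tau = ⟨h.gam, true⟩`, `h.gam.val.val = h.gm = [[B̄, C], [-A, -B]]`,
`h.ctr = ![C, A, -(sig B).re, (sig B).im]`, `rep_true : rep ⟨g, true⟩ v = act (cm g) (cJ v)`.
-/

open Matrix

namespace QTW

open SerreE SerreK SerreU

variable {n M : ℕ}

/-- `γ_h γ̄_h = -1` (`B B̄ = nrm B`, `AC - nrm B = 1`). -/
theorem gm_gm (h : Herm n M) : h.gm * cjM h.gm = -1 := by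
  have h1 := mul_star_eq h.B
  have h2 := h.det
  have h3 : ((h.A * h.C - nrm h.B : ℤ) : OK n) = 1 := by rw [h2]; push_cast; rfl
  push_cast at h3
  rw [← h1] at h3
  have sA : star (h.A : OK n) = h.A := star_icast h.A
  have sC : star (h.C : OK n) = h.C := star_icast h.C
  ext1 i j
  fin_cases i <;> fin_cases j
  · change (h.gm * cjM h.gm) 0 0 = (-1 : Mat n) 0 0
    rw [Matrix.mul_apply, Fin.sum_univ_two, cjM_apply, cjM_apply]
    simp only [Herm.gm, Matrix.of_apply, Matrix.cons_val', Matrix.cons_val_zero,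
      Matrix.cons_val_one, Matrix.cons_val_fin_one, star_neg, star_star, sA, Matrix.neg_apply,
      Matrix.one_apply_eq]
    linear_combination -h3
  · change (h.gm * cjM h.gm) 0 1 = (-1 : Mat n) 0 1
    rw [Matrix.mul_apply, Fin.sum_univ_two, cjM_apply, cjM_apply]
    simp [Herm.gm, sC]
    ring
  · change (h.gm * cjM h.gm) 1 0 = (-1 : Mat n) 1 0
    rw [Matrix.mul_apply, Fin.sum_univ_two, cjM_apply, cjM_apply]
    simp [Herm.gm, sA]
    ring
  · change (h.gm * cjM h.gm) 1 1 = (-1 : Mat n) 1 1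
    rw [Matrix.mul_apply, Fin.sum_univ_two, cjM_apply, cjM_apply]
    simp only [Herm.gm, Matrix.of_apply, Matrix.cons_val', Matrix.cons_val_zero,
      Matrix.cons_val_one, Matrix.cons_val_fin_one, star_neg, sC, Matrix.neg_apply,
      Matrix.one_apply_eq]
    linear_combination -h3

/-- `τ_h² = ⟨-1, false⟩` -/
theorem tau_sq (h : Herm n M) : (h.tau * h.tau).g.val.val = (-1 : OK n) • (1 : Mat n) ∧
    (h.tau * h.tau).e = false := by
  refine ⟨?_, rfl⟩
  change h.gm * cjM h.gm = (-1 : OK n) • (1 : Mat n)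
  rw [gm_gm, neg_smul, one_smul]

theorem mk_tau_sq (h : Herm n M) : mkG n M h.tau * mkG n M h.tau = 1 := by
  rw [← map_mul]
  have h1 : h.tau * h.tau = ⟨(h.tau * h.tau).g, false⟩ := rfl
  have h2 : mkG n M ⟨(h.tau * h.tau).g, false⟩ = mkG n M ⟨1, false⟩ :=
    (mkG_eq_iff _ _ _).2 ⟨-1, isUnit_one.neg, (tau_sq h).1⟩
  rw [h1, h2]
  exact map_one (mkG n M)

/-- Conjugation: `g γ_k = det(g) γ_h ḡ` if `Tr 1 g h k` (`tr_iff`), so
`⟨g, false⟩ τ_k = ⟨det g • 1, false⟩ τ_h ⟨g, false⟩` in `SS`. -/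
theorem mk_conj {g : G0 n M} {h k : Herm n M} (H : Tr 1 g.val.val h k) :
    mkG n M ⟨g, false⟩ * mkG n M k.tau = mkG n M h.tau * mkG n M ⟨g, false⟩ := by
  have hu : IsUnit g.val.val.det := Matrix.isUnits_det_units g.val
  have h1 := (tr_iff 1 g.val.val h k hu.ne_zero).1 H
  rw [Nat.cast_one, one_smul] at h1
  rw [← map_mul, ← map_mul]
  have e1 : (⟨g, false⟩ : SS n M) * k.tau = ⟨g * k.gam, true⟩ := rfl
  have e2 : h.tau * (⟨g, false⟩ : SS n M) = ⟨h.gam * cjG g, true⟩ := rfl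
  rw [e1, e2, mkG_eq_iff]
  exact ⟨_, hu, h1.symm⟩

/-- Conversely `mkG ⟨g, false⟩ * mkG k.tau = mkG h.tau * mkG ⟨g, false⟩` implies `Tr 1 g h k`: by
`mkG_eq_iff`, `g γ_k = u γ_h ḡ` with a unit `u`, i.e. (`γ_h = w h`, `w⁻¹ g w = det(g) g⁻ᵀ`)
`det(g) k = u gᵀ h ḡ`.  Compare the entries `(0,0)`: `det(g) A_k = u x` with the rational integer
`x = (gᵀ h ḡ) 0 0 > 0`, `A_k > 0`.  So the unit `e = u / det g` satisfies `e x = A_k`, hence `e = ē`
(cancel `x`), `e` is a rational integer, `e = 1` by positivity. -/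
theorem tr_of_mk {g : G0 n M} {h k : Herm n M}
    (H : mkG n M ⟨g, false⟩ * mkG n M k.tau = mkG n M h.tau * mkG n M ⟨g, false⟩) :
    Tr 1 g.val.val h k := by
  have hu : IsUnit g.val.val.det := Matrix.isUnits_det_units g.val
  obtain ⟨l, hl, -⟩ := tr_exists_one g.val.val h (uhec_TA_gl g)
  have e3 := mk_conj hl
  rw [← H, mul_right_inj] at e3
  have e4 : mkG n M ⟨l.gam, true⟩ = mkG n M ⟨k.gam, true⟩ := e3
  rw [mkG_eq_iff] at e4
  obtain ⟨v, hv, h1⟩ := e4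
  have h2 : l.gm = v • k.gm := h1
  have h3 := congrFun (congrFun h2 1) 0
  simp only [Herm.gm, Matrix.smul_apply, Matrix.of_apply, Matrix.cons_val', Matrix.cons_val_zero,
    Matrix.cons_val_one, Matrix.cons_val_fin_one, smul_eq_mul, mul_neg, neg_inj] at h3
  have hvn : nrm v = 1 := nrm_isUnit.1 hv
  have hc : ∀ a : ℤ, nrm (a : OK n) = a ^ 2 := by
    intro a
    simp [nrm]
  have h4 := congrArg nrm h3
  rw [nrm_mul, hvn, hc, hc, one_mul] at h4
  have h5 : l.A = k.A := by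
    have := l.pos
    have := k.pos
    nlinarith
  have h6 : v = 1 := by
    have h7 : (v - 1) * (k.A : OK n) = 0 := by
      rw [h5] at h3
      linear_combination -h3
    rcases mul_eq_zero.1 h7 with h8 | h8
    · exact sub_eq_zero.1 h8
    · exfalso
      have h9 := congrArg nrm h8
      rw [hc] at h9
      have h10 : nrm (0 : OK n) = 0 := by simp [nrm]
      rw [h10] at h9
      have := k.pos
      nlinarith
  rw [h6, one_smul] at h2
  rw [tr_iff _ _ _ _ hu.ne_zero] at hl ⊢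
  rw [hl, h2]

/-- conjugation by `σ`: `σ τ_h σ⁻¹ = ⟨γ̄_h, true⟩ = ⟨[[B, C], [-A, -B̄]], true⟩ = τ_h'` for
`h' = (A, B̄, C)`. -/
theorem mk_conj_star (h : Herm n M) : ∃ h' : Herm n M,
    mkG n M ⟨1, true⟩ * mkG n M h.tau * (mkG n M ⟨1, true⟩)⁻¹ = mkG n M h'.tau := by
  refine ⟨⟨h.A, star h.B, h.C, h.pos, ?_, h.lev⟩, ?_⟩
  · have h1 := h.det
    rw [nrm_star]
    exact h1
  · rw [mul_inv_eq_iff_eq_mul, ← map_mul, ← map_mul]
    congr 1
    apply SS.ext
    · apply Subtype.ext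
      apply Units.ext
      change (1 : Mat n) * cjM h.gm = Herm.gm _ * cjM 1
      rw [cjM_one, one_mul, mul_one]
      ext1 i j
      fin_cases i <;> fin_cases j
      · change cjM h.gm 0 0 = Herm.gm _ 0 0
        simp [cjM_apply, Herm.gm]
      · change cjM h.gm 0 1 = Herm.gm _ 0 1
        simp [cjM_apply, Herm.gm]
      · change cjM h.gm 1 0 = Herm.gm _ 1 0
        simp [cjM_apply, Herm.gm]
      · change cjM h.gm 1 1 = Herm.gm _ 1 1
        simp [cjM_apply, Herm.gm]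
    · rfl

/-- The set of the point reflections is stable under conjugation: for `g = mkG ⟨γ, false⟩` take `h'`
with `Tr 1 γ h' h` (`tr_exists_one` for the inverse, `tr_adj`); for `⟨γ, true⟩ = ⟨γ, false⟩ ⟨1, true⟩`
combine with `mk_conj_star`. -/
theorem tt_conj (g : GG n M) {τ : GG n M} (hτ : τ ∈ TT n M) : g * τ * g⁻¹ ∈ TT n M := by
  have key : ∀ (γ : G0 n M) (τ : GG n M), τ ∈ TT n M →
      mkG n M ⟨γ, false⟩ * τ * (mkG n M ⟨γ, false⟩)⁻¹ ∈ TT n M := by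
    rintro γ _ ⟨h, rfl⟩
    obtain ⟨k, hk, -⟩ := tr_exists_one (γ⁻¹).val.val h (uhec_TA_gl γ⁻¹)
    have h1 := mk_conj hk
    have e0 : (⟨γ⁻¹, false⟩ : SS n M) = (⟨γ, false⟩ : SS n M)⁻¹ := SS.ext rfl rfl
    have h2 : mkG n M ⟨γ⁻¹, false⟩ = (mkG n M ⟨γ, false⟩)⁻¹ := by rw [e0, map_inv]
    refine ⟨k, ?_⟩
    change mkG n M k.tau = mkG n M ⟨γ, false⟩ * mkG n M h.tau * (mkG n M ⟨γ, false⟩)⁻¹
    rw [h2] at h1
    rw [mul_assoc, ← h1, mul_inv_cancel_left]
  obtain ⟨⟨γ, e⟩, rfl⟩ := mkG_surj g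
  cases e
  · exact key γ τ hτ
  · have e1 : (⟨γ, true⟩ : SS n M) = ⟨γ, false⟩ * ⟨1, true⟩ := by
      apply SS.ext
      · exact (mul_one γ).symm
      · rfl
    obtain ⟨h, rfl⟩ := hτ
    obtain ⟨h', hh⟩ := mk_conj_star h
    have h3 := key γ (mkG n M h'.tau) ⟨h', rfl⟩
    rw [← hh] at h3
    rw [e1, map_mul, _root_.mul_inv_rev]
    simpa only [mul_assoc] using h3

end QTW
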