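import Pool.Agent.QTW.TauA

/-!
# TauB: geometry of the point reflections (size 4)
-/

open Matrix

namespace QTW

open SerreE SerreK SerreU

variable {n M : ℕ}

private theorem h_det (h : Herm n M) :
    (h.A : ℝ) * h.C = 1 + ((sig n h.B).re * (sig n h.B).re + (sig n h.B).im * (sig n h.B).im) := by
  have h1 := h.det
  have h2 := sig_normSq n h.B
  rw [Complex.normSq_apply] at h2
  rw [h2]
  have h3 : h.A * h.C = 1 + (h.B.re ^ 2 + h.B.re * h.B.im + (n + 1) * h.B.im ^ 2) := by
    have : nrm h.B = h.B.re ^ 2 + h.B.re * h.B.im + (n + 1) * h.B.im ^ 2 := by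
      unfold nrm
      ring
    rw [← this]
    linarith
  exact_mod_cast h3

private theorem h_C (h : Herm n M) : (0 : ℝ) < h.C := by
  have h1 := h_det h
  have h2 : (0 : ℝ) < h.A := by exact_mod_cast h.pos
  by_contra h3
  have h4 := not_lt.1 h3
  have h5 : (h.A : ℝ) * h.C ≤ 0 := mul_nonpos_of_nonneg_of_nonpos h2.le h4
  nlinarith [mul_self_nonneg (sig n h.B).re, mul_self_nonneg (sig n h.B).im]

private theorem c_0 (h : Herm n M) : h.ctr 0 = h.C := rfl
private theorem c_1 (h : Herm n M) : h.ctr 1 = h.A := rfl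
private theorem c_2 (h : Herm n M) : h.ctr 2 = -(sig n h.B).re := rfl
private theorem c_3 (h : Herm n M) : h.ctr 3 = (sig n h.B).im := rfl

private theorem formula' (h : Herm n M) (v : V) : rr n M (mkG n M h.tau) v =
    (h.ctr 0 * v 1 + h.ctr 1 * v 0 - 2 * (h.ctr 2 * v 2 + h.ctr 3 * v 3)) • h.ctr - v := by
  have hd := h_det h
  have hs := sig_star h.B
  have e0 : cm h.gm 0 0 = (starRingEnd ℂ) (sig n h.B) := hs
  have e1 : cm h.gm 0 1 = ((h.C : ℝ) : ℂ) := by
    change sig n (h.C : OK n) = _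
    simp
  have e2 : cm h.gm 1 0 = ((-(h.A : ℝ) : ℝ) : ℂ) := by
    change sig n (-(h.A : OK n)) = _
    simp
  have e3 : cm h.gm 1 1 = -(sig n h.B) := by
    change sig n (-h.B) = _
    simp
  have d0 : cJ v 0 = v 0 := rfl
  have d1 : cJ v 1 = v 1 := rfl
  have d2 : cJ v 2 = v 2 := rfl
  have d3 : cJ v 3 = -v 3 := rfl
  have hr : rr n M (mkG n M h.tau) v = act (cm h.gm) (cJ v) := rfl
  rw [hr]
  set x := (sig n h.B).re with hx
  set y := (sig n h.B).im with hy
  have rhs : ∀ i, ((h.ctr 0 * v 1 + h.ctr 1 * v 0 - 2 * (h.ctr 2 * v 2 + h.ctr 3 * v 3)) • h.ctr - v) i =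
      (h.ctr 0 * v 1 + h.ctr 1 * v 0 - 2 * (h.ctr 2 * v 2 + h.ctr 3 * v 3)) * h.ctr i - v i :=
    fun i => rfl
  apply ext4'
  · rw [ACT_0, rhs, ACT_form, e0, e1, d0, d1, d2, d3, c_0, c_1, c_2, c_3]
    simp only [Complex.normSq_apply, Complex.conj_re, Complex.conj_im, Complex.ofReal_re,
      Complex.ofReal_im, ← hx, ← hy]
    linear_combination (-v 0) * hd
  · rw [ACT_1, rhs, ACT_form, e2, e3, d0, d1, d2, d3, c_0, c_1, c_2, c_3]
    simp only [Complex.normSq_apply, Complex.neg_re, Complex.neg_im, Complex.ofReal_re,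
      Complex.ofReal_im, ← hx, ← hy]
    linear_combination (-v 1) * hd
  · rw [ACT_2, rhs, e0, e1, e2, e3, d0, d1, d2, d3, c_0, c_1, c_2, c_3]
    simp only [Complex.conj_re, Complex.conj_im, Complex.neg_re, Complex.neg_im, Complex.ofReal_re,
      Complex.ofReal_im, ← hx, ← hy]
    linear_combination (-v 2) * hd
  · rw [ACT_3, rhs, e0, e1, e2, e3, d0, d1, d2, d3, c_0, c_1, c_2, c_3]
    simp only [Complex.conj_re, Complex.conj_im, Complex.neg_re, Complex.neg_im, Complex.ofReal_re,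
      Complex.ofReal_im, ← hx, ← hy]
    linear_combination (-v 3) * hd

/-- the functional -/
private noncomputable def phi (h : Herm n M) : V →ₗ[ℝ] ℝ where
  toFun v := h.ctr 0 * v 1 + h.ctr 1 * v 0 - 2 * (h.ctr 2 * v 2 + h.ctr 3 * v 3)
  map_add' v w := by
    simp only [Pi.add_apply]
    ring
  map_smul' c v := by
    simp only [Pi.smul_apply, smul_eq_mul, RingHom.id_apply]
    ring

private theorem phi_ctr (h : Herm n M) : phi h h.ctr = 2 := by
  change h.ctr 0 * h.ctr 1 + h.ctr 1 * h.ctr 0 - 2 * (h.ctr 2 * h.ctr 2 + h.ctr 3 * h.ctr 3) = 2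
  rw [c_0, c_1, c_2, c_3]
  linear_combination 2 * h_det h

/-- `τ_h` acts as the point reflection `v ↦ φ(v) o - v` with `o = h.ctr`,
`φ(v) = o 0 v 1 + o 1 v 0 - 2 (o 2 v 2 + o 3 v 3)`.

Proof.  `InC o`: `C > 0` (since `AC = 1 + nrm B > 0`) and `nrm B < AC` (`sig_normSq`).  `φ(o) = 2`:
`2 (AC - nrm B)`.  The formula: `rr (mkG τ_h) v = act (cm γ_h) (cJ v)`; compute the four coordinates
with `ACT_0 .. ACT_3` (`sig (star B) = conj (sig B)`: `sig_star`) and use
`A C = 1 + (sig B).re² + (sig B).im²`. -/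
theorem tau_pref (h : Herm n M) : PRef (rr n M (mkG n M h.tau)) h.ctr := by
  refine ⟨⟨?_, ?_⟩, phi h, phi_ctr h, fun v => formula' h v⟩
  · rw [c_0]; exact h_C h
  · rw [c_0, c_1, c_2, c_3]
    have := h_det h
    nlinarith

/-- The same with the explicit functional. -/
theorem tau_formula (h : Herm n M) (v : V) : rr n M (mkG n M h.tau) v =
    (h.ctr 0 * v 1 + h.ctr 1 * v 0 - 2 * (h.ctr 2 * v 2 + h.ctr 3 * v 3)) • h.ctr - v :=
  formula' h v

/-- Different point reflections have independent centres.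

Proof.  If `x • h.ctr + y • k.ctr = 0` with `(x, y) ≠ 0` then, as the coordinates `0` are positive, `x, y`
have opposite signs and `k.ctr = r h.ctr` with `r > 0`; the determinants are `1`
(`v 0 v 1 - v 2² - v 3²`), so `r = 1`, and `tau_formula` shows that the two reflections are equal. -/
theorem ctr_indep {h k : Herm n M} (hne : mkG n M h.tau ≠ mkG n M k.tau) (x y : ℝ)
    (hxy : x • h.ctr + y • k.ctr = 0) : x = 0 ∧ y = 0 := by
  have hc : ∀ i, x * h.ctr i + y * k.ctr i = 0 := fun i => congrFun hxy i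
  have g0 := hc 0
  have g1 := hc 1
  have g2 := hc 2
  have g3 := hc 3
  have hC := h_C h
  have kC := h_C k
  by_cases hx : x = 0
  · refine ⟨hx, ?_⟩
    rw [hx, zero_mul, zero_add, c_0] at g0
    exact (mul_eq_zero.1 g0).resolve_right kC.ne'
  · exfalso
    have dh := h_det h
    have dk := h_det k
    rw [c_0, c_0] at g0
    rw [c_1, c_1] at g1
    rw [c_2, c_2] at g2
    rw [c_3, c_3] at g3
    have h2 : x ^ 2 = y ^ 2 := by
      have q1 : (x * h.A) * (x * h.C) = (y * k.A) * (y * k.C) := by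
        have a1 : x * (h.A : ℝ) = -(y * k.A) := by linarith
        have a2 : x * (h.C : ℝ) = -(y * k.C) := by linarith
        rw [a1, a2]; ring
      have q2 : (x * (sig n h.B).re) * (x * (sig n h.B).re) = (y * (sig n k.B).re) * (y * (sig n k.B).re) := by
        have a1 : x * (sig n h.B).re = -(y * (sig n k.B).re) := by linarith
        rw [a1]; ring
      have q3 : (x * (sig n h.B).im) * (x * (sig n h.B).im) = (y * (sig n k.B).im) * (y * (sig n k.B).im) := by
        have a1 : x * (sig n h.B).im = -(y * (sig n k.B).im) := by linarith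
        rw [a1]; ring
      linear_combination q1 - q2 - q3 - x ^ 2 * dh + y ^ 2 * dk
    have h3 : y = -x := by
      rcases sq_eq_sq_iff_eq_or_eq_neg.1 h2 with h4 | h4
      · exfalso
        rw [← h4] at g0
        have h5 : x * ((h.C : ℝ) + k.C) = 0 := by linarith
        rcases mul_eq_zero.1 h5 with h6 | h6
        · exact hx h6
        · linarith
      · linarith
    have h4 : h.ctr = k.ctr := by
      funext i
      have h5 := hc i
      rw [h3] at h5
      have h6 : x * (h.ctr i - k.ctr i) = 0 := by linarith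
      exact sub_eq_zero.1 ((mul_eq_zero.1 h6).resolve_left hx)
    apply hne
    apply rr_inj
    apply LinearMap.ext
    intro v
    rw [formula', formula', h4]

/-- Proof.  `rr (mkG k.tau) v = φ(v) k.ctr - v`.  Choose `v` with `φ(v) ≠ 0` and not in the span of
`h.ctr, k.ctr`: e.g. there is a vector `v0` not in that span (dimension four); if `φ(v0) ≠ 0` take
`v = v0`, otherwise `v = v0 + k.ctr` (`φ(k.ctr) = 2`).  A relation
`x h.ctr + y v + z (φ(v) k.ctr - v) = 0` gives `y = z` (`v` is not in the span) and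
`x h.ctr + z φ(v) k.ctr = 0`, so `x = 0`, `z = 0` by `ctr_indep`. -/
theorem tau_ns {h k : Herm n M} (hne : mkG n M h.tau ≠ mkG n M k.tau) :
    ∃ v, LI3 h.ctr v (rr n M (mkG n M k.tau) v) := by
  classical
  obtain ⟨v0, hv0⟩ : ∃ v0 : V, v0 ∉ Submodule.span ℝ ({h.ctr, k.ctr} : Set V) := by
    have hne' : Submodule.span ℝ ({h.ctr, k.ctr} : Set V) ≠ ⊤ := by
      intro htop
      have h1 : Module.finrank ℝ (Submodule.span ℝ (({h.ctr, k.ctr} : Finset V) : Set V)) ≤ 2 :=
        (finrank_span_finset_le_card _).trans Finset.card_le_two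
      have h2 : ((({h.ctr, k.ctr} : Finset V)) : Set V) = {h.ctr, k.ctr} := by simp
      rw [h2, htop, finrank_top] at h1
      have h3 : Module.finrank ℝ V = 4 := by
        change Module.finrank ℝ (Fin 4 → ℝ) = 4
        simp
      omega
    by_contra hcon
    exact hne' (Submodule.eq_top_iff'.2 (fun v => not_not.1 (fun h => hcon ⟨v, h⟩)))
  have hk : k.ctr ∈ Submodule.span ℝ ({h.ctr, k.ctr} : Set V) := Submodule.subset_span (by simp)
  have hh : h.ctr ∈ Submodule.span ℝ ({h.ctr, k.ctr} : Set V) := Submodule.subset_span (by simp)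
  obtain ⟨v, hv, hphi⟩ : ∃ v : V, v ∉ Submodule.span ℝ ({h.ctr, k.ctr} : Set V) ∧ phi k v ≠ 0 := by
    by_cases h0 : phi k v0 = 0
    · refine ⟨v0 + k.ctr, ?_, ?_⟩
      · intro h1
        apply hv0
        have h2 := Submodule.sub_mem _ h1 hk
        rwa [add_sub_cancel_right] at h2
      · rw [map_add, h0, phi_ctr]
        norm_num
    · exact ⟨v0, hv0, h0⟩
  refine ⟨v, fun x y z hxyz => ?_⟩
  have hf : rr n M (mkG n M k.tau) v = phi k v • k.ctr - v := formula' k v
  rw [hf] at hxyz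
  have h1 : (z - y) • v = x • h.ctr + (z * phi k v) • k.ctr := by
    have h2 : x • h.ctr + y • v + z • (phi k v • k.ctr - v) =
        (x • h.ctr + (z * phi k v) • k.ctr) - (z - y) • v := by
      rw [smul_sub, smul_smul, sub_smul]
      abel
    rw [h2] at hxyz
    exact (sub_eq_zero.1 hxyz).symm
  have hyz : z - y = 0 := by
    by_contra hne2
    apply hv
    have h3 : v = (z - y)⁻¹ • (x • h.ctr + (z * phi k v) • k.ctr) := by
      rw [← h1, smul_smul, inv_mul_cancel₀ hne2, one_smul]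
    rw [h3]
    exact Submodule.smul_mem _ _ (Submodule.add_mem _ (Submodule.smul_mem _ _ hh) (Submodule.smul_mem _ _ hk))
  rw [hyz, zero_smul] at h1
  obtain ⟨h4, h5⟩ := ctr_indep hne x (z * phi k v) h1.symm
  have h6 : z = 0 := (mul_eq_zero.1 h5).resolve_right hphi
  exact ⟨h4, by linarith, h6⟩

/-- The hypotheses of the point reflection theorem.

Proof.  Let `o τ` be `h.ctr` for some `h` with `mkG h.tau = τ` (choice), `0` if `τ ∉ TT`.  `inC`: `rr_inC`,
`proper`: `rr_proper`, `pos_mul`: `posG_mul`, `neg`: `posG_iff`, `sq`: `mk_tau_sq`, `pref`: `tau_pref`, `ns`: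
`tau_ns`, `conj`: `tt_conj`. -/
theorem phyp {ι : Type} (κ : ι → Herm n M) : ∃ o : GG n M → V,
    PHyp (rr n M) (TT n M) o (fun i => mkG n M (κ i).tau) posG := by
  have H : ∀ τ : GG n M, ∃ v : V, τ ∈ TT n M → ∃ h : Herm n M, mkG n M h.tau = τ ∧ v = h.ctr := by
    intro τ
    by_cases hτ : τ ∈ TT n M
    · obtain ⟨h, hh⟩ := hτ
      exact ⟨h.ctr, fun _ => ⟨h, hh, rfl⟩⟩
    · exact ⟨0, fun h => absurd h hτ⟩
  choose o ho using H
  refine ⟨o, ⟨rr_inC, rr_proper, posG_mul, ?_, ?_, ?_, ?_, ?_, fun i => ⟨κ i, rfl⟩⟩⟩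
  · rintro _ ⟨h, rfl⟩
    change ¬ posG (mkG n M h.tau)
    rw [posG_iff]
    exact Bool.noConfusion
  · rintro _ ⟨h, rfl⟩
    exact mk_tau_sq h
  · intro τ hτ
    obtain ⟨h, h1, h2⟩ := ho τ hτ
    rw [h2, ← h1]
    exact tau_pref h
  · intro τ hτ τ' hτ' hne
    obtain ⟨h, h1, h2⟩ := ho τ hτ
    obtain ⟨k, k1, -⟩ := ho τ' hτ'
    rw [h2, ← k1]
    exact tau_ns (by rw [h1, k1]; exact hne)
  · intro τ hτ g
    exact tt_conj g hτ

end QTW
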