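import Pool.Agent.QTW.FixQ
import Pool.Agent.SerreK.TSQT

/-!
# TorA: norms `a² + u b²` (size 3)
-/

open Matrix

namespace QTW

open SerreE SerreK SerreU

variable {n : ℕ}

/-- `q` up to a unit is of the form `a² + u b²`, `u` a unit.

Proof.  `unit_sq`: `u = ε v²`.  If `ε = 1`: `-1` is a square modulo `q` in `OK n` (`OK n/q` is a field with `q²`
elements, `q²-1 ≡ 0 mod 4`; e.g. `FiniteField.isSquare_neg_one_iff`, the cardinality is
`Nat.card = nrm q = q²` by `card_quot`, TSQM.lean; or: there are `x, y ∈ ℤ` with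
`q ∣ x² + d y² + 4`-type arguments), so by `tsqK` (TSQT.lean) `q ~ nm (a + b i) = a² + b²`; replace `b` by
`v⁻¹ b`.  If `ε = -1`: `a = (q+1)/2`, `b = v⁻¹ (q-1)/2`: `a² - ((q-1)/2)² = q`. -/
theorem tor_norm (hn : n ∈ ({0, 1, 2, 4, 10, 16, 40} : Finset ℕ)) {q : ℕ} (hq : q.Prime)
    (hq4 : q % 4 = 3) (hqi : Prime (q : OK n)) {u : OK n} (hu : IsUnit u) :
    ∃ a b : OK n, Associated (a ^ 2 + u * b ^ 2) (q : OK n) := by
  have _ : IsPrincipalIdealRing (OK n) := pidm n hn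
  obtain ⟨v, hv, hu'⟩ := unit_sq u hu
  obtain ⟨v', hv'⟩ := hv.exists_right_inv
  rcases hu' with hu' | hu'
  · have hmax : (Ideal.span {(q : OK n)}).IsMaximal :=
      PrincipalIdealRing.isMaximal_of_irreducible hqi.irreducible
    letI := Ideal.Quotient.field (Ideal.span {(q : OK n)})
    have hfin : Finite (OK n ⧸ Ideal.span {(q : OK n)}) := FinQuot.fin _ hqi.ne_zero
    letI := Fintype.ofFinite (OK n ⧸ Ideal.span {(q : OK n)})
    have hcard : Fintype.card (OK n ⧸ Ideal.span {(q : OK n)}) % 4 ≠ 3 := by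
      rw [← Nat.card_eq_fintype_card, card_quot, nrm_natCast]
      have h1 : (((q : ℤ) ^ 2).natAbs) = q ^ 2 := by
        rw [Int.natAbs_pow, Int.natAbs_natCast]
      rw [h1, Nat.pow_mod, hq4]
      norm_num
    obtain ⟨r, hr⟩ := FiniteField.isSquare_neg_one_iff.2 hcard
    obtain ⟨l, rfl⟩ := Ideal.Quotient.mk_surjective r
    have hl : (q : OK n) ∣ l ^ 2 + 1 := by
      rw [← Ideal.mem_span_singleton, ← Ideal.Quotient.eq_zero_iff_mem, map_add, map_pow, map_one,
        pow_two, ← hr]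
      ring
    obtain ⟨w, hw⟩ := tsqK n hn (q : OK n) hqi l hl
    refine ⟨w.re, v' * w.im, ?_⟩
    rw [gi_norm] at hw
    have h2 : w.re ^ 2 + u * (v' * w.im) ^ 2 = w.re * w.re + w.im * w.im := by
      rw [hu']
      linear_combination (w.im ^ 2 * (v * v' + 1)) * hv'
    rw [h2]
    exact hw
  · obtain ⟨m, hm⟩ : ∃ m : ℕ, q = 2 * m + 1 := ⟨q / 2, by omega⟩
    refine ⟨(m : OK n) + 1, v' * m, ?_⟩
    have h2 : ((m : OK n) + 1) ^ 2 + u * (v' * m) ^ 2 = (q : OK n) := by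
      rw [hu', hm]
      push_cast
      linear_combination (-(m : OK n) ^ 2 * (v * v' + 1)) * hv'
    rw [h2]

end QTW
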