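import Pool.Agent.QTW.TorA
import Pool.Agent.QTW.HsA
import Pool.Agent.QTW.HssA

/-!
# TorB: fixed points of elements of trace zero (size 5)
-/

open Matrix

namespace QTW

open SerreE SerreK SerreU

variable {n M : ℕ}

private theorem trb_int {q : ℕ} {k : ℤ} (h : (q : OK n) ∣ (k : OK n)) : (q : ℤ) ∣ k := by
  obtain ⟨c, hc⟩ := h
  have h1 := congrArg QuadraticAlgebra.re hc
  exact ⟨c.re, by simpa using h1⟩

private theorem trb_ne {q : ℕ} {x y : UHX (M : OK n) (q : OK n)} (hxy : x ≠ y) :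
    ¬ (q : OK n) ∣ (KP.fexT (M : OK n) (q : OK n) x).val.val 0 1 *
      (KP.fexT (M : OK n) (q : OK n) y).val.val 1 1 -
      (KP.fexT (M : OK n) (q : OK n) y).val.val 0 1 *
      (KP.fexT (M : OK n) (q : OK n) x).val.val 1 1 := by
  intro hd
  obtain ⟨v, hv⟩ := uhec_inv01 (KP.fexT (M : OK n) (q : OK n) x).val
    (KP.fexT (M : OK n) (q : OK n) y).val
  apply hxy
  apply KP.fexT_sep
  change _ ∣ ((KP.fexT (M : OK n) (q : OK n) x).val⁻¹ *
    (KP.fexT (M : OK n) (q : OK n) y).val).val 0 1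
  rw [hv]
  refine Dvd.dvd.mul_left ?_ _
  rw [← dvd_neg] at hd
  convert hd using 1
  ring

private theorem trb_td {a b m : OK n} {g : Mat n} (h0 : g 0 0 + g 1 1 = 0)
    (h1 : (M : OK n) ∣ g 1 0) (h : Associated (a ^ 2 + g.det * b ^ 2) m) :
    TD (M : OK n) m (a • (1 : Mat n) + b • g) := by
  have e00 : (a • (1 : Mat n) + b • g) 0 0 = a + b * g 0 0 := by
    simp [Matrix.add_apply, Matrix.smul_apply]
  have e01 : (a • (1 : Mat n) + b • g) 0 1 = b * g 0 1 := by
    simp [Matrix.add_apply, Matrix.smul_apply]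
  have e10 : (a • (1 : Mat n) + b • g) 1 0 = b * g 1 0 := by
    simp [Matrix.add_apply, Matrix.smul_apply]
  have e11 : (a • (1 : Mat n) + b • g) 1 1 = a + b * g 1 1 := by
    simp [Matrix.add_apply, Matrix.smul_apply]
  constructor
  · have e : (a • (1 : Mat n) + b • g).det = a ^ 2 + g.det * b ^ 2 := by
      rw [Matrix.det_fin_two, Matrix.det_fin_two, e00, e01, e10, e11]
      linear_combination (a * b) * h0
    rw [e]
    exact h
  · rw [e10]
    exact h1.mul_left _

private theorem trb_comm (a b : OK n) (g : Mat n) :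
    g * (a • (1 : Mat n) + b • g) = (a • (1 : Mat n) + b • g) * g := by
  rw [mul_add, add_mul, Matrix.mul_smul, Matrix.smul_mul, Matrix.mul_smul, Matrix.smul_mul,
    mul_one, one_mul]

/-- For `γ ∈ Γ₀(M)` of trace zero there are exactly two fixed points and they contribute the same.

Proof.  Let `S` be the library system for `q` (`hlib`, `S.D x = uhD (M : OK n) q x = t PM q`), `u = det γ`,
`a, b` from `tor_norm`, `E = a + b γ`, `E' = a - b γ = adj E` (trace zero), `det E = a² + u b² ~ q`.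
`E, E'` are of type `TD M q`, so `E = S.D x₁ * g₁`, `E' = S.D x₂ * g₂` with `g₁, g₂ ∈ Γ₀(M)` (`S.cover`).
Since `γ E = E γ`, `γ S.D x₁ = S.D x₁ (g₁ γ g₁⁻¹)` and likewise for `x₂`.
`x₁ ≠ x₂`: otherwise `E' = E g` with `g` integral, so `E E = E adj(E') = ..`: from `adj E = E g`,
`det(E) = E adj(E) = E² g`, so `q` divides `E² = a² - u b² + 2ab γ` (`E² = det(E) g⁻¹`; `det g` is a unit).
If `q ∤ 2ab` then `γ` is scalar modulo `q`: off-diagonal entries and `γ₀₀ - γ₁₁ = 2γ₀₀` are divisible by `q`,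
so `q ∣ det γ`, impossible.  So `q ∣ 2ab` and then `q ∣ a² - u b²`; with `q ∣ a² + u b²`: `q ∣ 2a²`,
`q ∣ 2 u b²`, so `q ∣ a`, `q ∣ b`, `q² ∣ a² + u b² ~ q`: impossible.
Other fixed points `x` (`γ S.D x = S.D x g`) do not exist: `uhec_three` (with `W = γ`, `uhec_eig` for the
three matrices `t`, `π ∤ det γ`; the three lines `(t 0 1, t 1 1)` are pairwise different modulo `q` by
`KP.fexT_sep`, as in the proof of `hecke_plus`, UHEC.lean). -/
theorem tor_fix [IsPrincipalIdealRing (OK n)] (hn : n ∈ ({0, 1, 2, 4, 10, 16, 40} : Finset ℕ))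
    {q : ℕ} (hq : q.Prime) (hq4 : q % 4 = 3) (hqi : Prime (q : OK n)) (hqM : ¬ (q : OK n) ∣ (M : OK n))
    {S : HSys (M : OK n) (q : OK n) (UHX (M : OK n) (q : OK n))}
    (hS : ∀ x, S.D x = uhD (M : OK n) (q : OK n) x) (γ : G0 n M)
    (h0 : γ.val.val 0 0 + γ.val.val 1 1 = 0) :
    ∃ (x₁ x₂ : UHX (M : OK n) (q : OK n)) (g₁ g₂ : G0 n M), x₁ ≠ x₂ ∧
      SSt S ⟨γ, false⟩ x₁ x₁ (g₁ * γ * g₁⁻¹) ∧ SSt S ⟨γ, false⟩ x₂ x₂ (g₂ * γ * g₂⁻¹) ∧
      ∀ x, x ≠ x₁ → x ≠ x₂ → ∀ g, ¬ SSt S ⟨γ, false⟩ x x g := by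
  have hTA := uhec_TA_gl γ
  obtain ⟨G, hG⟩ : ∃ G : Mat n, G = γ.val.val := ⟨_, rfl⟩
  rw [← hG] at hTA h0
  obtain ⟨a, b, hab⟩ := tor_norm hn hq hq4 hqi hTA.1
  have hab' : Associated (a ^ 2 + G.det * (-b) ^ 2) (q : OK n) := by
    rw [neg_sq]
    exact hab
  have hE := trb_td h0 hTA.2 hab
  have hE' := trb_td h0 hTA.2 hab'
  obtain ⟨x₁, γ₁, hγ₁, h1⟩ := S.cover _ hE
  obtain ⟨x₂, γ₂, hγ₂, h2⟩ := S.cover _ hE'
  obtain ⟨g₁, hg₁⟩ := ta_gl hγ₁
  obtain ⟨g₂, hg₂⟩ := ta_gl hγ₂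
  rw [← hg₁] at h1
  rw [← hg₂] at h2
  have hq2 : ¬ (q : OK n) ∣ 2 := by
    intro h
    have h3 : (q : OK n) ∣ ((2 : ℤ) : OK n) := by
      push_cast
      exact h
    have h4 := trb_int h3
    have h5 : q ∣ 2 := by exact_mod_cast h4
    have h6 := Nat.le_of_dvd (by norm_num) h5
    omega
  have hstep : ∀ (x : UHX (M : OK n) (q : OK n)) (g : G0 n M) (c : OK n),
      a • (1 : Mat n) + c • G = S.D x * g.val.val →
        G * S.D x = S.D x * (g.val.val * G * (g.val⁻¹).val) := by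
    intro x g c h
    have e1 : S.D x = (a • (1 : Mat n) + c • G) * (g.val⁻¹).val := by
      rw [h, mul_assoc, uhec_mul_inv, mul_one]
    calc G * S.D x = G * (a • (1 : Mat n) + c • G) * (g.val⁻¹).val := by
          rw [mul_assoc, ← e1]
      _ = (a • (1 : Mat n) + c • G) * G * (g.val⁻¹).val := by rw [trb_comm]
      _ = S.D x * (g.val.val * G * (g.val⁻¹).val) := by
          rw [h]
          simp only [mul_assoc]
  have hs1 := hstep x₁ g₁ b h1
  have hs2 := hstep x₂ g₂ (-b) h2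
  have hx12 : x₁ ≠ x₂ := by
    intro hx
    rw [← hx] at h2
    -- `E' = E * g`
    have h3 : a • (1 : Mat n) + (-b) • G =
        (a • (1 : Mat n) + b • G) * ((g₁.val⁻¹).val * g₂.val.val) := by
      rw [h1, h2, mul_assoc, ← mul_assoc g₁.val.val, uhec_mul_inv, one_mul]
    have h4 : (a • (1 : Mat n) + (-b) • G) * (a • (1 : Mat n) + b • G) =
        (a ^ 2 + G.det * b ^ 2) • (1 : Mat n) := by
      have h5 := uhec_sq h0
      simp only [mul_add, add_mul, Matrix.smul_mul, Matrix.mul_smul, h5, one_mul, mul_one]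
      module
    have h6 : (a • (1 : Mat n) + (-b) • G) * (a • (1 : Mat n) + (-b) • G) =
        (a ^ 2 + G.det * b ^ 2) • ((g₁.val⁻¹).val * g₂.val.val) := by
      refine (congrArg (fun Z => (a • (1 : Mat n) + (-b) • G) * Z) h3).trans ?_
      change (a • (1 : Mat n) + (-b) • G) * ((a • (1 : Mat n) + b • G) *
        ((g₁.val⁻¹).val * g₂.val.val)) = _
      rw [← mul_assoc, h4, Matrix.smul_mul, one_mul]
    have hdq : (q : OK n) ∣ a ^ 2 + G.det * b ^ 2 := hab.symm.dvd
    have h7 : ∀ i j, (q : OK n) ∣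
        ((a • (1 : Mat n) + (-b) • G) * (a • (1 : Mat n) + (-b) • G)) i j := by
      intro i j
      rw [h6, Matrix.smul_apply, smul_eq_mul]
      exact hdq.mul_right _
    have e00 : (a • (1 : Mat n) + (-b) • G) 0 0 = a + -b * G 0 0 := by
      simp [Matrix.add_apply, Matrix.smul_apply]
    have e01 : (a • (1 : Mat n) + (-b) • G) 0 1 = -b * G 0 1 := by
      simp [Matrix.add_apply, Matrix.smul_apply]
    have e10 : (a • (1 : Mat n) + (-b) • G) 1 0 = -b * G 1 0 := by
      simp [Matrix.add_apply, Matrix.smul_apply]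
    have e11 : (a • (1 : Mat n) + (-b) • G) 1 1 = a + -b * G 1 1 := by
      simp [Matrix.add_apply, Matrix.smul_apply]
    have hG11 : G 1 1 = - G 0 0 := by linear_combination h0
    have k00 := h7 0 0
    have k01 := h7 0 1
    have k10 := h7 1 0
    have k11 := h7 1 1
    rw [Matrix.mul_apply, Fin.sum_univ_two, e00, e01, e10] at k00
    rw [Matrix.mul_apply, Fin.sum_univ_two, e00, e01, e11] at k01
    rw [Matrix.mul_apply, Fin.sum_univ_two, e00, e10, e11] at k10
    rw [Matrix.mul_apply, Fin.sum_univ_two, e01, e10, e11] at k11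
    have hdG : G.det = -(G 0 0 * G 0 0) - G 0 1 * G 1 0 := by
      rw [Matrix.det_fin_two, hG11]
      ring
    rw [hG11] at k01 k10 k11
    have hqa : (q : OK n) ∣ a := by
      by_contra hqa
      have hcan : ∀ z : OK n, (q : OK n) ∣ 2 * (a * z) → (q : OK n) ∣ z := by
        intro z hz
        exact (hqi.dvd_or_dvd ((hqi.dvd_or_dvd hz).resolve_left hq2)).resolve_left hqa
      have l01 : (q : OK n) ∣ b * G 0 1 := by
        apply hcan
        rw [← dvd_neg]
        convert k01 using 1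
        ring
      have l00 : (q : OK n) ∣ b * G 0 0 := by
        apply hcan
        apply (hqi.dvd_or_dvd (?_ : (q : OK n) ∣ 2 * (2 * (a * (b * G 0 0))))).resolve_left hq2
        convert dvd_sub k11 k00 using 1
        ring
      apply hqa
      apply hqi.dvd_of_dvd_pow (n := 2)
      have e : a ^ 2 = (a ^ 2 + G.det * b ^ 2) + (b * G 0 0) * (b * G 0 0) +
          (b * G 0 1) * (b * G 1 0) := by
        rw [hdG]
        ring
      rw [e]
      exact dvd_add (dvd_add hdq (l00.mul_right _)) (l01.mul_right _)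
    have hqb : (q : OK n) ∣ b := by
      apply hqi.dvd_of_dvd_pow (n := 2)
      apply (hTA.1.dvd_mul_left).1
      have e : G.det * b ^ 2 = (a ^ 2 + G.det * b ^ 2) - a * a := by ring
      rw [e]
      exact dvd_sub hdq (hqa.mul_right _)
    have h8 : (q : OK n) * q ∣ q * 1 := by
      rw [mul_one]
      refine dvd_trans ?_ hab.dvd
      refine dvd_add ?_ ?_
      · rw [pow_two]
        exact mul_dvd_mul hqa hqa
      · rw [pow_two]
        exact (mul_dvd_mul hqb hqb).mul_left _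
    exact hqi.not_isUnit (isUnit_of_dvd_one ((mul_dvd_mul_iff_left hqi.ne_zero).1 h8))
  refine ⟨x₁, x₂, g₁, g₂, hx12, ?_, ?_, ?_⟩
  · change γ.val.val * S.D x₁ = S.D x₁ * (g₁.val.val * γ.val.val * (g₁.val⁻¹).val)
    rw [← hG]
    exact hs1
  · change γ.val.val * S.D x₂ = S.D x₂ * (g₂.val.val * γ.val.val * (g₂.val⁻¹).val)
    rw [← hG]
    exact hs2
  · intro x hx1 hx2 g hg
    have hg' : G * S.D x = S.D x * g.val.val := by
      rw [hG]
      exact hg
    rw [hS, uhD] at hg' hs1 hs2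
    exact uhec_three hqi hq2 h0 (uhec_det_not_dvd hqi hqM (Or.inl hTA))
      (uhec_eig hs1) (uhec_eig hs2) (uhec_eig hg') (trb_ne hx12) (trb_ne (Ne.symm hx1))
      (trb_ne (Ne.symm hx2))

end QTW
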